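import Mathlib

section

set_option autoImplicit false

namespace Pool.MP_c113aa_an.BV

/-- The gain function of the truncated logarithmic sum. -/
noncomputable def gain (p ρ t : ℝ) : ℝ := t ^ p - 1 - p * Real.log (max t ρ)

/-- A normalised configuration.  The polynomial is (up to a constant factor)
  f(y) = y * ∏ k, (1 - y / z k), of degree n = N + 1, with zeros 0, z 0, ..., z (N-1), and
  f'(y) = ∏ j, (1 - y / w j), where all critical points w j have modulus at least 1; the point c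
  minimises the sum of the p-th powers of the distances to the zeros (this is used only through
  the first order condition foc) and this sum is at most n.  The fields sumw_rpow and sumw_le are
  the de Bruijn-Springer inequalities. -/
structure Cfg (p : ℝ) (N : ℕ) (z w : Fin N → ℂ) (c : ℂ) : Prop where
  z_ne : ∀ k, z k ≠ 0
  one_le : ∀ j, 1 ≤ ‖w j‖
  der : ∀ x : ℂ, HasDerivAt (fun y : ℂ => y * ∏ k, (1 - y / z k)) (∏ j, (1 - x / w j)) x
  prod : ∏ k, ‖z k‖ = ((N : ℝ) + 1) * ∏ j, ‖w j‖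
  sum_le : ‖c‖ ^ p + ∑ k, ‖z k - c‖ ^ p ≤ (N : ℝ) + 1
  sumw_rpow : ∑ j, ‖w j - c‖ ^ p ≤ N
  sumw_le : ((N : ℝ) + 1) * ∑ j, ‖w j - c‖ ≤ N * (‖c‖ + ∑ k, ‖z k - c‖)
  mean_eq : ((N : ℂ) + 1) * ∑ j, w j = N * ∑ k, z k
  foc : ((‖c‖ ^ (p - 2) : ℝ) : ℂ) * (0 - c)
      + ∑ k, ((‖z k - c‖ ^ (p - 2) : ℝ) : ℂ) * (z k - c) = 0

end Pool.MP_c113aa_an.BV
end

section

section

set_option autoImplicit false

namespace Pool.MP_c113aa_an.BV

open Finset
/-- (E1) Proof: for r = 0 the claim is 1 - p + (p-1)^2 <= 0.  For r > 0 Bernoulli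
(Real.rpow_one_add_le_one_add_mul_self or Real.rpow_le_one_add...) gives, since 0 <= 2 - p < 1,
r^(2-p) <= 1 + (2-p)(r-1) =: D, and D >= p - 1 > 0, D <= 1 + r.  Then r^p = r^2 / r^(2-p) >= r^2 / D
and r^2 = (1 + p(r-1)) D + (p-1)^2 (r-1)^2 (ring identity), so
r^p >= 1 + p(r-1) + (p-1)^2 (r-1)^2 / D >= 1 + p(r-1) + (p-1)^2(r-1)^2/(1+r). -/
theorem rpow_ge_quad {p r : ℝ} (hp1 : 1 < p) (hp2 : p ≤ 2) (hr : 0 ≤ r) :
    1 + p * (r - 1) + (p - 1) ^ 2 * (r - 1) ^ 2 / (1 + r) ≤ r ^ p := by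
  rcases hr.eq_or_lt with h0 | h0
  · subst h0
    rw [Real.zero_rpow (by linarith)]
    have : 1 + p * (0 - 1) + (p - 1) ^ 2 * (0 - 1) ^ 2 / (1 + 0) = (p - 1) * (p - 2) := by ring
    rw [this]
    nlinarith
  · have hB : r ^ (2 - p) ≤ 1 + (2 - p) * (r - 1) := by
      have := _root_.rpow_one_add_le_one_add_mul_self (s := r - 1) (by linarith) (p := 2 - p)
        (by linarith) (by linarith)
      have e : 1 + (r - 1) = r := by ring
      rwa [e] at this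
    set D := 1 + (2 - p) * (r - 1) with hD
    have hDpos : 0 < D := by
      have : p - 1 ≤ D := by rw [hD]; nlinarith
      linarith
    have hDle : D ≤ 1 + r := by rw [hD]; nlinarith
    have hrp : 0 < r ^ (2 - p) := Real.rpow_pos_of_pos h0 _
    have e1 : r ^ p * r ^ (2 - p) = r ^ 2 := by
      rw [← Real.rpow_add h0]
      norm_num
    have e2 : r ^ 2 = (1 + p * (r - 1)) * D + (p - 1) ^ 2 * (r - 1) ^ 2 := by rw [hD]; ring
    have h3 : r ^ 2 ≤ r ^ p * D := by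
      rw [← e1]
      exact mul_le_mul_of_nonneg_left hB (Real.rpow_nonneg hr _)
    have h4 : r ^ 2 / D ≤ r ^ p := by
      rw [div_le_iff₀ hDpos]; exact h3
    have h5 : r ^ 2 / D = 1 + p * (r - 1) + (p - 1) ^ 2 * (r - 1) ^ 2 / D := by
      rw [e2]; field_simp
    have h6 : (p - 1) ^ 2 * (r - 1) ^ 2 / (1 + r) ≤ (p - 1) ^ 2 * (r - 1) ^ 2 / D :=
      div_le_div_of_nonneg_left (by positivity) hDpos hDle
    linarith

/-- (E2) Proof: t^(p-1) lies between t and 1: for t >= 1, 1 <= t^(p-1) <= t; for 0 <= t <= 1,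
t <= t^(p-1) <= 1. -/
theorem abs_sub_rpow_le {p t : ℝ} (hp1 : 1 < p) (hp2 : p ≤ 2) (ht : 0 ≤ t) :
    |t - t ^ (p - 1)| ≤ |t - 1| := by
  rcases le_total 1 t with h1 | h1
  · have a1 : 1 ≤ t ^ (p - 1) := Real.one_le_rpow h1 (by linarith)
    have a2 : t ^ (p - 1) ≤ t ^ (1 : ℝ) := Real.rpow_le_rpow_of_exponent_le h1 (by linarith)
    rw [Real.rpow_one] at a2
    rw [abs_of_nonneg (by linarith), abs_of_nonneg (by linarith)]
    linarith
  · have a1 : t ^ (p - 1) ≤ 1 := Real.rpow_le_one ht h1 (by linarith)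
    have a2 : t ≤ t ^ (p - 1) := by
      rcases ht.eq_or_lt with h0 | h0
      · rw [← h0, Real.zero_rpow (by linarith)]
      · have := Real.rpow_le_rpow_of_exponent_ge h0 h1 (show p - 1 ≤ 1 by linarith)
        rwa [Real.rpow_one] at this
    rw [abs_of_nonpos (by linarith), abs_of_nonpos (by linarith)]
    linarith

/-- (E3) Proof: log T = 2 log (sqrt T) <= 2 (sqrt T - 1), and (sqrt T)^2 = T. -/
theorem sqrt_sub_sq_le {T : ℝ} (hT : 0 < T) :
    (Real.sqrt T - 1) ^ 2 ≤ T - 1 - Real.log T := by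
  have hs : 0 < Real.sqrt T := Real.sqrt_pos.mpr hT
  have h1 : Real.log (Real.sqrt T) ≤ Real.sqrt T - 1 := Real.log_le_sub_one_of_pos hs
  have h2 : Real.sqrt T ^ 2 = T := Real.sq_sqrt hT.le
  have h3 : Real.log (Real.sqrt T) = Real.log T / 2 := Real.log_sqrt hT.le
  nlinarith

/-- (E9) arithmetic-geometric mean.  Proof: Real.inner_le_nnorm_mul_nnorm is not needed; use
Real.geom_mean_le_arith_mean_weighted with weights 1/N, or log.  If N = 0 both sides are 1. -/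
theorem prod_le_pow {N : ℕ} (r : Fin N → ℝ) (hr : ∀ j, 0 ≤ r j) {m : ℝ}
    (h : ∑ j, r j ≤ N * m) : ∏ j, r j ≤ m ^ N := by
  rcases Nat.eq_zero_or_pos N with h0 | h0
  · subst h0
    simp
  · have hN : (0 : ℝ) < N := by exact_mod_cast h0
    have key := Real.geom_mean_le_arith_mean_weighted (Finset.univ : Finset (Fin N))
      (fun _ => (N : ℝ)⁻¹) r (fun i _ => by positivity)
      (by simp [hN.ne']) (fun i _ => hr i)
    have e1 : (∏ i, r i ^ ((N : ℝ)⁻¹)) ^ N = ∏ i, r i := by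
      rw [← Finset.prod_pow]
      refine Finset.prod_congr rfl fun i _ => ?_
      exact Real.rpow_inv_natCast_pow (hr i) h0.ne'
    have h2 : ∑ i, (N : ℝ)⁻¹ * r i ≤ m := by
      rw [← Finset.mul_sum]
      rw [inv_mul_le_iff₀ hN]
      exact h
    have h3 : 0 ≤ ∏ i, r i ^ ((N : ℝ)⁻¹) :=
      Finset.prod_nonneg fun i _ => Real.rpow_nonneg (hr i) _
    rw [← e1]
    exact pow_le_pow_left₀ h3 (key.trans h2) N

/-- (E10) from the p-th power sum to the sum: by (E1) r^p >= 1 + p (r - 1); sum up. -/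
theorem sum_le_of_rpow {N : ℕ} {p : ℝ} (hp1 : 1 < p) (hp2 : p ≤ 2) (r : Fin N → ℝ)
    (hr : ∀ j, 0 ≤ r j) (h : ∑ j, r j ^ p ≤ N) : ∑ j, r j ≤ N := by
  have h1 : ∑ j, (1 + p * (r j - 1)) ≤ ∑ j, r j ^ p := by
    refine Finset.sum_le_sum fun j _ => ?_
    have := rpow_ge_quad hp1 hp2 (hr j)
    have h2 : 0 ≤ (p - 1) ^ 2 * (r j - 1) ^ 2 / (1 + r j) := by
      have := hr j
      positivity
    linarith
  rw [Finset.sum_add_distrib, ← Finset.mul_sum, Finset.sum_sub_distrib] at h1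
  simp only [Finset.sum_const, Finset.card_univ, Fintype.card_fin, nsmul_eq_mul, mul_one] at h1
  by_contra hc
  push Not at hc
  nlinarith

end Pool.MP_c113aa_an.BV
end

section

set_option autoImplicit false

namespace Pool.MP_c113aa_an.BV

open Finset
/-- (E7) Proof: ‖1+d‖^2 = 1 + 2 Re d + ‖d‖^2 <= exp(2 Re d + ‖d‖^2) (Real.add_one_le_exp); take
square roots. -/
theorem norm_one_add_le (d : ℂ) : ‖1 + d‖ ≤ Real.exp (d.re + ‖d‖ ^ 2 / 2) := by
  have h0 : (0 : ℝ) ≤ Real.exp (d.re + ‖d‖ ^ 2 / 2) := (Real.exp_pos _).le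
  refine le_of_sq_le_sq ?_ h0
  have h1 : ‖1 + d‖ ^ 2 = 1 + 2 * d.re + ‖d‖ ^ 2 := by
    rw [Complex.sq_norm, Complex.sq_norm, Complex.normSq_apply, Complex.normSq_apply]
    simp only [Complex.add_re, Complex.one_re, Complex.add_im, Complex.one_im]
    ring
  have h2 : Real.exp (d.re + ‖d‖ ^ 2 / 2) ^ 2 = Real.exp (2 * d.re + ‖d‖ ^ 2) := by
    rw [← Real.exp_nat_mul]
    congr 1
    push_cast
    ring
  rw [h1, h2]
  have h3 := Real.add_one_le_exp (2 * d.re + ‖d‖ ^ 2)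
  linarith

/-- (E8) Proof: (E7) with d_j = - x v_j; the product of the bounds is
exp(Re(-x ∑ v_j) + ∑ ‖x v_j‖^2/2). -/
theorem norm_prod_one_sub_le {N : ℕ} (v : Fin N → ℂ) (hv : ∀ j, ‖v j‖ ≤ 1) (x : ℂ) :
    ‖∏ j, (1 - x * v j)‖ ≤ Real.exp (‖x‖ * ‖∑ j, v j‖ + N * ‖x‖ ^ 2 / 2) := by
  rw [norm_prod]
  have h1 : ∏ j, ‖1 - x * v j‖ ≤
      ∏ j, Real.exp ((-(x * v j)).re + ‖-(x * v j)‖ ^ 2 / 2) := by
    refine Finset.prod_le_prod (fun j _ => norm_nonneg _) (fun j _ => ?_)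
    have := norm_one_add_le (-(x * v j))
    rwa [← sub_eq_add_neg] at this
  refine h1.trans ?_
  rw [← Real.exp_sum]
  apply Real.exp_le_exp.2
  rw [Finset.sum_add_distrib]
  apply add_le_add
  · have h2 : ∑ j, (-(x * v j)).re = (-(x * ∑ j, v j)).re := by
      rw [Finset.mul_sum, ← Finset.sum_neg_distrib, Complex.re_sum]
    rw [h2]
    calc (-(x * ∑ j, v j)).re ≤ ‖-(x * ∑ j, v j)‖ := Complex.re_le_norm _
      _ = ‖x‖ * ‖∑ j, v j‖ := by rw [norm_neg, norm_mul]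
  · calc ∑ j, ‖-(x * v j)‖ ^ 2 / 2 ≤ ∑ _j : Fin N, ‖x‖ ^ 2 / 2 := by
          refine Finset.sum_le_sum fun j _ => ?_
          rw [norm_neg, norm_mul]
          have h3 : ‖x‖ * ‖v j‖ ≤ ‖x‖ := by
            calc ‖x‖ * ‖v j‖ ≤ ‖x‖ * 1 := mul_le_mul_of_nonneg_left (hv j) (norm_nonneg _)
              _ = ‖x‖ := mul_one _
          have h4 : (‖x‖ * ‖v j‖) ^ 2 ≤ ‖x‖ ^ 2 :=
            pow_le_pow_left₀ (by positivity) h3 2
          linarith
      _ = N * ‖x‖ ^ 2 / 2 := by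
          rw [Finset.sum_const, Finset.card_univ, Fintype.card_fin, nsmul_eq_mul]
          ring

end Pool.MP_c113aa_an.BV
end

section

set_option autoImplicit false

namespace Pool.MP_c113aa_an.BV

open Finset

/-- (E4) Proof: put r = t^(p/2), so r is in [1/2, 3/2] and t = r^s with s = 2/p, 1 <= s < 2.
For r >= 1: 1 <= r^s <= r^2, so 0 <= r^s - r^(-s) <= r^2 - r^(-2).  For r <= 1: r^2 <= r^s <= 1 and
0 <= r^(-s) - r^s <= r^(-2) - r^2.  Finally |r^2 - r^(-2)| = |r-1| (r+1)(r^2+1)/r^2 <= 8|r-1| for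
1/2 <= r <= 3/2 (polynomial inequality (r+1)(r^2+1) <= 8 r^2 on [1/2,3/2]). -/
theorem abs_sub_inv_le {p t : ℝ} (hp1 : 1 < p) (hp2 : p ≤ 2) (ht : 0 < t)
    (h : |t ^ (p / 2) - 1| ≤ 1 / 2) : |t - t⁻¹| ≤ 8 * |t ^ (p / 2) - 1| := by
  set r := t ^ (p / 2) with hr
  have hr0 : 0 < r := Real.rpow_pos_of_pos ht _
  have hts : t = r ^ (2 / p) := by
    rw [hr, ← Real.rpow_mul ht.le]
    have : p / 2 * (2 / p) = 1 := by field_simp
    rw [this, Real.rpow_one]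
  have hs1 : 1 ≤ 2 / p := by
    rw [le_div_iff₀ (by linarith)]
    linarith
  have hs2 : 2 / p ≤ 2 := by
    rw [div_le_iff₀ (by linarith)]
    linarith
  have hlo : 1 / 2 ≤ r := by
    have := (abs_le.1 h).1
    linarith
  have hhi : r ≤ 3 / 2 := by
    have := (abs_le.1 h).2
    linarith
  have hpoly : (r + 1) * (r ^ 2 + 1) ≤ 8 * r ^ 2 := by
    nlinarith [mul_nonneg (sub_nonneg.2 hlo) (sub_nonneg.2 hhi), mul_nonneg hr0.le
      (mul_nonneg (sub_nonneg.2 hlo) (sub_nonneg.2 hhi))]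
  have hr2 : 0 < r ^ 2 := by positivity
  rcases le_total 1 r with h1 | h1
  · have a1 : 1 ≤ t := by
      rw [hts]
      exact Real.one_le_rpow h1 (by linarith)
    have a2 : t ≤ r ^ 2 := by
      have := Real.rpow_le_rpow_of_exponent_le h1 hs2
      rw [← hts] at this
      rwa [Real.rpow_two] at this
    have a3 : (r ^ 2)⁻¹ ≤ t⁻¹ := inv_anti₀ ht a2
    have a4 : t⁻¹ ≤ 1 := inv_le_one_of_one_le₀ a1
    rw [abs_of_nonneg (by linarith), abs_of_nonneg (by linarith)]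
    have a5 : r ^ 2 - (r ^ 2)⁻¹ ≤ 8 * (r - 1) := by
      have e : r ^ 2 - (r ^ 2)⁻¹ = (r - 1) * ((r + 1) * (r ^ 2 + 1) / r ^ 2) := by
        field_simp
        ring
      rw [e]
      have : (r + 1) * (r ^ 2 + 1) / r ^ 2 ≤ 8 := by
        rw [div_le_iff₀ hr2]; exact hpoly
      have := mul_le_mul_of_nonneg_left this (by linarith : 0 ≤ r - 1)
      linarith
    linarith
  · have a1 : t ≤ 1 := by
      rw [hts]
      exact Real.rpow_le_one hr0.le h1 (by linarith)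
    have a2 : r ^ 2 ≤ t := by
      have := Real.rpow_le_rpow_of_exponent_ge hr0 h1 hs2
      rw [← hts] at this
      rwa [Real.rpow_two] at this
    have a3 : t⁻¹ ≤ (r ^ 2)⁻¹ := inv_anti₀ hr2 a2
    have a4 : 1 ≤ t⁻¹ := (one_le_inv₀ ht).2 a1
    rw [abs_of_nonpos (by linarith), abs_of_nonpos (by linarith)]
    have a5 : (r ^ 2)⁻¹ - r ^ 2 ≤ 8 * (1 - r) := by
      have e : (r ^ 2)⁻¹ - r ^ 2 = (1 - r) * ((r + 1) * (r ^ 2 + 1) / r ^ 2) := by
        field_simp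
        ring
      rw [e]
      have : (r + 1) * (r ^ 2 + 1) / r ^ 2 ≤ 8 := by
        rw [div_le_iff₀ hr2]; exact hpoly
      have := mul_le_mul_of_nonneg_left this (by linarith : 0 ≤ 1 - r)
      linarith
    linarith

/-- (E5) Proof: a = x + i y, r = ‖1-a‖ in [3/4, 5/4], r^2 = (1-x)^2 + y^2.  Let
m = r - (1 - x) = y^2/(r + 1 - x); (2/5) y^2 <= m <= (2/3) y^2.  (r-1)^2 = (m - x)^2
>= x^2/2 - m^2 >= x^2/2 - y^2/36, 1 + r <= 9/4, so by (E1) (with p(r-1) >= -p x + (2/5) p y^2)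
r^p >= 1 - p x + (2/5) p y^2 + (p-1)^2 (4/9)(x^2/2 - y^2/36)
    >= 1 - p x + ((p-1)^2/5)(x^2+y^2)   (p >= 1, p - 1 <= 1). -/
theorem norm_one_sub_rpow_ge {p : ℝ} (hp1 : 1 < p) (hp2 : p ≤ 2) (a : ℂ) (ha : ‖a‖ ≤ 1 / 4) :
    1 - p * a.re + (p - 1) ^ 2 / 5 * ‖a‖ ^ 2 ≤ ‖1 - a‖ ^ p := by
  set r := ‖1 - a‖ with hr
  set x := a.re with hx
  set y := a.im with hy
  have hr0 : 0 ≤ r := norm_nonneg _
  have hn : ‖a‖ ^ 2 = x ^ 2 + y ^ 2 := by
    rw [← Complex.normSq_eq_norm_sq, Complex.normSq_apply]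
    ring
  have hr2 : r ^ 2 = (1 - x) ^ 2 + y ^ 2 := by
    rw [hr, ← Complex.normSq_eq_norm_sq, Complex.normSq_apply]
    simp only [Complex.sub_re, Complex.one_re, Complex.sub_im, Complex.one_im]
    ring
  have hrhi : r ≤ 5 / 4 := by
    have := norm_sub_le (1 : ℂ) a
    rw [norm_one] at this
    linarith
  have hrlo : 3 / 4 ≤ r := by
    have := norm_sub_norm_le (1 : ℂ) a
    rw [norm_one] at this
    linarith
  have hxa : |x| ≤ 1 / 4 := le_trans (Complex.abs_re_le_norm a) ha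
  have hya : |y| ≤ 1 / 4 := le_trans (Complex.abs_im_le_norm a) ha
  have hx1 := (abs_le.1 hxa).1
  have hx2 := (abs_le.1 hxa).2
  have hy2 : y ^ 2 ≤ 1 / 16 := by
    have := sq_le_sq' (by linarith [(abs_le.1 hya).1]) (abs_le.1 hya).2
    norm_num at this ⊢
    linarith
  set m := r - (1 - x) with hm
  have hmy : m * (r + (1 - x)) = y ^ 2 := by
    rw [hm]
    nlinarith
  have hs1 : 3 / 2 ≤ r + (1 - x) := by linarith
  have hs2 : r + (1 - x) ≤ 5 / 2 := by linarith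
  have hm0 : 0 ≤ m := by
    by_contra hc
    push Not at hc
    have : m * (r + (1 - x)) < 0 := mul_neg_of_neg_of_pos hc (by linarith)
    nlinarith [sq_nonneg y]
  have hmlo : 2 / 5 * y ^ 2 ≤ m := by
    nlinarith [mul_le_mul_of_nonneg_left hs2 hm0]
  have hmhi : m ≤ 2 / 3 * y ^ 2 := by
    nlinarith [mul_le_mul_of_nonneg_left hs1 hm0]
  have hm2 : m ^ 2 ≤ y ^ 2 / 36 := by
    have h1 : m ^ 2 ≤ (2 / 3 * y ^ 2) * (2 / 3 * y ^ 2) := by
      rw [sq]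
      exact mul_le_mul hmhi hmhi hm0 (by positivity)
    nlinarith [mul_le_mul_of_nonneg_left hy2 (sq_nonneg y)]
  have hE1 := rpow_ge_quad hp1 hp2 hr0
  have hr1 : r - 1 = m - x := by rw [hm]; ring
  have hsq : x ^ 2 / 2 - y ^ 2 / 36 ≤ (r - 1) ^ 2 := by
    rw [hr1]
    nlinarith [sq_nonneg (2 * m - x)]
  have hdiv : 4 / 9 * (r - 1) ^ 2 ≤ (r - 1) ^ 2 / (1 + r) := by
    rw [le_div_iff₀ (by linarith)]
    nlinarith [sq_nonneg (r - 1)]
  have hp3 : (p - 1) ^ 2 ≤ 1 := by nlinarith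
  have hp4 : 0 ≤ (p - 1) ^ 2 := sq_nonneg _
  have h1 : (p - 1) ^ 2 * (4 / 9 * (x ^ 2 / 2 - y ^ 2 / 36))
      ≤ (p - 1) ^ 2 * (r - 1) ^ 2 / (1 + r) := by
    rw [mul_div_assoc]
    apply mul_le_mul_of_nonneg_left _ hp4
    linarith
  have h2 : p * (2 / 5 * y ^ 2 - x) ≤ p * (r - 1) := by
    apply mul_le_mul_of_nonneg_left _ (by linarith)
    rw [hr1]
    linarith
  rw [hn]
  have h3 : (p - 1) ^ 2 * y ^ 2 ≤ y ^ 2 := by
    nlinarith [sq_nonneg y]
  have h4 : y ^ 2 ≤ p * y ^ 2 := by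
    nlinarith [sq_nonneg y]
  have h5 : 0 ≤ (p - 1) ^ 2 * x ^ 2 := by positivity
  have h6 : 0 ≤ (p - 1) ^ 2 * y ^ 2 := by positivity
  nlinarith

/-- (E6) Proof: if t >= ρ: gain = t^p - 1 - p log t >= t^p - 1 - p (t-1) and use (E1).  If t < ρ:
gain = t^p - 1 - p log ρ >= -1 + log 8 >= 1 (log 8 = 3 log 2 > 2) and
(p-1)^2 (t-1)^2/(1+t) <= 1. -/
theorem gain_ge {p ρ t : ℝ} (hp1 : 1 < p) (hp2 : p ≤ 2) (hρ : 0 < ρ) (hρ8 : ρ ≤ 1 / 8)
    (ht : 0 ≤ t) : (p - 1) ^ 2 * (t - 1) ^ 2 / (1 + t) ≤ gain p ρ t := by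
  unfold gain
  rcases le_or_gt ρ t with h | h
  · rw [max_eq_left h]
    have ht0 : 0 < t := lt_of_lt_of_le hρ h
    have h1 : Real.log t ≤ t - 1 := Real.log_le_sub_one_of_pos ht0
    have h2 := rpow_ge_quad hp1 hp2 ht
    have h3 : p * Real.log t ≤ p * (t - 1) := mul_le_mul_of_nonneg_left h1 (by linarith)
    linarith
  · rw [max_eq_right h.le]
    have h1 : Real.log ρ ≤ Real.log (1 / 8) := Real.log_le_log hρ hρ8
    have h2 : Real.log (1 / 8) = -(3 * Real.log 2) := by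
      rw [one_div, Real.log_inv]
      have : (8 : ℝ) = 2 ^ 3 := by norm_num
      rw [this, Real.log_pow]
      norm_num
    have h3 := Real.log_two_gt_d9
    have h4 : Real.log ρ ≤ -2 := by linarith
    have h5 : p * Real.log ρ ≤ -2 := by nlinarith
    have h6 : 0 ≤ t ^ p := Real.rpow_nonneg ht _
    have h7 : (p - 1) ^ 2 * (t - 1) ^ 2 / (1 + t) ≤ 1 := by
      rw [div_le_one (by linarith)]
      have h8 : (p - 1) ^ 2 ≤ 1 := by nlinarith
      have h9 : (t - 1) ^ 2 ≤ 1 := by nlinarith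
      nlinarith [mul_le_mul h8 h9 (sq_nonneg _) (by norm_num : (0 : ℝ) ≤ 1)]
    linarith

end Pool.MP_c113aa_an.BV
end

section

set_option autoImplicit false

namespace Pool.MP_c113aa_an.BV

open Finset


end Pool.MP_c113aa_an.BV
end

section

set_option autoImplicit false

namespace Pool.MP_c113aa_an.BV

open Finset

variable {p : ℝ} {N : ℕ} {z w : Fin N → ℂ} {c : ℂ}

/-- (C1) -/
theorem Cfg.w_ne (h : Cfg p N z w c) (j : Fin N) : w j ≠ 0 := by
  intro h0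
  have := h.one_le j
  rw [h0, norm_zero] at this
  linarith

theorem Cfg.norm_inv_le (h : Cfg p N z w c) (j : Fin N) : ‖(w j)⁻¹‖ ≤ 1 := by
  rw [norm_inv]
  exact inv_le_one_of_one_le₀ (h.one_le j)

theorem Cfg.one_le_prod (h : Cfg p N z w c) : 1 ≤ ∏ j, ‖w j‖ := by
  have := Finset.prod_le_prod (s := Finset.univ) (f := fun _ : Fin N => (1 : ℝ))
    (g := fun j => ‖w j‖) (fun _ _ => zero_le_one) (fun j _ => h.one_le j)
  simpa using this

/-- (C2) from sumw_rpow and sum_le_of_rpow -/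
theorem Cfg.sum_x_le (h : Cfg p N z w c) (hp1 : 1 < p) (hp2 : p ≤ 2) :
    ∑ j, ‖w j - c‖ ≤ N :=
  sum_le_of_rpow hp1 hp2 _ (fun _ => norm_nonneg _) h.sumw_rpow

/-- (C3) from sum_le and rpow_ge_quad (t^p >= 1 + p(t-1)) for the N+1 distances -/
theorem Cfg.sum_t_le (h : Cfg p N z w c) (hp1 : 1 < p) (hp2 : p ≤ 2) :
    ‖c‖ + ∑ k, ‖z k - c‖ ≤ (N : ℝ) + 1 := by
  have h1 : ∀ r : ℝ, 0 ≤ r → 1 + p * (r - 1) ≤ r ^ p := by
    intro r hr
    have h2 := rpow_ge_quad hp1 hp2 hr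
    have h3 : 0 ≤ (p - 1) ^ 2 * (r - 1) ^ 2 / (1 + r) := by positivity
    linarith
  have h2 := h1 ‖c‖ (norm_nonneg _)
  have h3 : ∑ k, (1 + p * (‖z k - c‖ - 1)) ≤ ∑ k, ‖z k - c‖ ^ p :=
    Finset.sum_le_sum fun k _ => h1 _ (norm_nonneg _)
  rw [Finset.sum_add_distrib, ← Finset.mul_sum, Finset.sum_sub_distrib, Finset.sum_const,
    Finset.card_univ, Fintype.card_fin, nsmul_eq_mul, mul_one] at h3
  have h4 := h.sum_le
  nlinarith

private theorem ca_term {p : ℝ} (hp1 : 1 < p) (hp2 : p ≤ 2) (y : ℂ) :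
    ‖((1 - ‖y‖ ^ (p - 2) : ℝ) : ℂ) * y‖ ≤ |‖y‖ - 1| := by
  rw [norm_mul, Complex.norm_real, Real.norm_eq_abs]
  rcases eq_or_ne y 0 with hy | hy
  · rw [hy, norm_zero, mul_zero]
    positivity
  · have hy0 : 0 < ‖y‖ := norm_pos_iff.2 hy
    have h1 : ‖y‖ ^ (p - 1) = ‖y‖ ^ (p - 2) * ‖y‖ := by
      have h2 : p - 1 = (p - 2) + 1 := by ring
      rw [h2, Real.rpow_add hy0, Real.rpow_one]
    have h2 : |1 - ‖y‖ ^ (p - 2)| * ‖y‖ = |‖y‖ - ‖y‖ ^ (p - 1)| := by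
      conv_lhs => rw [← abs_of_pos hy0, ← abs_mul, abs_of_pos hy0]
      rw [h1]
      congr 1
      ring
    rw [h2]
    exact abs_sub_rpow_le hp1 hp2 hy0.le

/-- (C4) the centroid is close to c.  Proof: by mean_eq
(N+1) ∑ (w_j - c) = N (∑ z_k - (N+1) c) = N ((0 - c) + ∑ (z_k - c)).  By foc one can subtract
t_0^(p-2) (0-c) + ∑ t_k^(p-2) (z_k - c) = 0: the right side is
N ((1 - t_0^(p-2)) (0-c) + ∑ (1 - t_k^(p-2)) (z_k - c)), and
‖(1 - t^(p-2)) y‖ = |t - t^(p-1)| <= |t - 1| for t = ‖y‖ by (E2) (abs_sub_rpow_le; for t = 0 it is 0;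
for t > 0, t^(p-2) t = t^(p-1)). -/
theorem Cfg.norm_sum_sub_le (h : Cfg p N z w c) (hp1 : 1 < p) (hp2 : p ≤ 2) :
    ((N : ℝ) + 1) * ‖∑ j, (w j - c)‖ ≤ N * (|‖c‖ - 1| + ∑ k, |‖z k - c‖ - 1|) := by
  have h1 : ((N : ℂ) + 1) * ∑ j, (w j - c) = N * ((0 - c) + ∑ k, (z k - c)) := by
    rw [Finset.sum_sub_distrib, Finset.sum_sub_distrib, Finset.sum_const, Finset.card_univ,
      Fintype.card_fin, nsmul_eq_mul, mul_sub, h.mean_eq]
    ring
  have h2 : (0 - c) + ∑ k, (z k - c)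
      = (((1 - ‖0 - c‖ ^ (p - 2) : ℝ) : ℂ) * (0 - c))
        + ∑ k, (((1 - ‖z k - c‖ ^ (p - 2) : ℝ) : ℂ) * (z k - c)) := by
    have h3 := h.foc
    have h4 : ∑ k, (((1 - ‖z k - c‖ ^ (p - 2) : ℝ) : ℂ) * (z k - c))
        = ∑ k, (z k - c) - ∑ k, ((‖z k - c‖ ^ (p - 2) : ℝ) : ℂ) * (z k - c) := by
      rw [← Finset.sum_sub_distrib]
      refine Finset.sum_congr rfl fun k _ => ?_
      push_cast
      ring
    rw [h4, zero_sub, norm_neg]
    rw [zero_sub] at h3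
    push_cast
    push_cast at h3
    linear_combination h3
  have h3 : ((N : ℝ) + 1) * ‖∑ j, (w j - c)‖ = N * ‖(0 - c) + ∑ k, (z k - c)‖ := by
    have h4 := congrArg norm h1
    rw [norm_mul, norm_mul, Complex.norm_natCast] at h4
    have h5 : ‖(N : ℂ) + 1‖ = (N : ℝ) + 1 := by
      have h6 : (N : ℂ) + 1 = ((N + 1 : ℕ) : ℂ) := by push_cast; ring
      rw [h6, Complex.norm_natCast]
      push_cast
      ring
    rwa [h5] at h4
  rw [h3, h2]
  refine mul_le_mul_of_nonneg_left ?_ (Nat.cast_nonneg N)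
  refine (norm_add_le _ _).trans (add_le_add ?_ ?_)
  · have h4 := ca_term hp1 hp2 (0 - c)
    have h5 : ‖(0 : ℂ) - c‖ = ‖c‖ := by rw [zero_sub, norm_neg]
    rw [h5] at h4 ⊢
    exact h4
  · exact (norm_sum_le _ _).trans (Finset.sum_le_sum fun k _ => ca_term hp1 hp2 _)

/-- (C5) -/
theorem Cfg.one_sub_div (h : Cfg p N z w c) (j : Fin N) :
    ‖1 - c * (w j)⁻¹‖ = ‖w j - c‖ * ‖(w j)⁻¹‖ := by
  have hw := h.w_ne j
  rw [← norm_mul]
  congr 1
  field_simp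

/-- (C8) AM-GM for the distances.  Proof: if some distance is 0 trivial; else with T = t^p > 0,
log T <= T - 1; sum: p * log(product of all t) <= ∑ t^p - (N+1) <= 0. -/
theorem Cfg.prod_t_le (h : Cfg p N z w c) (hp1 : 1 < p) : ‖c‖ * ∏ k, ‖z k - c‖ ≤ 1 := by
  rcases eq_or_lt_of_le (norm_nonneg c) with hc | hc
  · rw [← hc, zero_mul]
    exact zero_le_one
  by_cases hz : ∃ k, ‖z k - c‖ = 0
  · obtain ⟨k, hk⟩ := hz
    rw [Finset.prod_eq_zero (Finset.mem_univ k) hk, mul_zero]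
    exact zero_le_one
  push Not at hz
  have hz' : ∀ k, 0 < ‖z k - c‖ := fun k => lt_of_le_of_ne (norm_nonneg _) (hz k).symm
  have hP : 0 < ∏ k, ‖z k - c‖ := Finset.prod_pos fun k _ => hz' k
  have hlog : ∀ t : ℝ, 0 < t → 1 + p * Real.log t ≤ t ^ p := by
    intro t ht
    have h1 := Real.log_le_sub_one_of_pos (Real.rpow_pos_of_pos ht p)
    rw [Real.log_rpow ht] at h1
    linarith
  have h1 := hlog _ hc
  have h2 : ∑ k, (1 + p * Real.log ‖z k - c‖) ≤ ∑ k, ‖z k - c‖ ^ p :=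
    Finset.sum_le_sum fun k _ => hlog _ (hz' k)
  rw [Finset.sum_add_distrib, ← Finset.mul_sum, Finset.sum_const,
    Finset.card_univ, Fintype.card_fin, nsmul_eq_mul, mul_one,
    ← Real.log_prod fun k _ => hz k] at h2
  have h3 := h.sum_le
  have h4 : Real.log (‖c‖ * ∏ k, ‖z k - c‖) ≤ 0 := by
    rw [Real.log_mul hc.ne' hP.ne']
    nlinarith
  rwa [Real.log_nonpos_iff (by positivity)] at h4

end Pool.MP_c113aa_an.BV
end

section

set_option autoImplicit false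

namespace Pool.MP_c113aa_an.BV

open Finset

private theorem prodA_norm_factor (d : ℂ) :
    ‖(1 + d) * Complex.exp (-d)‖ ≤ Real.exp (‖d‖ ^ 2 / 2) := by
  rw [norm_mul, Complex.norm_exp]
  calc ‖1 + d‖ * Real.exp (-d).re ≤ Real.exp (d.re + ‖d‖ ^ 2 / 2) * Real.exp (-d).re :=
        mul_le_mul_of_nonneg_right (norm_one_add_le d) (Real.exp_pos _).le
    _ = Real.exp (‖d‖ ^ 2 / 2) := by
        rw [← Real.exp_add, Complex.neg_re]
        congr 1
        ring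

/-- (P1) Proof: if ‖d‖ <= 1, exp(-d) = 1 - d + r with ‖r‖ <= ‖d‖^2
(Complex.norm_exp_sub_one_sub_id_le), so (1+d) exp(-d) - 1 = -d^2 + (1+d) r has norm <= 3‖d‖^2.
If ‖d‖ > 1: ‖(1+d) exp(-d)‖ <= exp(‖d‖^2/2) by (E7) (norm_one_add_le; Complex.norm_exp), so the norm is
<= 1 + exp(‖d‖^2/2) <= 2 exp(‖d‖^2/2). -/
theorem norm_mul_exp_sub_one_le (d : ℂ) :
    ‖(1 + d) * Complex.exp (-d) - 1‖ ≤ 3 * ‖d‖ ^ 2 * Real.exp (‖d‖ ^ 2 / 2) := by
  have hexp : 1 ≤ Real.exp (‖d‖ ^ 2 / 2) := Real.one_le_exp (by positivity)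
  have hd0 := norm_nonneg d
  rcases le_or_gt ‖d‖ 1 with hd | hd
  · have hr := Complex.norm_exp_sub_one_sub_id_le (x := -d) (by rwa [norm_neg])
    rw [norm_neg] at hr
    have he : (1 + d) * Complex.exp (-d) - 1 =
        -d ^ 2 + (1 + d) * (Complex.exp (-d) - 1 - -d) := by ring
    have h1 : ‖1 + d‖ ≤ 1 + ‖d‖ := by
      calc ‖1 + d‖ ≤ ‖(1 : ℂ)‖ + ‖d‖ := norm_add_le _ _
        _ = 1 + ‖d‖ := by rw [norm_one]
    have h2 : ‖(1 + d) * Complex.exp (-d) - 1‖ ≤ 3 * ‖d‖ ^ 2 := by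
      rw [he]
      calc ‖-d ^ 2 + (1 + d) * (Complex.exp (-d) - 1 - -d)‖ ≤
          ‖-d ^ 2‖ + ‖(1 + d) * (Complex.exp (-d) - 1 - -d)‖ := norm_add_le _ _
        _ = ‖d‖ ^ 2 + ‖1 + d‖ * ‖Complex.exp (-d) - 1 - -d‖ := by
            rw [norm_neg, norm_pow, norm_mul]
        _ ≤ ‖d‖ ^ 2 + (1 + ‖d‖) * ‖d‖ ^ 2 := by
            have := mul_le_mul h1 hr (norm_nonneg _) (by linarith)
            linarith
        _ ≤ 3 * ‖d‖ ^ 2 := by nlinarith [sq_nonneg ‖d‖]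
    calc _ ≤ 3 * ‖d‖ ^ 2 := h2
      _ ≤ 3 * ‖d‖ ^ 2 * Real.exp (‖d‖ ^ 2 / 2) := le_mul_of_one_le_right (by positivity) hexp
  · have h1 : 1 ≤ ‖d‖ ^ 2 := by nlinarith
    calc ‖(1 + d) * Complex.exp (-d) - 1‖ ≤ ‖(1 + d) * Complex.exp (-d)‖ + ‖(1 : ℂ)‖ :=
          norm_sub_le _ _
      _ ≤ Real.exp (‖d‖ ^ 2 / 2) + 1 := by
          rw [norm_one]
          linarith [prodA_norm_factor d]
      _ ≤ 3 * Real.exp (‖d‖ ^ 2 / 2) := by linarith
      _ ≤ 3 * ‖d‖ ^ 2 * Real.exp (‖d‖ ^ 2 / 2) :=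
          mul_le_mul_of_nonneg_right (by linarith) (Real.exp_pos _).le

/-- (P2) Proof: induction over s (Finset.induction_on): with Q = the old product,
u = (1+d) exp(-d) the new factor, u Q - 1 = u (Q - 1) + (u - 1), ‖u‖ <= exp(‖d‖^2/2) (E7), (P1). -/
theorem norm_prod_mul_exp_sub_one_le {ι : Type*} (s : Finset ι) (d : ι → ℂ) :
    ‖(∏ j ∈ s, ((1 + d j) * Complex.exp (-d j))) - 1‖
      ≤ 3 * (∑ j ∈ s, ‖d j‖ ^ 2) * Real.exp ((∑ j ∈ s, ‖d j‖ ^ 2) / 2) := by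
  classical
  induction s using Finset.induction_on with
  | empty => simp
  | insert a s ha ih =>
    rw [Finset.prod_insert ha, Finset.sum_insert ha]
    set Q : ℂ := ∏ j ∈ s, ((1 + d j) * Complex.exp (-d j)) with hQ
    set S : ℝ := ∑ j ∈ s, ‖d j‖ ^ 2 with hS
    set u : ℂ := (1 + d a) * Complex.exp (-d a) with hu
    set t : ℝ := ‖d a‖ ^ 2 with ht
    have hS0 : 0 ≤ S := Finset.sum_nonneg fun j _ => sq_nonneg _
    have ht0 : 0 ≤ t := sq_nonneg _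
    have h1 : ‖u‖ ≤ Real.exp (t / 2) := prodA_norm_factor (d a)
    have h2 : ‖u - 1‖ ≤ 3 * t * Real.exp (t / 2) := norm_mul_exp_sub_one_le (d a)
    have he : u * Q - 1 = u * (Q - 1) + (u - 1) := by ring
    have h3 : Real.exp (t / 2) * Real.exp (S / 2) = Real.exp ((t + S) / 2) := by
      rw [← Real.exp_add]
      congr 1
      ring
    have h4 : Real.exp (t / 2) ≤ Real.exp ((t + S) / 2) := Real.exp_le_exp.mpr (by linarith)
    calc ‖u * Q - 1‖ ≤ ‖u‖ * ‖Q - 1‖ + ‖u - 1‖ := by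
          rw [he, ← norm_mul]
          exact norm_add_le _ _
      _ ≤ Real.exp (t / 2) * (3 * S * Real.exp (S / 2)) + 3 * t * Real.exp (t / 2) :=
          add_le_add (mul_le_mul h1 ih (norm_nonneg _) (Real.exp_pos _).le) h2
      _ = 3 * S * Real.exp ((t + S) / 2) + 3 * t * Real.exp (t / 2) := by
          rw [← h3]
          ring
      _ ≤ 3 * S * Real.exp ((t + S) / 2) + 3 * t * Real.exp ((t + S) / 2) := by
          have := mul_le_mul_of_nonneg_left h4 (by linarith : 0 ≤ 3 * t)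
          linarith
      _ = 3 * (t + S) * Real.exp ((t + S) / 2) := by ring

/-- (P3) Proof: the product of exp(-d_j) is exp(0) = 1; use (P2). -/
theorem norm_prod_sub_one_le {N : ℕ} (d : Fin N → ℂ) (hd : ∑ j, d j = 0) :
    ‖(∏ j, (1 + d j)) - 1‖ ≤ 3 * (∑ j, ‖d j‖ ^ 2) * Real.exp ((∑ j, ‖d j‖ ^ 2) / 2) := by
  have h := norm_prod_mul_exp_sub_one_le Finset.univ d
  rw [Finset.prod_mul_distrib, ← Complex.exp_sum, Finset.sum_neg_distrib, hd, neg_zero,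
    Complex.exp_zero, mul_one] at h
  exact h

end Pool.MP_c113aa_an.BV
end

section

set_option autoImplicit false

namespace Pool.MP_c113aa_an.BV

open Finset
private theorem pb_rec {R : Type*} [CommRing R] (A b e S : R) (m : ℕ) (hS : m = 0 → S = 0) :
    (b + e) * A - b ^ (m + 1) - b ^ m * (e + S)
      = (b + e) * (A - b ^ m - b ^ (m - 1) * S) + e * b ^ (m - 1) * S := by
  rcases m with _ | m
  · rw [hS rfl]
    ring
  · rw [Nat.add_sub_cancel]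
    ring

/-- (P4) Proof: induction over s.  T_s := ∏ (b+e_j) - b^m - b^(m-1) ∑ e_j (m = card s).  Adding an
element i: T_new = (b + e_i) T_s + e_i b^(m-1) ∑_s e_j (if m = 0 the sum is 0, so b * b^(m-1) ∑ e =
b^m ∑ e holds in all cases), and the same recursion holds for the majorant with
‖b‖, ‖e_j‖.  (The majorant is >= 0 because it bounds a norm.) -/
theorem norm_prod_add_sub_le {ι : Type*} (s : Finset ι) (b : ℂ) (e : ι → ℂ) :
    ‖(∏ j ∈ s, (b + e j)) - b ^ s.card - b ^ (s.card - 1) * ∑ j ∈ s, e j‖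
      ≤ (∏ j ∈ s, (‖b‖ + ‖e j‖)) - ‖b‖ ^ s.card - ‖b‖ ^ (s.card - 1) * ∑ j ∈ s, ‖e j‖ := by
  classical
  induction s using Finset.induction_on with
  | empty => simp
  | insert i s hi ih =>
    rw [Finset.prod_insert hi, Finset.prod_insert hi, Finset.sum_insert hi, Finset.sum_insert hi,
      Finset.card_insert_of_notMem hi, Nat.add_sub_cancel]
    have hz : s.card = 0 → ∑ j ∈ s, e j = 0 := by
      intro h
      rw [Finset.card_eq_zero.1 h, Finset.sum_empty]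
    have hz' : s.card = 0 → ∑ j ∈ s, ‖e j‖ = 0 := by
      intro h
      rw [Finset.card_eq_zero.1 h, Finset.sum_empty]
    have h1 := pb_rec (∏ j ∈ s, (b + e j)) b (e i) (∑ j ∈ s, e j) s.card hz
    have h2 := pb_rec (∏ j ∈ s, (‖b‖ + ‖e j‖)) ‖b‖ ‖e i‖ (∑ j ∈ s, ‖e j‖) s.card hz'
    rw [h1, h2]
    refine (norm_add_le _ _).trans (add_le_add ?_ ?_)
    · rw [norm_mul]
      exact mul_le_mul (norm_add_le _ _) ih (norm_nonneg _) (by positivity)
    · rw [norm_mul, norm_mul, norm_pow]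
      exact mul_le_mul_of_nonneg_left (norm_sum_le _ _) (by positivity)

private theorem pb_pow (x y : ℝ) (hx : 0 ≤ x) (hy : 0 ≤ y) (n : ℕ) :
    (x + y) ^ (n + 2) - x ^ (n + 2) - ((n : ℝ) + 2) * x ^ (n + 1) * y
      ≤ ((n : ℝ) + 2) * (n + 1) / 2 * (y ^ 2 * (x + y) ^ n) := by
  induction n with
  | zero =>
    simp only [CharP.cast_eq_zero, zero_add, pow_zero, pow_one]
    nlinarith
  | succ n ih =>
    have h1 : x ^ (n + 1) ≤ (x + y) ^ (n + 1) := pow_le_pow_left₀ hx (by linarith) _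
    have h2 : (x + y) * ((x + y) ^ (n + 2) - x ^ (n + 2) - ((n : ℝ) + 2) * x ^ (n + 1) * y)
        ≤ (x + y) * (((n : ℝ) + 2) * (n + 1) / 2 * (y ^ 2 * (x + y) ^ n)) :=
      mul_le_mul_of_nonneg_left ih (by linarith)
    have h3 : (x + y) ^ (n + 1 + 2) - x ^ (n + 1 + 2) - (((n + 1 : ℕ) : ℝ) + 2) * x ^ (n + 1 + 1) * y
        = (x + y) * ((x + y) ^ (n + 2) - x ^ (n + 2) - ((n : ℝ) + 2) * x ^ (n + 1) * y)
          + ((n : ℝ) + 2) * x ^ (n + 1) * y ^ 2 := by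
      push_cast
      ring
    have h4 : ((n : ℝ) + 2) * x ^ (n + 1) * y ^ 2 ≤ ((n : ℝ) + 2) * (x + y) ^ (n + 1) * y ^ 2 := by
      gcongr
    rw [h3]
    refine (add_le_add h2 h4).trans (le_of_eq ?_)
    push_cast
    ring

/-- (P5) Proof: induction on N from 2 with the sharper constant N(N-1)/2:
R_N := (x+y)^N - x^N - N x^(N-1) y satisfies R_{N+1} = (x+y) R_N + N x^(N-1) y^2 and
x^(N-1) <= (x+y)^(N-1). -/
theorem add_pow_sub_le (x y : ℝ) (hx : 0 ≤ x) (hy : 0 ≤ y) (N : ℕ) (hN : 2 ≤ N) :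
    (x + y) ^ N - x ^ N - N * x ^ (N - 1) * y ≤ (N : ℝ) ^ 2 / 2 * y ^ 2 * (x + y) ^ (N - 2) := by
  obtain ⟨n, rfl⟩ : ∃ n, N = n + 2 := ⟨N - 2, by omega⟩
  have h1 := pb_pow x y hx hy n
  have h2 : n + 2 - 1 = n + 1 := by omega
  rw [h2, Nat.add_sub_cancel]
  push_cast
  refine h1.trans ?_
  have h3 : (0 : ℝ) ≤ y ^ 2 * (x + y) ^ n := by positivity
  have hn : (0 : ℝ) ≤ n := Nat.cast_nonneg n
  nlinarith

/-- (P6) Proof: (P4) for s = univ (∑ e_j = 0); let yy = (∑ ‖e_j‖)/N <= y.  AM-GM (prod_le_pow) bounds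
∏ (‖b‖+‖e_j‖) <= (‖b‖+yy)^N, so the norm is <= (‖b‖+yy)^N - ‖b‖^N - N ‖b‖^(N-1) yy, then (P5) and
monotonicity in yy. -/
theorem norm_prod_sub_pow_le {N : ℕ} (hN : 2 ≤ N) (b : ℂ) (e : Fin N → ℂ) (he : ∑ j, e j = 0)
    {y : ℝ} (hy : ∑ j, ‖e j‖ ≤ N * y) :
    ‖(∏ j, (b + e j)) - b ^ N‖ ≤ (N : ℝ) ^ 2 / 2 * y ^ 2 * (‖b‖ + y) ^ (N - 2) := by
  have hN0 : (0 : ℝ) < N := by
    have : 0 < N := by omega
    exact_mod_cast this
  have h1 := norm_prod_add_sub_le Finset.univ b e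
  rw [he, mul_zero, sub_zero, Finset.card_univ, Fintype.card_fin] at h1
  set S : ℝ := ∑ j, ‖e j‖ with hS
  have hS0 : 0 ≤ S := Finset.sum_nonneg fun j _ => norm_nonneg _
  have hyy : S = N * (S / N) := by field_simp
  have hyy0 : 0 ≤ S / N := by positivity
  have hyle : S / N ≤ y := by
    rw [div_le_iff₀ hN0]
    linarith
  have h2 : ∏ j, (‖b‖ + ‖e j‖) ≤ (‖b‖ + S / N) ^ N := by
    refine prod_le_pow _ (fun j => by positivity) (le_of_eq ?_)
    rw [Finset.sum_add_distrib, Finset.sum_const, Finset.card_univ, Fintype.card_fin,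
      nsmul_eq_mul, ← hS, mul_add, ← hyy]
  have h3 := add_pow_sub_le ‖b‖ (S / N) (norm_nonneg _) hyy0 N hN
  have h4 : (N : ℝ) * ‖b‖ ^ (N - 1) * (S / N) = ‖b‖ ^ (N - 1) * S := by
    rw [mul_comm (N : ℝ), mul_assoc, ← hyy]
  rw [h4] at h3
  have h5 : (N : ℝ) ^ 2 / 2 * (S / N) ^ 2 * (‖b‖ + S / N) ^ (N - 2)
      ≤ (N : ℝ) ^ 2 / 2 * y ^ 2 * (‖b‖ + y) ^ (N - 2) := by
    have h6 : (S / N) ^ 2 ≤ y ^ 2 := pow_le_pow_left₀ hyy0 hyle 2
    have h7 : (‖b‖ + S / N) ^ (N - 2) ≤ (‖b‖ + y) ^ (N - 2) :=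
      pow_le_pow_left₀ (by positivity) (by linarith) _
    exact mul_le_mul (mul_le_mul_of_nonneg_left h6 (by positivity)) h7 (by positivity)
      (by positivity)
  linarith

end Pool.MP_c113aa_an.BV
end

section

set_option autoImplicit false

namespace Pool.MP_c113aa_an.BV

open Finset


end Pool.MP_c113aa_an.BV
end

section

set_option autoImplicit false

namespace Pool.MP_c113aa_an.BV

open Finset
private theorem jp_norm (A : ℂ) {s : ℝ} (hs0 : 0 ≤ s) (hs1 : s ≤ 1) :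
    ‖1 - (s : ℂ) * A‖ ≤ (1 - s) + s * ‖1 - A‖ := by
  have h1 : 1 - (s : ℂ) * A = ((1 - s : ℝ) : ℂ) + (s : ℂ) * (1 - A) := by
    push_cast
    ring
  rw [h1]
  refine (norm_add_le _ _).trans (le_of_eq ?_)
  rw [norm_mul, Complex.norm_real, Complex.norm_real, Real.norm_of_nonneg hs0,
    Real.norm_of_nonneg (by linarith)]

private theorem jp_mean {N : ℕ} (hN : 0 < N) (a : Fin N → ℂ) {δ : ℝ}
    (h : ∑ j, ‖1 - a j‖ ≤ (1 - δ) * N) : ‖1 - (∑ j, a j) / N‖ ≤ 1 - δ := by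
  have hN0 : (0 : ℝ) < N := by exact_mod_cast hN
  have hNc : (N : ℂ) ≠ 0 := by exact_mod_cast hN.ne'
  have h1 : 1 - (∑ j, a j) / N = (∑ j, (1 - a j)) / N := by
    rw [Finset.sum_sub_distrib, Finset.sum_const, Finset.card_univ, Fintype.card_fin,
      nsmul_eq_mul, mul_one]
    field_simp
  rw [h1, norm_div, Complex.norm_natCast, div_le_iff₀ hN0]
  exact (norm_sum_le _ _).trans h

private theorem jp_sum {N : ℕ} (hN : 0 < N) (a : Fin N → ℂ) :
    ∑ j, (a j - (∑ i, a i) / N) = 0 := by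
  have hNc : (N : ℂ) ≠ 0 := by exact_mod_cast hN.ne'
  rw [Finset.sum_sub_distrib, Finset.sum_const, Finset.card_univ, Fintype.card_fin, nsmul_eq_mul]
  field_simp
  ring

/-- (J1) first part.  Proof: ‖1 - s a_j‖ = ‖(1-s) + s (1-a_j)‖ <= (1-s) + s ‖1-a_j‖; the sum is
<= N (1 - δ s); AM-GM (prod_le_pow) and 1 - δ s <= exp(-δ s). -/
theorem norm_prod_one_sub_le_exp {N : ℕ} (a : Fin N → ℂ) {δ s : ℝ}
    (hδ1 : δ ≤ 1) (h : ∑ j, ‖1 - a j‖ ≤ (1 - δ) * N) (hs0 : 0 ≤ s)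
    (hs1 : s ≤ 1) : ‖∏ j, (1 - (s : ℂ) * a j)‖ ≤ Real.exp (-(δ * s * N)) := by
  rw [norm_prod]
  have h1 : ∀ j, ‖1 - (s : ℂ) * a j‖ ≤ (1 - s) + s * ‖1 - a j‖ := fun j => jp_norm (a j) hs0 hs1
  have h2 : ∑ j, ‖1 - (s : ℂ) * a j‖ ≤ N * (1 - δ * s) := by
    have h3 : ∑ j, ‖1 - (s : ℂ) * a j‖ ≤ ∑ j, ((1 - s) + s * ‖1 - a j‖) :=
      Finset.sum_le_sum fun j _ => h1 j
    rw [Finset.sum_add_distrib, Finset.sum_const, Finset.card_univ, Fintype.card_fin,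
      nsmul_eq_mul, ← Finset.mul_sum] at h3
    have h4 : s * ∑ j, ‖1 - a j‖ ≤ s * ((1 - δ) * N) := mul_le_mul_of_nonneg_left h hs0
    nlinarith
  have h5 := prod_le_pow _ (fun j => norm_nonneg _) h2
  have h6 : 0 ≤ 1 - δ * s := by nlinarith
  have h7 : 1 - δ * s ≤ Real.exp (-(δ * s)) := by
    have := Real.add_one_le_exp (-(δ * s))
    linarith
  refine h5.trans ((pow_le_pow_left₀ h6 h7 N).trans (le_of_eq ?_))
  rw [← Real.exp_nat_mul]
  congr 1
  ring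

/-- (J1) second part.  Same proof with the constant family equal to the mean:
‖1 - mean‖ <= 1 - δ. -/
theorem norm_one_sub_mean_pow_le_exp {N : ℕ} (hN : 0 < N) (a : Fin N → ℂ) {δ s : ℝ}
    (hδ1 : δ ≤ 1) (h : ∑ j, ‖1 - a j‖ ≤ (1 - δ) * N) (hs0 : 0 ≤ s)
    (hs1 : s ≤ 1) : ‖(1 - (s : ℂ) * ((∑ j, a j) / N)) ^ N‖ ≤ Real.exp (-(δ * s * N)) := by
  have h1 := jp_mean hN a h
  have h2 := norm_prod_one_sub_le_exp (fun _ : Fin N => (∑ j, a j) / (N : ℂ)) (δ := δ) (s := s)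
    hδ1 (by
      rw [Finset.sum_const, Finset.card_univ, Fintype.card_fin, nsmul_eq_mul, mul_comm]
      exact mul_le_mul_of_nonneg_right h1 (Nat.cast_nonneg N)) hs0 hs1
  rw [Finset.prod_const, Finset.card_univ, Fintype.card_fin] at h2
  exact h2

/-- (J2) Proof: A = mean of the a_j, ‖1-A‖ <= 1-δ so ‖A‖ <= 2, s <= δ/(4(M+1)) <= 1/4 so
b := 1 - sA has ‖b‖ >= 1/2.  1 - s a_j = b (1 + d_j), d_j = -s (a_j - A)/b, ∑ d_j = 0,
P := ∑ ‖d_j‖^2 <= 4 s^2 N M.  By (P3) the difference is <= ‖b^N‖ 3 P exp(P/2)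
<= 12 s^2 N M exp(2 s^2 N M - δ s N) (J1), and 2 s^2 N M <= δ s N/2. -/
theorem norm_prod_sub_small {N : ℕ} (hN : 0 < N) (a : Fin N → ℂ) {δ M s : ℝ} (hδ0 : 0 < δ)
    (hδ1 : δ ≤ 1) (hM : 0 ≤ M) (h : ∑ j, ‖1 - a j‖ ≤ (1 - δ) * N)
    (hM2 : ∑ j, ‖a j - (∑ i, a i) / N‖ ^ 2 ≤ N * M)
    (hs0 : 0 ≤ s) (hs1 : s ≤ δ / (4 * (M + 1))) :
    ‖(∏ j, (1 - (s : ℂ) * a j)) - (1 - (s : ℂ) * ((∑ j, a j) / N)) ^ N‖
      ≤ 12 * s ^ 2 * N * M * Real.exp (-(δ * s * N / 2)) := by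
  have hN0 : (0 : ℝ) < N := by exact_mod_cast hN
  have hM1 : 0 < M + 1 := by linarith
  have hsM : s * (M + 1) ≤ δ / 4 := by
    rw [le_div_iff₀ (by positivity)] at hs1
    linarith
  have hs4 : s ≤ 1 / 4 := by nlinarith
  have hA1 := jp_mean hN a h
  have hsum := jp_sum hN a
  have hbN := norm_one_sub_mean_pow_le_exp hN a hδ1 h hs0 (by linarith)
  set A : ℂ := (∑ j, a j) / N with hA
  have hA2 : ‖A‖ ≤ 2 := by
    have h1 : A = 1 - (1 - A) := by ring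
    rw [h1]
    refine (norm_sub_le _ _).trans ?_
    rw [norm_one]
    linarith
  set b : ℂ := 1 - (s : ℂ) * A with hb
  have hb2 : 1 / 2 ≤ ‖b‖ := by
    have h1 : (1 : ℂ) = b + (s : ℂ) * A := by rw [hb]; ring
    have h2 : ‖(1 : ℂ)‖ ≤ ‖b‖ + ‖(s : ℂ) * A‖ := by
      conv_lhs => rw [h1]
      exact norm_add_le _ _
    rw [norm_one, norm_mul, Complex.norm_real, Real.norm_of_nonneg hs0] at h2
    have h3 : s * ‖A‖ ≤ 1 / 4 * 2 := mul_le_mul hs4 hA2 (norm_nonneg _) (by norm_num)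
    linarith
  have hb0 : b ≠ 0 := by
    intro h0
    rw [h0, norm_zero] at hb2
    linarith
  have hfac : ∀ j, 1 - (s : ℂ) * a j = b * (1 + -(s : ℂ) * (a j - A) / b) := by
    intro j
    field_simp
    rw [hb]
    ring
  have hdsum : ∑ j, (-(s : ℂ) * (a j - A) / b) = 0 := by
    rw [← Finset.sum_div, ← Finset.mul_sum, hsum, mul_zero, zero_div]
  have hP3 := norm_prod_sub_one_le (fun j => -(s : ℂ) * (a j - A) / b) hdsum
  have hprod : ∏ j, (1 - (s : ℂ) * a j) = b ^ N * ∏ j, (1 + -(s : ℂ) * (a j - A) / b) := by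
    rw [Finset.prod_congr rfl fun j _ => hfac j, Finset.prod_mul_distrib, Finset.prod_const,
      Finset.card_univ, Fintype.card_fin]
  have hP : ∑ j, ‖-(s : ℂ) * (a j - A) / b‖ ^ 2 ≤ 4 * s ^ 2 * N * M := by
    have h1 : ∀ j, ‖-(s : ℂ) * (a j - A) / b‖ ^ 2 ≤ 4 * s ^ 2 * ‖a j - A‖ ^ 2 := by
      intro j
      rw [norm_div, norm_mul, norm_neg, Complex.norm_real, Real.norm_of_nonneg hs0, div_pow,
        mul_pow]
      have hb3 : 1 / 4 ≤ ‖b‖ ^ 2 := by nlinarith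
      rw [div_le_iff₀ (by linarith)]
      have h5 : 0 ≤ s ^ 2 * ‖a j - A‖ ^ 2 := by positivity
      nlinarith
    refine (Finset.sum_le_sum fun j _ => h1 j).trans ?_
    rw [← Finset.mul_sum]
    have h5 : 4 * s ^ 2 * ∑ j, ‖a j - A‖ ^ 2 ≤ 4 * s ^ 2 * (N * M) :=
      mul_le_mul_of_nonneg_left hM2 (by positivity)
    linarith
  have hP0 : 0 ≤ ∑ j, ‖-(s : ℂ) * (a j - A) / b‖ ^ 2 :=
    Finset.sum_nonneg fun j _ => by positivity
  set P : ℝ := ∑ j, ‖-(s : ℂ) * (a j - A) / b‖ ^ 2 with hPdef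
  have hdiff : (∏ j, (1 - (s : ℂ) * a j)) - b ^ N
      = b ^ N * ((∏ j, (1 + -(s : ℂ) * (a j - A) / b)) - 1) := by
    rw [hprod]
    ring
  rw [hdiff, norm_mul]
  have h6 : ‖b ^ N‖ * ‖(∏ j, (1 + -(s : ℂ) * (a j - A) / b)) - 1‖
      ≤ Real.exp (-(δ * s * N)) * (3 * P * Real.exp (P / 2)) :=
    mul_le_mul hbN hP3 (norm_nonneg _) (Real.exp_pos _).le
  refine h6.trans ?_
  have h7 : 3 * P * Real.exp (P / 2)
      ≤ 12 * s ^ 2 * N * M * Real.exp (2 * s ^ 2 * N * M) := by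
    have h8 : Real.exp (P / 2) ≤ Real.exp (2 * s ^ 2 * N * M) := Real.exp_le_exp.2 (by linarith)
    exact mul_le_mul (by linarith) h8 (Real.exp_pos _).le (by positivity)
  refine (mul_le_mul_of_nonneg_left h7 (Real.exp_pos _).le).trans ?_
  have h9 : Real.exp (-(δ * s * N)) * (12 * s ^ 2 * N * M * Real.exp (2 * s ^ 2 * N * M))
      = 12 * s ^ 2 * N * M * Real.exp (-(δ * s * N) + 2 * s ^ 2 * N * M) := by
    rw [Real.exp_add]
    ring
  rw [h9]
  refine mul_le_mul_of_nonneg_left (Real.exp_le_exp.2 ?_) (by positivity)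
  have h10 : s * M ≤ δ / 4 := by linarith
  have h11 : s * N * (s * M) ≤ s * N * (δ / 4) := mul_le_mul_of_nonneg_left h10 (by positivity)
  nlinarith

/-- (J3) Proof: A = mean.  If sqrt M <= δ/2: (P6) with b = 1 - sA, e_j = -s (a_j - A),
y = s sqrt M (Cauchy-Schwarz: ∑ ‖a_j - A‖ <= N sqrt M), ‖b‖ <= 1 - δ s,
‖b‖ + y <= 1 - δ s/2 <= exp(-δ s/2); bound (N^2/2) s^2 M exp(-δ s (N-2)/2).
Otherwise 1 <= 4M/δ^2 and by (J1) the difference is <= 2 exp(-δ s N) <= (8M/δ^2) exp(-δ s N). -/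
theorem norm_prod_sub_all {N : ℕ} (hN : 2 ≤ N) (a : Fin N → ℂ) {δ M s : ℝ} (hδ0 : 0 < δ)
    (hδ1 : δ ≤ 1) (hM : 0 ≤ M) (h : ∑ j, ‖1 - a j‖ ≤ (1 - δ) * N)
    (hM2 : ∑ j, ‖a j - (∑ i, a i) / N‖ ^ 2 ≤ N * M)
    (hs0 : 0 ≤ s) (hs1 : s ≤ 1) :
    ‖(∏ j, (1 - (s : ℂ) * a j)) - (1 - (s : ℂ) * ((∑ j, a j) / N)) ^ N‖
      ≤ 8 / δ ^ 2 * N ^ 2 * M * Real.exp (-(δ * s * (N - 2) / 2)) := by
  have hNp : 0 < N := by omega
  have hN0 : (0 : ℝ) < N := by exact_mod_cast hNp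
  have hN2 : (2 : ℝ) ≤ N := by exact_mod_cast hN
  have hA1 := jp_mean hNp a h
  have hsum := jp_sum hNp a
  have hbN := norm_one_sub_mean_pow_le_exp hNp a hδ1 h hs0 hs1
  have haN := norm_prod_one_sub_le_exp a hδ1 h hs0 hs1
  set A : ℂ := (∑ j, a j) / N with hA
  have hδ8 : 8 ≤ 8 / δ ^ 2 := by
    rw [le_div_iff₀ (by positivity)]
    have : δ ^ 2 ≤ 1 := pow_le_one₀ hδ0.le hδ1
    linarith
  rcases le_or_gt (Real.sqrt M) (δ / 2) with hcase | hcase
  · have he : ∑ j, (-(s : ℂ) * (a j - A)) = 0 := by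
      rw [← Finset.mul_sum, hsum, mul_zero]
    have hCS : ∑ j, ‖a j - A‖ ≤ N * Real.sqrt M := by
      have h1 := sq_sum_le_card_mul_sum_sq (s := (Finset.univ : Finset (Fin N)))
        (f := fun j => ‖a j - A‖)
      rw [Finset.card_univ, Fintype.card_fin] at h1
      have h2 : (∑ j, ‖a j - A‖) ^ 2 ≤ (N * Real.sqrt M) ^ 2 := by
        rw [mul_pow, Real.sq_sqrt hM]
        nlinarith
      exact (abs_le_of_sq_le_sq' h2 (by positivity)).2
    have hy : ∑ j, ‖-(s : ℂ) * (a j - A)‖ ≤ N * (s * Real.sqrt M) := by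
      have h1 : ∀ j, ‖-(s : ℂ) * (a j - A)‖ = s * ‖a j - A‖ := by
        intro j
        rw [norm_mul, norm_neg, Complex.norm_real, Real.norm_of_nonneg hs0]
      rw [Finset.sum_congr rfl fun j _ => h1 j, ← Finset.mul_sum]
      nlinarith
    have h1 := norm_prod_sub_pow_le hN (1 - (s : ℂ) * A) (fun j => -(s : ℂ) * (a j - A)) he hy
    have h2 : ∏ j, (1 - (s : ℂ) * A + -(s : ℂ) * (a j - A)) = ∏ j, (1 - (s : ℂ) * a j) :=
      Finset.prod_congr rfl fun j _ => by ring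
    rw [h2] at h1
    refine h1.trans ?_
    have hb : ‖1 - (s : ℂ) * A‖ ≤ 1 - δ * s := by
      have h3 := jp_norm A hs0 hs1
      nlinarith
    have hby : ‖1 - (s : ℂ) * A‖ + s * Real.sqrt M ≤ Real.exp (-(δ * s / 2)) := by
      have h3 := Real.add_one_le_exp (-(δ * s / 2))
      have h4 : s * Real.sqrt M ≤ s * (δ / 2) := mul_le_mul_of_nonneg_left hcase hs0
      linarith
    have hpow : (‖1 - (s : ℂ) * A‖ + s * Real.sqrt M) ^ (N - 2)
        ≤ Real.exp (-(δ * s * (N - 2) / 2)) := by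
      refine (pow_le_pow_left₀ (by positivity) hby _).trans (le_of_eq ?_)
      rw [← Real.exp_nat_mul, Nat.cast_sub hN]
      congr 1
      push_cast
      ring
    have hcoef : (N : ℝ) ^ 2 / 2 * (s * Real.sqrt M) ^ 2 ≤ 8 / δ ^ 2 * N ^ 2 * M := by
      rw [mul_pow, Real.sq_sqrt hM]
      have hs2 : s ^ 2 ≤ 1 := pow_le_one₀ hs0 hs1
      have h5 : (N : ℝ) ^ 2 / 2 * (s ^ 2 * M) ≤ (N : ℝ) ^ 2 / 2 * (1 * M) := by gcongr
      have h6 : 8 * ((N : ℝ) ^ 2 * M) ≤ 8 / δ ^ 2 * ((N : ℝ) ^ 2 * M) :=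
        mul_le_mul_of_nonneg_right hδ8 (by positivity)
      have h7 : 0 ≤ (N : ℝ) ^ 2 * M := by positivity
      linarith
    exact mul_le_mul hcoef hpow (by positivity) (by positivity)
  · have hM4 : δ ^ 2 / 4 ≤ M := by
      have h1 : (δ / 2) ^ 2 ≤ Real.sqrt M ^ 2 := pow_le_pow_left₀ (by positivity) hcase.le 2
      rw [Real.sq_sqrt hM] at h1
      linarith
    have h1 : ‖(∏ j, (1 - (s : ℂ) * a j)) - (1 - (s : ℂ) * A) ^ N‖
        ≤ 2 * Real.exp (-(δ * s * N)) := by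
      refine (norm_sub_le _ _).trans ?_
      linarith
    refine h1.trans ?_
    have h2 : (2 : ℝ) ≤ 8 / δ ^ 2 * N ^ 2 * M := by
      have h3 : 8 / δ ^ 2 * (δ ^ 2 / 4) = 2 := by
        field_simp
        norm_num
      have h4 : 8 / δ ^ 2 * (δ ^ 2 / 4) ≤ 8 / δ ^ 2 * M :=
        mul_le_mul_of_nonneg_left hM4 (by positivity)
      have h5 : (1 : ℝ) ≤ (N : ℝ) ^ 2 := by nlinarith
      have h6 : 0 ≤ 8 / δ ^ 2 * M := by positivity
      nlinarith
    have h7 : Real.exp (-(δ * s * N)) ≤ Real.exp (-(δ * s * (N - 2) / 2)) := by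
      apply Real.exp_le_exp.2
      have h8 : 0 ≤ δ * s := by positivity
      nlinarith
    exact mul_le_mul h2 h7 (Real.exp_pos _).le (by positivity)

end Pool.MP_c113aa_an.BV
end

section

set_option autoImplicit false

namespace Pool.MP_c113aa_an.BV

open Finset
/-- The integral of ∏ (1 - s a_j) over [0,1]. -/
noncomputable def JJ {N : ℕ} (a : Fin N → ℂ) : ℂ := ∫ s in (0 : ℝ)..1, ∏ j, (1 - (s : ℂ) * a j)

/-- (J0) an exponential integral.  Proof: the antiderivative is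
B(s) = (2/L^3) (1 - exp(-L s) (1 + L s + L^2 s^2/2)), B(0) = 0, B <= 2/L^3. -/
theorem integral_sq_exp_le {L s₀ : ℝ} (hL : 0 < L) (hs : 0 ≤ s₀) :
    ∫ s in (0 : ℝ)..s₀, s ^ 2 * Real.exp (-(L * s)) ≤ 2 / L ^ 3 := by
  have hder : ∀ x ∈ Set.uIcc 0 s₀, HasDerivAt
      (fun s : ℝ => 2 / L ^ 3 * (1 - Real.exp (-(L * s)) * (1 + L * s + L ^ 2 * s ^ 2 / 2)))
      (x ^ 2 * Real.exp (-(L * x))) x := by
    intro x _
    have h1 : HasDerivAt (fun s : ℝ => -(L * s)) (-L) x := by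
      have := ((hasDerivAt_id x).const_mul L).neg
      rw [mul_one] at this
      exact this
    have h2 : HasDerivAt (fun s : ℝ => Real.exp (-(L * s))) (Real.exp (-(L * x)) * (-L)) x :=
      h1.exp
    have h3 : HasDerivAt (fun s : ℝ => L ^ 2 * s ^ 2 / 2) (L ^ 2 * (2 * x) / 2) x := by
      have := ((hasDerivAt_pow 2 x).const_mul (L ^ 2)).div_const 2
      simpa using this
    have h4 : HasDerivAt (fun s : ℝ => 1 + L * s) L x := by
      simpa using ((hasDerivAt_id x).const_mul L).const_add 1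
    have h5 := h4.add h3
    have h6 := ((h2.mul h5).const_sub 1).const_mul (2 / L ^ 3)
    have e : x ^ 2 * Real.exp (-(L * x)) = 2 / L ^ 3 * -(Real.exp (-(L * x)) * (-L) *
        ((fun s : ℝ => 1 + L * s) x + (fun s : ℝ => L ^ 2 * s ^ 2 / 2) x) +
        Real.exp (-(L * x)) * (L + L ^ 2 * (2 * x) / 2)) := by
      simp only
      field_simp
      ring
    rw [e]
    exact h6
  have hint : IntervalIntegrable (fun x : ℝ => x ^ 2 * Real.exp (-(L * x)))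
      MeasureTheory.volume 0 s₀ := by
    apply Continuous.intervalIntegrable
    fun_prop
  rw [intervalIntegral.integral_eq_sub_of_hasDerivAt hder hint]
  have h7 : 0 ≤ Real.exp (-(L * s₀)) * (1 + L * s₀ + L ^ 2 * s₀ ^ 2 / 2) := by positivity
  have h8 : 0 ≤ 2 / L ^ 3 := by positivity
  simp only [mul_zero, neg_zero, Real.exp_zero, add_zero, one_mul]
  have h9 := mul_nonneg h8 h7
  norm_num
  nlinarith

private theorem jint_cont {N : ℕ} (a : Fin N → ℂ) :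
    Continuous fun s : ℝ => ∏ j, (1 - (s : ℂ) * a j) := by
  fun_prop

private theorem jint_cont2 (N : ℕ) (b : ℂ) : Continuous fun s : ℝ => (1 - (s : ℂ) * b) ^ N := by
  fun_prop

/-- splitting of the difference -/
private theorem jint_split {N : ℕ} (hN : 2 ≤ N) (a : Fin N → ℂ) {δ M : ℝ} (hδ0 : 0 < δ)
    (hδ1 : δ ≤ 1) (hM : 0 ≤ M) (h : ∑ j, ‖1 - a j‖ ≤ (1 - δ) * N)
    (hM2 : ∑ j, ‖a j - (∑ i, a i) / N‖ ^ 2 ≤ N * M) (C : ℝ) (hC0 : 0 ≤ C)
    (hC : ∀ s : ℝ, δ / (4 * (M + 1)) ≤ s → s ≤ 1 →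
      ‖(∏ j, (1 - (s : ℂ) * a j)) - (1 - (s : ℂ) * ((∑ j, a j) / N)) ^ N‖ ≤ C) :
    ‖JJ a - ∫ s in (0 : ℝ)..1, (1 - (s : ℂ) * ((∑ j, a j) / N)) ^ N‖
      ≤ 192 * M / (δ ^ 3 * N ^ 2) + C := by
  set s₀ : ℝ := δ / (4 * (M + 1)) with hs₀
  have hN0 : (0 : ℝ) < N := by
    have : 0 < N := by omega
    exact_mod_cast this
  have hs0 : 0 < s₀ := by rw [hs₀]; positivity
  have hs1 : s₀ ≤ 1 := by
    rw [hs₀, div_le_one (by positivity)]
    linarith
  set D : ℝ → ℂ := fun s => (∏ j, (1 - (s : ℂ) * a j)) -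
    (1 - (s : ℂ) * ((∑ j, a j) / N)) ^ N with hD
  have hDc : Continuous D := (jint_cont a).sub (jint_cont2 N _)
  have hDi : ∀ u v : ℝ, IntervalIntegrable D MeasureTheory.volume u v := fun u v =>
    hDc.intervalIntegrable u v
  have h1 : JJ a - ∫ s in (0 : ℝ)..1, (1 - (s : ℂ) * ((∑ j, a j) / N)) ^ N =
      (∫ s in (0 : ℝ)..s₀, D s) + ∫ s in s₀..1, D s := by
    rw [intervalIntegral.integral_add_adjacent_intervals (hDi _ _) (hDi _ _)]
    unfold JJ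
    rw [← intervalIntegral.integral_sub ((jint_cont a).intervalIntegrable _ _)
      ((jint_cont2 N _).intervalIntegrable _ _)]
  rw [h1]
  refine (norm_add_le _ _).trans (add_le_add ?_ ?_)
  · have h2 : ‖∫ s in (0 : ℝ)..s₀, D s‖ ≤
        ∫ s in (0 : ℝ)..s₀, 12 * N * M * (s ^ 2 * Real.exp (-(δ * N / 2 * s))) := by
      refine intervalIntegral.norm_integral_le_of_norm_le hs0.le ?_ ?_
      · refine Filter.Eventually.of_forall fun s hs => ?_
        have := norm_prod_sub_small (by omega) a hδ0 hδ1 hM h hM2 hs.1.le hs.2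
        refine this.trans (le_of_eq ?_)
        have e : -(δ * s * N / 2) = -(δ * N / 2 * s) := by ring
        rw [e]
        ring
      · apply Continuous.intervalIntegrable
        fun_prop
    refine h2.trans ?_
    rw [intervalIntegral.integral_const_mul]
    have h3 := integral_sq_exp_le (L := δ * N / 2) (s₀ := s₀) (by positivity) hs0.le
    calc 12 * N * M * ∫ s in (0 : ℝ)..s₀, s ^ 2 * Real.exp (-(δ * N / 2 * s)) ≤
        12 * N * M * (2 / (δ * N / 2) ^ 3) := mul_le_mul_of_nonneg_left h3 (by positivity)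
      _ = 192 * M / (δ ^ 3 * N ^ 2) := by
          field_simp
          ring
  · have h4 : ‖∫ s in s₀..1, D s‖ ≤ C * |1 - s₀| := by
      refine intervalIntegral.norm_integral_le_of_norm_le_const fun s hs => ?_
      rw [Set.uIoc_of_le hs1] at hs
      exact hC s hs.1.le hs.2
    refine h4.trans ?_
    rw [abs_of_nonneg (by linarith)]
    nlinarith

/-- (J4) Proof: split the integral of the difference at s₀ = δ/(4(M+1)).  On [0,s₀] use (J2)
(norm_prod_sub_small) and (J0) with L = δ N/2: 12 N M * 16/(δ N)^3 = 192 M/(δ^3 N^2).  On [s₀,1] use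
(J1): the norm is <= 2 exp(-δ s N) <= 2 exp(-δ s₀ N).  (intervalIntegral.norm_integral_le_of_norm_le,
all integrands are continuous.) -/
theorem norm_JJ_sub_le_one {N : ℕ} (hN : 2 ≤ N) (a : Fin N → ℂ) {δ M : ℝ} (hδ0 : 0 < δ)
    (hδ1 : δ ≤ 1) (hM : 0 ≤ M) (h : ∑ j, ‖1 - a j‖ ≤ (1 - δ) * N)
    (hM2 : ∑ j, ‖a j - (∑ i, a i) / N‖ ^ 2 ≤ N * M) :
    ‖JJ a - ∫ s in (0 : ℝ)..1, (1 - (s : ℂ) * ((∑ j, a j) / N)) ^ N‖
      ≤ 192 * M / (δ ^ 3 * N ^ 2) + 2 * Real.exp (-(δ ^ 2 * N / (4 * (M + 1)))) := by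
  refine jint_split hN a hδ0 hδ1 hM h hM2 _ (by positivity) ?_
  intro s hs0 hs1
  have hsn : 0 ≤ s := le_trans (by positivity) hs0
  have h1 := norm_prod_one_sub_le_exp a hδ1 h hsn hs1
  have h2 := norm_one_sub_mean_pow_le_exp (by omega) a hδ1 h hsn hs1
  have h3 : Real.exp (-(δ * s * N)) ≤ Real.exp (-(δ ^ 2 * N / (4 * (M + 1)))) := by
    apply Real.exp_le_exp.mpr
    have h4 : δ ^ 2 * N / (4 * (M + 1)) = δ * (δ / (4 * (M + 1))) * N := by ring
    rw [h4]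
    have h5 : δ * (δ / (4 * (M + 1))) * N ≤ δ * s * N := by gcongr
    linarith
  calc _ ≤ ‖∏ j, (1 - (s : ℂ) * a j)‖ + ‖(1 - (s : ℂ) * ((∑ j, a j) / N)) ^ N‖ :=
        norm_sub_le _ _
    _ ≤ 2 * Real.exp (-(δ ^ 2 * N / (4 * (M + 1)))) := by linarith

/-- (J5) Proof: as (J4), but on [s₀,1] use (J3) (norm_prod_sub_all) and s >= s₀. -/
theorem norm_JJ_sub_le_two {N : ℕ} (hN : 2 ≤ N) (a : Fin N → ℂ) {δ M : ℝ} (hδ0 : 0 < δ)
    (hδ1 : δ ≤ 1) (hM : 0 ≤ M) (h : ∑ j, ‖1 - a j‖ ≤ (1 - δ) * N)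
    (hM2 : ∑ j, ‖a j - (∑ i, a i) / N‖ ^ 2 ≤ N * M) :
    ‖JJ a - ∫ s in (0 : ℝ)..1, (1 - (s : ℂ) * ((∑ j, a j) / N)) ^ N‖
      ≤ 192 * M / (δ ^ 3 * N ^ 2)
        + 8 / δ ^ 2 * N ^ 2 * M * Real.exp (-(δ ^ 2 * (N - 2) / (8 * (M + 1)))) := by
  refine jint_split hN a hδ0 hδ1 hM h hM2 _ (by positivity) ?_
  intro s hs0 hs1
  have hsn : 0 ≤ s := le_trans (by positivity) hs0
  have h1 := norm_prod_sub_all hN a hδ0 hδ1 hM h hM2 hsn hs1
  refine h1.trans (mul_le_mul_of_nonneg_left (Real.exp_le_exp.mpr ?_) (by positivity))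
  have hN2 : (0 : ℝ) ≤ (N : ℝ) - 2 := by
    have : (2 : ℝ) ≤ N := by exact_mod_cast hN
    linarith
  have h4 : δ ^ 2 * ((N : ℝ) - 2) / (8 * (M + 1)) =
      δ * (δ / (4 * (M + 1))) * ((N : ℝ) - 2) / 2 := by
    field_simp
    ring
  rw [h4]
  have h5 : δ * (δ / (4 * (M + 1))) * ((N : ℝ) - 2) / 2 ≤ δ * s * ((N : ℝ) - 2) / 2 := by gcongr
  linarith

/-- (J6) Proof: antiderivative -(1 - s b)^(N+1)/((N+1) b). -/
theorem integral_one_sub_pow (N : ℕ) (b : ℂ) (hb : b ≠ 0) :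
    ∫ s in (0 : ℝ)..1, (1 - (s : ℂ) * b) ^ N = (1 - (1 - b) ^ (N + 1)) / (((N : ℂ) + 1) * b) := by
  have hN1 : ((N : ℂ) + 1) ≠ 0 := by exact_mod_cast Nat.succ_ne_zero N
  have hder : ∀ x ∈ Set.uIcc (0 : ℝ) 1, HasDerivAt
      (fun s : ℝ => -(1 - (s : ℂ) * b) ^ (N + 1) / (((N : ℂ) + 1) * b))
      ((1 - (x : ℂ) * b) ^ N) x := by
    intro x _
    have h1 : HasDerivAt (fun s : ℝ => 1 - (s : ℂ) * b) (-b) x := by
      have := ((Complex.ofRealCLM.hasDerivAt (x := x)).mul_const b).const_sub 1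
      simpa using this
    have h2 := ((h1.pow (N + 1)).neg).div_const (((N : ℂ) + 1) * b)
    have e : (1 - (x : ℂ) * b) ^ N =
        -(((N + 1 : ℕ) : ℂ) * (1 - (x : ℂ) * b) ^ (N + 1 - 1) * (-b)) / (((N : ℂ) + 1) * b) := by
      rw [Nat.add_sub_cancel]
      push_cast
      field_simp
    rw [e]
    exact h2
  rw [intervalIntegral.integral_eq_sub_of_hasDerivAt hder
    ((jint_cont2 N b).intervalIntegrable _ _)]
  simp only [Complex.ofReal_one, one_mul, Complex.ofReal_zero, zero_mul, sub_zero, one_pow]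
  ring

end Pool.MP_c113aa_an.BV
end

section

set_option autoImplicit false

namespace Pool.MP_c113aa_an.BV

open Finset

variable {p : ℝ} {N : ℕ} {z w : Fin N → ℂ} {c : ℂ}

/-- (C6) the value of f/c at c as an integral.  Proof: f(y) = y ∏ (1 - y/z_k), by der and the
fundamental theorem of calculus for s ↦ f(s c) on [0,1] (derivative c ∏ (1 - s c/w_j)):
f(c) - f(0) = c * JJ(...), f(c) = c ∏ (1-c/z_k); cancel c. -/
theorem Cfg.prod_eq_JJ (h : Cfg p N z w c) (hc : c ≠ 0) :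
    ∏ k, (1 - c / z k) = JJ (fun j => c * (w j)⁻¹) := by
  have hder : ∀ s ∈ Set.uIcc (0 : ℝ) 1,
      HasDerivAt (fun s : ℝ => ((s : ℂ) * c) * ∏ k, (1 - ((s : ℂ) * c) / z k))
        ((∏ j, (1 - ((s : ℂ) * c) / w j)) * c) s := by
    intro s _
    have h1 : HasDerivAt (fun y : ℂ => y * c) c (s : ℂ) := by
      simpa using (hasDerivAt_id (s : ℂ)).mul_const c
    have h2 := (h.der ((s : ℂ) * c)).comp (s : ℂ) h1
    exact h2.comp_ofReal
  have hcont : Continuous (fun s : ℝ => (∏ j, (1 - ((s : ℂ) * c) / w j)) * c) := by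
    fun_prop
  have hint := intervalIntegral.integral_eq_sub_of_hasDerivAt hder
    (hcont.intervalIntegrable 0 1)
  have hJ : ∫ s in (0 : ℝ)..1, (∏ j, (1 - ((s : ℂ) * c) / w j)) * c
      = JJ (fun j => c * (w j)⁻¹) * c := by
    rw [intervalIntegral.integral_mul_const]
    unfold JJ
    congr 1
    refine intervalIntegral.integral_congr (fun s _ => ?_)
    refine Finset.prod_congr rfl (fun j _ => ?_)
    rw [div_eq_mul_inv, mul_assoc]
  rw [hJ] at hint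
  simp only [Complex.ofReal_one, one_mul, Complex.ofReal_zero, zero_mul, sub_zero] at hint
  have h3 : c * ∏ k, (1 - c / z k) = c * JJ (fun j => c * (w j)⁻¹) := by
    rw [← hint]
    ring
  exact mul_left_cancel₀ hc h3

/-- (C7) the product of the distances from c to the zeros.  Proof:
‖z_k - c‖ = ‖z_k‖ ‖1 - c/z_k‖, prod, (C6). -/
theorem Cfg.prod_t_eq (h : Cfg p N z w c) (hc : c ≠ 0) :
    ‖c‖ * ∏ k, ‖z k - c‖
      = ((N : ℝ) + 1) * ‖c‖ * ‖JJ (fun j => c * (w j)⁻¹)‖ * ∏ j, ‖w j‖ := by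
  have h1 : ∀ k, ‖z k - c‖ = ‖z k‖ * ‖1 - c / z k‖ := by
    intro k
    rw [← norm_mul]
    congr 1
    have := h.z_ne k
    field_simp
  rw [← h.prod_eq_JJ hc, Finset.prod_congr rfl (fun k _ => h1 k), Finset.prod_mul_distrib, h.prod,
    norm_prod]
  ring

/-- (C9) the derivative of f via the zeros.  Proof: uniqueness of the derivative (h.der x) and the
product rule; (-1/z_k)/(1 - x/z_k) = 1/(x - z_k). -/
theorem Cfg.deriv_eq (h : Cfg p N z w c) (x : ℂ) (hx : x ≠ 0) (hxz : ∀ k, x ≠ z k) :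
    ∏ j, (1 - x * (w j)⁻¹)
      = (x * ∏ k, (1 - x / z k)) * (x⁻¹ + ∑ k, (x - z k)⁻¹) := by
  have hf : ∀ k, HasDerivAt (fun y : ℂ => 1 - y / z k) (-(1 / z k)) x := by
    intro k
    have := ((hasDerivAt_id x).div_const (z k)).const_sub 1
    simpa using this
  have h1 := HasDerivAt.fun_finsetProd (u := (Finset.univ : Finset (Fin N)))
    (f := fun k (y : ℂ) => 1 - y / z k) (f' := fun k => -(1 / z k)) (x := x)
    (fun k _ => hf k)
  have h2 := (hasDerivAt_id x).mul h1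
  have h3 := (h.der x).unique h2
  have h4 : ∏ j, (1 - x * (w j)⁻¹) = ∏ j, (1 - x / w j) := by
    refine Finset.prod_congr rfl (fun j _ => ?_)
    rw [div_eq_mul_inv]
  rw [h4, h3]
  have h5 : ∀ k ∈ (Finset.univ : Finset (Fin N)),
      (∏ j ∈ (Finset.univ : Finset (Fin N)).erase k, (1 - x / z j)) • (-(1 / z k))
        = (∏ j, (1 - x / z j)) * (x - z k)⁻¹ := by
    intro k hk
    rw [← Finset.mul_prod_erase _ _ hk, smul_eq_mul]
    have hz := h.z_ne k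
    have hxk : x - z k ≠ 0 := sub_ne_zero.mpr (hxz k)
    have h6 : (1 - x / z k) * (x - z k)⁻¹ = -(1 / z k) := by
      field_simp
      ring
    calc (∏ j ∈ (Finset.univ : Finset (Fin N)).erase k, (1 - x / z j)) * (-(1 / z k))
        = (∏ j ∈ (Finset.univ : Finset (Fin N)).erase k, (1 - x / z j))
          * ((1 - x / z k) * (x - z k)⁻¹) := by rw [h6]
      _ = _ := by ring
  rw [Finset.sum_congr rfl h5, ← Finset.mul_sum]
  simp only [id]
  field_simp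

end Pool.MP_c113aa_an.BV
end

section

set_option autoImplicit false

namespace Pool.MP_c113aa_an.BV

open Finset


end Pool.MP_c113aa_an.BV
end
end

section

set_option autoImplicit false

namespace Pool.MP_c113aa_an.BV

open Finset Polynomial
/-- Z are the zeros and w the critical points of a monic polynomial of degree N + 1. -/
def CritOf {N : ℕ} (Z : Fin (N + 1) → ℂ) (w : Fin N → ℂ) : Prop :=
  ∀ x : ℂ, HasDerivAt (fun y : ℂ => ∏ k, (y - Z k)) (((N : ℂ) + 1) * ∏ j, (x - w j)) x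

/-- the polynomial form.  Proof: Polynomial.funext and Polynomial.hasDerivAt. -/
theorem critOf_iff {N : ℕ} (Z : Fin (N + 1) → ℂ) (w : Fin N → ℂ) :
    CritOf Z w ↔
      derivative (∏ k, (X - C (Z k)) : ℂ[X]) = C ((N : ℂ) + 1) * ∏ j, (X - C (w j)) := by
  have hfun : (fun y : ℂ => ∏ k, (y - Z k))
      = fun y : ℂ => (∏ k, (X - C (Z k)) : ℂ[X]).eval y := by
    funext y
    rw [eval_prod]
    apply Finset.prod_congr rfl
    intro k _
    simp
  have hev : ∀ x : ℂ, (C ((N : ℂ) + 1) * ∏ j, (X - C (w j)) : ℂ[X]).eval x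
      = ((N : ℂ) + 1) * ∏ j, (x - w j) := by
    intro x
    rw [eval_mul, eval_C, eval_prod]
    congr 1
    apply Finset.prod_congr rfl
    intro k _
    simp
  constructor
  · intro h
    apply Polynomial.funext
    intro x
    rw [hev]
    have h1 := h x
    rw [hfun] at h1
    exact ((∏ k, (X - C (Z k)) : ℂ[X]).hasDerivAt x).unique h1
  · intro h x
    rw [hfun, ← hev, ← h]
    exact (∏ k, (X - C (Z k)) : ℂ[X]).hasDerivAt x

/-- invariance under permutation of the zeros -/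
theorem CritOf.perm {N : ℕ} {Z : Fin (N + 1) → ℂ} {w : Fin N → ℂ} (h : CritOf Z w)
    (σ : Equiv.Perm (Fin (N + 1))) : CritOf (fun k => Z (σ k)) w := by
  intro x
  have e : (fun y : ℂ => ∏ k, (y - Z (σ k))) = fun y : ℂ => ∏ k, (y - Z k) := by
    funext y
    exact Equiv.prod_comp σ (fun k => y - Z k)
  rw [e]
  exact h x

/-- invariance under affine maps: ∏ (y - (Z_k-a)/D) = D^-(N+1) ∏ (D y + a - Z_k); chain rule. -/
theorem CritOf.affine {N : ℕ} {Z : Fin (N + 1) → ℂ} {w : Fin N → ℂ} (h : CritOf Z w)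
    (a D : ℂ) (hD : D ≠ 0) : CritOf (fun k => (Z k - a) / D) (fun j => (w j - a) / D) := by
  intro x
  have e : (fun y : ℂ => ∏ k, (y - (Z k - a) / D))
      = fun y : ℂ => (D ^ (N + 1))⁻¹ * ∏ k, ((D * y + a) - Z k) := by
    funext y
    have h1 : ∀ k, (D * y + a) - Z k = D * (y - (Z k - a) / D) := by
      intro k
      field_simp
      ring
    simp_rw [h1]
    rw [Finset.prod_mul_distrib, Finset.prod_const, Finset.card_univ, Fintype.card_fin,
      ← mul_assoc, inv_mul_cancel₀ (pow_ne_zero _ hD), one_mul]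
  have e2 : ((N : ℂ) + 1) * ∏ j, (x - (w j - a) / D)
      = (D ^ (N + 1))⁻¹ * ((((N : ℂ) + 1) * ∏ j, ((D * x + a) - w j)) * D) := by
    have h1 : ∀ j, (D * x + a) - w j = D * (x - (w j - a) / D) := by
      intro j
      field_simp
      ring
    simp_rw [h1]
    rw [Finset.prod_mul_distrib, Finset.prod_const, Finset.card_univ, Fintype.card_fin]
    generalize (∏ j, (x - (w j - a) / D)) = P
    rw [pow_succ]
    field_simp
  rw [e, e2]
  have hin : HasDerivAt (fun y : ℂ => D * y + a) D x := by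
    have := ((hasDerivAt_id x).const_mul D).add_const a
    simpa using this
  have hout := h (D * x + a)
  exact (HasDerivAt.comp x hout hin).const_mul _

end Pool.MP_c113aa_an.BV
end
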