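import Mathlib
import Pool.Agent.Lib.MP_c113aa_an.Crit1

section

set_option autoImplicit false

namespace Pool.MP_c113aa_an.BV

theorem schur_lin (n : ℕ) : ∀ (E : Type) [NormedAddCommGroup E] [InnerProductSpace ℂ E]
    [FiniteDimensional ℂ E], Module.finrank ℂ E = n → ∀ T : E →ₗ[ℂ] E,
    ∃ b : OrthonormalBasis (Fin n) ℂ E, ∀ i j : Fin n, j < i → inner ℂ (b i) (T (b j)) = 0 := by
  induction n with
  | zero =>
    intro E _ _ _ hE T
    refine ⟨(stdOrthonormalBasis ℂ E).reindex (finCongr hE), fun i => i.elim0⟩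
  | succ n ih =>
    intro E _ _ _ hE T
    have hnt : Nontrivial E := Module.nontrivial_of_finrank_pos (R := ℂ) (by omega)
    obtain ⟨μ, hμ⟩ := Module.End.exists_eigenvalue T
    obtain ⟨v, hv⟩ := hμ.exists_hasEigenvector
    have hv0 : v ≠ 0 := hv.2
    have hTv : T v = μ • v := hv.apply_eq_smul
    set u : E := ((‖v‖ : ℂ)⁻¹) • v with hu
    have hunorm : ‖u‖ = 1 := by
      rw [hu, norm_smul, norm_inv, Complex.norm_real, norm_norm]
      exact inv_mul_cancel₀ (norm_ne_zero_iff.mpr hv0)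
    have hu0 : u ≠ 0 := by
      intro h
      rw [h, norm_zero] at hunorm
      exact zero_ne_one hunorm
    have hTu : T u = μ • u := by
      rw [hu, map_smul, hTv, smul_comm]
    let W : Submodule ℂ E := (Submodule.span ℂ {u})ᗮ
    have hW : Module.finrank ℂ W = n := by
      have : Fact (Module.finrank ℂ E = n + 1) := ⟨hE⟩
      exact Submodule.finrank_orthogonal_span_singleton hu0
    let T' : W →ₗ[ℂ] W := (W.orthogonalProjectionOnto : E →ₗ[ℂ] W) ∘ₗ T ∘ₗ W.subtype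
    obtain ⟨b', hb'⟩ := ih W hW T'
    have hperp : ∀ i, inner ℂ u (b' i : E) = 0 := fun i =>
      Submodule.mem_orthogonal_singleton_iff_inner_right.mp (b' i).2
    have hperp' : ∀ i, inner ℂ (b' i : E) u = 0 := fun i =>
      Submodule.mem_orthogonal_singleton_iff_inner_left.mp (b' i).2
    have hb'on : ∀ i j, inner ℂ (b' i : E) (b' j : E) = if i = j then (1 : ℂ) else 0 := by
      intro i j
      have := orthonormal_iff_ite.mp b'.orthonormal i j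
      rwa [Submodule.coe_inner] at this
    have hort : Orthonormal ℂ (Fin.cons u (fun i => (b' i : E)) : Fin (n + 1) → E) := by
      rw [orthonormal_iff_ite]
      intro i j
      refine Fin.cases ?_ (fun i' => ?_) i <;> refine Fin.cases ?_ (fun j' => ?_) j
      · simp [inner_self_eq_norm_sq_to_K, hunorm]
      · simp [hperp, (Fin.succ_ne_zero j').symm]
      · simp [hperp']
      · simp [hb'on, Fin.succ_inj]
    have hcard : Fintype.card (Fin (n + 1)) = Module.finrank ℂ E := by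
      rw [hE, Fintype.card_fin]
    let b := OrthonormalBasis.mk hort (by
      have := hort.linearIndependent.span_eq_top_of_card_eq_finrank' hcard
      rw [this])
    have hbdef : ∀ i, b i = (Fin.cons u (fun i => (b' i : E)) : Fin (n + 1) → E) i := by
      intro i
      simp [b]
    refine ⟨b, ?_⟩
    intro i j hij
    rw [hbdef, hbdef]
    refine Fin.cases (fun hij => ?_) (fun i' hij => ?_) i hij
    · exact absurd hij (Fin.not_lt_zero _)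
    · revert hij
      refine Fin.cases (fun _ => ?_) (fun j' hij => ?_) j
      · simp only [Fin.cons_succ, Fin.cons_zero]
        rw [hTu, inner_smul_right, hperp', mul_zero]
      · simp only [Fin.cons_succ]
        have h1 := hb' i' j' (Fin.succ_lt_succ_iff.mp hij)
        have h2 : T' (b' j') = W.orthogonalProjectionOnto (T (b' j' : E)) := rfl
        rw [h2, Submodule.inner_orthogonalProjectionOnto_eq_of_mem_left] at h1
        exact h1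

/-- Schur triangularisation (upper triangular: entries below the diagonal vanish).
Proof: induction on n.  Step n+1: take a unit eigenvector u of A (Matrix/Module.End.exists_eigenvalue
for ℂ), extend it to an orthonormal basis / unitary matrix U1 with first column u; then
star U1 * A * U1 has first column (lambda,0,...,0)^T.  Let A' be the lower right n x n block,
U' from the induction hypothesis; U = U1 * (1 ⊕ U').  (Matrix.fromBlocks / Fin.cons, reindexing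
Fin 1 ⊕ Fin n ≃ Fin (n+1), or work with Fin.succ submatrices directly.)  Alternative: prove it for
linear maps with an OrthonormalBasis by induction on the dimension. -/
theorem schur (n : ℕ) (A : Matrix (Fin n) (Fin n) ℂ) :
    ∃ U ∈ Matrix.unitaryGroup (Fin n) ℂ, (star U * A * U).BlockTriangular id := by
  obtain ⟨b, hb⟩ := schur_lin n (EuclideanSpace ℂ (Fin n)) (by simp) (Matrix.toEuclideanLin A)
  let U : Matrix (Fin n) (Fin n) ℂ := Matrix.of (fun i j => b j i)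
  have hinner : ∀ (x y : EuclideanSpace ℂ (Fin n)),
      inner ℂ x y = ∑ k, star (x k) * y k := by
    intro x y
    rw [PiLp.inner_apply]
    refine Finset.sum_congr rfl (fun k _ => ?_)
    rw [RCLike.inner_apply, mul_comm]
    rfl
  have hUU : star U * U = 1 := by
    ext i j
    rw [Matrix.mul_apply, Matrix.one_apply]
    have := orthonormal_iff_ite.mp b.orthonormal i j
    rw [hinner] at this
    rw [← this]
    refine Finset.sum_congr rfl (fun k _ => ?_)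
    simp [U, Matrix.star_apply]
  refine ⟨U, Matrix.mem_unitaryGroup_iff'.mpr hUU, ?_⟩
  intro i j hij
  have h := hb i j hij
  rw [hinner] at h
  rw [Matrix.mul_assoc, Matrix.mul_apply]
  rw [← h]
  refine Finset.sum_congr rfl (fun k _ => ?_)
  simp only [U, Matrix.star_apply, Matrix.of_apply, Matrix.mul_apply, Matrix.ofLp_toEuclideanLin_apply, Matrix.mulVec, dotProduct]

end Pool.MP_c113aa_an.BV
end

section

set_option autoImplicit false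

namespace Pool.MP_c113aa_an.BV

open Finset Polynomial
/-- (D1) a unitary matrix with constant first column.  Proof: extend the unit vector
(1/sqrt n, ..., 1/sqrt n) of EuclideanSpace ℂ (Fin (N+1)) to an orthonormal basis indexed by
Fin (N+1) (Orthonormal.exists_orthonormalBasis_extension_of_card_eq) and take the matrix of
its coordinates; or use the discrete Fourier matrix U k j = exp(2 π i j k/n)/sqrt n. -/
theorem exists_unitary_const (N : ℕ) : ∃ U ∈ Matrix.unitaryGroup (Fin (N + 1)) ℂ,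
    ∀ k, U k 0 = ((Real.sqrt ((N : ℝ) + 1))⁻¹ : ℝ) := by
  classical
  set u : EuclideanSpace ℂ (Fin (N + 1)) :=
    WithLp.toLp 2 (fun _ => (((Real.sqrt ((N : ℝ) + 1))⁻¹ : ℝ) : ℂ)) with hu
  have hN : (0 : ℝ) < (N : ℝ) + 1 := by positivity
  have hnorm : ‖u‖ = 1 := by
    rw [EuclideanSpace.norm_eq]
    have h1 : ∀ i : Fin (N + 1), ‖u.ofLp i‖ ^ 2 = ((N : ℝ) + 1)⁻¹ := by
      intro i
      have h2 : u.ofLp i = (((Real.sqrt ((N : ℝ) + 1))⁻¹ : ℝ) : ℂ) := rfl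
      rw [h2, Complex.norm_real, Real.norm_eq_abs, sq_abs, inv_pow, Real.sq_sqrt hN.le]
    rw [Finset.sum_congr rfl fun i _ => h1 i, Finset.sum_const, Finset.card_univ,
      Fintype.card_fin, nsmul_eq_mul]
    push_cast
    rw [mul_inv_cancel₀ hN.ne', Real.sqrt_one]
  have hon : Orthonormal ℂ (Set.domRestrict ({0} : Set (Fin (N + 1)))
      (fun _ : Fin (N + 1) => u)) := by
    constructor
    · intro i
      exact hnorm
    · intro i j hij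
      exact absurd (Subsingleton.elim i j) hij
  obtain ⟨b, hb⟩ := hon.exists_orthonormalBasis_extension_of_card_eq (by simp)
  refine ⟨(EuclideanSpace.basisFun (Fin (N + 1)) ℂ).toBasis.toMatrix b,
    (EuclideanSpace.basisFun (Fin (N + 1)) ℂ).toMatrix_orthonormalBasis_mem_unitary b,
    fun k => ?_⟩
  rw [Module.Basis.toMatrix_apply, hb 0 (Set.mem_singleton 0)]
  rfl

end Pool.MP_c113aa_an.BV
end

section

set_option autoImplicit false

namespace Pool.MP_c113aa_an.BV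

open Finset Polynomial

private theorem dbsb_adj {n : ℕ} (V U A : Matrix (Fin n) (Fin n) ℂ[X]) (h : V * U = 1) :
    Matrix.adjugate (V * A * U) = V * Matrix.adjugate A * U := by
  have h' : U * V = 1 := mul_eq_one_comm.mp h
  have hU : Matrix.adjugate U = U.det • V := by
    calc Matrix.adjugate U = V * (U * Matrix.adjugate U) := by
          rw [← Matrix.mul_assoc, h, Matrix.one_mul]
      _ = V * (U.det • (1 : Matrix (Fin n) (Fin n) ℂ[X])) := by rw [Matrix.mul_adjugate]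
      _ = U.det • V := by rw [Matrix.mul_smul, Matrix.mul_one]
  have hV : Matrix.adjugate V = V.det • U := by
    calc Matrix.adjugate V = U * (V * Matrix.adjugate V) := by
          rw [← Matrix.mul_assoc, h', Matrix.one_mul]
      _ = U * (V.det • (1 : Matrix (Fin n) (Fin n) ℂ[X])) := by rw [Matrix.mul_adjugate]
      _ = V.det • U := by rw [Matrix.mul_smul, Matrix.mul_one]
  have hd : U.det * V.det = 1 := by
    rw [← Matrix.det_mul, h', Matrix.det_one]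
  rw [Matrix.adjugate_mul_distrib, Matrix.adjugate_mul_distrib, hU, hV, Matrix.smul_mul,
    Matrix.mul_smul, Matrix.mul_smul, smul_smul, hd, one_smul, Matrix.mul_assoc]

/-- (D2) the characteristic polynomial of the compression.  Proof: M = star U * diagonal Z * U.
The characteristic polynomial of the submatrix without row/column 0 is the (0,0) entry of
adjugate (charmatrix M) (Matrix.adjugate_fin_succ_eq_det_submatrix).  charmatrix M =
star U' * charmatrix (diagonal Z) * U' over ℂ[X] (U' = U mapped by C), adjugate is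
antimultiplicative, and adjugate(U') = det(U') star(U'), so
adjugate(charmatrix M) = star U' * adjugate(charmatrix(diagonal Z)) * U' (det U' det(star U') = 1).
The adjugate of charmatrix(diagonal Z) = diagonal (X - Z_k) is the diagonal matrix with entries
∏_{l≠k} (X - Z_l).  Entry (0,0): ∑_k |U k 0|^2 ∏_{l≠k}(X-Z_l) = (1/(N+1)) ∑_k ∏_{l≠k}(X-Z_l), and the
derivative of ∏ (X - Z_k) is ∑_k ∏_{l≠k} (X-Z_l) (Polynomial.derivative_prod). -/
theorem charpoly_compression {N : ℕ} (Z : Fin (N + 1) → ℂ)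
    (U : Matrix (Fin (N + 1)) (Fin (N + 1)) ℂ) (hU : U ∈ Matrix.unitaryGroup (Fin (N + 1)) ℂ)
    (h0 : ∀ k, U k 0 = ((Real.sqrt ((N : ℝ) + 1))⁻¹ : ℝ)) :
    C ((N : ℂ) + 1) * ((star U * Matrix.diagonal Z * U).submatrix Fin.succ Fin.succ).charpoly
      = derivative (∏ k, (X - C (Z k)) : ℂ[X]) := by
  classical
  have hUU : star U * U = 1 := (Matrix.mem_unitaryGroup_iff').mp hU
  set M : Matrix (Fin (N + 1)) (Fin (N + 1)) ℂ := star U * Matrix.diagonal Z * U with hM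
  set V' : Matrix (Fin (N + 1)) (Fin (N + 1)) ℂ[X] := (star U).map C with hV'
  set U' : Matrix (Fin (N + 1)) (Fin (N + 1)) ℂ[X] := U.map C with hU'
  have hVU : V' * U' = 1 := by
    rw [hV', hU', ← Matrix.map_mul, hUU]
    exact Matrix.map_one _ (map_zero _) (map_one _)
  have hchar : Matrix.charmatrix M =
      V' * Matrix.diagonal (fun k => (X - C (Z k) : ℂ[X])) * U' := by
    have h1 : Matrix.diagonal (fun k => (X - C (Z k) : ℂ[X])) =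
        Matrix.scalar (Fin (N + 1)) (X : ℂ[X]) - (Matrix.diagonal Z).map C := by
      ext i j
      by_cases hij : i = j
      · subst hij
        simp
      · simp [hij]
    rw [h1, Matrix.mul_sub, Matrix.sub_mul]
    have h2 : V' * Matrix.scalar (Fin (N + 1)) (X : ℂ[X]) * U' =
        Matrix.scalar (Fin (N + 1)) (X : ℂ[X]) := by
      rw [← (Matrix.scalar_commute (X : ℂ[X]) (fun r => Commute.all _ _) V').eq,
        Matrix.mul_assoc, hVU, Matrix.mul_one]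
    have h3 : V' * (Matrix.diagonal Z).map C * U' = M.map C := by
      rw [hV', hU', hM, Matrix.map_mul, Matrix.map_mul]
    rw [h2, h3]
    rfl
  have hsub : ((M.submatrix Fin.succ Fin.succ).charpoly : ℂ[X]) =
      Matrix.adjugate (Matrix.charmatrix M) 0 0 := by
    rw [Matrix.adjugate_fin_succ_eq_det_submatrix]
    simp only [Fin.val_zero, add_zero, pow_zero, one_mul]
    rw [Matrix.charpoly]
    congr 1
    ext i j
    by_cases hij : i = j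
    · subst hij
      simp
    · have hij' : Fin.succ i ≠ Fin.succ j := fun h => hij (Fin.succ_injective _ h)
      simp [Matrix.charmatrix_apply, Matrix.diagonal_apply_ne _ hij,
        Matrix.diagonal_apply_ne _ hij']
  rw [hsub, hchar, dbsb_adj V' U' _ hVU, Matrix.adjugate_diagonal]
  rw [Matrix.mul_apply]
  simp only [Matrix.mul_diagonal]
  rw [derivative_prod_finset, Finset.mul_sum]
  refine Finset.sum_congr rfl fun k _ => ?_
  have h4 : V' 0 k = C (((Real.sqrt ((N : ℝ) + 1))⁻¹ : ℝ) : ℂ) := by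
    rw [hV', Matrix.map_apply, Matrix.star_apply, h0 k]
    congr 1
    exact Complex.conj_ofReal _
  have h5 : U' k 0 = C (((Real.sqrt ((N : ℝ) + 1))⁻¹ : ℝ) : ℂ) := by
    rw [hU', Matrix.map_apply, h0 k]
  have h6 : C ((N : ℂ) + 1) * (C (((Real.sqrt ((N : ℝ) + 1))⁻¹ : ℝ) : ℂ) *
      C (((Real.sqrt ((N : ℝ) + 1))⁻¹ : ℝ) : ℂ)) = (1 : ℂ[X]) := by
    rw [← C_mul, ← C_mul, ← C_1]
    congr 1
    have h7 : ((Real.sqrt ((N : ℝ) + 1))⁻¹ : ℝ) * ((Real.sqrt ((N : ℝ) + 1))⁻¹ : ℝ) =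
        ((N : ℝ) + 1)⁻¹ := by
      rw [← mul_inv, Real.mul_self_sqrt (by positivity)]
    rw [← Complex.ofReal_mul, h7]
    push_cast
    have : ((N : ℂ) + 1) ≠ 0 := by exact_mod_cast Nat.succ_ne_zero N
    field_simp
  have h8 : derivative (X - C (Z k) : ℂ[X]) = 1 := by simp
  rw [h4, h5, h8, mul_one]
  calc C ((N : ℂ) + 1) * (C (((Real.sqrt ((N : ℝ) + 1))⁻¹ : ℝ) : ℂ) *
        (∏ j ∈ univ.erase k, (X - C (Z j))) * C (((Real.sqrt ((N : ℝ) + 1))⁻¹ : ℝ) : ℂ))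
      = (C ((N : ℂ) + 1) * (C (((Real.sqrt ((N : ℝ) + 1))⁻¹ : ℝ) : ℂ) *
        C (((Real.sqrt ((N : ℝ) + 1))⁻¹ : ℝ) : ℂ))) * (∏ j ∈ univ.erase k, (X - C (Z j))) := by
        ring
    _ = _ := by rw [h6, one_mul]

end Pool.MP_c113aa_an.BV
end

section

set_option autoImplicit false

namespace Pool.MP_c113aa_an.BV

open Finset

/-- The choice of the threshold. -/
theorem caseA1_threshold {p δ : ℝ} (hp1 : 1 < p) (hδ0 : 0 < δ) (hδ1 : δ < 1) :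
    ∃ N₀ : ℕ, ∀ N : ℕ, N₀ ≤ N → 3 ≤ N ∧ (1 - δ) ^ (N + 1) ≤ 1 / 2 ∧
      384 * ((N : ℝ) + 1) ^ (1 / p) / (δ ^ 3 * (N : ℝ) ^ 2) ≤ 1 / (16 * ((N : ℝ) + 1)) ∧
      2 * Real.exp (-(δ ^ 2 * N / (4 * (2 * ((N : ℝ) + 1) ^ (1 / p) + 1))))
        ≤ 1 / (16 * ((N : ℝ) + 1)) := by
  have hp0 : 0 < p := by linarith
  have hq : 0 < 1 - 1 / p := by
    rw [sub_pos, div_lt_one hp0]; exact hp1
  have hcast : Filter.Tendsto (fun N : ℕ => (N : ℝ) + 1) Filter.atTop Filter.atTop :=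
    Filter.tendsto_atTop_add_const_right _ _ tendsto_natCast_atTop_atTop
  have h1 : ∀ᶠ N : ℕ in Filter.atTop, 3 ≤ N := Filter.eventually_ge_atTop 3
  have h2 : ∀ᶠ N : ℕ in Filter.atTop, (1 - δ) ^ (N + 1) ≤ 1 / 2 := by
    have := (tendsto_pow_atTop_nhds_zero_of_lt_one (by linarith : 0 ≤ 1 - δ)
      (by linarith : 1 - δ < 1)).comp (Filter.tendsto_add_atTop_nat 1)
    exact this.eventually_le_const (by norm_num)
  have h3 : ∀ᶠ N : ℕ in Filter.atTop, ((N : ℝ) + 1) ^ (-(1 - 1 / p)) ≤ δ ^ 3 / (384 * 64) := by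
    have := (tendsto_rpow_neg_atTop hq).comp hcast
    exact this.eventually_le_const (by positivity)
  have h4 : ∀ᶠ N : ℕ in Filter.atTop,
      (((N : ℝ) + 1) ^ (1 - 1 / p)) ^ (1 / (1 - 1 / p))
        * Real.exp (-(δ ^ 2 / 24) * (((N : ℝ) + 1) ^ (1 - 1 / p))) ≤ 1 / 32 := by
    have hy := (tendsto_rpow_atTop hq).comp hcast
    have := (tendsto_rpow_mul_exp_neg_mul_atTop_nhds_zero (1 / (1 - 1 / p)) (δ ^ 2 / 24)
      (by positivity)).comp hy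
    exact this.eventually_le_const (by norm_num)
  obtain ⟨N₀, hN₀⟩ := Filter.eventually_atTop.1 (h1.and (h2.and (h3.and h4)))
  refine ⟨N₀, fun N hN => ?_⟩
  obtain ⟨g1, g2, g3, g4⟩ := hN₀ N hN
  have hN3 : (3 : ℝ) ≤ N := by exact_mod_cast g1
  have hn : (0 : ℝ) < (N : ℝ) + 1 := by linarith
  have hsplit : ((N : ℝ) + 1) ^ (1 / p) = ((N : ℝ) + 1) ^ (-(1 - 1 / p)) * ((N : ℝ) + 1) := by
    rw [← Real.rpow_add_one hn.ne']
    congr 1
    ring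
  have hpow1 : (1 : ℝ) ≤ ((N : ℝ) + 1) ^ (1 / p) :=
    Real.one_le_rpow (by linarith) (by positivity)
  refine ⟨g1, g2, ?_, ?_⟩
  · rw [hsplit, div_le_div_iff₀ (by positivity) (by positivity)]
    have hpos : 0 ≤ ((N : ℝ) + 1) ^ (-(1 - 1 / p)) := by positivity
    have hsq : ((N : ℝ) + 1) ^ 2 ≤ 4 * (N : ℝ) ^ 2 := by nlinarith
    calc 384 * (((N : ℝ) + 1) ^ (-(1 - 1 / p)) * ((N : ℝ) + 1)) * (16 * ((N : ℝ) + 1))
        = 384 * 16 * (((N : ℝ) + 1) ^ (-(1 - 1 / p))) * ((N : ℝ) + 1) ^ 2 := by ring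
      _ ≤ 384 * 16 * (δ ^ 3 / (384 * 64)) * ((N : ℝ) + 1) ^ 2 := by gcongr
      _ = δ ^ 3 / 4 * ((N : ℝ) + 1) ^ 2 := by ring
      _ ≤ δ ^ 3 / 4 * (4 * (N : ℝ) ^ 2) := by gcongr
      _ = 1 * (δ ^ 3 * (N : ℝ) ^ 2) := by ring
  · have hexp : δ ^ 2 / 24 * ((N : ℝ) + 1) ^ (1 - 1 / p)
        ≤ δ ^ 2 * N / (4 * (2 * ((N : ℝ) + 1) ^ (1 / p) + 1)) := by
      rw [le_div_iff₀ (by positivity)]
      have e1 : ((N : ℝ) + 1) ^ (1 - 1 / p) * ((N : ℝ) + 1) ^ (1 / p) = (N : ℝ) + 1 := by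
        rw [← Real.rpow_add hn]
        simp
      have hY : 0 ≤ ((N : ℝ) + 1) ^ (1 - 1 / p) := by positivity
      calc δ ^ 2 / 24 * ((N : ℝ) + 1) ^ (1 - 1 / p) * (4 * (2 * ((N : ℝ) + 1) ^ (1 / p) + 1))
          ≤ δ ^ 2 / 24 * ((N : ℝ) + 1) ^ (1 - 1 / p)
            * (4 * (2 * ((N : ℝ) + 1) ^ (1 / p) + ((N : ℝ) + 1) ^ (1 / p))) := by gcongr
        _ = δ ^ 2 / 2 * (((N : ℝ) + 1) ^ (1 - 1 / p) * ((N : ℝ) + 1) ^ (1 / p)) := by ring
        _ = δ ^ 2 / 2 * ((N : ℝ) + 1) := by rw [e1]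
        _ ≤ δ ^ 2 * N := by nlinarith [sq_nonneg δ]
    have e2 : (((N : ℝ) + 1) ^ (1 - 1 / p)) ^ (1 / (1 - 1 / p)) = (N : ℝ) + 1 := by
      rw [← Real.rpow_mul hn.le, mul_one_div_cancel hq.ne', Real.rpow_one]
    rw [e2] at g4
    rw [le_div_iff₀ (by positivity)]
    calc 2 * Real.exp (-(δ ^ 2 * N / (4 * (2 * ((N : ℝ) + 1) ^ (1 / p) + 1))))
          * (16 * ((N : ℝ) + 1))
        ≤ 2 * Real.exp (-(δ ^ 2 / 24) * (((N : ℝ) + 1) ^ (1 - 1 / p)))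
          * (16 * ((N : ℝ) + 1)) := by
          gcongr
          linarith
      _ = 32 * (((N : ℝ) + 1)
          * Real.exp (-(δ ^ 2 / 24) * (((N : ℝ) + 1) ^ (1 - 1 / p)))) := by ring
      _ ≤ 32 * (1 / 32) := by gcongr
      _ = 1 := by norm_num

/-- The variance is at most the second moment. -/
theorem caseA1_variance {N : ℕ} (hN : 0 < N) (a : Fin N → ℂ) :
    ∑ j, ‖a j - (∑ i, a i) / N‖ ^ 2 ≤ ∑ j, ‖a j‖ ^ 2 := by
  have hN' : (N : ℂ) ≠ 0 := by exact_mod_cast hN.ne'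
  have hNr : (N : ℝ) ≠ 0 := by exact_mod_cast hN.ne'
  set A : ℂ := (∑ i, a i) / N with hA
  have hsum : ∑ i, a i = N * A := by rw [hA]; field_simp
  have h1 : ∀ j, ‖a j - A‖ ^ 2 = ‖a j‖ ^ 2 + ‖A‖ ^ 2 - 2 * ((a j).re * A.re + (a j).im * A.im) := by
    intro j
    rw [← Complex.normSq_eq_norm_sq, ← Complex.normSq_eq_norm_sq, ← Complex.normSq_eq_norm_sq,
      Complex.normSq_apply, Complex.normSq_apply, Complex.normSq_apply, Complex.sub_re,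
      Complex.sub_im]
    ring
  have hre : ∑ j, (a j).re = N * A.re := by
    have := congrArg Complex.re hsum
    simpa using this
  have him : ∑ j, (a j).im = N * A.im := by
    have := congrArg Complex.im hsum
    simpa using this
  rw [Finset.sum_congr rfl (fun j _ => h1 j), Finset.sum_sub_distrib, Finset.sum_add_distrib,
    ← Finset.mul_sum, Finset.sum_add_distrib, ← Finset.sum_mul, ← Finset.sum_mul, hre, him]
  have hA2 : ‖A‖ ^ 2 = A.re * A.re + A.im * A.im := by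
    rw [← Complex.normSq_eq_norm_sq, Complex.normSq_apply]
  simp only [Finset.sum_const, Finset.card_univ, Fintype.card_fin, nsmul_eq_mul]
  rw [hA2]
  have : 0 ≤ (N : ℝ) * (A.re * A.re + A.im * A.im) :=
    mul_nonneg (Nat.cast_nonneg _) (add_nonneg (mul_self_nonneg _) (mul_self_nonneg _))
  linarith

/-- (A1): in case A, |c| >= 3 is impossible for large N.
Proof.  n = N+1, v_j = 1/w_j, x_j = ‖w_j - c‖, C = ‖c‖, a_j = c v_j.  (i) C^p <= n (h.sum_le), so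
C <= n^(1/p).  (ii) ‖w_j‖ (1 + x_j) >= ‖w_j‖ + x_j >= C since ‖w_j‖ >= 1; so ‖v_j‖ <= (1+x_j)/C and
∑ ‖a_j‖^2 = C^2 ∑ ‖v_j‖^2 <= C^2 ∑ ‖v_j‖ <= C ∑ (1+x_j) <= 2 C N (h.sum_x_le); the variance
∑ ‖a_j - mean‖^2 <= ∑ ‖a_j‖^2 <= N (2C), so M = 2C.
(iii) ∏ ‖w_j‖ >= C^N / ∏ (1+x_j) >= (C/2)^N >= (3/2)^N by prod_le_pow (∑ (1+x_j) <= 2 N).
(iv) A = mean of a_j: ‖1-A‖ <= 1-δ, so A ≠ 0 (‖A‖ >= δ), ‖A‖ <= 2; J0 = (1-(1-A)^n)/(n A) by
integral_one_sub_pow, ‖J0‖ >= (1-(1-δ)^n)/(2n) >= 1/(4n) when (1-δ)^n <= 1/2.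
(v) norm_JJ_sub_le_one with M = 2C <= 2 n^(1/p): ‖J - J0‖ <= 384 n^(1/p)/(δ^3 N^2)
+ 2 exp(-δ^2 N/(4 (2 n^(1/p) + 1))) <= 1/(8n) for N large (1/p < 1).
(vi) so ‖J‖ >= 1/(8n), and by prod_t_eq, prod_t_le: 1 >= n C ‖J‖ ∏‖w_j‖ >= (3/8)(3/2)^N > 1 for N >= 3. -/
theorem caseA1 {p δ : ℝ} (hp1 : 1 < p) (hp2 : p ≤ 2) (hδ0 : 0 < δ) (hδ1 : δ < 1) :
    ∃ N₀ : ℕ, ∀ N : ℕ, N₀ ≤ N → ∀ (z w : Fin N → ℂ) (c : ℂ), Cfg p N z w c →
      ∑ j, ‖1 - c * (w j)⁻¹‖ ≤ (1 - δ) * N → 3 ≤ ‖c‖ → False := by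
  obtain ⟨N₀, hN₀⟩ := caseA1_threshold hp1 hδ0 hδ1
  refine ⟨N₀, fun N hN z w c h hA hc3 => ?_⟩
  obtain ⟨hN3, hpow, hb1, hb2⟩ := hN₀ N hN
  have hp0 : 0 < p := by linarith
  have hN3r : (3 : ℝ) ≤ N := by exact_mod_cast hN3
  have hn : (0 : ℝ) < (N : ℝ) + 1 := by linarith
  have hC0 : 0 < ‖c‖ := by linarith
  have hc0 : c ≠ 0 := norm_pos_iff.1 hC0
  -- (i)
  have hCp : ‖c‖ ^ p ≤ (N : ℝ) + 1 := by
    have := h.sum_le
    have h0 : 0 ≤ ∑ k, ‖z k - c‖ ^ p := Finset.sum_nonneg fun k _ => by positivity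
    linarith
  have hCle : ‖c‖ ≤ ((N : ℝ) + 1) ^ (1 / p) := by
    have := Real.rpow_le_rpow (by positivity) hCp (by positivity : 0 ≤ 1 / p)
    rwa [← Real.rpow_mul hC0.le, mul_one_div_cancel hp0.ne', Real.rpow_one] at this
  -- (ii)
  have hwC : ∀ j, ‖c‖ ≤ ‖w j‖ * (1 + ‖w j - c‖) := by
    intro j
    have h1 : ‖c‖ ≤ ‖w j‖ + ‖w j - c‖ := by
      have : c = w j - (w j - c) := by ring
      calc ‖c‖ = ‖w j - (w j - c)‖ := by rw [← this]
        _ ≤ ‖w j‖ + ‖w j - c‖ := norm_sub_le _ _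
    have h2 := h.one_le j
    have h3 : 0 ≤ ‖w j - c‖ := norm_nonneg _
    nlinarith
  have hv : ∀ j, ‖c‖ * ‖(w j)⁻¹‖ ≤ 1 + ‖w j - c‖ := by
    intro j
    have hw0 : 0 < ‖w j‖ := lt_of_lt_of_le one_pos (h.one_le j)
    rw [norm_inv, ← div_eq_mul_inv, div_le_iff₀ hw0]
    have := hwC j
    linarith
  have hsumx : ∑ j, (1 + ‖w j - c‖) ≤ N * 2 := by
    have := h.sum_x_le hp1 hp2
    rw [Finset.sum_add_distrib]
    simp only [Finset.sum_const, Finset.card_univ, Fintype.card_fin, nsmul_eq_mul, mul_one]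
    linarith
  have hsq : ∑ j, ‖c * (w j)⁻¹‖ ^ 2 ≤ N * (2 * ‖c‖) := by
    calc ∑ j, ‖c * (w j)⁻¹‖ ^ 2 ≤ ∑ j, ‖c‖ * (1 + ‖w j - c‖) := by
          refine Finset.sum_le_sum fun j _ => ?_
          rw [norm_mul]
          have h1 := h.norm_inv_le j
          have h2 := hv j
          have h3 : 0 ≤ ‖(w j)⁻¹‖ := norm_nonneg _
          have h4 : ‖c‖ * ‖(w j)⁻¹‖ * ‖(w j)⁻¹‖ ≤ ‖c‖ * ‖(w j)⁻¹‖ * 1 := by gcongr
          calc (‖c‖ * ‖(w j)⁻¹‖) ^ 2 = ‖c‖ * (‖c‖ * ‖(w j)⁻¹‖ * ‖(w j)⁻¹‖) := by ring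
            _ ≤ ‖c‖ * (1 + ‖w j - c‖) := by
                gcongr
                linarith
      _ = ‖c‖ * ∑ j, (1 + ‖w j - c‖) := by rw [Finset.mul_sum]
      _ ≤ ‖c‖ * (N * 2) := by gcongr
      _ = N * (2 * ‖c‖) := by ring
  have hvar : ∑ j, ‖c * (w j)⁻¹ - (∑ i, c * (w i)⁻¹) / N‖ ^ 2 ≤ N * (2 * ‖c‖) :=
    (caseA1_variance (by omega) _).trans hsq
  -- (iii)
  have hprod : (3 / 2 : ℝ) ^ N ≤ ∏ j, ‖w j‖ := by
    have h1 : ∏ j, (1 + ‖w j - c‖) ≤ 2 ^ N :=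
      prod_le_pow _ (fun j => by positivity) hsumx
    have h2 : ‖c‖ ^ N ≤ (∏ j, ‖w j‖) * ∏ j, (1 + ‖w j - c‖) := by
      rw [← Finset.prod_mul_distrib]
      have := Finset.prod_le_prod (s := Finset.univ) (f := fun _ : Fin N => ‖c‖)
        (g := fun j => ‖w j‖ * (1 + ‖w j - c‖)) (fun _ _ => hC0.le) (fun j _ => hwC j)
      simpa using this
    have h3 : (3 : ℝ) ^ N ≤ ‖c‖ ^ N := by gcongr
    have h4 : 0 ≤ ∏ j, ‖w j‖ := Finset.prod_nonneg fun j _ => norm_nonneg _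
    have h5 : (3 : ℝ) ^ N ≤ (∏ j, ‖w j‖) * 2 ^ N := by
      calc (3 : ℝ) ^ N ≤ ‖c‖ ^ N := h3
        _ ≤ (∏ j, ‖w j‖) * ∏ j, (1 + ‖w j - c‖) := h2
        _ ≤ (∏ j, ‖w j‖) * 2 ^ N := by gcongr
    rw [div_pow, div_le_iff₀ (by positivity)]
    exact h5
  -- (iv)
  set A : ℂ := (∑ j, c * (w j)⁻¹) / N with hAdef
  have hNc : (N : ℂ) ≠ 0 := by
    have : N ≠ 0 := by omega
    exact_mod_cast this
  have h1A : ‖1 - A‖ ≤ 1 - δ := by
    have e : 1 - A = (∑ j, (1 - c * (w j)⁻¹)) / N := by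
      rw [hAdef, Finset.sum_sub_distrib]
      simp only [Finset.sum_const, Finset.card_univ, Fintype.card_fin, nsmul_eq_mul, mul_one]
      field_simp
    rw [e, norm_div, Complex.norm_natCast, div_le_iff₀ (by linarith)]
    exact (norm_sum_le _ _).trans hA
  have hAlow : δ ≤ ‖A‖ := by
    have : (1 : ℝ) ≤ ‖1 - A‖ + ‖A‖ := by
      calc (1 : ℝ) = ‖(1 - A) + A‖ := by simp
        _ ≤ _ := norm_add_le _ _
    linarith
  have hA0 : A ≠ 0 := norm_pos_iff.1 (by linarith)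
  have hAup : ‖A‖ ≤ 2 := by
    have : ‖A‖ ≤ 1 + ‖1 - A‖ := by
      calc ‖A‖ = ‖1 - (1 - A)‖ := by congr 1; ring
        _ ≤ ‖(1 : ℂ)‖ + ‖1 - A‖ := norm_sub_le _ _
        _ = 1 + ‖1 - A‖ := by simp
    linarith
  have hJ0 : 1 / (4 * ((N : ℝ) + 1)) ≤ ‖∫ s in (0 : ℝ)..1, (1 - (s : ℂ) * A) ^ N‖ := by
    rw [integral_one_sub_pow N A hA0, norm_div, norm_mul]
    have e1 : ‖(N : ℂ) + 1‖ = (N : ℝ) + 1 := by
      have : ((N : ℂ) + 1) = (((N + 1 : ℕ) : ℂ)) := by push_cast; ring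
      rw [this, Complex.norm_natCast]
      push_cast
      ring
    rw [e1]
    have h2 : ‖(1 - A) ^ (N + 1)‖ ≤ 1 / 2 := by
      rw [norm_pow]
      exact (pow_le_pow_left₀ (norm_nonneg _) h1A _).trans hpow
    have h3 : 1 / 2 ≤ ‖1 - (1 - A) ^ (N + 1)‖ := by
      have : (1 : ℝ) ≤ ‖1 - (1 - A) ^ (N + 1)‖ + ‖(1 - A) ^ (N + 1)‖ := by
        calc (1 : ℝ) = ‖(1 - (1 - A) ^ (N + 1)) + (1 - A) ^ (N + 1)‖ := by simp
          _ ≤ _ := norm_add_le _ _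
      linarith
    rw [div_le_div_iff₀ (by positivity) (by positivity)]
    nlinarith [norm_nonneg A]
  -- (v)
  have hJ := norm_JJ_sub_le_one (by omega : 2 ≤ N) (fun j => c * (w j)⁻¹) hδ0 hδ1.le
    (by positivity : 0 ≤ 2 * ‖c‖) hA hvar
  have hterm1 : 192 * (2 * ‖c‖) / (δ ^ 3 * (N : ℝ) ^ 2) ≤ 1 / (16 * ((N : ℝ) + 1)) := by
    refine le_trans ?_ hb1
    have e : 192 * (2 * ‖c‖) = 384 * ‖c‖ := by ring
    rw [e]
    gcongr
  have hterm2 : 2 * Real.exp (-(δ ^ 2 * N / (4 * (2 * ‖c‖ + 1)))) ≤ 1 / (16 * ((N : ℝ) + 1)) := by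
    refine le_trans ?_ hb2
    gcongr
  have hJlow : 1 / (8 * ((N : ℝ) + 1)) ≤ ‖JJ (fun j => c * (w j)⁻¹)‖ := by
    have htri : ‖∫ s in (0 : ℝ)..1, (1 - (s : ℂ) * A) ^ N‖ ≤ ‖JJ (fun j => c * (w j)⁻¹)‖
        + ‖JJ (fun j => c * (w j)⁻¹) - ∫ s in (0 : ℝ)..1, (1 - (s : ℂ) * A) ^ N‖ := by
      have := norm_sub_le (JJ (fun j => c * (w j)⁻¹))
        (JJ (fun j => c * (w j)⁻¹) - ∫ s in (0 : ℝ)..1, (1 - (s : ℂ) * A) ^ N)
      simpa using this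
    have e3 : 1 / (4 * ((N : ℝ) + 1)) = 1 / (8 * ((N : ℝ) + 1)) + 1 / (16 * ((N : ℝ) + 1))
        + 1 / (16 * ((N : ℝ) + 1)) := by
      field_simp
      norm_num
    linarith
  -- (vi)
  have hfin := h.prod_t_le hp1
  rw [h.prod_t_eq hc0] at hfin
  have h27 : (27 / 8 : ℝ) ≤ (3 / 2 : ℝ) ^ N := by
    calc (27 / 8 : ℝ) = (3 / 2 : ℝ) ^ 3 := by norm_num
      _ ≤ (3 / 2 : ℝ) ^ N := pow_le_pow_right₀ (by norm_num) hN3
  have hlast : ((N : ℝ) + 1) * 3 * (1 / (8 * ((N : ℝ) + 1))) * (27 / 8)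
      ≤ ((N : ℝ) + 1) * ‖c‖ * ‖JJ (fun j => c * (w j)⁻¹)‖ * ∏ j, ‖w j‖ := by
    have h27' := h27.trans hprod
    gcongr
  have e4 : ((N : ℝ) + 1) * 3 * (1 / (8 * ((N : ℝ) + 1))) * (27 / 8) = 81 / 64 := by
    field_simp
    norm_num
  rw [e4] at hlast
  have := hlast.trans hfin
  norm_num at this

end Pool.MP_c113aa_an.BV
end

section

set_option autoImplicit false

namespace Pool.MP_c113aa_an.BV

open Finset
/-- (A0): variance of the inverse critical points.  Proof: with u the mean,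
∑ ‖v_j - u‖^2 = ∑ ‖v_j‖^2 - N ‖u‖^2 <= N (1 - ‖u‖^2) <= 2 N (1 - ‖u‖) (‖u‖ <= 1). -/
theorem sum_sub_mean_sq_le {N : ℕ} (hN : 1 ≤ N) (v : Fin N → ℂ) (hv : ∀ j, ‖v j‖ ≤ 1) :
    ∑ j, ‖v j - (∑ i, v i) / N‖ ^ 2 ≤ 2 * N * (1 - ‖(∑ i, v i) / N‖) := by
  have hN0 : (0 : ℝ) < N := by exact_mod_cast hN
  have hN0' : (N : ℂ) ≠ 0 := by exact_mod_cast (show N ≠ 0 by omega)
  set u : ℂ := (∑ i, v i) / N with hu
  have hsum : ∑ i, v i = N * u := by
    rw [hu]; field_simp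
  have hun : ‖u‖ ≤ 1 := by
    rw [hu, norm_div, Complex.norm_natCast, div_le_one hN0]
    calc ‖∑ i, v i‖ ≤ ∑ i, ‖v i‖ := norm_sum_le _ _
      _ ≤ ∑ _i : Fin N, (1 : ℝ) := Finset.sum_le_sum fun i _ => hv i
      _ = N := by simp
  have e1 : ∀ j, ‖v j - u‖ ^ 2
      = ‖v j‖ ^ 2 + ‖u‖ ^ 2 - 2 * (v j * (starRingEnd ℂ) u).re := by
    intro j
    rw [Complex.sq_norm, Complex.sq_norm, Complex.sq_norm, Complex.normSq_sub]
  have e2 : ∑ j, (v j * (starRingEnd ℂ) u).re = N * ‖u‖ ^ 2 := by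
    rw [← Complex.re_sum, ← Finset.sum_mul, hsum, mul_assoc, Complex.mul_conj,
      Complex.sq_norm]
    rw [← Complex.ofReal_natCast, ← Complex.ofReal_mul, Complex.ofReal_re]
  have e3 : ∑ j, ‖v j - u‖ ^ 2 = ∑ j, ‖v j‖ ^ 2 - N * ‖u‖ ^ 2 := by
    simp_rw [e1]
    rw [Finset.sum_sub_distrib, Finset.sum_add_distrib, ← Finset.mul_sum, e2]
    simp only [Finset.sum_const, Finset.card_univ, Fintype.card_fin, nsmul_eq_mul]
    ring
  have e4 : ∑ j, ‖v j‖ ^ 2 ≤ N := by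
    calc ∑ j, ‖v j‖ ^ 2 ≤ ∑ _j : Fin N, (1 : ℝ) :=
          Finset.sum_le_sum fun i _ => pow_le_one₀ (norm_nonneg _) (hv i)
      _ = N := by simp
  rw [e3]
  have h1 : 0 ≤ (1 - ‖u‖) := by linarith
  nlinarith [mul_nonneg hN0.le (mul_nonneg h1 h1)]

/-- mean of the points `1 - a_j`. -/
theorem norm_one_sub_mean_le {N : ℕ} (hN : 1 ≤ N) (a : Fin N → ℂ) {δ : ℝ}
    (h : ∑ j, ‖1 - a j‖ ≤ (1 - δ) * N) : ‖1 - (∑ j, a j) / N‖ ≤ 1 - δ := by
  have hN0 : (0 : ℝ) < N := by exact_mod_cast hN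
  have hN0' : (N : ℂ) ≠ 0 := by exact_mod_cast (show N ≠ 0 by omega)
  have e : 1 - (∑ j, a j) / N = (∑ j, (1 - a j)) / N := by
    rw [Finset.sum_sub_distrib]
    simp only [Finset.sum_const, Finset.card_univ, Fintype.card_fin, nsmul_eq_mul, mul_one]
    field_simp
  rw [e, norm_div, Complex.norm_natCast, div_le_iff₀ hN0]
  exact (norm_sum_le _ _).trans h

/-- the error term is eventually small. -/
theorem caseA2_eventually {δ : ℝ} (hδ0 : 0 < δ) :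
    ∃ N₀ : ℕ, ∀ N : ℕ, N₀ ≤ N → 2 ≤ N ∧
      3 * ((N : ℝ) + 1) * (3456 / (δ ^ 3 * N ^ 2)
        + 144 / δ ^ 2 * N ^ 2 * Real.exp (-(δ ^ 2 * (N - 2) / 152))) ≤ 1 / 2 := by
  set b : ℝ := δ ^ 2 / 152 with hb
  have hb0 : 0 < b := by positivity
  have t1 : Filter.Tendsto (fun N : ℕ => 20736 / δ ^ 3 * (1 / (N : ℝ))) Filter.atTop (nhds 0) := by
    have := (tendsto_one_div_atTop_nhds_zero_nat (𝕜 := ℝ)).const_mul (20736 / δ ^ 3)
    simpa using this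
  have t2 : Filter.Tendsto (fun N : ℕ => 864 / δ ^ 2 * Real.exp (2 * b) / b ^ 3
      * ((b * (N : ℝ)) ^ 3 * Real.exp (-(b * (N : ℝ))))) Filter.atTop (nhds 0) := by
    have h1 : Filter.Tendsto (fun N : ℕ => b * (N : ℝ)) Filter.atTop Filter.atTop :=
      Filter.Tendsto.const_mul_atTop hb0 tendsto_natCast_atTop_atTop
    have h2 := (Real.tendsto_pow_mul_exp_neg_atTop_nhds_zero 3).comp h1
    have := h2.const_mul (864 / δ ^ 2 * Real.exp (2 * b) / b ^ 3)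
    simpa using this
  have t3 := t1.add t2
  rw [add_zero] at t3
  have ev := t3.eventually (gt_mem_nhds (show (0 : ℝ) < 1 / 2 by norm_num))
  obtain ⟨N₁, hN₁⟩ := Filter.eventually_atTop.mp ev
  refine ⟨max N₁ 2, fun N hN => ⟨le_trans (le_max_right _ _) hN, ?_⟩⟩
  have h2 : 2 ≤ N := le_trans (le_max_right _ _) hN
  have hN0 : (0 : ℝ) < N := by exact_mod_cast (show 0 < N by omega)
  have hN1 : (1 : ℝ) ≤ N := by exact_mod_cast (show 1 ≤ N by omega)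
  refine le_trans ?_ (hN₁ N (le_trans (le_max_left _ _) hN)).le
  have e1 : Real.exp (-(δ ^ 2 * (N - 2) / 152)) = Real.exp (2 * b) * Real.exp (-(b * (N : ℝ))) := by
    rw [← Real.exp_add]
    congr 1
    rw [hb]; ring
  have hE0 : 0 ≤ 3456 / (δ ^ 3 * N ^ 2)
        + 144 / δ ^ 2 * N ^ 2 * Real.exp (-(δ ^ 2 * (N - 2) / 152)) := by positivity
  calc 3 * ((N : ℝ) + 1) * (3456 / (δ ^ 3 * N ^ 2)
        + 144 / δ ^ 2 * N ^ 2 * Real.exp (-(δ ^ 2 * (N - 2) / 152)))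
      ≤ 3 * (2 * (N : ℝ)) * (3456 / (δ ^ 3 * N ^ 2)
        + 144 / δ ^ 2 * N ^ 2 * Real.exp (-(δ ^ 2 * (N - 2) / 152))) := by
        apply mul_le_mul_of_nonneg_right _ hE0
        linarith
    _ = 20736 / δ ^ 3 * (1 / (N : ℝ)) + 864 / δ ^ 2 * Real.exp (2 * b) / b ^ 3
      * ((b * (N : ℝ)) ^ 3 * Real.exp (-(b * (N : ℝ)))) := by
        rw [e1]
        field_simp
        ring

/-- (A2): in case A with |c| <= 3, put u = mean of 1/w_j, η = 1 - |u|, τ = |1 - c u|; for large N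
one has η <= 4 τ^n and n |c| |J| >= 1 - 2 τ^n.
Proof.  a_j = c/w_j, mean A = c u, ‖1 - A‖ = τ <= 1-δ so A ≠ 0, c ≠ 0, u ≠ 0.  By (A0)
∑ ‖a_j - A‖^2 <= 9 * 2 N η = N M with M = 18 η <= 18.  norm_JJ_sub_le_two:
3 n ‖J - J0‖ <= 3 n η (192*18/(δ^3 N^2) + (144/δ^2) N^2 exp(-δ^2 (N-2)/152)) <= η/2 for N large.
n ‖c‖ ‖J0‖ = ‖1 - (1-A)^n‖/‖u‖ >= (1 - τ^n)/(1-η) >= (1-τ^n)(1+η) >= 1 + η - 2 τ^n.
So n ‖c‖ ‖J‖ >= 1 + η/2 - 2 τ^n (>= 1 - 2 τ^n).  By prod_t_eq, prod_t_le and one_le_prod,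
n‖c‖‖J‖ <= 1, hence η <= 4 τ^n. -/
theorem caseA2 {p δ : ℝ} (hp1 : 1 < p) (hp2 : p ≤ 2) (hδ0 : 0 < δ) (hδ1 : δ < 1) :
    ∃ N₀ : ℕ, ∀ N : ℕ, N₀ ≤ N → ∀ (z w : Fin N → ℂ) (c : ℂ), Cfg p N z w c →
      ∑ j, ‖1 - c * (w j)⁻¹‖ ≤ (1 - δ) * N → ‖c‖ ≤ 3 →
      1 - ‖(∑ j, (w j)⁻¹) / N‖ ≤ 4 * ‖1 - c * ((∑ j, (w j)⁻¹) / N)‖ ^ (N + 1) ∧
      1 - 2 * ‖1 - c * ((∑ j, (w j)⁻¹) / N)‖ ^ (N + 1)
        ≤ ((N : ℝ) + 1) * ‖c‖ * ‖JJ (fun j => c * (w j)⁻¹)‖ := by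
  obtain ⟨N₀, hN₀⟩ := caseA2_eventually hδ0
  refine ⟨N₀, fun N hNN z w c h hA hc3 => ?_⟩
  obtain ⟨hN2, hE⟩ := hN₀ N hNN
  have hN0 : (0 : ℝ) < N := by exact_mod_cast (show 0 < N by omega)
  have hN2' : (2 : ℝ) ≤ N := by exact_mod_cast hN2
  have hN0' : (N : ℂ) ≠ 0 := by exact_mod_cast (show N ≠ 0 by omega)
  have hN1' : ((N : ℂ) + 1) ≠ 0 := by exact_mod_cast (show N + 1 ≠ 0 by omega)
  set u : ℂ := (∑ j, (w j)⁻¹) / N with hu
  have hA0 := sum_sub_mean_sq_le (show 1 ≤ N by omega) (fun j => (w j)⁻¹) h.norm_inv_le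
  rw [← hu] at hA0
  have hmean : (∑ j, c * (w j)⁻¹) / N = c * u := by
    rw [← Finset.mul_sum, hu, mul_div_assoc]
  have hτ1 : ‖1 - c * u‖ ≤ 1 - δ := by
    rw [← hmean]
    exact norm_one_sub_mean_le (show 1 ≤ N by omega) _ hA
  have hcu : c * u ≠ 0 := by
    intro h0
    rw [h0] at hτ1
    norm_num at hτ1
    linarith
  have hc0 : c ≠ 0 := left_ne_zero_of_mul hcu
  have hu0 : u ≠ 0 := right_ne_zero_of_mul hcu
  have hun : ‖u‖ ≤ 1 := by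
    rw [hu, norm_div, Complex.norm_natCast, div_le_one hN0]
    calc ‖∑ i, (w i)⁻¹‖ ≤ ∑ i, ‖(w i)⁻¹‖ := norm_sum_le _ _
      _ ≤ ∑ _i : Fin N, (1 : ℝ) := Finset.sum_le_sum fun i _ => h.norm_inv_le i
      _ = N := by simp
  have hupos : 0 < ‖u‖ := norm_pos_iff.mpr hu0
  have hcpos : 0 < ‖c‖ := norm_pos_iff.mpr hc0
  set η : ℝ := 1 - ‖u‖ with hη
  have hη0 : 0 ≤ η := by rw [hη]; linarith
  have hη1 : η ≤ 1 := by rw [hη]; linarith
  set τ : ℝ := ‖1 - c * u‖ with hτ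
  have hτ0 : 0 ≤ τ := norm_nonneg _
  have hM2 : ∑ j, ‖c * (w j)⁻¹ - (∑ i, c * (w i)⁻¹) / N‖ ^ 2 ≤ N * (18 * η) := by
    rw [hmean]
    have e : ∀ j, ‖c * (w j)⁻¹ - c * u‖ ^ 2 = ‖c‖ ^ 2 * ‖(w j)⁻¹ - u‖ ^ 2 := by
      intro j
      rw [← mul_sub, norm_mul, mul_pow]
    simp_rw [e]
    rw [← Finset.mul_sum]
    have hc9 : ‖c‖ ^ 2 ≤ 9 := by nlinarith
    have hnn : 0 ≤ ∑ j, ‖(w j)⁻¹ - u‖ ^ 2 := Finset.sum_nonneg fun _ _ => by positivity
    calc ‖c‖ ^ 2 * ∑ j, ‖(w j)⁻¹ - u‖ ^ 2 ≤ 9 * ∑ j, ‖(w j)⁻¹ - u‖ ^ 2 :=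
          mul_le_mul_of_nonneg_right hc9 hnn
      _ ≤ 9 * (2 * N * η) := by linarith
      _ = N * (18 * η) := by ring
  have hJ := norm_JJ_sub_le_two hN2 (fun j => c * (w j)⁻¹) hδ0 hδ1.le (M := 18 * η)
    (by positivity) hA hM2
  rw [hmean, integral_one_sub_pow N (c * u) hcu] at hJ
  set J : ℂ := JJ (fun j => c * (w j)⁻¹) with hJdef
  set J0 : ℂ := (1 - (1 - c * u) ^ (N + 1)) / (((N : ℂ) + 1) * (c * u)) with hJ0
  have hexp : Real.exp (-(δ ^ 2 * (N - 2) / (8 * (18 * η + 1))))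
      ≤ Real.exp (-(δ ^ 2 * (N - 2) / 152)) := by
    apply Real.exp_le_exp.mpr
    apply neg_le_neg
    apply div_le_div_of_nonneg_left
    · have : (0 : ℝ) ≤ N - 2 := by linarith
      positivity
    · positivity
    · linarith
  have hJ2 : ‖J - J0‖ ≤ η * (3456 / (δ ^ 3 * N ^ 2)
        + 144 / δ ^ 2 * N ^ 2 * Real.exp (-(δ ^ 2 * (N - 2) / 152))) := by
    refine hJ.trans ?_
    have h1 : 8 / δ ^ 2 * N ^ 2 * (18 * η) * Real.exp (-(δ ^ 2 * (N - 2) / (8 * (18 * η + 1))))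
        ≤ 8 / δ ^ 2 * N ^ 2 * (18 * η) * Real.exp (-(δ ^ 2 * (N - 2) / 152)) :=
      mul_le_mul_of_nonneg_left hexp (by positivity)
    refine (add_le_add_right h1 _).trans (le_of_eq ?_)
    ring
  have hJ3 : ((N : ℝ) + 1) * ‖c‖ * ‖J - J0‖ ≤ η / 2 := by
    set E : ℝ := 3456 / (δ ^ 3 * N ^ 2)
        + 144 / δ ^ 2 * N ^ 2 * Real.exp (-(δ ^ 2 * (N - 2) / 152)) with hEdef
    have hE0 : 0 ≤ E := by positivity
    calc ((N : ℝ) + 1) * ‖c‖ * ‖J - J0‖ ≤ ((N : ℝ) + 1) * 3 * (η * E) := by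
          apply mul_le_mul _ hJ2 (norm_nonneg _) (by positivity)
          exact mul_le_mul_of_nonneg_left hc3 (by positivity)
      _ = η * (3 * ((N : ℝ) + 1) * E) := by ring
      _ ≤ η * (1 / 2) := mul_le_mul_of_nonneg_left hE hη0
      _ = η / 2 := by ring
  have hJ4 : ((N : ℝ) + 1) * ‖c‖ * ‖J0‖ = ‖1 - (1 - c * u) ^ (N + 1)‖ / ‖u‖ := by
    have hn : ‖(N : ℂ) + 1‖ = (N : ℝ) + 1 := by
      have : (N : ℂ) + 1 = ((N + 1 : ℕ) : ℂ) := by push_cast; ring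
      rw [this, Complex.norm_natCast]
      push_cast; ring
    rw [hJ0, norm_div, norm_mul, norm_mul, hn]
    field_simp
  have hJ5 : 1 - τ ^ (N + 1) ≤ ‖1 - (1 - c * u) ^ (N + 1)‖ := by
    have := norm_sub_norm_le (1 : ℂ) ((1 - c * u) ^ (N + 1))
    rw [norm_one, norm_pow, ← hτ] at this
    exact this
  have hτ' : τ ^ (N + 1) ≤ 1 := pow_le_one₀ hτ0 (by linarith)
  have hτ'' : 0 ≤ τ ^ (N + 1) := pow_nonneg hτ0 _
  have hJ6 : 1 + η - 2 * τ ^ (N + 1) ≤ ((N : ℝ) + 1) * ‖c‖ * ‖J0‖ := by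
    rw [hJ4, le_div_iff₀ hupos]
    have hu' : ‖u‖ = 1 - η := by rw [hη]; ring
    rw [hu']
    refine le_trans ?_ hJ5
    have h1 : 0 ≤ τ ^ (N + 1) * (1 - η) * (1 - η) := by
      have : 0 ≤ 1 - η := by linarith
      positivity
    have h2 : (1 + η - 2 * τ ^ (N + 1)) * (1 - η)
        = (1 - τ ^ (N + 1)) - η ^ 2 - τ ^ (N + 1) * (1 - 2 * η) := by ring
    rcases le_total (1 + η - 2 * τ ^ (N + 1)) 0 with h3 | h3
    · have : (1 + η - 2 * τ ^ (N + 1)) * (1 - η) ≤ 0 :=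
        mul_nonpos_of_nonpos_of_nonneg h3 (by linarith)
      linarith
    · -- 1 + η - 2 t <= (1 + η)(1 - t)
      have h4 : 1 + η - 2 * τ ^ (N + 1) ≤ (1 + η) * (1 - τ ^ (N + 1)) := by nlinarith
      calc (1 + η - 2 * τ ^ (N + 1)) * (1 - η) ≤ ((1 + η) * (1 - τ ^ (N + 1))) * (1 - η) :=
            mul_le_mul_of_nonneg_right h4 (by linarith)
        _ = (1 - τ ^ (N + 1)) * (1 - η ^ 2) := by ring
        _ ≤ (1 - τ ^ (N + 1)) * 1 := by
            apply mul_le_mul_of_nonneg_left _ (by linarith)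
            nlinarith
        _ = 1 - τ ^ (N + 1) := by ring
  have hJ7 : ((N : ℝ) + 1) * ‖c‖ * ‖J0‖
      ≤ ((N : ℝ) + 1) * ‖c‖ * ‖J‖ + ((N : ℝ) + 1) * ‖c‖ * ‖J - J0‖ := by
    rw [← mul_add]
    apply mul_le_mul_of_nonneg_left _ (by positivity)
    have := norm_sub_norm_le J0 J
    rw [norm_sub_rev] at this
    linarith
  have hJ8 : ((N : ℝ) + 1) * ‖c‖ * ‖J‖ ≤ 1 := by
    have h1 := h.prod_t_eq hc0
    have h2 := h.prod_t_le hp1
    have h3 := h.one_le_prod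
    rw [h1, ← hJdef] at h2
    refine le_trans ?_ h2
    have : 0 ≤ ((N : ℝ) + 1) * ‖c‖ * ‖J‖ := by positivity
    nlinarith
  constructor
  · linarith
  · linarith

/-- (A3), rigidity.  Proof: by hτ, hη: ‖u‖ >= 1, so by (A0) all v_j = u; c u = 1, hence w_j = c. -/
theorem caseA_eq {p : ℝ} {N : ℕ} (hN : 1 ≤ N) {z w : Fin N → ℂ} {c : ℂ} (h : Cfg p N z w c)
    (hτ : 1 - c * ((∑ j, (w j)⁻¹) / N) = 0)
    (hη : 1 - ‖(∑ j, (w j)⁻¹) / N‖ ≤ 4 * ‖1 - c * ((∑ j, (w j)⁻¹) / N)‖ ^ (N + 1)) :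
    ∀ j, w j = c := by
  have hN0 : (0 : ℝ) < N := by exact_mod_cast hN
  set u : ℂ := (∑ j, (w j)⁻¹) / N with hu
  have hA0 := sum_sub_mean_sq_le hN (fun j => (w j)⁻¹) h.norm_inv_le
  rw [← hu] at hA0
  rw [hτ, norm_zero, zero_pow (by omega), mul_zero] at hη
  have h1 : ∑ j, ‖(w j)⁻¹ - u‖ ^ 2 ≤ 0 := by
    refine hA0.trans ?_
    exact mul_nonpos_of_nonneg_of_nonpos (by positivity) hη
  have h2 : ∑ j, ‖(w j)⁻¹ - u‖ ^ 2 = 0 :=
    le_antisymm h1 (Finset.sum_nonneg fun _ _ => by positivity)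
  have h3 := (Finset.sum_eq_zero_iff_of_nonneg (fun _ _ => by positivity)).mp h2
  intro j
  have h4 : (w j)⁻¹ = u := by
    have := h3 j (Finset.mem_univ j)
    have h5 : ‖(w j)⁻¹ - u‖ = 0 := by
      simpa using this
    exact sub_eq_zero.mp (norm_eq_zero.mp h5)
  have hw := h.w_ne j
  rw [← h4] at hτ
  have h6 : c * (w j)⁻¹ = 1 := (sub_eq_zero.mp hτ).symm
  field_simp at h6
  exact h6.symm

end Pool.MP_c113aa_an.BV
end

section

set_option autoImplicit false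

namespace Pool.MP_c113aa_an.BV

open Finset

/-- Cauchy-Schwarz with one extra term. -/
lemma a3_cs {N : ℕ} (a0 : ℝ) (a : Fin N → ℝ) :
    (a0 + ∑ k, a k) ^ 2 ≤ ((N : ℝ) + 1) * (a0 ^ 2 + ∑ k, a k ^ 2) := by
  have h := sq_sum_le_card_mul_sum_sq (s := (Finset.univ : Finset (Fin (N + 1))))
    (f := (Fin.cons a0 a : Fin (N + 1) → ℝ))
  rw [Fin.sum_univ_succ, Fin.sum_univ_succ] at h
  simp only [Fin.cons_zero, Fin.cons_succ, Finset.card_univ, Fintype.card_fin] at h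
  push_cast at h
  exact h

/-- sum of the squares of the deviations of the distances -/
lemma a3_sumsq {p : ℝ} {N : ℕ} {z w : Fin N → ℂ} {c : ℂ} (h : Cfg p N z w c) (hp1 : 1 < p)
    (hp2 : p ≤ 2) {x : ℝ} (hx0 : 0 ≤ x) (hx : x ≤ 1 / 2) (hc : 0 < ‖c‖)
    (ht : ∀ k, 0 < ‖z k - c‖) (hPi : 1 - x ≤ ‖c‖ * ∏ k, ‖z k - c‖) :
    (‖c‖ ^ (p / 2) - 1) ^ 2 + ∑ k, (‖z k - c‖ ^ (p / 2) - 1) ^ 2 ≤ 4 * x := by
  have key : ∀ t : ℝ, 0 < t → (t ^ (p / 2) - 1) ^ 2 ≤ t ^ p - 1 - p * Real.log t := by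
    intro t ht
    have h1 := sqrt_sub_sq_le (T := t ^ p) (Real.rpow_pos_of_pos ht p)
    rw [Real.sqrt_eq_rpow, ← Real.rpow_mul ht.le, Real.log_rpow ht] at h1
    rwa [show p * (1 / 2) = p / 2 by ring] at h1
  have h1 := key _ hc
  have h2 : ∑ k, (‖z k - c‖ ^ (p / 2) - 1) ^ 2 ≤
      ∑ k, (‖z k - c‖ ^ p - 1 - p * Real.log ‖z k - c‖) :=
    Finset.sum_le_sum fun k _ => key _ (ht k)
  have h3 : ∑ k, (‖z k - c‖ ^ p - 1 - p * Real.log ‖z k - c‖) =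
      ∑ k, ‖z k - c‖ ^ p - N - p * ∑ k, Real.log ‖z k - c‖ := by
    rw [Finset.sum_sub_distrib, Finset.sum_sub_distrib, ← Finset.mul_sum]
    simp
  have hpos : 0 < ∏ k, ‖z k - c‖ := Finset.prod_pos fun k _ => ht k
  have h4 : Real.log (‖c‖ * ∏ k, ‖z k - c‖) = Real.log ‖c‖ + ∑ k, Real.log ‖z k - c‖ := by
    rw [Real.log_mul hc.ne' hpos.ne', Real.log_prod fun k _ => (ht k).ne']
  have h5 := h.sum_le
  have h6 : Real.log (1 - x) ≤ Real.log (‖c‖ * ∏ k, ‖z k - c‖) :=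
    Real.log_le_log (by linarith) hPi
  -- log (1 - x) ≥ - 2 x
  have h7 : -(2 * x) ≤ Real.log (1 - x) := by
    have h8 := Real.one_sub_inv_le_log_of_pos (x := 1 - x) (by linarith)
    have h9 : (1 - x)⁻¹ ≤ 1 + 2 * x := by
      rw [inv_le_iff_one_le_mul₀ (by linarith)]
      nlinarith
    linarith
  have h10 : -(p * (Real.log ‖c‖ + ∑ k, Real.log ‖z k - c‖)) ≤ 4 * x := by
    rw [← h4]
    have h11 : -(2 * x) ≤ Real.log (‖c‖ * ∏ k, ‖z k - c‖) := h7.trans h6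
    nlinarith
  rw [h3] at h2
  linarith

/-- sum of |t - 1/t| over all zeros -/
lemma a3_suminv {p : ℝ} {N : ℕ} {z w : Fin N → ℂ} {c : ℂ} (h : Cfg p N z w c) (hp1 : 1 < p)
    (hp2 : p ≤ 2) {x : ℝ} (hx0 : 0 ≤ x) (hx : x ≤ 1 / 16) (hc : 0 < ‖c‖)
    (ht : ∀ k, 0 < ‖z k - c‖) (hPi : 1 - x ≤ ‖c‖ * ∏ k, ‖z k - c‖) :
    (|‖c‖ - ‖c‖⁻¹| + ∑ k, |‖z k - c‖ - ‖z k - c‖⁻¹|) ^ 2 ≤ 256 * ((N : ℝ) + 1) * x := by
  have hs := a3_sumsq h hp1 hp2 hx0 (by linarith) hc ht hPi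
  have hsq : 0 ≤ ∑ k, (‖z k - c‖ ^ (p / 2) - 1) ^ 2 := Finset.sum_nonneg fun k _ => sq_nonneg _
  have e0 : |‖c‖ ^ (p / 2) - 1| ≤ 1 / 2 := by
    apply abs_le_of_sq_le_sq _ (by norm_num)
    nlinarith [sq_nonneg (‖c‖ ^ (p / 2) - 1)]
  have ek : ∀ k, |‖z k - c‖ ^ (p / 2) - 1| ≤ 1 / 2 := by
    intro k
    apply abs_le_of_sq_le_sq _ (by norm_num)
    have := Finset.single_le_sum (f := fun k => (‖z k - c‖ ^ (p / 2) - 1) ^ 2)
      (fun k _ => sq_nonneg _) (Finset.mem_univ k)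
    nlinarith [sq_nonneg (‖c‖ ^ (p / 2) - 1)]
  have b0 := abs_sub_inv_le hp1 hp2 hc e0
  have bk : ∑ k, |‖z k - c‖ - ‖z k - c‖⁻¹| ≤ ∑ k, 8 * |‖z k - c‖ ^ (p / 2) - 1| :=
    Finset.sum_le_sum fun k _ => abs_sub_inv_le hp1 hp2 (ht k) (ek k)
  rw [← Finset.mul_sum] at bk
  have hcs := a3_cs |‖c‖ ^ (p / 2) - 1| (fun k => |‖z k - c‖ ^ (p / 2) - 1|)
  simp only [sq_abs] at hcs
  have hA : 0 ≤ |‖c‖ - ‖c‖⁻¹| + ∑ k, |‖z k - c‖ - ‖z k - c‖⁻¹| :=
    add_nonneg (abs_nonneg _) (Finset.sum_nonneg fun k _ => abs_nonneg _)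
  have hB : |‖c‖ - ‖c‖⁻¹| + ∑ k, |‖z k - c‖ - ‖z k - c‖⁻¹| ≤
      8 * (|‖c‖ ^ (p / 2) - 1| + ∑ k, |‖z k - c‖ ^ (p / 2) - 1|) := by linarith
  calc (|‖c‖ - ‖c‖⁻¹| + ∑ k, |‖z k - c‖ - ‖z k - c‖⁻¹|) ^ 2
      ≤ (8 * (|‖c‖ ^ (p / 2) - 1| + ∑ k, |‖z k - c‖ ^ (p / 2) - 1|)) ^ 2 :=
        pow_le_pow_left₀ hA hB 2
    _ = 64 * (|‖c‖ ^ (p / 2) - 1| + ∑ k, |‖z k - c‖ ^ (p / 2) - 1|) ^ 2 := by ring
    _ ≤ 64 * (((N : ℝ) + 1) * (4 * x)) := by
        have hN : (0 : ℝ) ≤ (N : ℝ) + 1 := by positivity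
        have := mul_le_mul_of_nonneg_left hs hN
        linarith
    _ = 256 * ((N : ℝ) + 1) * x := by ring

/-- conjugate versus inverse -/
lemma a3_conj (y : ℂ) (hy : y ≠ 0) : ‖(starRingEnd ℂ) y - y⁻¹‖ = |‖y‖ - ‖y‖⁻¹| := by
  have hn : (‖y‖ : ℂ) ≠ 0 := by exact_mod_cast norm_ne_zero_iff.2 hy
  have h1 : (starRingEnd ℂ) y - y⁻¹ = (((‖y‖ - ‖y‖⁻¹ : ℝ) : ℂ)) * ((‖y‖ : ℂ) * y⁻¹) := by
    have h2 : (starRingEnd ℂ) y * y = ((‖y‖ : ℝ) : ℂ) ^ 2 := by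
      rw [mul_comm, Complex.mul_conj]
      rw [Complex.normSq_eq_norm_sq]
      push_cast
      rfl
    have h3 : (starRingEnd ℂ) y = ((‖y‖ : ℝ) : ℂ) ^ 2 * y⁻¹ := by
      rw [← h2, mul_assoc, mul_inv_cancel₀ hy, mul_one]
    rw [h3]
    push_cast
    field_simp
  rw [h1, norm_mul, norm_mul, Complex.norm_real, Real.norm_eq_abs, Complex.norm_real, norm_norm,
    norm_inv, mul_inv_cancel₀ (norm_ne_zero_iff.2 hy), mul_one]

/-- the sum of the deviations of the zeros -/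
lemma a3_sumdev {p : ℝ} {N : ℕ} {z w : Fin N → ℂ} {c : ℂ} (h : Cfg p N z w c) (hc : c ≠ 0)
    (ht : ∀ k, z k - c ≠ 0) {X : ℝ} (hX : |‖c‖ - ‖c‖⁻¹| + ∑ k, |‖z k - c‖ - ‖z k - c‖⁻¹| ≤ X) :
    ((N : ℝ) + 1) * ‖∑ j, (w j - c)‖ ≤ N * (‖c⁻¹ + ∑ k, (c - z k)⁻¹‖ + X) := by
  have h1 : ((N : ℂ) + 1) * ∑ j, (w j - c) = N * ((0 - c) + ∑ k, (z k - c)) := by
    have := h.mean_eq
    simp only [Finset.sum_sub_distrib, Finset.sum_const, Finset.card_univ, Fintype.card_fin,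
      nsmul_eq_mul]
    linear_combination this
  have h2 : ((N : ℝ) + 1) * ‖∑ j, (w j - c)‖ = N * ‖(0 - c) + ∑ k, (z k - c)‖ := by
    have h3 := congrArg norm h1
    rw [norm_mul, norm_mul] at h3
    have h4 : ‖(N : ℂ) + 1‖ = (N : ℝ) + 1 := by
      have : ((N : ℂ) + 1) = ((N + 1 : ℕ) : ℂ) := by push_cast; rfl
      rw [this, Complex.norm_natCast]
      push_cast
      rfl
    rw [h4, Complex.norm_natCast] at h3
    exact h3
  rw [h2]
  apply mul_le_mul_of_nonneg_left _ (Nat.cast_nonneg N)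
  have h5 : ‖(0 - c) + ∑ k, (z k - c)‖ =
      ‖(starRingEnd ℂ) (0 - c) + ∑ k, (starRingEnd ℂ) (z k - c)‖ := by
    rw [← map_sum, ← map_add, RCLike.norm_conj]
  have h6 : (starRingEnd ℂ) (0 - c) + ∑ k, (starRingEnd ℂ) (z k - c) =
      -(c⁻¹ + ∑ k, (c - z k)⁻¹) + (((starRingEnd ℂ) (0 - c) - (0 - c)⁻¹) +
        ∑ k, ((starRingEnd ℂ) (z k - c) - (z k - c)⁻¹)) := by
    have e1 : ∀ k, (c - z k)⁻¹ = -(z k - c)⁻¹ := fun k => by
      rw [← neg_sub (z k) c, inv_neg]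
    simp only [e1, Finset.sum_neg_distrib, Finset.sum_sub_distrib]
    rw [show (0 - c)⁻¹ = -c⁻¹ by rw [zero_sub, inv_neg]]
    ring
  rw [h5, h6]
  refine (norm_add_le _ _).trans ?_
  rw [norm_neg]
  apply add_le_add_right
  refine le_trans ((norm_add_le _ _).trans (add_le_add_right (norm_sum_le _ _) _)) (le_trans ?_ hX)
  have e2 : ‖(starRingEnd ℂ) (0 - c) - (0 - c)⁻¹‖ = |‖c‖ - ‖c‖⁻¹| := by
    rw [a3_conj _ (by simpa using hc), zero_sub, norm_neg]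
  rw [e2]
  apply le_of_eq
  congr 1
  exact Finset.sum_congr rfl fun k _ => a3_conj _ (ht k)

/-- bound of the product of the numbers ‖1 - c v_j‖ -/
lemma a3_prod {N : ℕ} (hN : 1 ≤ N) {v : Fin N → ℂ} {c u : ℂ} {S τ : ℝ} (hτ : τ = ‖1 - c * u‖)
    (hc : ‖c‖ ≤ 3) (hS0 : 0 ≤ S) (hS : 9 * N * S ≤ 1)
    (hv : ∑ j, ‖v j - u‖ ^ 2 ≤ 8 * N * (τ * S) ^ 2) :
    ∏ j, ‖1 - c * v j‖ ≤ τ ^ N * 3 := by
  have hτ0 : 0 ≤ τ := by rw [hτ]; exact norm_nonneg _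
  have hN0 : (0 : ℝ) < N := by exact_mod_cast hN
  have h1 : (∑ j, ‖v j - u‖) ^ 2 ≤ (N : ℝ) * (8 * N * (τ * S) ^ 2) := by
    have := sq_sum_le_card_mul_sum_sq (s := (Finset.univ : Finset (Fin N)))
      (f := fun j => ‖v j - u‖)
    rw [Finset.card_univ, Fintype.card_fin] at this
    exact this.trans (mul_le_mul_of_nonneg_left hv hN0.le)
  have h2 : ∑ j, ‖v j - u‖ ≤ 3 * N * (τ * S) := by
    apply le_of_sq_le_sq _ (by positivity)
    refine h1.trans ?_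
    have : 0 ≤ (N : ℝ) ^ 2 * (τ * S) ^ 2 := by positivity
    nlinarith
  have h3 : ∑ j, ‖1 - c * v j‖ ≤ N * (τ * (1 + 9 * S)) := by
    have h4 : ∀ j, ‖1 - c * v j‖ ≤ τ + 3 * ‖v j - u‖ := by
      intro j
      have e : 1 - c * v j = (1 - c * u) - c * (v j - u) := by ring
      rw [e]
      refine (norm_sub_le _ _).trans ?_
      rw [norm_mul, ← hτ]
      have := mul_le_mul_of_nonneg_right hc (norm_nonneg (v j - u))
      linarith
    calc ∑ j, ‖1 - c * v j‖ ≤ ∑ j, (τ + 3 * ‖v j - u‖) := Finset.sum_le_sum fun j _ => h4 j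
      _ = N * τ + 3 * ∑ j, ‖v j - u‖ := by
          rw [Finset.sum_add_distrib, ← Finset.mul_sum]
          simp
      _ ≤ N * τ + 3 * (3 * N * (τ * S)) := by linarith
      _ = N * (τ * (1 + 9 * S)) := by ring
  have h5 := prod_le_pow (fun j => ‖1 - c * v j‖) (fun j => norm_nonneg _) h3
  refine h5.trans ?_
  rw [mul_pow]
  apply mul_le_mul_of_nonneg_left _ (pow_nonneg hτ0 N)
  have h6 : (1 + 9 * S) ^ N ≤ Real.exp (9 * N * S) := by
    have h7 : 1 + 9 * S ≤ Real.exp (9 * S) := by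
      have := Real.add_one_le_exp (9 * S)
      linarith
    calc (1 + 9 * S) ^ N ≤ (Real.exp (9 * S)) ^ N := pow_le_pow_left₀ (by positivity) h7 N
      _ = Real.exp (9 * N * S) := by rw [← Real.exp_nat_mul]; ring_nf
  refine h6.trans ((Real.exp_le_exp.2 hS).trans ?_)
  have := Real.exp_one_lt_d9
  linarith

/-- lower bound for the sum of the deviations of the critical points -/
lemma a3_lower {p : ℝ} {N : ℕ} {z w : Fin N → ℂ} {c : ℂ} (h : Cfg p N z w c) (hN : 12 ≤ N)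
    {u : ℂ} {S τ : ℝ} (hτ : τ = ‖1 - c * u‖) (hS0 : 0 ≤ S) (hS : 9 * N * S ≤ 1) (hτ1 : τ ≤ 1)
    (hu1 : ‖u‖ ≤ 1) (hu2 : 3 / 4 ≤ ‖u‖)
    (hv : ∑ j, ‖(w j)⁻¹ - u‖ ^ 2 ≤ 8 * N * (τ * S) ^ 2) :
    N * τ / 2 ≤ ‖∑ j, (w j - c)‖ := by
  have hτ0 : 0 ≤ τ := by rw [hτ]; exact norm_nonneg _
  have hN0 : (12 : ℝ) ≤ N := by exact_mod_cast hN
  have hu0 : u ≠ 0 := by
    intro h0
    rw [h0, norm_zero] at hu2
    norm_num at hu2
  -- each deviation is small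
  have h1 : ∀ j, ‖(w j)⁻¹ - u‖ ≤ τ / 9 := by
    intro j
    have h2 : ‖(w j)⁻¹ - u‖ ^ 2 ≤ 8 * N * (τ * S) ^ 2 :=
      (Finset.single_le_sum (f := fun j => ‖(w j)⁻¹ - u‖ ^ 2) (fun k _ => sq_nonneg _)
        (Finset.mem_univ j)).trans hv
    apply le_of_sq_le_sq _ (by positivity)
    refine h2.trans ?_
    have h3 : (9 * N * S) ^ 2 ≤ 1 := by
      have := pow_le_pow_left₀ (by positivity) hS 2
      simpa using this
    have h4 : 8 * (N : ℝ) * S ^ 2 ≤ 1 / 81 := by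
      have h5 : 0 ≤ (N : ℝ) * S ^ 2 := by positivity
      nlinarith
    have h6 : 8 * (N : ℝ) * (τ * S) ^ 2 = τ ^ 2 * (8 * N * S ^ 2) := by ring
    rw [h6]
    have := mul_le_mul_of_nonneg_left h4 (sq_nonneg τ)
    calc τ ^ 2 * (8 * N * S ^ 2) ≤ τ ^ 2 * (1 / 81) := this
      _ = (τ / 9) ^ 2 := by ring
  have h2 : ∀ j, 1 / 2 ≤ ‖(w j)⁻¹‖ := by
    intro j
    have h3 := norm_sub_norm_le u (w j)⁻¹
    rw [← norm_neg (u - (w j)⁻¹), neg_sub] at h3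
    have := h1 j
    linarith
  have h3 : ∀ j, ‖w j - u⁻¹‖ ≤ τ / 3 := by
    intro j
    have hw := h.w_ne j
    have e : w j - u⁻¹ = -((w j)⁻¹ - u) * (w j * u⁻¹) := by
      field_simp
      ring
    rw [e, norm_mul, norm_neg, norm_mul, norm_inv]
    have h4 : ‖w j‖ ≤ 2 := by
      have h5 := h2 j
      rw [norm_inv] at h5
      have h6 : 0 < ‖w j‖ := norm_pos_iff.2 hw
      rw [le_inv_comm₀ (by norm_num) h6] at h5
      linarith
    have h7 : ‖u‖⁻¹ ≤ 4 / 3 := by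
      rw [inv_le_comm₀ (by linarith) (by norm_num)]
      linarith
    calc ‖(w j)⁻¹ - u‖ * (‖w j‖ * ‖u‖⁻¹) ≤ τ / 9 * (2 * (4 / 3)) := by
          apply mul_le_mul (h1 j) _ (by positivity) (by positivity)
          exact mul_le_mul h4 h7 (by positivity) (by norm_num)
      _ ≤ τ / 3 := by linarith
  have h4 : τ ≤ ‖u⁻¹ - c‖ := by
    have e : u⁻¹ - c = (1 - c * u) * u⁻¹ := by
      field_simp
    rw [e, norm_mul, ← hτ, norm_inv]
    have : 1 ≤ ‖u‖⁻¹ := (one_le_inv₀ (norm_pos_iff.2 hu0)).2 hu1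
    nlinarith
  have e : (N : ℂ) * (u⁻¹ - c) = ∑ j, (w j - c) - ∑ j, (w j - u⁻¹) := by
    rw [← Finset.sum_sub_distrib]
    simp only [sub_sub_sub_cancel_left]
    simp
    ring
  have h5 : (N : ℝ) * ‖u⁻¹ - c‖ ≤ ‖∑ j, (w j - c)‖ + ∑ j, ‖w j - u⁻¹‖ := by
    have h6 := congrArg norm e
    rw [norm_mul, Complex.norm_natCast] at h6
    rw [h6]
    exact (norm_sub_le _ _).trans (add_le_add_right (norm_sum_le _ _) _)
  have h6 : ∑ j, ‖w j - u⁻¹‖ ≤ N * (τ / 3) := by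
    calc ∑ j, ‖w j - u⁻¹‖ ≤ ∑ _j : Fin N, τ / 3 := Finset.sum_le_sum fun j _ => h3 j
      _ = N * (τ / 3) := by simp
  have h7 := mul_le_mul_of_nonneg_left h4 (by linarith : (0 : ℝ) ≤ N)
  have h8 : 0 ≤ (N : ℝ) * τ := by positivity
  linarith

lemma a3_core {p : ℝ} (hp1 : 1 < p) (hp2 : p ≤ 2) {N : ℕ} (hN : 12 ≤ N)
    {z w : Fin N → ℂ} {c : ℂ} (h : Cfg p N z w c) {u : ℂ} (hu : u = (∑ j, (w j)⁻¹) / N)
    {τ S : ℝ} (hτ : τ = ‖1 - c * u‖) (hτ0 : 0 < τ) (hτ1 : τ ≤ 1) (hc3 : ‖c‖ ≤ 3)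
    (hS0 : 0 ≤ S) (hS2 : S ^ 2 = τ ^ (N - 1)) (hS : 9 * N * S ≤ 1)
    (hη : 1 - ‖u‖ ≤ 4 * τ ^ (N + 1))
    (hJ : 1 - 2 * τ ^ (N + 1) ≤ ((N : ℝ) + 1) * ‖c‖ * ‖JJ (fun j => c * (w j)⁻¹)‖) : False := by
  have hN0 : (12 : ℝ) ≤ N := by exact_mod_cast hN
  have hSs : S ≤ 1 / 108 := by
    have h1 : 9 * 12 * S ≤ 9 * N * S := by nlinarith
    linarith
  have hpow : τ ^ (N + 1) = (τ * S) ^ 2 := by
    rw [mul_pow, hS2, ← pow_add]
    congr 1
    omega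
  have hpow2 : τ ^ N = τ * S ^ 2 := by
    rw [hS2, ← pow_succ']
    congr 1
    omega
  rw [hpow] at hη hJ
  have hT : (τ * S) ^ 2 ≤ 1 / 10000 := by
    have h1 : τ * S ≤ 1 / 100 := by nlinarith
    have h2 : 0 ≤ τ * S := by positivity
    nlinarith
  have hT0 : 0 ≤ (τ * S) ^ 2 := sq_nonneg _
  -- c ≠ 0
  have hc0 : c ≠ 0 := by
    rintro rfl
    rw [norm_zero, mul_zero, zero_mul] at hJ
    linarith
  have hcn : 0 < ‖c‖ := norm_pos_iff.2 hc0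
  -- u
  have hu1 : ‖u‖ ≤ 1 := by
    rw [hu, norm_div, Complex.norm_natCast, div_le_one (by linarith)]
    calc ‖∑ j, (w j)⁻¹‖ ≤ ∑ j, ‖(w j)⁻¹‖ := norm_sum_le _ _
      _ ≤ ∑ _j : Fin N, (1 : ℝ) := Finset.sum_le_sum fun j _ => h.norm_inv_le j
      _ = N := by simp
  have hu2 : 3 / 4 ≤ ‖u‖ := by linarith
  have hv : ∑ j, ‖(w j)⁻¹ - u‖ ^ 2 ≤ 8 * N * (τ * S) ^ 2 := by
    have h1 := sum_sub_mean_sq_le (by omega) (fun j => (w j)⁻¹) (fun j => h.norm_inv_le j)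
    rw [← hu] at h1
    have h2 : 2 * (N : ℝ) * (1 - ‖u‖) ≤ 2 * N * (4 * (τ * S) ^ 2) :=
      mul_le_mul_of_nonneg_left hη (by linarith)
    linarith
  -- product of the distances
  have hPi : 1 - 2 * (τ * S) ^ 2 ≤ ‖c‖ * ∏ k, ‖z k - c‖ := by
    rw [h.prod_t_eq hc0]
    have h1 := h.one_le_prod
    have h2 : 0 ≤ ((N : ℝ) + 1) * ‖c‖ * ‖JJ (fun j => c * (w j)⁻¹)‖ := by positivity
    nlinarith
  have ht : ∀ k, 0 < ‖z k - c‖ := by
    intro k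
    apply lt_of_le_of_ne (norm_nonneg _)
    intro h0
    have : ∏ k, ‖z k - c‖ = 0 := Finset.prod_eq_zero (Finset.mem_univ k) h0.symm
    rw [this, mul_zero] at hPi
    linarith
  have htz : ∀ k, z k - c ≠ 0 := fun k => norm_pos_iff.1 (ht k)
  have hX2 := a3_suminv h hp1 hp2 (x := 2 * (τ * S) ^ 2) (by linarith) (by linarith) hcn ht hPi
  set X : ℝ := |‖c‖ - ‖c‖⁻¹| + ∑ k, |‖z k - c‖ - ‖z k - c‖⁻¹| with hX
  have hX0 : 0 ≤ X := add_nonneg (abs_nonneg _) (Finset.sum_nonneg fun k _ => abs_nonneg _)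
  -- X ≤ 23 (N+1) τ S / 3 (as sqrt (N+1) ≥ 3)
  have hXle : X ≤ 8 * ((N : ℝ) + 1) * (τ * S) := by
    apply le_of_sq_le_sq _ (by positivity)
    refine hX2.trans ?_
    have h1 : 0 ≤ ((N : ℝ) + 1) * (τ * S) ^ 2 := by positivity
    have h2 : 512 * (((N : ℝ) + 1) * (τ * S) ^ 2) ≤
        (64 * ((N : ℝ) + 1)) * (((N : ℝ) + 1) * (τ * S) ^ 2) :=
      mul_le_mul_of_nonneg_right (by linarith) h1
    calc 256 * ((N : ℝ) + 1) * (2 * (τ * S) ^ 2) = 512 * (((N : ℝ) + 1) * (τ * S) ^ 2) := by ring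
      _ ≤ _ := h2
      _ = _ := by ring
  have hdev := a3_sumdev h hc0 htz (le_of_eq hX.symm)
  -- the logarithmic derivative
  have hlog : ‖c⁻¹ + ∑ k, (c - z k)⁻¹‖ ≤ 6 * ((N : ℝ) + 1) * τ ^ N := by
    have hcz : ∀ k, c ≠ z k := fun k hk => htz k (by rw [hk, sub_self])
    have h1 := h.deriv_eq c hc0 hcz
    rw [h.prod_eq_JJ hc0] at h1
    have h2 := congrArg norm h1
    rw [norm_mul, norm_mul, norm_prod] at h2
    have h3 := a3_prod (by omega) hτ hc3 hS0 hS hv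
    rw [h2] at h3
    have h4 : 1 / 2 ≤ ((N : ℝ) + 1) * (‖c‖ * ‖JJ (fun j => c * (w j)⁻¹)‖) := by
      rw [← mul_assoc]; linarith
    set q := ‖c‖ * ‖JJ (fun j => c * (w j)⁻¹)‖ with hq
    set ℓ := ‖c⁻¹ + ∑ k, (c - z k)⁻¹‖ with hℓ
    have hℓ0 : 0 ≤ ℓ := norm_nonneg _
    have h5 : 1 / 2 * ℓ ≤ ((N : ℝ) + 1) * q * ℓ := mul_le_mul_of_nonneg_right h4 hℓ0
    have h6 : ((N : ℝ) + 1) * (q * ℓ) ≤ ((N : ℝ) + 1) * (τ ^ N * 3) :=
      mul_le_mul_of_nonneg_left h3 (by linarith)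
    linarith
  have hlow := a3_lower h hN hτ hS0 hS hτ1 hu1 hu2 hv
  -- final contradiction
  have h1 : ((N : ℝ) + 1) * (N * τ / 2) ≤
      N * (6 * ((N : ℝ) + 1) * (τ * S ^ 2) + 8 * ((N : ℝ) + 1) * (τ * S)) := by
    calc ((N : ℝ) + 1) * (N * τ / 2) ≤ ((N : ℝ) + 1) * ‖∑ j, (w j - c)‖ :=
          mul_le_mul_of_nonneg_left hlow (by linarith)
      _ ≤ N * (‖c⁻¹ + ∑ k, (c - z k)⁻¹‖ + X) := hdev
      _ ≤ _ := by
          apply mul_le_mul_of_nonneg_left _ (by linarith)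
          rw [← hpow2]
          exact add_le_add hlog hXle
  have hq : 0 < ((N : ℝ) + 1) * (N * τ) := by positivity
  have h2 : ((N : ℝ) + 1) * (N * τ) * (1 / 2) ≤
      ((N : ℝ) + 1) * (N * τ) * (6 * S ^ 2 + 8 * S) := by
    calc ((N : ℝ) + 1) * (N * τ) * (1 / 2) = ((N : ℝ) + 1) * (N * τ / 2) := by ring
      _ ≤ _ := h1
      _ = _ := by ring
  have h3 := le_of_mul_le_mul_left h2 hq
  nlinarith

/-- (A4): the case τ > 0 is impossible for large N.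
Proof.  n = N+1, u = mean of v_j = 1/w_j, η = 1-‖u‖ <= 4 τ^n, τ = ‖1 - c u‖ in (0, 1-δ] (mean of
‖1-a_j‖ <= 1-δ), t_0 = ‖c‖, t_k = ‖z_k - c‖.  All N large conditions are of the form
(polynomial in N) * (1-δ)^((N-1)/2) small.  Write T = sqrt(τ^n); T = τ sqrt(τ^(N-1)).
(1) ∑ ‖v_j - u‖^2 <= 2 N η <= 8 N τ^n (sum_sub_mean_sq_le), so ‖v_j - u‖ <= sqrt(8N) T <= 1/4.
(2) 2 τ^n <= 1/2, n‖c‖‖J‖ >= 1 - 2τ^n >= 1/2; the product Π of all t is n‖c‖‖J‖ ∏‖w‖ >= 1-2τ^n >= 1/2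
(prod_t_eq), in particular all t > 0.  -log Π <= 4 τ^n.  By sqrt_sub_sq_le with T_k = t_k^p:
∑ (t^(p/2)-1)^2 <= ∑ (t^p - 1 - p log t) <= -p log Π <= 8 τ^n (sum over all N+1 zeros, h.sum_le).
(3) each |t^(p/2)-1| <= 1/2, so by abs_sub_inv_le and Cauchy-Schwarz ∑ |t - 1/t| <= 8 sqrt(n) sqrt(8) T.
(4) ‖∑ over all zeros 1/(c - zero)‖ = ‖f'(c)/f(c)‖ by deriv_eq at x = c (c ≠ 0, c ≠ z_k as t > 0)
= ∏‖1-a_j‖/(‖c‖‖J‖) (prod_eq_JJ) <= 2 n ∏ ‖1-a_j‖; mean ‖1-a_j‖ <= τ + 3 mean‖v_j-u‖ <= τ + 3 sqrt(8) T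
= τ (1 + 3 sqrt 8 sqrt(τ^(N-1))), so ∏ ‖1-a_j‖ <= τ^N exp(9 N sqrt(τ^(N-1))) <= e τ^N.
(5) for y ≠ 0, ‖conj y - 1/y‖ = |‖y‖ - 1/‖y‖|.  So ‖∑ over all zeros (zero - c)‖ <= 2 e n τ^N
+ 8 sqrt(8) sqrt(n) T.  By mean_eq this norm is (n/N) ‖∑ (w_j - c)‖.
(6) ‖w_j - 1/u‖ = ‖v_j - u‖/(‖v_j‖‖u‖) <= 3 sqrt(8N) T <= τ/2 (‖u‖ >= 3/4, ‖v_j‖ >= 1/2) and
‖1/u - c‖ = τ/‖u‖ >= τ, so ‖∑ (w_j - c)‖ >= N τ/2.
(7) n τ/2 <= 2 e n τ^N + 23 sqrt(n) T: divide by n τ: 1/2 <= 2 e τ^(N-1) + 23 sqrt(τ^(N-1)), false for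
N large since τ <= 1-δ. -/
theorem caseA3 {p δ : ℝ} (hp1 : 1 < p) (hp2 : p ≤ 2) (hδ0 : 0 < δ) (hδ1 : δ < 1) :
    ∃ N₀ : ℕ, ∀ N : ℕ, N₀ ≤ N → ∀ (z w : Fin N → ℂ) (c : ℂ), Cfg p N z w c →
      ∑ j, ‖1 - c * (w j)⁻¹‖ ≤ (1 - δ) * N → ‖c‖ ≤ 3 →
      1 - c * ((∑ j, (w j)⁻¹) / N) ≠ 0 →
      1 - ‖(∑ j, (w j)⁻¹) / N‖ ≤ 4 * ‖1 - c * ((∑ j, (w j)⁻¹) / N)‖ ^ (N + 1) →
      1 - 2 * ‖1 - c * ((∑ j, (w j)⁻¹) / N)‖ ^ (N + 1)
        ≤ ((N : ℝ) + 1) * ‖c‖ * ‖JJ (fun j => c * (w j)⁻¹)‖ → False := by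
  set r : ℝ := Real.sqrt (1 - δ) with hr
  have hr0 : 0 ≤ r := Real.sqrt_nonneg _
  have hr1 : r < 1 := by
    rw [hr, Real.sqrt_lt' one_pos]
    linarith
  have ht : Filter.Tendsto (fun M : ℕ => (M : ℝ) * r ^ M + r ^ M) Filter.atTop (nhds (0 + 0)) :=
    (tendsto_self_mul_const_pow_of_lt_one hr0 hr1).add
      (tendsto_pow_atTop_nhds_zero_of_lt_one hr0 hr1)
  rw [add_zero] at ht
  obtain ⟨M₀, hM₀⟩ := (ht.eventually (gt_mem_nhds (by norm_num : (0 : ℝ) < 1 / 9))).exists_forall_of_atTop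
  refine ⟨max 12 (M₀ + 1), fun N hN z w c h hsum hc3 hne hη hJ => ?_⟩
  have hN12 : 12 ≤ N := (le_max_left _ _).trans hN
  have hNM : M₀ + 1 ≤ N := (le_max_right _ _).trans hN
  have hN0 : (12 : ℝ) ≤ N := by exact_mod_cast hN12
  set u : ℂ := (∑ j, (w j)⁻¹) / N with hu
  set τ : ℝ := ‖1 - c * u‖ with hτ
  have hτ0 : 0 < τ := norm_pos_iff.2 hne
  have hτδ : τ ≤ 1 - δ := by
    have e : 1 - c * u = (∑ j, (1 - c * (w j)⁻¹)) / N := by
      rw [hu, Finset.sum_sub_distrib, ← Finset.mul_sum]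
      simp only [Finset.sum_const, Finset.card_univ, Fintype.card_fin, nsmul_eq_mul, mul_one]
      have hNc : (N : ℂ) ≠ 0 := by
        have : (N : ℂ) = ((N : ℝ) : ℂ) := by push_cast; rfl
        rw [this]
        exact_mod_cast (by linarith : (N : ℝ) ≠ 0)
      field_simp
    rw [hτ, e, norm_div, Complex.norm_natCast, div_le_iff₀ (by linarith)]
    exact (norm_sum_le _ _).trans hsum
  refine a3_core hp1 hp2 hN12 h hu hτ hτ0 (by linarith) hc3 (S := Real.sqrt τ ^ (N - 1))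
    (by positivity) ?_ ?_ hη hJ
  · rw [← pow_mul, mul_comm, pow_mul, Real.sq_sqrt hτ0.le]
  · have h1 : Real.sqrt τ ^ (N - 1) ≤ r ^ (N - 1) :=
      pow_le_pow_left₀ (Real.sqrt_nonneg _) (Real.sqrt_le_sqrt hτδ) _
    have h2 := hM₀ (N - 1) (by omega)
    have h3 : ((N - 1 : ℕ) : ℝ) = (N : ℝ) - 1 := by
      rw [Nat.cast_sub (by omega)]
      simp
    rw [h3] at h2
    have h4 : (N : ℝ) * Real.sqrt τ ^ (N - 1) ≤ N * r ^ (N - 1) :=
      mul_le_mul_of_nonneg_left h1 (by linarith)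
    nlinarith

end Pool.MP_c113aa_an.BV
end

section

set_option autoImplicit false

namespace Pool.MP_c113aa_an.BV

open Finset Polynomial
/-- (D3) the stochastic matrix.  Proof: U from (D1), A = the N x N compression, V from schur for A,
T := star V * A * V upper triangular, d_j := T j j.  charpoly A = charpoly T = ∏ (X - d_j)
(Matrix.charpoly_of_isUpperTriangular), so by (D2) and critOf_iff ∏ (X - d_j) = ∏ (X - w_j) and the
multisets of d and w agree (Polynomial.roots).  With W k j := ∑_i U k i.succ * V i j (an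
(N+1) x N matrix): d_j = ∑_k |W k j|^2 Z_k, S j k := |W k j|^2.  Row sums: the columns of W are unit
vectors (star V * star U_succ * U_succ * V = 1).  Column sums: ∑_j |W k j|^2 = ∑_i |U k i.succ|^2 = 1 - |U k 0|^2 = N/(N+1)
(V unitary, rows of U are unit vectors). -/
theorem exists_stochastic {N : ℕ} {Z : Fin (N + 1) → ℂ} {w : Fin N → ℂ} (h : CritOf Z w) :
    ∃ (d : Fin N → ℂ) (S : Fin N → Fin (N + 1) → ℝ),
      Multiset.map d Finset.univ.val = Multiset.map w Finset.univ.val ∧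
      (∀ j k, 0 ≤ S j k) ∧ (∀ j, ∑ k, S j k = 1) ∧
      (∀ k, ∑ j, S j k = (N : ℝ) / (N + 1)) ∧ ∀ j, d j = ∑ k, (S j k : ℂ) * Z k := by
  obtain ⟨U, hU, hU0⟩ := exists_unitary_const N
  set P : Matrix (Fin (N + 1)) (Fin N) ℂ := U.submatrix id Fin.succ with hP
  set A : Matrix (Fin N) (Fin N) ℂ :=
    (star U * Matrix.diagonal Z * U).submatrix Fin.succ Fin.succ with hA
  obtain ⟨V, hV, hT⟩ := schur N A
  have hUU : U.conjTranspose * U = 1 := by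
    rw [← Matrix.star_eq_conjTranspose]
    exact Matrix.mem_unitaryGroup_iff'.mp hU
  have hUU' : U * U.conjTranspose = 1 := by
    rw [← Matrix.star_eq_conjTranspose]
    exact Matrix.mem_unitaryGroup_iff.mp hU
  have hVV : V.conjTranspose * V = 1 := by
    rw [← Matrix.star_eq_conjTranspose]
    exact Matrix.mem_unitaryGroup_iff'.mp hV
  have hVV' : V * V.conjTranspose = 1 := by
    rw [← Matrix.star_eq_conjTranspose]
    exact Matrix.mem_unitaryGroup_iff.mp hV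
  have hAP : A = P.conjTranspose * Matrix.diagonal Z * P := by
    rw [hA, hP, Matrix.star_eq_conjTranspose]
    ext i j
    simp [Matrix.mul_apply, Matrix.diagonal_apply]
  set W : Matrix (Fin (N + 1)) (Fin N) ℂ := P * V with hW
  have hTW : star V * A * V = W.conjTranspose * Matrix.diagonal Z * W := by
    rw [hAP, hW, Matrix.conjTranspose_mul, Matrix.star_eq_conjTranspose]
    simp only [Matrix.mul_assoc]
  have hPP : P.conjTranspose * P = 1 := by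
    ext i j
    have h1 := congrFun (congrFun hUU i.succ) j.succ
    simp only [Matrix.mul_apply, Matrix.conjTranspose_apply] at h1
    simp only [hP, Matrix.mul_apply, Matrix.conjTranspose_apply, Matrix.submatrix_apply, id]
    rw [h1]
    simp [Matrix.one_apply]
  have hWW : W.conjTranspose * W = 1 := by
    calc W.conjTranspose * W = V.conjTranspose * (P.conjTranspose * P) * V := by
          rw [hW, Matrix.conjTranspose_mul]
          simp only [Matrix.mul_assoc]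
      _ = 1 := by rw [hPP, Matrix.mul_one, hVV]
  have hWW' : W * W.conjTranspose = P * P.conjTranspose := by
    calc W * W.conjTranspose = P * (V * V.conjTranspose) * P.conjTranspose := by
          rw [hW, Matrix.conjTranspose_mul]
          simp only [Matrix.mul_assoc]
      _ = _ := by rw [hVV', Matrix.mul_one]
  refine ⟨fun j => (star V * A * V) j j, fun j k => Complex.normSq (W k j), ?_, ?_, ?_, ?_, ?_⟩
  · -- the multisets
    have h1 : A.charpoly = (star V * A * V).charpoly := by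
      have hV1 : V * star V = 1 := Matrix.mem_unitaryGroup_iff.mp hV
      rw [Matrix.mul_assoc, Matrix.charpoly_mul_comm, Matrix.mul_assoc, hV1, Matrix.mul_one]
    have h2 : (star V * A * V).charpoly = ∏ j, (X - C ((star V * A * V) j j)) :=
      Matrix.charpoly_of_isUpperTriangular _ hT
    have h3 := charpoly_compression Z U hU hU0
    rw [(critOf_iff Z w).mp h, ← hA, h1, h2] at h3
    have hN : (C ((N : ℂ) + 1) : ℂ[X]) ≠ 0 := by
      rw [Ne, C_eq_zero]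
      exact_mod_cast Nat.succ_ne_zero N
    have h4 := mul_left_cancel₀ hN h3
    have h5 : ∀ f : Fin N → ℂ, (∏ j, (X - C (f j)) : ℂ[X]).roots = Multiset.map f univ.val := by
      intro f
      have h6 : (∏ j, (X - C (f j)) : ℂ[X])
          = (Multiset.map (fun a => X - C a) (Multiset.map f univ.val)).prod := by
        rw [Multiset.map_map]
        rfl
      rw [h6, Polynomial.roots_multiset_prod_X_sub_C]
    rw [← h5, ← h5, h4]
  · intro j k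
    exact Complex.normSq_nonneg _
  · intro j
    have h1 := congrFun (congrFun hWW j) j
    rw [Matrix.mul_apply, Matrix.one_apply_eq] at h1
    have h2 : ((∑ k, Complex.normSq (W k j) : ℝ) : ℂ) = 1 := by
      rw [← h1]
      push_cast
      refine Finset.sum_congr rfl (fun k _ => ?_)
      rw [Matrix.conjTranspose_apply]
      exact Complex.normSq_eq_conj_mul_self
    exact_mod_cast h2
  · intro k
    have h1 := congrFun (congrFun hWW' k) k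
    rw [Matrix.mul_apply, Matrix.mul_apply] at h1
    have h3 := congrFun (congrFun hUU' k) k
    rw [Matrix.mul_apply, Matrix.one_apply_eq, Fin.sum_univ_succ] at h3
    have h2 : ((∑ j, Complex.normSq (W k j) : ℝ) : ℂ) + U k 0 * U.conjTranspose 0 k = 1 := by
      rw [← h3, add_comm]
      congr 1
      have h4 : ((∑ j, Complex.normSq (W k j) : ℝ) : ℂ) = ∑ j, W k j * W.conjTranspose j k := by
        push_cast
        refine Finset.sum_congr rfl (fun j _ => ?_)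
        rw [Matrix.conjTranspose_apply]
        exact Complex.mul_conj _ |>.symm
      rw [h4, h1]
      refine Finset.sum_congr rfl (fun j _ => ?_)
      simp [hP]
    have h5 : U k 0 * U.conjTranspose 0 k = (((((N : ℝ) + 1))⁻¹ : ℝ) : ℂ) := by
      rw [Matrix.conjTranspose_apply, hU0 k]
      have h6 : star (((Real.sqrt ((N : ℝ) + 1))⁻¹ : ℝ) : ℂ)
          = (((Real.sqrt ((N : ℝ) + 1))⁻¹ : ℝ) : ℂ) := Complex.conj_ofReal _
      rw [h6, ← Complex.ofReal_mul]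
      congr 1
      rw [← mul_inv, Real.mul_self_sqrt (by positivity)]
    rw [h5] at h2
    have h6 : (∑ j, Complex.normSq (W k j)) + ((N : ℝ) + 1)⁻¹ = 1 := by exact_mod_cast h2
    have h7 : (N : ℝ) / (N + 1) + ((N : ℝ) + 1)⁻¹ = 1 := by
      field_simp
    linarith
  · intro j
    show (star V * A * V) j j = _
    rw [hTW, Matrix.mul_apply]
    refine Finset.sum_congr rfl (fun k _ => ?_)
    rw [Matrix.mul_diagonal, Matrix.conjTranspose_apply, Complex.normSq_eq_conj_mul_self]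
    show star (W k j) * Z k * W k j = (starRingEnd ℂ) (W k j) * W k j * Z k
    rw [starRingEnd_apply]
    ring

/-- the de Bruijn-Springer theorem.  Proof: ∑ φ(w_j) = ∑ φ(d_j) (multiset equality), Jensen
(ConvexOn.map_sum_le) φ(d_j) <= ∑_k S_jk φ(Z_k), sum over j with the column sums N/(N+1). -/
theorem dbs {N : ℕ} {Z : Fin (N + 1) → ℂ} {w : Fin N → ℂ} (h : CritOf Z w) (φ : ℂ → ℝ)
    (hφ : ConvexOn ℝ Set.univ φ) :
    ((N : ℝ) + 1) * ∑ j, φ (w j) ≤ N * ∑ k, φ (Z k) := by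
  obtain ⟨d, S, hms, hS0, hrow, hcol, hd⟩ := exists_stochastic h
  have h1 : ∑ j, φ (w j) = ∑ j, φ (d j) := by
    have h2 : ∀ f : Fin N → ℂ, ∑ j, φ (f j) = (Multiset.map φ (Multiset.map f univ.val)).sum := by
      intro f
      rw [Multiset.map_map]
      rfl
    rw [h2, h2, hms]
  have h3 : ∀ j, φ (d j) ≤ ∑ k, S j k * φ (Z k) := by
    intro j
    have h4 := hφ.map_sum_le (t := (Finset.univ : Finset (Fin (N + 1)))) (w := fun k => S j k)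
      (p := Z) (fun k _ => hS0 j k) (hrow j) (fun k _ => Set.mem_univ _)
    simp only [smul_eq_mul, Complex.real_smul] at h4
    rw [hd j]
    exact h4
  have h4 : ∑ j, φ (d j) ≤ ∑ k, (N : ℝ) / (N + 1) * φ (Z k) := by
    calc ∑ j, φ (d j) ≤ ∑ j, ∑ k, S j k * φ (Z k) := Finset.sum_le_sum (fun j _ => h3 j)
      _ = ∑ k, ∑ j, S j k * φ (Z k) := Finset.sum_comm
      _ = _ := by
          refine Finset.sum_congr rfl (fun k _ => ?_)
          rw [← Finset.sum_mul, hcol k]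
  rw [h1]
  have h5 : (0 : ℝ) < (N : ℝ) + 1 := by positivity
  calc ((N : ℝ) + 1) * ∑ j, φ (d j) ≤ ((N : ℝ) + 1) * ∑ k, (N : ℝ) / (N + 1) * φ (Z k) :=
        mul_le_mul_of_nonneg_left h4 h5.le
    _ = N * ∑ k, φ (Z k) := by
        rw [← Finset.mul_sum]
        field_simp

end Pool.MP_c113aa_an.BV
end
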