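import Pool.Agent.Lib.MP_c113aa_an.S3O3
import Pool.Agent.Lib.MP_c113aa_an.Dbs

section

set_option autoImplicit false

namespace Pool.MP_c113aa_an.BV

open Finset

variable {p : ℝ} {N : ℕ} {z w : Fin N → ℂ} {c : ℂ}

/-- (Y1) Jensen's inequality for the zeros in a disk.  Proof: the circle average over |x| = r of
log ‖1 - x/z_k‖ equals max 0 (log (r/‖z_k‖)) (circleAverage_log_norm_sub_const_eq_log_radius_add_posLog
after factoring out -1/z_k, or posLog), so the left side is the circle average of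
log ‖∏ (1 - x/z_k)‖, and by (3c) (Cfg.norm_q_le) the integrand is <= r‖V1‖ + N r^2/2 (where the
product vanishes, log 0 = 0 is also <=).  Alternative without integrals: maximum modulus for the
product of (1 - x/z_k) (r^2 - conj(z_k) x)/(r (z_k - x)) * z_k/... (Blaschke factors). -/
theorem Cfg.jensen (h : Cfg p N z w c) {r : ℝ} (hr : 0 < r) :
    ∑ k, max 0 (Real.log (r / ‖z k‖)) ≤ r * ‖∑ j, (w j)⁻¹‖ + N * r ^ 2 / 2 := by
  classical
  -- the integrable sum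
  have hI : ∀ k, CircleIntegrable (fun x : ℂ => Real.log ‖x - z k‖ - Real.log ‖z k‖) 0 r := by
    intro k
    have h1 : CircleIntegrable (fun x : ℂ => Real.log ‖x - z k‖) 0 r :=
      circleIntegrable_log_norm_sub_const (a := z k) (c := 0) r
    exact h1.sub (circleIntegrable_const _ _ _)
  have hI2 : CircleIntegrable (fun x : ℂ => ∑ k, (Real.log ‖x - z k‖ - Real.log ‖z k‖)) 0 r := by
    apply CircleIntegrable.fun_sum
    intro k _
    exact hI k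
  have hav : Real.circleAverage (fun x : ℂ => ∑ k, (Real.log ‖x - z k‖ - Real.log ‖z k‖)) 0 r
      = ∑ k, max 0 (Real.log (r / ‖z k‖)) := by
    rw [Real.circleAverage_fun_sum (fun k _ => hI k)]
    apply Finset.sum_congr rfl
    intro k _
    have h1 : CircleIntegrable (fun x : ℂ => Real.log ‖x - z k‖) 0 r :=
      circleIntegrable_log_norm_sub_const (a := z k) (c := 0) r
    rw [Real.circleAverage_fun_sub h1 (circleIntegrable_const _ _ _),
      Real.circleAverage_const]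
    have h2 := circleAverage_log_norm_sub_const_eq_log_radius_add_posLog (a := z k) (c := 0)
      hr.ne'
    rw [h2, Real.posLog]
    have hz : 0 < ‖z k‖ := norm_pos_iff.2 (h.z_ne k)
    have e1 : Real.log (r⁻¹ * ‖0 - z k‖) = Real.log ‖z k‖ - Real.log r := by
      rw [zero_sub, norm_neg, Real.log_mul (inv_ne_zero hr.ne') hz.ne', Real.log_inv]
      ring
    have e2 : Real.log (r / ‖z k‖) = Real.log r - Real.log ‖z k‖ := by
      rw [Real.log_div hr.ne' hz.ne']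
    rw [e1, e2]
    rcases le_total (Real.log ‖z k‖) (Real.log r) with hle | hle
    · rw [max_eq_left (by linarith), max_eq_right (by linarith)]
      ring
    · rw [max_eq_right (by linarith), max_eq_left (by linarith)]
      ring
  -- the product
  have hco : (fun x : ℂ => ∑ k, (Real.log ‖x - z k‖ - Real.log ‖z k‖))
      =ᶠ[Filter.codiscreteWithin (Metric.sphere (0 : ℂ) |r|)]
      (fun x : ℂ => Real.log ‖∏ k, (1 - x / z k)‖) := by
    have hset : {x : ℂ | ∀ k, x ≠ z k} ∈ Filter.codiscreteWithin (Metric.sphere (0 : ℂ) |r|) := by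
      apply codiscreteWithin_iff_locallyFiniteComplementWithin.2
      intro x _
      refine ⟨Set.univ, Filter.univ_mem, ?_⟩
      apply Set.Finite.subset (Set.finite_range z)
      rintro y ⟨_, _, hy⟩
      simp only [Set.mem_ofPred_eq, not_forall, not_not] at hy
      obtain ⟨k, hk⟩ := hy
      exact ⟨k, hk.symm⟩
    filter_upwards [hset] with x hx
    rw [norm_prod, Real.log_prod]
    · apply Finset.sum_congr rfl
      intro k _
      have hz : 0 < ‖z k‖ := norm_pos_iff.2 (h.z_ne k)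
      have e3 : ‖1 - x / z k‖ = ‖x - z k‖ / ‖z k‖ := by
        rw [← norm_div, ← norm_neg]
        congr 1
        field_simp [h.z_ne k]
        ring
      rw [e3, Real.log_div (norm_ne_zero_iff.2 (sub_ne_zero.2 (hx k))) hz.ne']
    · intro k _ h0
      rw [norm_eq_zero] at h0
      apply hx k
      have hz := h.z_ne k
      have h1 := (sub_eq_zero.1 h0).symm
      rwa [div_eq_one_iff_eq hz] at h1
  have hI3 : CircleIntegrable (fun x : ℂ => Real.log ‖∏ k, (1 - x / z k)‖) 0 r :=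
    CircleIntegrable.congr_codiscreteWithin hco hI2
  rw [← hav, Real.circleAverage_congr_codiscreteWithin hco hr.ne']
  apply Real.circleAverage_mono_on_of_le_circle hI3
  intro x hx
  have hxr : ‖x‖ = r := by
    rw [abs_of_pos hr] at hx
    simpa using hx
  have hb := h.norm_q_le x
  rw [hxr] at hb
  have hnn : 0 ≤ r * ‖∑ j, (w j)⁻¹‖ + N * r ^ 2 / 2 := by positivity
  rcases eq_or_ne (∏ k, (1 - x / z k)) 0 with h0 | h0
  · show Real.log ‖∏ k, (1 - x / z k)‖ ≤ _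
    rw [h0, norm_zero, Real.log_zero]
    exact hnn
  · show Real.log ‖∏ k, (1 - x / z k)‖ ≤ _
    rw [Real.log_le_iff_le_exp (norm_pos_iff.2 h0)]
    exact hb

end Pool.MP_c113aa_an.BV
end

section

set_option autoImplicit false

namespace Pool.MP_c113aa_an.BV

open Finset

/-- Case A: if the mean of |1 - c / w_j| is at most 1 - δ then, for large N, all critical points
are equal to c. -/
theorem caseA {p δ : ℝ} (hp1 : 1 < p) (hp2 : p ≤ 2) (hδ0 : 0 < δ) (hδ1 : δ < 1) :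
    ∃ N₀ : ℕ, ∀ N : ℕ, N₀ ≤ N → ∀ (z w : Fin N → ℂ) (c : ℂ), Cfg p N z w c →
      ∑ j, ‖1 - c * (w j)⁻¹‖ ≤ (1 - δ) * N → ∀ j, w j = c := by
  obtain ⟨N₁, h₁⟩ := caseA1 hp1 hp2 hδ0 hδ1
  obtain ⟨N₂, h₂⟩ := caseA2 hp1 hp2 hδ0 hδ1
  obtain ⟨N₃, h₃⟩ := caseA3 hp1 hp2 hδ0 hδ1
  refine ⟨max 1 (max N₁ (max N₂ N₃)), fun N hN z w c h hA => ?_⟩
  have hN1 : 1 ≤ N := le_trans (le_max_left _ _) hN
  have hN' : max N₁ (max N₂ N₃) ≤ N := le_trans (le_max_right _ _) hN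
  have hNa : N₁ ≤ N := le_trans (le_max_left _ _) hN'
  have hN'' : max N₂ N₃ ≤ N := le_trans (le_max_right _ _) hN'
  have hNb : N₂ ≤ N := le_trans (le_max_left _ _) hN''
  have hNc : N₃ ≤ N := le_trans (le_max_right _ _) hN''
  have hc3 : ‖c‖ ≤ 3 := by
    by_contra hcon
    exact h₁ N hNa z w c h hA (le_of_lt (not_le.mp hcon))
  obtain ⟨hη, hJ⟩ := h₂ N hNb z w c h hA hc3
  have hτ : 1 - c * ((∑ j, (w j)⁻¹) / N) = 0 := by
    by_contra hcon
    exact h₃ N hNc z w c h hA hc3 hcon hη hJ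
  exact caseA_eq hN1 h hτ hη

end Pool.MP_c113aa_an.BV
end

section

set_option autoImplicit false

namespace Pool.MP_c113aa_an.BV

open Finset

variable {p : ℝ} {N : ℕ} {z w : Fin N → ℂ} {c : ℂ}

/-- (3c'') lower bound for the zero free part.  Proof: N = 0: the product is empty.  N >= 1:
norm_log_quot_ge with s = the filter, α_k = 1/z_k, t = ∅, r = ρ, A = 2ρ‖V1‖ + 2Nρ^2 > 0 (Cfg.norm_E_le),
x = c: 2A‖c‖/(ρ-‖c‖) <= 4A‖c‖/ρ = 8‖c‖‖V1‖ + 8N‖c‖ρ. -/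
theorem Cfg.norm_E_ge (h : Cfg p N z w c) {ρ : ℝ} (hρ : 0 < ρ) (hc : 2 * ‖c‖ ≤ ρ) :
    Real.exp (-(8 * ‖c‖ * ‖∑ j, (w j)⁻¹‖ + 8 * N * ‖c‖ * ρ))
      ≤ ‖∏ k ∈ univ.filter (fun k => ρ ≤ ‖z k‖), (1 - c / z k)‖ := by
  rcases Nat.eq_zero_or_pos N with hN | hN
  · subst hN
    simp
  have hNr : (1 : ℝ) ≤ N := by exact_mod_cast hN
  have hcρ : ‖c‖ < ρ := by
    have := norm_nonneg c
    rcases eq_or_lt_of_le this with h0 | h0
    · rw [← h0]; exact hρ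
    · linarith
  set V : ℝ := ‖∑ j, (w j)⁻¹‖ with hV
  have hV0 : 0 ≤ V := norm_nonneg _
  have hA : 0 < 2 * ρ * V + 2 * N * ρ ^ 2 := by
    have h1 : 0 ≤ 2 * ρ * V := by positivity
    have h2 : 0 < 2 * (N : ℝ) * ρ ^ 2 := by positivity
    linarith
  have key := norm_log_quot_ge (univ.filter (fun k => ρ ≤ ‖z k‖)) (∅ : Finset (Fin N))
    (fun k => (z k)⁻¹) (fun _ => 0) hρ hA
    (fun i hi => by
      have hi' := (Finset.mem_filter.1 hi).2
      have h1 : 0 < ‖z i‖ := lt_of_lt_of_le hρ hi'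
      rw [norm_inv, ← div_eq_mul_inv, div_le_one h1]
      exact hi')
    (fun i hi => absurd hi (Finset.notMem_empty i))
    (fun x hx => by
      rw [Finset.prod_empty, norm_one, mul_one]
      have h1 := h.norm_E_le hρ x (by linarith [norm_nonneg x])
      simpa only [div_eq_mul_inv] using h1)
    c hcρ
  rw [Finset.prod_empty, norm_one, mul_one] at key
  have h2 : ‖∏ k ∈ univ.filter (fun k => ρ ≤ ‖z k‖), (1 - c / z k)‖ =
      ‖∏ k ∈ univ.filter (fun k => ρ ≤ ‖z k‖), (1 - c * (z k)⁻¹)‖ := by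
    simp only [div_eq_mul_inv]
  rw [h2]
  refine le_trans (Real.exp_le_exp.2 (neg_le_neg ?_)) key
  have h3 : ρ / 2 ≤ ρ - ‖c‖ := by linarith
  have h4 : 0 < ρ - ‖c‖ := by linarith
  rw [div_le_iff₀ h4]
  have h5 : (8 * ‖c‖ * V + 8 * N * ‖c‖ * ρ) * (ρ / 2) ≤
      (8 * ‖c‖ * V + 8 * N * ‖c‖ * ρ) * (ρ - ‖c‖) :=
    mul_le_mul_of_nonneg_left h3 (by positivity)
  refine le_trans (le_of_eq ?_) h5
  ring

/-- (3d) upper bound for V1.  Proof: for ‖w‖ >= 1: ‖1/w - conj w‖ = ‖w‖ - 1/‖w‖ <= 2(‖w‖-1), and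
∑ (‖w_j‖-1) <= ∑ (‖w_j-c‖ + ‖c‖ - 1) <= N‖c‖ (sum_x_le).  So ‖∑ 1/w_j‖ <= ‖∑ w_j‖ + 2N‖c‖
<= ‖∑ (w_j-c)‖ + 3N‖c‖.  By norm_sum_sub_le (N+1)‖∑(w_j-c)‖ <= N D, D = the sum of |t-1| over the
N+1 distances; Cauchy-Schwarz D^2 <= ∑(1+t) ∑ (t-1)^2/(1+t) <= 2(N+1) GG/(p-1)^2 (sum_t_le, gain_ge). -/
theorem Cfg.V1_upper (h : Cfg p N z w c) (hp1 : 1 < p) (hp2 : p ≤ 2) {ρ : ℝ} (hρ : 0 < ρ)
    (hρ8 : ρ ≤ 1 / 8) :
    ‖∑ j, (w j)⁻¹‖
      ≤ N * (3 * ‖c‖ + Real.sqrt (2 * GG p z c ρ / ((p - 1) ^ 2 * ((N : ℝ) + 1)))) := by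
  have hp0 : 0 < p - 1 := by linarith
  have hN0 : (0 : ℝ) ≤ N := Nat.cast_nonneg N
  have hN1 : (0 : ℝ) < (N : ℝ) + 1 := by linarith
  -- step 1
  have h1 : ∀ j, ‖(w j)⁻¹ - (starRingEnd ℂ) (w j)‖ ≤ 2 * (‖w j‖ - 1) := by
    intro j
    have hw := h.one_le j
    have hw0 : 0 < ‖w j‖ := by linarith
    have e1 : (w j)⁻¹ - (starRingEnd ℂ) (w j) =
        (starRingEnd ℂ) (w j) * (((‖w j‖ ^ 2)⁻¹ - 1 : ℝ) : ℂ) := by
      rw [Complex.inv_def, Complex.normSq_eq_norm_sq]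
      push_cast
      ring
    have e2 : (‖w j‖ ^ 2)⁻¹ ≤ 1 := inv_le_one_of_one_le₀ (by nlinarith)
    rw [e1, norm_mul, RCLike.norm_conj, Complex.norm_real, Real.norm_eq_abs,
      abs_of_nonpos (by linarith)]
    have e3 : ‖w j‖ * -((‖w j‖ ^ 2)⁻¹ - 1) = ‖w j‖ - ‖w j‖⁻¹ := by
      field_simp
      ring
    rw [e3]
    have e4 : 2 ≤ ‖w j‖ + ‖w j‖⁻¹ := by
      have e5 : ‖w j‖ + ‖w j‖⁻¹ - 2 = (‖w j‖ - 1) ^ 2 * ‖w j‖⁻¹ := by
        field_simp
        ring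
      have e6 : 0 ≤ (‖w j‖ - 1) ^ 2 * ‖w j‖⁻¹ := by positivity
      linarith
    linarith
  have h2 : ∑ j, (‖w j‖ - 1) ≤ N * ‖c‖ := by
    have e1 : ∀ j, ‖w j‖ - 1 ≤ ‖w j - c‖ + (‖c‖ - 1) := by
      intro j
      have := norm_add_le (w j - c) c
      rw [sub_add_cancel] at this
      linarith
    have e2 := Finset.sum_le_sum fun (j : Fin N) (_ : j ∈ univ) => e1 j
    rw [Finset.sum_add_distrib, Finset.sum_const, Finset.card_univ, Fintype.card_fin,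
      nsmul_eq_mul] at e2
    have e3 := h.sum_x_le hp1 hp2
    linarith
  have h3 : ‖∑ j, (w j)⁻¹‖ ≤ ‖∑ j, (w j - c)‖ + 3 * (N * ‖c‖) := by
    have e1 : ∑ j, (w j)⁻¹ = ∑ j, ((w j)⁻¹ - (starRingEnd ℂ) (w j)) +
        (starRingEnd ℂ) (∑ j, w j) := by
      rw [Finset.sum_sub_distrib, map_sum]
      ring
    have e2 : ‖∑ j, ((w j)⁻¹ - (starRingEnd ℂ) (w j))‖ ≤ 2 * (N * ‖c‖) := by
      refine (norm_sum_le _ _).trans ((Finset.sum_le_sum fun j _ => h1 j).trans ?_)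
      rw [← Finset.mul_sum]
      linarith
    have e3 : ‖(starRingEnd ℂ) (∑ j, w j)‖ ≤ ‖∑ j, (w j - c)‖ + N * ‖c‖ := by
      rw [RCLike.norm_conj]
      have e4 : ∑ j, w j = ∑ j, (w j - c) + (N : ℂ) * c := by
        rw [Finset.sum_sub_distrib, Finset.sum_const, Finset.card_univ, Fintype.card_fin,
          nsmul_eq_mul]
        ring
      rw [e4]
      refine (norm_add_le _ _).trans (le_of_eq ?_)
      rw [norm_mul, Complex.norm_natCast]
    rw [e1]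
    refine (norm_add_le _ _).trans ?_
    linarith
  -- step 2
  set t : Fin (N + 1) → ℝ := Fin.cons ‖c‖ (fun k => ‖z k - c‖) with ht
  have ht0 : ∀ i, 0 ≤ t i := by
    intro i
    refine Fin.cases ?_ (fun k => ?_) i
    · rw [ht, Fin.cons_zero]; exact norm_nonneg _
    · rw [ht, Fin.cons_succ]; exact norm_nonneg _
  set D : ℝ := |‖c‖ - 1| + ∑ k, |‖z k - c‖ - 1| with hD
  have hD0 : 0 ≤ D := by
    have : 0 ≤ ∑ k, |‖z k - c‖ - 1| := Finset.sum_nonneg fun k _ => abs_nonneg _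
    have := abs_nonneg (‖c‖ - 1)
    linarith
  have hDt : D = ∑ i, |t i - 1| := by
    rw [Fin.sum_univ_succ, ht]
    simp only [Fin.cons_zero, Fin.cons_succ]
    rfl
  have hcs : D ^ 2 ≤ (∑ i, (1 + t i)) * ∑ i, (t i - 1) ^ 2 / (1 + t i) := by
    rw [hDt]
    refine Finset.sum_sq_le_sum_mul_sum_of_sq_le_mul _ (fun i _ => by linarith [ht0 i])
      (fun i _ => div_nonneg (sq_nonneg _) (by linarith [ht0 i])) (fun i _ => ?_)
    have := ht0 i
    rw [sq_abs]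
    refine le_of_eq ?_
    field_simp
  have hs1 : ∑ i, (1 + t i) ≤ 2 * ((N : ℝ) + 1) := by
    have e1 : ∑ i, t i = ‖c‖ + ∑ k, ‖z k - c‖ := by
      rw [Fin.sum_univ_succ, ht]
      simp only [Fin.cons_zero, Fin.cons_succ]
    have e2 := h.sum_t_le hp1 hp2
    rw [Finset.sum_add_distrib, Finset.sum_const, Finset.card_univ, Fintype.card_fin,
      nsmul_eq_mul, e1]
    push_cast
    linarith
  have hs2 : (p - 1) ^ 2 * ∑ i, (t i - 1) ^ 2 / (1 + t i) ≤ GG p z c ρ := by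
    have e1 : GG p z c ρ = ∑ i, gain p ρ (t i) := by
      rw [Fin.sum_univ_succ, ht]
      simp only [Fin.cons_zero, Fin.cons_succ]
      rfl
    rw [e1, Finset.mul_sum]
    refine Finset.sum_le_sum fun i _ => ?_
    rw [← mul_div_assoc]
    exact gain_ge hp1 hp2 hρ hρ8 (ht0 i)
  have hs3 : 0 ≤ ∑ i, (t i - 1) ^ 2 / (1 + t i) :=
    Finset.sum_nonneg fun i _ => div_nonneg (sq_nonneg _) (by linarith [ht0 i])
  have hD2 : D ^ 2 ≤ 2 * ((N : ℝ) + 1) * (GG p z c ρ / (p - 1) ^ 2) := by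
    refine hcs.trans (mul_le_mul hs1 ?_ hs3 (by positivity))
    rw [le_div_iff₀ (by positivity), mul_comm]
    exact hs2
  have hG0 : 0 ≤ GG p z c ρ := by
    have : 0 ≤ (p - 1) ^ 2 * ∑ i, (t i - 1) ^ 2 / (1 + t i) := by positivity
    linarith
  have hD3 : D / ((N : ℝ) + 1) ≤
      Real.sqrt (2 * GG p z c ρ / ((p - 1) ^ 2 * ((N : ℝ) + 1))) := by
    apply Real.le_sqrt_of_sq_le
    rw [div_pow, div_le_div_iff₀ (by positivity) (by positivity)]
    have e1 : 2 * ((N : ℝ) + 1) * (GG p z c ρ / (p - 1) ^ 2) * ((p - 1) ^ 2) =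
        2 * ((N : ℝ) + 1) * GG p z c ρ := by
      field_simp
    have e2 : D ^ 2 * (p - 1) ^ 2 ≤ 2 * ((N : ℝ) + 1) * GG p z c ρ := by
      rw [← e1]
      exact mul_le_mul_of_nonneg_right hD2 (by positivity)
    have e3 := mul_le_mul_of_nonneg_right e2 hN1.le
    calc D ^ 2 * ((p - 1) ^ 2 * ((N : ℝ) + 1)) = D ^ 2 * (p - 1) ^ 2 * ((N : ℝ) + 1) := by ring
      _ ≤ 2 * ((N : ℝ) + 1) * GG p z c ρ * ((N : ℝ) + 1) := e3
      _ = _ := by ring
  have h4 := h.norm_sum_sub_le hp1 hp2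
  have h5 : ‖∑ j, (w j - c)‖ ≤ N * (D / ((N : ℝ) + 1)) := by
    rw [← mul_div_assoc, le_div_iff₀ hN1, mul_comm]
    exact h4
  have h6 : (N : ℝ) * (D / ((N : ℝ) + 1)) ≤
      N * Real.sqrt (2 * GG p z c ρ / ((p - 1) ^ 2 * ((N : ℝ) + 1))) :=
    mul_le_mul_of_nonneg_left hD3 hN0
  rw [mul_add]
  linarith

end Pool.MP_c113aa_an.BV
end

section

set_option autoImplicit false

namespace Pool.MP_c113aa_an.BV

open Finset

variable {p : ℝ} {N : ℕ} {z w : Fin N → ℂ} {c : ℂ}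

/-- (Y3) bound for y = f/f' on the disk of radius R/4.  Proof: A = log(2(N+1)) + ν log(3/2) + S > 0
(all terms >= 0, the first >= log 2 > 0).  norm_log_quot_ge with numerator ∏_j (1 - x (w_j)⁻¹)
(s = univ, α_j = (w j)⁻¹, r = R/2 <= 1), denominator the filtered product (β_k = 1/z_k), bound A by
norm_Q_le; for ‖x‖ <= R/4: 2A‖x‖/(R/2-‖x‖) <= 2A, so ‖f'(x)‖ >= exp(-2A) ‖E(x)‖.  And
‖x ∏ (1-x/z_k)‖ = ‖x‖ ‖B(x)‖ ‖E(x)‖ with ‖x‖ <= 1 and ‖B(x)‖ <= ∏_s (3/2)(R/‖z_k‖) <= exp A. -/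
theorem Cfg.norm_f_le (h : Cfg p N z w c) {R : ℝ} (hR : 0 < R) (hR1 : R ≤ 1) (x : ℂ)
    (hx : ‖x‖ ≤ R / 4) :
    ‖x * ∏ k, (1 - x / z k)‖
      ≤ Real.exp (3 * (Real.log (2 * ((N : ℝ) + 1))
          + (univ.filter (fun k => ‖z k‖ < R)).card * Real.log (3 / 2)
          + ∑ k ∈ univ.filter (fun k => ‖z k‖ < R), Real.log (R / ‖z k‖)))
        * ‖∏ j, (1 - x * (w j)⁻¹)‖ := by
  classical
  set s : Finset (Fin N) := univ.filter (fun k => ‖z k‖ < R) with hs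
  set t : Finset (Fin N) := univ.filter (fun k => R ≤ ‖z k‖) with ht
  have hz : ∀ k, 0 < ‖z k‖ := fun k => norm_pos_iff.2 (h.z_ne k)
  set S : ℝ := ∑ k ∈ s, Real.log (R / ‖z k‖) with hS
  have hS0 : 0 ≤ S := by
    apply Finset.sum_nonneg
    intro k hk
    rw [hs, Finset.mem_filter] at hk
    exact Real.log_nonneg ((one_le_div (hz k)).2 hk.2.le)
  have hν0 : 0 ≤ (s.card : ℝ) * Real.log (3 / 2) :=
    mul_nonneg (Nat.cast_nonneg _) (Real.log_nonneg (by norm_num))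
  have hlog : 0 < Real.log (2 * ((N : ℝ) + 1)) := by
    apply Real.log_pos
    have : (0 : ℝ) ≤ N := Nat.cast_nonneg _
    linarith
  set A : ℝ := Real.log (2 * ((N : ℝ) + 1)) + s.card * Real.log (3 / 2) + S with hAdef
  have hA : 0 < A := by rw [hAdef]; linarith
  -- the lower bound for the derivative
  have hxR : ‖x‖ < R / 2 := lt_of_le_of_lt hx (by linarith)
  have key := norm_log_quot_ge (univ : Finset (Fin N)) t (fun j => (w j)⁻¹) (fun k => (z k)⁻¹)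
    (r := R / 2) (A := A) (by linarith) hA
    (by
      intro j _
      have h1 : ‖(w j)⁻¹‖ ≤ 1 := by
        rw [norm_inv]; exact inv_le_one_of_one_le₀ (h.one_le j)
      calc R / 2 * ‖(w j)⁻¹‖ ≤ R / 2 * 1 := mul_le_mul_of_nonneg_left h1 (by linarith)
        _ ≤ 1 := by linarith)
    (by
      intro k hk
      rw [ht, Finset.mem_filter] at hk
      rw [norm_inv]
      have h1 : ‖z k‖⁻¹ ≤ R⁻¹ := inv_anti₀ hR hk.2
      calc R / 2 * ‖z k‖⁻¹ ≤ R / 2 * R⁻¹ := mul_le_mul_of_nonneg_left h1 (by linarith)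
        _ = 1 / 2 := by field_simp
        _ ≤ 1 := by norm_num)
    (by
      intro y hy
      have h1 := h.norm_Q_le hR hR1 y hy.le
      have h2 : (∏ k ∈ t, (1 - y / z k)) = ∏ k ∈ t, (1 - y * (z k)⁻¹) := by
        apply Finset.prod_congr rfl
        intro k _
        rw [div_eq_mul_inv]
      rw [← h2]
      exact h1)
    x hxR
  have h3 : 2 * A * ‖x‖ / (R / 2 - ‖x‖) ≤ 2 * A := by
    rw [div_le_iff₀ (by linarith)]
    apply mul_le_mul_of_nonneg_left _ (by linarith)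
    linarith
  have h4 : ‖∏ k ∈ t, (1 - x * (z k)⁻¹)‖
      ≤ Real.exp (2 * A) * ‖∏ j, (1 - x * (w j)⁻¹)‖ := by
    have h5 : Real.exp (-(2 * A)) * ‖∏ k ∈ t, (1 - x * (z k)⁻¹)‖
        ≤ ‖∏ j, (1 - x * (w j)⁻¹)‖ := by
      refine le_trans (mul_le_mul_of_nonneg_right ?_ (norm_nonneg _)) key
      exact Real.exp_le_exp.2 (by linarith)
    calc ‖∏ k ∈ t, (1 - x * (z k)⁻¹)‖
        = Real.exp (2 * A) * (Real.exp (-(2 * A)) * ‖∏ k ∈ t, (1 - x * (z k)⁻¹)‖) := by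
          rw [← mul_assoc, ← Real.exp_add, add_neg_cancel, Real.exp_zero, one_mul]
      _ ≤ _ := mul_le_mul_of_nonneg_left h5 (Real.exp_pos _).le
  -- the small zeros
  have h6 : ‖∏ k ∈ s, (1 - x / z k)‖ ≤ Real.exp A := by
    rw [norm_prod]
    have h7 : ∏ k ∈ s, ‖1 - x / z k‖ ≤ ∏ k ∈ s, (3 / 2 * (R / ‖z k‖)) := by
      apply Finset.prod_le_prod (fun k _ => norm_nonneg _)
      intro k hk
      rw [hs, Finset.mem_filter] at hk
      have h8 : 1 ≤ R / ‖z k‖ := (one_le_div (hz k)).2 hk.2.le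
      have h9 : ‖x‖ / ‖z k‖ ≤ 1 / 4 * (R / ‖z k‖) := by
        rw [← mul_div_assoc]
        apply div_le_div_of_nonneg_right _ (hz k).le
        linarith
      calc ‖1 - x / z k‖ ≤ ‖(1 : ℂ)‖ + ‖x / z k‖ := norm_sub_le _ _
        _ = 1 + ‖x‖ / ‖z k‖ := by rw [norm_one, norm_div]
        _ ≤ 3 / 2 * (R / ‖z k‖) := by linarith
    have h10 : ∏ k ∈ s, (3 / 2 * (R / ‖z k‖))
        = Real.exp (s.card * Real.log (3 / 2) + S) := by
      rw [Finset.prod_mul_distrib, Finset.prod_const, Real.exp_add, hS, Real.exp_sum,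
        Real.exp_nat_mul, Real.exp_log (by norm_num)]
      congr 1
      apply Finset.prod_congr rfl
      intro k _
      rw [Real.exp_log (div_pos hR (hz k))]
    rw [h10] at h7
    refine h7.trans (Real.exp_le_exp.2 ?_)
    rw [hAdef]; linarith
  have h11 : (∏ k, (1 - x / z k))
      = (∏ k ∈ s, (1 - x / z k)) * ∏ k ∈ t, (1 - x * (z k)⁻¹) := by
    rw [← Finset.prod_filter_mul_prod_filter_not univ (fun k => ‖z k‖ < R)]
    congr 1
    have h12 : (univ.filter (fun k => ¬ ‖z k‖ < R)) = t := by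
      rw [ht]
      apply Finset.filter_congr
      intro k _
      exact not_lt
    rw [h12]
    apply Finset.prod_congr rfl
    intro k _
    rw [div_eq_mul_inv]
  have hx1 : ‖x‖ ≤ 1 := by linarith
  calc ‖x * ∏ k, (1 - x / z k)‖
      = ‖x‖ * (‖∏ k ∈ s, (1 - x / z k)‖ * ‖∏ k ∈ t, (1 - x * (z k)⁻¹)‖) := by
        rw [h11, norm_mul, norm_mul]
    _ ≤ 1 * (Real.exp A * (Real.exp (2 * A) * ‖∏ j, (1 - x * (w j)⁻¹)‖)) := by
        apply mul_le_mul hx1 _ (mul_nonneg (norm_nonneg _) (norm_nonneg _)) zero_le_one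
        exact mul_le_mul h6 h4 (norm_nonneg _) (Real.exp_pos _).le
    _ = Real.exp (3 * A) * ‖∏ j, (1 - x * (w j)⁻¹)‖ := by
        rw [one_mul, ← mul_assoc, ← Real.exp_add]
        congr 2
        ring

end Pool.MP_c113aa_an.BV
end

section

set_option autoImplicit false

namespace Pool.MP_c113aa_an.BV

open Finset

variable {p : ℝ} {N : ℕ} {z w : Fin N → ℂ} {c : ℂ}

lemma s3e_gain_nonneg {p ρ t : ℝ} (hp1 : 1 < p) (hp2 : p ≤ 2) (hρ : 0 < ρ) (hρ8 : ρ ≤ 1 / 8)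
    (ht : 0 ≤ t) : 0 ≤ gain p ρ t :=
  le_trans (by positivity) (gain_ge hp1 hp2 hρ hρ8 ht)

lemma s3e_GG_nonneg {p : ℝ} {N : ℕ} (z : Fin N → ℂ) (c : ℂ) {ρ : ℝ} (hp1 : 1 < p) (hp2 : p ≤ 2)
    (hρ : 0 < ρ) (hρ8 : ρ ≤ 1 / 8) : 0 ≤ GG p z c ρ := by
  unfold GG
  exact add_nonneg (s3e_gain_nonneg hp1 hp2 hρ hρ8 (norm_nonneg _))
    (Finset.sum_nonneg fun k _ => s3e_gain_nonneg hp1 hp2 hρ hρ8 (norm_nonneg _))

/-- (3e) the main inequality.  Proof: q = p-1, n = N+1, G = GG >= 0 (gain_ge).  From log_ineq and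
norm_E_ge: log(nρ) + G/p <= 8‖c‖‖V1‖ + 8N‖c‖ρ; V1_upper: 8‖c‖‖V1‖ <= 24 n‖c‖^2
+ 8 n ‖c‖ sqrt(2G/(q^2 n)), and 8n‖c‖ sqrt(2G/(q^2 n)) <= G/(2p) + (p/2) 128 n‖c‖^2/q^2
<= G/(2p) + (128/q^2) n‖c‖^2 (since (n‖c‖ sqrt(2G/(q^2 n)))^2 = 2 n ‖c‖^2 G/q^2).  Finally
G/4 <= G/(2p), 24 <= 24/q^2. -/
theorem Cfg.main_ineq (h : Cfg p N z w c) (hp1 : 1 < p) (hp2 : p ≤ 2) {ρ : ℝ} (hρ : 0 < ρ)
    (hρ8 : ρ ≤ 1 / 8) (hc : 2 * ‖c‖ ≤ ρ) :
    Real.log (((N : ℝ) + 1) * ρ) + GG p z c ρ / 4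
      ≤ 152 / (p - 1) ^ 2 * (((N : ℝ) + 1) * ‖c‖ ^ 2) + 8 * ((N : ℝ) + 1) * ‖c‖ * ρ := by
  have hq : 0 < p - 1 := by linarith
  have hq1 : p - 1 ≤ 1 := by linarith
  have hn : (0 : ℝ) < (N : ℝ) + 1 := by positivity
  have hN : (0 : ℝ) ≤ (N : ℝ) := Nat.cast_nonneg _
  have hG : 0 ≤ GG p z c ρ := s3e_GG_nonneg z c hp1 hp2 hρ hρ8
  have hL := h.log_ineq hp1 hρ hρ8 hc
  have hE := h.norm_E_ge hρ hc
  have hV := h.V1_upper hp1 hp2 hρ hρ8
  set E : ℝ := ‖∏ k ∈ univ.filter (fun k => ρ ≤ ‖z k‖), (1 - c / z k)‖ with hEdef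
  set V : ℝ := ‖∑ j, (w j)⁻¹‖ with hVdef
  set G : ℝ := GG p z c ρ with hGdef
  set S : ℝ := Real.sqrt (2 * G / ((p - 1) ^ 2 * ((N : ℝ) + 1))) with hSdef
  have hS0 : 0 ≤ S := Real.sqrt_nonneg _
  have hS2 : S ^ 2 = 2 * G / ((p - 1) ^ 2 * ((N : ℝ) + 1)) := Real.sq_sqrt (by positivity)
  have hS3 : S ^ 2 * (p - 1) ^ 2 * ((N : ℝ) + 1) = 2 * G := by
    rw [hS2]; field_simp
  have hlogE : -(8 * ‖c‖ * V + 8 * N * ‖c‖ * ρ) ≤ Real.log E := by
    have := Real.log_le_log (Real.exp_pos _) hE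
    rwa [Real.log_exp] at this
  have hc0 : 0 ≤ ‖c‖ := norm_nonneg c
  have h1 : Real.log (((N : ℝ) + 1) * ρ) + G / p ≤ 8 * ‖c‖ * V + 8 * N * ‖c‖ * ρ := by
    have hp0 : 0 < p := by linarith
    have h2 : Real.log (((N : ℝ) + 1) * ρ) + Real.log E + G / p ≤ 0 := by
      have h3 : Real.log (((N : ℝ) + 1) * ρ) + Real.log E + G / p
          = (p * (Real.log (((N : ℝ) + 1) * ρ) + Real.log E) + G) / p := by
        field_simp
      rw [h3]
      exact div_nonpos_of_nonpos_of_nonneg hL hp0.le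
    linarith
  have h2 : G / 2 ≤ G / p := by
    apply div_le_div_of_nonneg_left hG (by linarith) hp2
  have h3 : 8 * ‖c‖ * V ≤ 24 * ((N : ℝ) + 1) * ‖c‖ ^ 2 + 8 * ((N : ℝ) + 1) * ‖c‖ * S := by
    have h4 : 8 * ‖c‖ * V ≤ 8 * ‖c‖ * (N * (3 * ‖c‖ + S)) :=
      mul_le_mul_of_nonneg_left hV (by positivity)
    have h5 : 8 * ‖c‖ * (N * (3 * ‖c‖ + S)) ≤ 8 * ‖c‖ * (((N : ℝ) + 1) * (3 * ‖c‖ + S)) := by
      apply mul_le_mul_of_nonneg_left _ (by positivity)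
      apply mul_le_mul_of_nonneg_right _ (by positivity)
      linarith
    calc 8 * ‖c‖ * V ≤ 8 * ‖c‖ * (((N : ℝ) + 1) * (3 * ‖c‖ + S)) := h4.trans h5
      _ = 24 * ((N : ℝ) + 1) * ‖c‖ ^ 2 + 8 * ((N : ℝ) + 1) * ‖c‖ * S := by ring
  have h4 : 8 * ((N : ℝ) + 1) * ‖c‖ * S
      ≤ G / 4 + 128 / (p - 1) ^ 2 * (((N : ℝ) + 1) * ‖c‖ ^ 2) := by
    have h5 : 0 ≤ ((N : ℝ) + 1) / 8 * ((p - 1) ^ 2 * S - 32 * ‖c‖) ^ 2 := by positivity
    have h6 : (p - 1) ^ 2 * (8 * ((N : ℝ) + 1) * ‖c‖ * S)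
        ≤ (p - 1) ^ 2 * (G / 4) + 128 * (((N : ℝ) + 1) * ‖c‖ ^ 2) := by
      have h7 : ((N : ℝ) + 1) / 8 * ((p - 1) ^ 2 * S - 32 * ‖c‖) ^ 2
          = (p - 1) ^ 2 * (S ^ 2 * (p - 1) ^ 2 * ((N : ℝ) + 1)) / 8
            - (p - 1) ^ 2 * (8 * ((N : ℝ) + 1) * ‖c‖ * S)
            + 128 * (((N : ℝ) + 1) * ‖c‖ ^ 2) := by ring
      rw [h7, hS3] at h5
      linarith
    have h8 : 8 * ((N : ℝ) + 1) * ‖c‖ * S
        = ((p - 1) ^ 2 * (8 * ((N : ℝ) + 1) * ‖c‖ * S)) / (p - 1) ^ 2 := by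
      field_simp
    have h9 : G / 4 + 128 / (p - 1) ^ 2 * (((N : ℝ) + 1) * ‖c‖ ^ 2)
        = ((p - 1) ^ 2 * (G / 4) + 128 * (((N : ℝ) + 1) * ‖c‖ ^ 2)) / (p - 1) ^ 2 := by
      field_simp
    rw [h8, h9]
    exact div_le_div_of_nonneg_right h6 (by positivity)
  have h5 : 24 * ((N : ℝ) + 1) * ‖c‖ ^ 2 ≤ 24 / (p - 1) ^ 2 * (((N : ℝ) + 1) * ‖c‖ ^ 2) := by
    have h6 : (24 : ℝ) ≤ 24 / (p - 1) ^ 2 := by
      rw [le_div_iff₀ (by positivity)]
      nlinarith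
    calc 24 * ((N : ℝ) + 1) * ‖c‖ ^ 2 = 24 * (((N : ℝ) + 1) * ‖c‖ ^ 2) := by ring
      _ ≤ 24 / (p - 1) ^ 2 * (((N : ℝ) + 1) * ‖c‖ ^ 2) :=
        mul_le_mul_of_nonneg_right h6 (by positivity)
  have h6 : 8 * (N : ℝ) * ‖c‖ * ρ ≤ 8 * ((N : ℝ) + 1) * ‖c‖ * ρ := by
    have : 0 ≤ ‖c‖ * ρ := by positivity
    nlinarith
  have h7 : 152 / (p - 1) ^ 2 * (((N : ℝ) + 1) * ‖c‖ ^ 2)
      = 24 / (p - 1) ^ 2 * (((N : ℝ) + 1) * ‖c‖ ^ 2)
        + 128 / (p - 1) ^ 2 * (((N : ℝ) + 1) * ‖c‖ ^ 2) := by ring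
  linarith

lemma s3e_threshold (K : ℝ) : ∃ N₀ : ℕ, ∀ N : ℕ, N₀ ≤ N →
    K ≤ Real.log ((N : ℝ) + 1) ∧ 1 ≤ Real.log ((N : ℝ) + 1) ∧
      Real.log ((N : ℝ) + 1) / ((N : ℝ) + 1) ≤ 1 / 256 := by
  have hcast : Filter.Tendsto (fun N : ℕ => (N : ℝ) + 1) Filter.atTop Filter.atTop :=
    Filter.tendsto_atTop_add_const_right _ _ tendsto_natCast_atTop_atTop
  have hlog := Real.tendsto_log_atTop.comp hcast
  have h1 := hlog.eventually_ge_atTop K
  have h2 := hlog.eventually_ge_atTop 1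
  have h3' : Filter.Tendsto (fun x : ℝ => Real.log x / x) Filter.atTop (nhds 0) :=
    Real.isLittleO_log_id_atTop.tendsto_div_nhds_zero
  have h3 := (h3'.comp hcast).eventually_le_const (show (0 : ℝ) < 1 / 256 by norm_num)
  obtain ⟨N₀, hN₀⟩ := Filter.eventually_atTop.1 (h1.and (h2.and h3))
  exact ⟨N₀, fun N hN => hN₀ N hN⟩

/-- (3e') consequences of the main inequality.  Proof: q = p-1, n = N+1, X = n‖c‖^2,
e = q^2/2500.  (i) Suppose X < e log n.  Take ρ = 2 sqrt(log n/n) (<= 1/8 for n large); 2‖c‖ <= ρ.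
log(nρ) = log 2 + (log n)/2 + (log log n)/2 >= (log n)/2 (log n >= 1), n‖c‖ρ = 2 sqrt(X log n)
<= 2 sqrt(e) log n, G >= 0: (1/2) log n <= (152/2500) log n + 16 (q/50) log n <= 0.39 log n, false.
(ii) so c ≠ 0; ρ = 2‖c‖ <= 1/8; n ρ = 2X/‖c‖ >= 32 e log n >= 1 for n large, so the log term is >= 0 and
G := GG p z c (2‖c‖) <= 4(152/q^2 + 16) X <= (672/q^2) X.
(iii) V1_upper with this ρ: sqrt(2G/(q^2 n)) <= sqrt(1344) ‖c‖/q^2 <= 37‖c‖/q^2, so
‖V1‖ <= n‖c‖(3+37/q^2) <= (40/q^2) n‖c‖.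
(iv) ‖z_k‖ < 1/4 implies t = ‖z_k-c‖ <= 1/2, gain >= q^2 (t-1)^2/(1+t) >= q^2/6, so
card * q^2/6 <= G (all gains >= 0) and card <= 6*672/q^4 X = (4032/q^4) X. -/
theorem consequences {p : ℝ} (hp1 : 1 < p) (hp2 : p ≤ 2) :
    ∃ N₀ : ℕ, ∀ N : ℕ, N₀ ≤ N → ∀ (z w : Fin N → ℂ) (c : ℂ), Cfg p N z w c →
      ‖c‖ ≤ 1 / 16 →
      (p - 1) ^ 2 / 2500 * Real.log ((N : ℝ) + 1) ≤ ((N : ℝ) + 1) * ‖c‖ ^ 2 ∧
      ‖∑ j, (w j)⁻¹‖ ≤ 40 / (p - 1) ^ 2 * (((N : ℝ) + 1) * ‖c‖) ∧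
      ((univ.filter (fun k => ‖z k‖ < 1 / 4)).card : ℝ)
        ≤ 4032 / (p - 1) ^ 4 * (((N : ℝ) + 1) * ‖c‖ ^ 2) := by
  have hq : 0 < p - 1 := by linarith
  have hq1 : p - 1 ≤ 1 := by linarith
  have hq2 : (p - 1) ^ 2 ≤ 1 := by nlinarith
  obtain ⟨N₀, hN₀⟩ := s3e_threshold (2500 / (32 * (p - 1) ^ 2))
  refine ⟨N₀, fun N hN z w c h hc16 => ?_⟩
  obtain ⟨hK, hL1, hLn⟩ := hN₀ N hN
  have hn : (0 : ℝ) < (N : ℝ) + 1 := by positivity
  have hN0 : (0 : ℝ) ≤ (N : ℝ) := Nat.cast_nonneg _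
  have hc0 : 0 ≤ ‖c‖ := norm_nonneg c
  set n : ℝ := (N : ℝ) + 1 with hndef
  set L : ℝ := Real.log n with hLdef
  -- (i)
  have hi : (p - 1) ^ 2 / 2500 * L ≤ n * ‖c‖ ^ 2 := by
    by_contra hcon
    push Not at hcon
    have hs0 : 0 ≤ Real.sqrt (L / n) := Real.sqrt_nonneg _
    have hs2 : Real.sqrt (L / n) ^ 2 = L / n := Real.sq_sqrt (by positivity)
    have hs3 : Real.sqrt (L / n) ^ 2 * n = L := by rw [hs2]; field_simp
    set s : ℝ := Real.sqrt (L / n) with hsdef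
    have hspos : 0 < s := Real.sqrt_pos.2 (by positivity)
    have hs16 : s ≤ 1 / 16 := by
      have : s ^ 2 ≤ (1 / 16) ^ 2 := by rw [hs2]; norm_num; linarith
      exact le_of_sq_le_sq this (by norm_num)
    have hX : n * ‖c‖ ^ 2 < (p - 1) ^ 2 / 2500 * (s ^ 2 * n) := by rw [hs3]; exact hcon
    have hcs : ‖c‖ ^ 2 < ((p - 1) / 50 * s) ^ 2 := by
      have h1 : n * ‖c‖ ^ 2 < n * ((p - 1) / 50 * s) ^ 2 := by
        calc n * ‖c‖ ^ 2 < (p - 1) ^ 2 / 2500 * (s ^ 2 * n) := hX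
          _ = n * ((p - 1) / 50 * s) ^ 2 := by ring
      exact lt_of_mul_lt_mul_left h1 hn.le
    have hcs' : ‖c‖ < (p - 1) / 50 * s := lt_of_pow_lt_pow_left₀ 2 (by positivity) hcs
    have hcs'' : ‖c‖ ≤ s := by
      have : (p - 1) / 50 * s ≤ 1 * s := by
        apply mul_le_mul_of_nonneg_right _ hs0
        linarith
      linarith
    have hmain := h.main_ineq hp1 hp2 (ρ := 2 * s) (by positivity) (by linarith) (by linarith)
    have hG := s3e_GG_nonneg z c (ρ := 2 * s) hp1 hp2 (by positivity) (by linarith)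
    rw [← hndef] at hmain
    -- n * (2 s) >= sqrt n
    have hns : Real.sqrt n ≤ n * (2 * s) := by
      have h1 : Real.sqrt n ^ 2 = n := Real.sq_sqrt hn.le
      have h2 : (n * (2 * s)) ^ 2 = 4 * n * L := by
        calc (n * (2 * s)) ^ 2 = 4 * n * (s ^ 2 * n) := by ring
          _ = 4 * n * L := by rw [hs3]
      have h3 : Real.sqrt n ^ 2 ≤ (n * (2 * s)) ^ 2 := by
        rw [h1, h2]
        nlinarith
      exact le_of_sq_le_sq h3 (by positivity)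
    have hlog : L / 2 ≤ Real.log (n * (2 * s)) := by
      have h1 := Real.log_le_log (Real.sqrt_pos.2 hn) hns
      rwa [Real.log_sqrt hn.le] at h1
    have hcr : n * ‖c‖ * (2 * s) ≤ L / 25 := by
      have h1 : n * ‖c‖ * (2 * s) ≤ n * ((p - 1) / 50 * s) * (2 * s) := by
        apply mul_le_mul_of_nonneg_right _ (by positivity)
        exact mul_le_mul_of_nonneg_left hcs'.le hn.le
      have h2 : n * ((p - 1) / 50 * s) * (2 * s) = (p - 1) * (s ^ 2 * n) / 25 := by ring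
      rw [h2, hs3] at h1
      have h3 : (p - 1) * L ≤ 1 * L := mul_le_mul_of_nonneg_right hq1 (by linarith)
      linarith
    have hX2 : 152 / (p - 1) ^ 2 * (n * ‖c‖ ^ 2) ≤ 152 / 2500 * L := by
      calc 152 / (p - 1) ^ 2 * (n * ‖c‖ ^ 2)
          ≤ 152 / (p - 1) ^ 2 * ((p - 1) ^ 2 / 2500 * L) :=
            mul_le_mul_of_nonneg_left hcon.le (by positivity)
        _ = 152 / 2500 * L := by field_simp
    have h8 : 8 * n * ‖c‖ * (2 * s) = 8 * (n * ‖c‖ * (2 * s)) := by ring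
    rw [h8] at hmain
    linarith
  have hXpos : 0 < n * ‖c‖ ^ 2 := lt_of_lt_of_le (by positivity) hi
  have hcpos : 0 < ‖c‖ := by
    rcases hc0.eq_or_lt with h0 | h0
    · rw [← h0] at hXpos; simp at hXpos
    · exact h0
  -- (ii)
  have hmain := h.main_ineq hp1 hp2 (ρ := 2 * ‖c‖) (by positivity) (by linarith) le_rfl
  rw [← hndef] at hmain
  have hG0 := s3e_GG_nonneg z c (ρ := 2 * ‖c‖) hp1 hp2 (by positivity) (by linarith)
  set G : ℝ := GG p z c (2 * ‖c‖) with hGdef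
  have hlog0 : 0 ≤ Real.log (n * (2 * ‖c‖)) := by
    apply Real.log_nonneg
    have h1 : 2500 / (32 * (p - 1) ^ 2) ≤ L := hK
    have h2 : 1 ≤ 32 * ((p - 1) ^ 2 / 2500 * L) := by
      calc (1 : ℝ) = 32 * ((p - 1) ^ 2 / 2500 * (2500 / (32 * (p - 1) ^ 2))) := by field_simp
        _ ≤ 32 * ((p - 1) ^ 2 / 2500 * L) := by gcongr
    have h3 : 1 ≤ 32 * (n * ‖c‖ ^ 2) := by linarith
    have h4 : 32 * (n * ‖c‖ ^ 2) ≤ n * (2 * ‖c‖) := by
      have h5 : n * ‖c‖ * ‖c‖ ≤ n * ‖c‖ * (1 / 16) :=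
        mul_le_mul_of_nonneg_left hc16 (by positivity)
      nlinarith
    linarith
  have hGle : G ≤ 672 / (p - 1) ^ 2 * (n * ‖c‖ ^ 2) := by
    have h1 : G / 4 ≤ 152 / (p - 1) ^ 2 * (n * ‖c‖ ^ 2) + 16 * (n * ‖c‖ ^ 2) := by
      have h8 : 8 * n * ‖c‖ * (2 * ‖c‖) = 16 * (n * ‖c‖ ^ 2) := by ring
      rw [h8] at hmain
      linarith
    have h2 : 16 * (n * ‖c‖ ^ 2) ≤ 16 / (p - 1) ^ 2 * (n * ‖c‖ ^ 2) := by
      apply mul_le_mul_of_nonneg_right _ hXpos.le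
      rw [le_div_iff₀ (by positivity)]
      linarith
    have h3 : 672 / (p - 1) ^ 2 * (n * ‖c‖ ^ 2)
        = 4 * (152 / (p - 1) ^ 2 * (n * ‖c‖ ^ 2) + 16 / (p - 1) ^ 2 * (n * ‖c‖ ^ 2)) := by ring
    linarith
  refine ⟨hi, ?_, ?_⟩
  · -- (iii)
    have hV := h.V1_upper hp1 hp2 (ρ := 2 * ‖c‖) (by positivity) (by linarith)
    rw [← hndef, ← hGdef] at hV
    have hS : Real.sqrt (2 * G / ((p - 1) ^ 2 * n)) ≤ 37 * ‖c‖ / (p - 1) ^ 2 := by
      rw [Real.sqrt_le_left (by positivity)]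
      have h1 : 2 * G / ((p - 1) ^ 2 * n)
          ≤ 2 * (672 / (p - 1) ^ 2 * (n * ‖c‖ ^ 2)) / ((p - 1) ^ 2 * n) := by
        apply div_le_div_of_nonneg_right _ (by positivity)
        linarith
      have h2 : 2 * (672 / (p - 1) ^ 2 * (n * ‖c‖ ^ 2)) / ((p - 1) ^ 2 * n)
          = 1344 * (‖c‖ / (p - 1) ^ 2) ^ 2 := by
        field_simp
        ring
      have h3 : (37 * ‖c‖ / (p - 1) ^ 2) ^ 2 = 1369 * (‖c‖ / (p - 1) ^ 2) ^ 2 := by ring
      rw [h3]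
      have h4 : 0 ≤ (‖c‖ / (p - 1) ^ 2) ^ 2 := by positivity
      linarith
    calc ‖∑ j, (w j)⁻¹‖ ≤ N * (3 * ‖c‖ + Real.sqrt (2 * G / ((p - 1) ^ 2 * n))) := hV
      _ ≤ n * (3 * ‖c‖ + 37 * ‖c‖ / (p - 1) ^ 2) := by
        apply mul_le_mul (by linarith) (by linarith) (by positivity) hn.le
      _ ≤ n * (3 * ‖c‖ / (p - 1) ^ 2 + 37 * ‖c‖ / (p - 1) ^ 2) := by
        apply mul_le_mul_of_nonneg_left _ hn.le
        have : 3 * ‖c‖ ≤ 3 * ‖c‖ / (p - 1) ^ 2 := by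
          rw [le_div_iff₀ (by positivity)]
          have : 3 * ‖c‖ * (p - 1) ^ 2 ≤ 3 * ‖c‖ * 1 :=
            mul_le_mul_of_nonneg_left hq2 (by positivity)
          linarith
        linarith
      _ = 40 / (p - 1) ^ 2 * (n * ‖c‖) := by ring
  · -- (iv)
    have hcard : ((univ.filter (fun k => ‖z k‖ < 1 / 4)).card : ℝ) * ((p - 1) ^ 2 / 6) ≤ G := by
      have h1 : ((univ.filter (fun k => ‖z k‖ < 1 / 4)).card : ℝ) * ((p - 1) ^ 2 / 6)
          ≤ ∑ k ∈ univ.filter (fun k => ‖z k‖ < 1 / 4), gain p (2 * ‖c‖) ‖z k - c‖ := by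
        rw [← nsmul_eq_mul]
        apply Finset.card_nsmul_le_sum
        intro k hk
        have hk' : ‖z k‖ < 1 / 4 := (Finset.mem_filter.1 hk).2
        have ht : ‖z k - c‖ ≤ 1 / 2 := by
          have := norm_sub_le (z k) c
          linarith
        have ht0 : 0 ≤ ‖z k - c‖ := norm_nonneg _
        have hg := gain_ge hp1 hp2 (ρ := 2 * ‖c‖) (by positivity) (by linarith) ht0
        refine le_trans ?_ hg
        rw [div_le_div_iff₀ (by norm_num) (by linarith)]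
        have h5 : (1 / 2 : ℝ) ^ 2 ≤ (‖z k - c‖ - 1) ^ 2 := by nlinarith
        have h6 : 0 < (p - 1) ^ 2 := by positivity
        have h7 : (1 + ‖z k - c‖) ≤ (‖z k - c‖ - 1) ^ 2 * 6 := by nlinarith
        calc (p - 1) ^ 2 * (1 + ‖z k - c‖) ≤ (p - 1) ^ 2 * ((‖z k - c‖ - 1) ^ 2 * 6) :=
              mul_le_mul_of_nonneg_left h7 h6.le
          _ = (p - 1) ^ 2 * (‖z k - c‖ - 1) ^ 2 * 6 := by ring
      have h2 : ∑ k ∈ univ.filter (fun k => ‖z k‖ < 1 / 4), gain p (2 * ‖c‖) ‖z k - c‖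
          ≤ ∑ k, gain p (2 * ‖c‖) ‖z k - c‖ := by
        apply Finset.sum_le_sum_of_subset_of_nonneg (Finset.filter_subset _ _)
        intro k _ _
        exact s3e_gain_nonneg hp1 hp2 (by positivity) (by linarith) (norm_nonneg _)
      have h3 : 0 ≤ gain p (2 * ‖c‖) ‖c‖ :=
        s3e_gain_nonneg hp1 hp2 (by positivity) (by linarith) (norm_nonneg _)
      rw [hGdef]
      unfold GG
      linarith
    have h1 : ((univ.filter (fun k => ‖z k‖ < 1 / 4)).card : ℝ) ≤ 6 / (p - 1) ^ 2 * G := by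
      have h2 : ((univ.filter (fun k => ‖z k‖ < 1 / 4)).card : ℝ)
          = 6 / (p - 1) ^ 2
            * (((univ.filter (fun k => ‖z k‖ < 1 / 4)).card : ℝ) * ((p - 1) ^ 2 / 6)) := by
        generalize ((univ.filter (fun k => ‖z k‖ < 1 / 4)).card : ℝ) = m
        field_simp
      rw [h2]
      exact mul_le_mul_of_nonneg_left hcard (by positivity)
    calc ((univ.filter (fun k => ‖z k‖ < 1 / 4)).card : ℝ) ≤ 6 / (p - 1) ^ 2 * G := h1
      _ ≤ 6 / (p - 1) ^ 2 * (672 / (p - 1) ^ 2 * (n * ‖c‖ ^ 2)) :=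
        mul_le_mul_of_nonneg_left hGle (by positivity)
      _ = 4032 / (p - 1) ^ 4 * (n * ‖c‖ ^ 2) := by
        field_simp
        norm_num

end Pool.MP_c113aa_an.BV
end

section

set_option autoImplicit false

namespace Pool.MP_c113aa_an.BV

open Finset
/-- Choice of the constant K: log K = o(K). -/
theorem exists_K (a b : ℝ) (ha : 0 < a) : ∃ K : ℝ, 1 ≤ K ∧ b * (1 + Real.log K) ≤ a * K := by
  have hb : 0 < |b| + 1 := by positivity
  have hc : 0 < a / (2 * (|b| + 1)) := by positivity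
  have h1 := (Real.isLittleO_log_id_atTop.def hc)
  have h2 := (h1.and ((Filter.eventually_ge_atTop (1 : ℝ)).and
    (Filter.eventually_ge_atTop (2 * |b| / a)))).exists
  obtain ⟨K, hK, hK1, hK2⟩ := h2
  refine ⟨K, hK1, ?_⟩
  have hlog : 0 ≤ Real.log K := Real.log_nonneg hK1
  have hK0 : 0 < K := by linarith
  rw [Real.norm_eq_abs, abs_of_nonneg hlog, id, Real.norm_eq_abs, abs_of_pos hK0] at hK
  have h3 : b * (1 + Real.log K) ≤ |b| * (1 + Real.log K) :=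
    mul_le_mul_of_nonneg_right (le_abs_self b) (by linarith)
  have h4 : |b| * Real.log K ≤ a * K / 2 := by
    calc |b| * Real.log K ≤ (|b| + 1) * (a / (2 * (|b| + 1)) * K) := by
          refine mul_le_mul (by linarith) hK hlog hb.le
      _ = a * K / 2 := by field_simp
  have h5 : |b| ≤ a * K / 2 := by
    rw [div_le_iff₀ ha] at hK2
    linarith
  nlinarith [h3, h4, h5]

/-- the three final error terms -/
theorem final_bound {q K X n N C L l Y A e AK : ℝ} (hq : 0 < q) (he : 0 < e)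
    (hAK0 : 0 ≤ AK) (hK : 1 + 2 / e + 3 * AK ≤ q ^ 2 * K / 23040)
    (hX : X = n * C ^ 2) (hX0 : 33177600 / q ^ 4 ≤ X) (hX1 : 11 ≤ X) (hN : 0 < N) (hn : n = N + 1)
    (hN1 : 1 ≤ N) (hC : 0 < C)
    (hL : q ^ 2 / 20 * N * C / 18 ≤ L) (hl : l = K * C / 16) (hLN : L ≤ 2 * N)
    (hY : Y = Real.exp (3 * A)) (hA : A ≤ AK * X) (hlog : Real.log (2 * n) ≤ 2 / e * X)
    (hK1 : 1 ≤ K) :
    (L * Y + 2) * Real.exp (-(L * l / 2)) + 16 * N / L ^ 2 ≤ 1 / 2 := by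
  have hn0 : 0 < n := by linarith
  have hXpos : 0 < X := by linarith
  have hLpos : 0 < L := lt_of_lt_of_le (by positivity) hL
  have hL' : q ^ 2 / 720 * n * C ≤ L := by
    refine le_trans ?_ hL
    have : n ≤ 2 * N := by linarith
    have h1 : q ^ 2 / 720 * n * C ≤ q ^ 2 / 720 * (2 * N) * C := by gcongr
    calc q ^ 2 / 720 * n * C ≤ q ^ 2 / 720 * (2 * N) * C := h1
      _ = q ^ 2 / 20 * N * C / 18 := by ring
  -- exponent
  have hexp : (1 + 2 / e + 3 * AK) * X ≤ L * l / 2 := by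
    have h1 : q ^ 2 * K / 23040 * X ≤ L * l / 2 := by
      rw [hl, hX]
      have : q ^ 2 / 720 * n * C * (K * C / 16) / 2 ≤ L * (K * C / 16) / 2 := by gcongr
      calc q ^ 2 * K / 23040 * (n * C ^ 2) = q ^ 2 / 720 * n * C * (K * C / 16) / 2 := by ring
        _ ≤ _ := this
    exact (mul_le_mul_of_nonneg_right hK hXpos.le).trans h1
  have hLexp : L ≤ Real.exp (2 / e * X) := by
    have h1 : 2 * n = Real.exp (Real.log (2 * n)) := (Real.exp_log (by positivity)).symm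
    have h2 : 2 * n ≤ Real.exp (2 / e * X) := by
      rw [h1]
      exact Real.exp_le_exp.2 hlog
    linarith
  have hYexp : Y ≤ Real.exp (3 * AK * X) := by
    rw [hY]
    apply Real.exp_le_exp.2
    nlinarith
  have h1 : L * Y ≤ Real.exp ((2 / e + 3 * AK) * X) := by
    calc L * Y ≤ Real.exp (2 / e * X) * Real.exp (3 * AK * X) :=
          mul_le_mul hLexp hYexp (by rw [hY]; positivity) (by positivity)
      _ = Real.exp ((2 / e + 3 * AK) * X) := by rw [← Real.exp_add]; ring_nf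
  have h2 : Real.exp (-(L * l / 2)) ≤ Real.exp (-((1 + 2 / e + 3 * AK) * X)) :=
    Real.exp_le_exp.2 (by linarith)
  have h3 : (L * Y + 2) * Real.exp (-(L * l / 2)) ≤ 3 * Real.exp (-X) := by
    have h4 : (L * Y + 2) * Real.exp (-(L * l / 2))
        ≤ (Real.exp ((2 / e + 3 * AK) * X) + 2) * Real.exp (-((1 + 2 / e + 3 * AK) * X)) := by
      refine mul_le_mul (by linarith) h2 (Real.exp_pos _).le (by positivity)
    have h5 : Real.exp ((2 / e + 3 * AK) * X) * Real.exp (-((1 + 2 / e + 3 * AK) * X))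
        = Real.exp (-X) := by
      rw [← Real.exp_add]
      ring_nf
    have h6 : Real.exp (-((1 + 2 / e + 3 * AK) * X)) ≤ Real.exp (-X) := by
      apply Real.exp_le_exp.2
      have : 0 ≤ (2 / e + 3 * AK) * X := by positivity
      nlinarith
    calc (L * Y + 2) * Real.exp (-(L * l / 2))
        ≤ (Real.exp ((2 / e + 3 * AK) * X) + 2) * Real.exp (-((1 + 2 / e + 3 * AK) * X)) := h4
      _ = Real.exp (-X) + 2 * Real.exp (-((1 + 2 / e + 3 * AK) * X)) := by rw [add_mul, h5]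
      _ ≤ 3 * Real.exp (-X) := by linarith
  have h7 : Real.exp (-X) ≤ 1 / 12 := by
    rw [Real.exp_neg, ← one_div]
    apply one_div_le_one_div_of_le (by norm_num)
    have := Real.add_one_le_exp X
    linarith
  have h8 : 16 * N / L ^ 2 ≤ 1 / 4 := by
    have h9 : (q ^ 2 / 720 * n * C) ^ 2 ≤ L ^ 2 := by gcongr
    have h10 : 0 < (q ^ 2 / 720 * n * C) ^ 2 := by positivity
    calc 16 * N / L ^ 2 ≤ 16 * n / (q ^ 2 / 720 * n * C) ^ 2 := by
          refine div_le_div₀ (by positivity) (by linarith) h10 h9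
      _ = 8294400 / (q ^ 4 * X) := by
          rw [hX]
          field_simp
          ring
      _ ≤ 1 / 4 := by
          rw [div_le_div_iff₀ (by positivity) (by norm_num)]
          rw [div_le_iff₀ (by positivity)] at hX0
          linarith
  linarith

/-- Step 3: the case of small |c| is impossible for large N.
Proof: q = p-1, n = N+1, C = ‖c‖, X = n C^2, v_j = 1/w_j, e = q^2/2500, C3 = 4032/q^4, C4 = 40/q^2.
A_K := 2/e + C3/2 + C3 log(16K) + C4 + 1/2.  By exists_K choose K >= 1 with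
q^2 K/23040 >= 1 + 2/e + 3 A_K (A_K <= const * (1 + log K)).  κ := min (1/(64K)) (q^2/(163840 K^2))
(and <= 1/16).  For N large, consequences gives X >= e log n (so c ≠ 0 and X is large),
‖V1‖ <= C4 n C, ν := card{‖z_k‖<1/4} <= C3 X.  b := K C, R := 16 b <= 1/4, l := b/16,
μ := (q^2/20) N C <= ‖V1‖ by V1_lower (divide by C).  8192 N b^2 <= μ by the choice of κ.
exists_circle: r in (0,2b] with, for ‖x‖ = r, ‖L‖ := ‖LL v x‖ >= μ/18 >= (q^2/720) n C (N >= n/2).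
Y := exp(3A), A = log(2n) + ν_R log(3/2) + S, where ν_R = card{‖z_k‖<R} <= ν <= C3 X and
S = ∑_{‖z_k‖<R} log(R/‖z_k‖) <= ν_R log(16K) + ∑ max 0 log(C/‖z_k‖) <= C3 X log(16K) + C‖V1‖ + N C^2/2
(jensen with r = C), log(2n) <= 2 log n <= 2X/e; so A <= A_K X. -/
theorem step3 {p : ℝ} (hp1 : 1 < p) (hp2 : p ≤ 2) :
    ∃ κ : ℝ, 0 < κ ∧ ∃ N₀ : ℕ, ∀ N : ℕ, N₀ ≤ N → ∀ (z w : Fin N → ℂ) (c : ℂ), Cfg p N z w c →
      ‖c‖ ≤ κ → (N : ℝ) / 2 ≤ ∑ j, ‖(w j)⁻¹‖ ^ 2 → False := by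
  obtain ⟨q, hqdef⟩ : ∃ q : ℝ, q = p - 1 := ⟨_, rfl⟩
  have hq : 0 < q := by linarith
  have hq1 : q ≤ 1 := by linarith
  obtain ⟨e, hedef⟩ : ∃ e : ℝ, e = q ^ 2 / 2500 := ⟨_, rfl⟩
  have he : 0 < e := by rw [hedef]; positivity
  obtain ⟨C3, hC3def⟩ : ∃ C3 : ℝ, C3 = 4032 / q ^ 4 := ⟨_, rfl⟩
  have hC3 : 0 < C3 := by rw [hC3def]; positivity
  obtain ⟨C4, hC4def⟩ : ∃ C4 : ℝ, C4 = 40 / q ^ 2 := ⟨_, rfl⟩
  have hC4 : 0 < C4 := by rw [hC4def]; positivity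
  obtain ⟨K, hK1, hK⟩ := exists_K (q ^ 2 / 23040)
    (1 + 2 / e + 3 * (2 / e + C3 / 2 + 3 * C3 + C4 + 1 / 2)) (by positivity)
  have hK0 : 0 < K := by linarith
  have hlogK : 0 ≤ Real.log K := Real.log_nonneg hK1
  have hlog16 : Real.log 16 ≤ 3 := by
    have h1 : Real.log 16 = 4 * Real.log 2 := by
      rw [show (16 : ℝ) = 2 ^ 4 by norm_num, Real.log_pow]
      norm_num
    have h2 := Real.log_two_lt_d9
    rw [h1]
    linarith
  have hlog16K : Real.log (16 * K) = Real.log 16 + Real.log K :=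
    Real.log_mul (by norm_num) hK0.ne'
  have hlog16K0 : 0 ≤ Real.log (16 * K) := Real.log_nonneg (by linarith)
  obtain ⟨AK, hAKdef⟩ : ∃ AK : ℝ, AK = 2 / e + C3 / 2 + C3 * Real.log (16 * K) + C4 + 1 / 2 :=
    ⟨_, rfl⟩
  have h2e : 0 < 2 / e := by positivity
  have hAK0 : 0 ≤ AK := by rw [hAKdef]; positivity
  have hAKle : AK ≤ (2 / e + C3 / 2 + 3 * C3 + C4 + 1 / 2) * (1 + Real.log K) := by
    have h1 : C3 * Real.log (16 * K) ≤ 3 * C3 * (1 + Real.log K) := by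
      rw [hlog16K]
      nlinarith
    have h2 : (2 / e + C3 / 2 + C4 + 1 / 2) ≤ (2 / e + C3 / 2 + C4 + 1 / 2) * (1 + Real.log K) := by
      have : 0 < 2 / e + C3 / 2 + C4 + 1 / 2 := by positivity
      nlinarith
    rw [hAKdef]
    nlinarith
  have hKK : 1 + 2 / e + 3 * AK ≤ q ^ 2 * K / 23040 := by
    have h1 : (1 + 2 / e) ≤ (1 + 2 / e) * (1 + Real.log K) := by nlinarith
    have h2 : 1 + 2 / e + 3 * AK
        ≤ (1 + 2 / e + 3 * (2 / e + C3 / 2 + 3 * C3 + C4 + 1 / 2)) * (1 + Real.log K) := by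
      nlinarith
    calc 1 + 2 / e + 3 * AK ≤ _ := h2
      _ ≤ q ^ 2 / 23040 * K := hK
      _ = q ^ 2 * K / 23040 := by ring
  obtain ⟨N₁, hN₁⟩ := consequences hp1 hp2
  obtain ⟨X0, hX0def⟩ : ∃ X0 : ℝ, X0 = 33177600 / q ^ 4 := ⟨_, rfl⟩
  have hX0 : 11 ≤ X0 := by
    rw [hX0def, le_div_iff₀ (by positivity)]
    have : q ^ 4 ≤ 1 := pow_le_one₀ hq.le hq1
    linarith
  obtain ⟨N₂, hN₂⟩ := exists_nat_ge (Real.exp (X0 / e))
  refine ⟨min (1 / (64 * K)) (q ^ 2 / (163840 * K ^ 2)), by positivity,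
    max 1 (max N₁ N₂), fun N hN z w c h hcκ hv => ?_⟩
  have hNge1 : 1 ≤ N := le_trans (le_max_left _ _) hN
  have hN' : max N₁ N₂ ≤ N := le_trans (le_max_right _ _) hN
  have hNN1 : N₁ ≤ N := le_trans (le_max_left _ _) hN'
  have hNN2 : N₂ ≤ N := le_trans (le_max_right _ _) hN'
  have hN1R : (1 : ℝ) ≤ N := by exact_mod_cast hNge1
  obtain ⟨C, hCdef⟩ : ∃ C : ℝ, C = ‖c‖ := ⟨_, rfl⟩
  obtain ⟨n, hndef⟩ : ∃ n : ℝ, n = (N : ℝ) + 1 := ⟨_, rfl⟩
  have hn0 : 0 < n := by rw [hndef]; positivity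
  have hn2 : 2 ≤ n := by rw [hndef]; linarith
  have hC1 : C ≤ 1 / (64 * K) := by rw [hCdef]; exact hcκ.trans (min_le_left _ _)
  have hC2 : C ≤ q ^ 2 / (163840 * K ^ 2) := by rw [hCdef]; exact hcκ.trans (min_le_right _ _)
  have hCK : K * C ≤ 1 / 64 := by
    rw [le_div_iff₀ (by positivity)] at hC1
    linarith
  have hC0' : 0 ≤ C := by rw [hCdef]; exact norm_nonneg c
  have hC64 : C ≤ 1 / 64 := by nlinarith
  have hc16 : ‖c‖ ≤ 1 / 16 := by rw [← hCdef]; linarith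
  obtain ⟨hX, hV1, hcard⟩ := hN₁ N hNN1 z w c h hc16
  rw [← hqdef, ← hndef, ← hCdef] at hX hcard
  rw [← hqdef, ← hndef, ← hCdef] at hV1
  rw [← hedef] at hX
  rw [← hC4def] at hV1
  rw [← hC3def] at hcard
  obtain ⟨X, hXdef⟩ : ∃ X : ℝ, X = n * C ^ 2 := ⟨_, rfl⟩
  rw [← hXdef] at hX hcard
  have hlogn : X0 / e ≤ Real.log n := by
    rw [Real.le_log_iff_exp_le hn0]
    have : (N₂ : ℝ) ≤ N := by exact_mod_cast hNN2
    rw [hndef]
    linarith
  have hXX0 : X0 ≤ X := by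
    rw [div_le_iff₀ he] at hlogn
    linarith
  have hXpos : 0 < X := by linarith
  have hC0 : 0 < C := by
    rcases hC0'.lt_or_eq with h0 | h0
    · exact h0
    · rw [hXdef, ← h0] at hXpos
      simp at hXpos
  have hlogX : Real.log n ≤ X / e := by
    rw [le_div_iff₀ he]
    linarith
  have hlog2n : Real.log (2 * n) ≤ 2 / e * X := by
    rw [Real.log_mul (by norm_num) hn0.ne']
    have h1 : Real.log 2 ≤ Real.log n := Real.log_le_log (by norm_num) hn2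
    have h2 : 2 / e * X = 2 * (X / e) := by ring
    rw [h2]
    linarith
  obtain ⟨v, hvdef⟩ : ∃ v : Fin N → ℂ, v = fun j => (w j)⁻¹ := ⟨_, rfl⟩
  have hv1 : ∀ j, ‖v j‖ ≤ 1 := by
    intro j
    rw [hvdef]
    exact h.norm_inv_le j
  have hVsum : ∑ j, v j = ∑ j, (w j)⁻¹ := by rw [hvdef]
  -- b, R, mu
  obtain ⟨b, hbdef⟩ : ∃ b : ℝ, b = K * C := ⟨_, rfl⟩
  have hb0 : 0 < b := by rw [hbdef]; positivity
  have hb16 : b ≤ 1 / 16 := by rw [hbdef]; linarith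
  obtain ⟨μ, hμdef⟩ : ∃ μ : ℝ, μ = q ^ 2 / 20 * N * C := ⟨_, rfl⟩
  have hμ0 : 0 < μ := by rw [hμdef]; positivity
  have hV1low : μ ≤ ‖∑ j, v j‖ := by
    have h1 := h.V1_lower hp1 hp2 (by linarith) hv
    rw [← hqdef, ← hCdef] at h1
    rw [hVsum]
    have h2 : C * μ ≤ C * ‖∑ j, (w j)⁻¹‖ := by
      rw [hμdef]
      calc C * (q ^ 2 / 20 * N * C) = q ^ 2 / 20 * N * C ^ 2 := by ring
        _ ≤ _ := h1
    exact le_of_mul_le_mul_left h2 hC0
  have hsmall : 8192 * N * b ^ 2 ≤ μ := by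
    rw [hbdef, hμdef]
    rw [le_div_iff₀ (by positivity)] at hC2
    have h1 : 8192 * K ^ 2 * C ≤ q ^ 2 / 20 := by linarith
    have h2 : 0 ≤ (N : ℝ) * C := by positivity
    calc 8192 * N * (K * C) ^ 2 = (8192 * K ^ 2 * C) * (N * C) := by ring
      _ ≤ q ^ 2 / 20 * (N * C) := mul_le_mul_of_nonneg_right h1 h2
      _ = q ^ 2 / 20 * N * C := by ring
  obtain ⟨r, hr0, hr2b, hcirc⟩ := exists_circle v hv1 hb0 hb16 hμ0 hV1low hsmall
  obtain ⟨R, hRdef⟩ : ∃ R : ℝ, R = 16 * b := ⟨_, rfl⟩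
  have hR0 : 0 < R := by rw [hRdef]; positivity
  have hR14 : R ≤ 1 / 4 := by rw [hRdef, hbdef]; linarith
  obtain ⟨A, hAdef⟩ : ∃ A : ℝ, A = Real.log (2 * ((N : ℝ) + 1))
          + (univ.filter (fun k => ‖z k‖ < R)).card * Real.log (3 / 2)
          + ∑ k ∈ univ.filter (fun k => ‖z k‖ < R), Real.log (R / ‖z k‖) := ⟨_, rfl⟩
  have hcardR : ((univ.filter (fun k => ‖z k‖ < R)).card : ℝ) ≤ C3 * X := by
    refine le_trans ?_ hcard
    have : (univ.filter (fun k => ‖z k‖ < R)).card ≤ (univ.filter (fun k => ‖z k‖ < 1 / 4)).card := by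
      apply Finset.card_le_card
      intro k hk
      rw [Finset.mem_filter] at hk ⊢
      exact ⟨hk.1, lt_of_lt_of_le hk.2 hR14⟩
    exact_mod_cast this
  have hA : A ≤ AK * X := by
    have h1 : Real.log (3 / 2) ≤ 1 / 2 := by
      have := Real.log_le_sub_one_of_pos (show (0 : ℝ) < 3 / 2 by norm_num)
      linarith
    have h1' : 0 ≤ Real.log (3 / 2) := Real.log_nonneg (by norm_num)
    have h2 : ((univ.filter (fun k => ‖z k‖ < R)).card : ℝ) * Real.log (3 / 2) ≤ C3 / 2 * X := by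
      calc ((univ.filter (fun k => ‖z k‖ < R)).card : ℝ) * Real.log (3 / 2)
          ≤ (C3 * X) * (1 / 2) := mul_le_mul hcardR h1 h1' (by positivity)
        _ = C3 / 2 * X := by ring
    have h3 : ∑ k ∈ univ.filter (fun k => ‖z k‖ < R), Real.log (R / ‖z k‖)
        ≤ C3 * Real.log (16 * K) * X + C4 * X + 1 / 2 * X := by
      have h4 : ∀ k ∈ univ.filter (fun k => ‖z k‖ < R), Real.log (R / ‖z k‖)
          ≤ Real.log (16 * K) + max 0 (Real.log (C / ‖z k‖)) := by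
        intro k _
        have hzk : 0 < ‖z k‖ := norm_pos_iff.2 (h.z_ne k)
        have h5 : R / ‖z k‖ = (16 * K) * (C / ‖z k‖) := by
          rw [hRdef, hbdef]
          ring
        rw [h5, Real.log_mul (by positivity) (by positivity)]
        have := le_max_right 0 (Real.log (C / ‖z k‖))
        linarith
      have h6 := Finset.sum_le_sum h4
      rw [Finset.sum_add_distrib, Finset.sum_const, nsmul_eq_mul] at h6
      have h7 : ∑ k ∈ univ.filter (fun k => ‖z k‖ < R), max 0 (Real.log (C / ‖z k‖))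
          ≤ ∑ k, max 0 (Real.log (C / ‖z k‖)) :=
        Finset.sum_le_sum_of_subset_of_nonneg (Finset.filter_subset _ _)
          fun k _ _ => le_max_left _ _
      have h8 := h.jensen hC0
      have h9 : C * ‖∑ j, (w j)⁻¹‖ ≤ C4 * X := by
        calc C * ‖∑ j, (w j)⁻¹‖ ≤ C * (C4 * (n * C)) := mul_le_mul_of_nonneg_left hV1 hC0.le
          _ = C4 * X := by rw [hXdef]; ring
      have h10 : (N : ℝ) * C ^ 2 / 2 ≤ 1 / 2 * X := by
        rw [hXdef, hndef]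
        have : 0 ≤ C ^ 2 := by positivity
        nlinarith
      have h11 : ((univ.filter (fun k => ‖z k‖ < R)).card : ℝ) * Real.log (16 * K)
          ≤ C3 * Real.log (16 * K) * X := by
        calc _ ≤ (C3 * X) * Real.log (16 * K) := mul_le_mul_of_nonneg_right hcardR hlog16K0
          _ = _ := by ring
      linarith
    rw [hAdef, hAKdef, ← hndef]
    have h12 : (2 / e + C3 / 2 + C3 * Real.log (16 * K) + C4 + 1 / 2) * X
        = 2 / e * X + C3 / 2 * X + (C3 * Real.log (16 * K) * X + C4 * X + 1 / 2 * X) := by ring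
    rw [h12]
    linarith
  have hf : ∀ x : ℂ, HasDerivAt (fun y : ℂ => y * ∏ k, (1 - y / z k)) (∏ j, (1 - x * v j)) x := by
    intro x
    have := h.der x
    rw [hvdef]
    simpa only [div_eq_mul_inv] using this
  refine not_small_on_circle v hv1 (fun y : ℂ => y * ∏ k, (1 - y / z k)) hf (by simp) hr0
    (by linarith) ?_
  intro x hx
  obtain ⟨hLx, hvar⟩ := hcirc x hx
  have hLpos : 0 < ‖LL v x‖ := lt_of_lt_of_le (by positivity) hLx
  have hLne : LL v x ≠ 0 := norm_pos_iff.1 hLpos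
  have hl0 : (0 : ℝ) ≤ b / 16 := by positivity
  have hxl : ‖x‖ + b / 16 ≤ 1 / 4 := by rw [hx]; linarith
  have hY : ∀ y : ℂ, ‖y - x‖ ≤ b / 16 →
      ‖(fun y : ℂ => y * ∏ k, (1 - y / z k)) y‖ ≤ Real.exp (3 * A) * ‖∏ j, (1 - y * v j)‖ := by
    intro y hy
    have hyR : ‖y‖ ≤ R / 4 := by
      have h1 : ‖y‖ ≤ ‖y - x‖ + ‖x‖ := by
        calc ‖y‖ = ‖(y - x) + x‖ := by rw [sub_add_cancel]
          _ ≤ _ := norm_add_le _ _
      rw [hx] at h1
      rw [hRdef]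
      linarith
    have h2 := h.norm_f_le hR0 (by linarith) y hyR
    rw [← hAdef] at h2
    rw [hvdef]
    exact h2
  have hode := norm_ode_le v hv1 (fun y : ℂ => y * ∏ k, (1 - y / z k)) hf x hl0 hxl hLne hvar hY
  refine hode.trans ?_
  refine final_bound hq he hAK0 hKK hXdef (by rw [← hX0def]; exact hXX0) (by linarith)
    (by linarith) hndef hN1R hC0 ?_ (by rw [hbdef]) ?_ rfl hA hlog2n hK1
  · rw [← hμdef]
    exact hLx
  · exact norm_LL_le v hv1 x (by rw [hx]; linarith)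

end Pool.MP_c113aa_an.BV
end

section

set_option autoImplicit false

namespace Pool.MP_c113aa_an.BV

open Finset

/-- The normalised theorem. -/
theorem core {p : ℝ} (hp1 : 1 < p) (hp2 : p ≤ 2) :
    ∃ N₀ : ℕ, ∀ N : ℕ, N₀ ≤ N → ∀ (z w : Fin N → ℂ) (c : ℂ), Cfg p N z w c → ∀ j, w j = c := by
  obtain ⟨κ, hκ, N₁, h₁⟩ := step3 hp1 hp2
  obtain ⟨δ, hδ0, hδ1, h₂⟩ := caseB hp1 hp2 hκ
  obtain ⟨N₃, h₃⟩ := caseA hp1 hp2 hδ0 hδ1
  refine ⟨max 1 (max N₁ N₃), fun N hN z w c h => ?_⟩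
  have hN1 : 1 ≤ N := le_trans (le_max_left _ _) hN
  have hN' : max N₁ N₃ ≤ N := le_trans (le_max_right _ _) hN
  have hNa : N₁ ≤ N := le_trans (le_max_left _ _) hN'
  have hNb : N₃ ≤ N := le_trans (le_max_right _ _) hN'
  rcases le_or_gt (∑ j, ‖1 - c * (w j)⁻¹‖) ((1 - δ) * N) with hA | hB
  · exact h₃ N hNb z w c h hA
  · obtain ⟨hc, hv⟩ := h₂ N hN1 z w c h hB
    exact (h₁ N hNa z w c h hc hv).elim

end Pool.MP_c113aa_an.BV
end

section

set_option autoImplicit false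

namespace Pool.MP_c113aa_an.BV

open Finset

theorem convexOn_norm_sub (c : ℂ) : ConvexOn ℝ Set.univ (fun y : ℂ => ‖y - c‖) := by
  have h1 : ConvexOn ℝ Set.univ (norm : ℂ → ℝ) := convexOn_univ_norm
  have h2 := h1.translate_left (-c)
  simp only [Set.preimage_univ] at h2
  refine h2.congr ?_
  intro y _
  simp [sub_eq_add_neg]

theorem convexOn_norm_sub_rpow (c : ℂ) {p : ℝ} (hp : 1 ≤ p) :
    ConvexOn ℝ Set.univ (fun y : ℂ => ‖y - c‖ ^ p) := by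
  refine ⟨convex_univ, fun x _ y _ a b ha hb hab => ?_⟩
  have h1 := (convexOn_norm_sub c).2 (Set.mem_univ x) (Set.mem_univ y) ha hb hab
  have h2 := (convexOn_rpow hp).2 (Set.mem_Ici.2 (norm_nonneg (x - c)))
    (Set.mem_Ici.2 (norm_nonneg (y - c))) ha hb hab
  refine le_trans ?_ h2
  exact Real.rpow_le_rpow (norm_nonneg _) h1 (by linarith)

/-- construction of a normalised configuration -/
theorem cfg_of_crit {N : ℕ} {Z : Fin (N + 1) → ℂ} {w : Fin N → ℂ} (h : CritOf Z w)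
    (h0 : Z 0 = 0) (hw : ∀ j, 1 ≤ ‖w j‖) {p : ℝ} (hp1 : 1 < p) (hp2 : p ≤ 2) (c : ℂ)
    (hc : ∀ c' : ℂ, ∑ k, ‖Z k - c‖ ^ p ≤ ∑ k, ‖Z k - c'‖ ^ p)
    (hs : ∑ k, ‖Z k - c‖ ^ p ≤ (N : ℝ) + 1) : Cfg p N (fun k => Z k.succ) w c := by
  have hN : (0 : ℝ) < (N : ℝ) + 1 := by positivity
  have hNc : ((N : ℂ) + 1) ≠ 0 := by exact_mod_cast hN.ne'
  have hw0 : ∀ j, w j ≠ 0 := by
    intro j hj
    have := hw j
    rw [hj, norm_zero] at this
    linarith
  -- derivative at zero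
  have hd0 : ∏ k : Fin N, (0 - Z k.succ) = ((N : ℂ) + 1) * ∏ j, (0 - w j) := by
    have h1 := h 0
    have h2 : HasDerivAt (fun y : ℂ => y * ∏ k : Fin N, (y - Z k.succ))
        (1 * ∏ k : Fin N, (0 - Z k.succ) + 0 * deriv (fun y : ℂ => ∏ k : Fin N, (y - Z k.succ)) 0)
        0 := by
      refine (hasDerivAt_id (0 : ℂ)).mul ?_
      refine DifferentiableAt.hasDerivAt ?_
      fun_prop
    have h3 : (fun y : ℂ => ∏ k, (y - Z k)) = fun y : ℂ => y * ∏ k : Fin N, (y - Z k.succ) := by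
      funext y
      rw [Fin.prod_univ_succ, h0, sub_zero]
    rw [h3] at h1
    have h4 := h2.unique h1
    rw [one_mul, zero_mul, add_zero] at h4
    exact h4
  have hne : ∏ k : Fin N, (0 - Z k.succ) ≠ 0 := by
    rw [hd0]
    refine mul_ne_zero hNc (Finset.prod_ne_zero_iff.2 fun j _ => ?_)
    rw [zero_sub]
    exact neg_ne_zero.2 (hw0 j)
  have hz : ∀ k : Fin N, Z k.succ ≠ 0 := by
    intro k hk
    apply hne
    refine Finset.prod_eq_zero (Finset.mem_univ k) ?_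
    rw [hk, sub_zero]
  have hS : ∀ c₁ : ℂ, ∑ k, ‖Z k - c₁‖ ^ p = ‖c₁‖ ^ p + ∑ k : Fin N, ‖Z k.succ - c₁‖ ^ p := by
    intro c₁
    rw [Fin.sum_univ_succ, h0, zero_sub, norm_neg]
  refine ⟨hz, hw, ?_, ?_, ?_, ?_, ?_, ?_, ?_⟩
  · intro x
    have h1 := (h x).div_const (∏ k : Fin N, (0 - Z k.succ))
    have e1 : (fun y : ℂ => (∏ k, (y - Z k)) / ∏ k : Fin N, (0 - Z k.succ))
        = fun y : ℂ => y * ∏ k : Fin N, (1 - y / Z k.succ) := by
      funext y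
      rw [Fin.prod_univ_succ, h0, sub_zero, mul_div_assoc, ← Finset.prod_div_distrib]
      congr 1
      refine Finset.prod_congr rfl fun k _ => ?_
      have := hz k
      field_simp
      ring
    have e2 : ((N : ℂ) + 1) * (∏ j, (x - w j)) / (∏ k : Fin N, (0 - Z k.succ))
        = ∏ j, (1 - x / w j) := by
      rw [hd0, mul_div_mul_left _ _ hNc, ← Finset.prod_div_distrib]
      refine Finset.prod_congr rfl fun j _ => ?_
      have := hw0 j
      field_simp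
      ring
    rw [e1, e2] at h1
    exact h1
  · have h1 := congrArg norm hd0
    rw [norm_mul, norm_prod, norm_prod] at h1
    simp only [zero_sub, norm_neg] at h1
    rw [h1]
    congr 1
    have : ((N : ℂ) + 1) = (((N : ℝ) + 1 : ℝ) : ℂ) := by push_cast; rfl
    rw [this, Complex.norm_real, Real.norm_eq_abs, abs_of_pos hN]
  · rw [← hS]
    exact hs
  · have h1 := dbs h _ (convexOn_norm_sub_rpow c hp1.le)
    have h2 : (N : ℝ) * ∑ k, ‖Z k - c‖ ^ p ≤ N * ((N : ℝ) + 1) :=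
      mul_le_mul_of_nonneg_left hs (Nat.cast_nonneg N)
    have h3 : ((N : ℝ) + 1) * ∑ j, ‖w j - c‖ ^ p ≤ ((N : ℝ) + 1) * N := by linarith
    exact le_of_mul_le_mul_left h3 hN
  · have h1 := dbs h _ (convexOn_norm_sub c)
    rw [Fin.sum_univ_succ, h0, zero_sub, norm_neg] at h1
    exact h1
  · have h1 := h.mean
    rw [Fin.sum_univ_succ, h0, zero_add] at h1
    exact h1
  · have h1 := foc_of_min Z hp1 c hc
    rw [Fin.sum_univ_succ, h0] at h1
    have h2 : ‖(0 : ℂ) - c‖ = ‖c‖ := by rw [zero_sub, norm_neg]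
    rw [h2] at h1
    exact h1

/-- the theorem for zeros and critical points -/
theorem crit_main {p : ℝ} (hp1 : 1 < p) (hp2 : p ≤ 2) :
    ∃ N₀ : ℕ, ∀ N : ℕ, N₀ ≤ N → ∀ (Z : Fin (N + 1) → ℂ) (w : Fin N → ℂ), CritOf Z w →
      ∀ (k₀ : Fin (N + 1)) (D : ℝ) (c : ℂ), 0 < D → (∀ j, D ≤ ‖Z k₀ - w j‖) →
      ∑ k, ‖Z k - c‖ ^ p ≤ ((N : ℝ) + 1) * D ^ p → ∃ c' : ℂ, ∀ j, w j = c' := by
  obtain ⟨N₀, hN₀⟩ := core hp1 hp2
  refine ⟨N₀, fun N hN Z w h k₀ D c hD hk hs => ?_⟩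
  have hDc : (D : ℂ) ≠ 0 := by exact_mod_cast hD.ne'
  obtain ⟨c₁, hc₁⟩ := exists_minimizer (fun k => (Z (Equiv.swap 0 k₀ k) - Z k₀) / (D : ℂ)) hp1
  have hcr := (h.perm (Equiv.swap 0 k₀)).affine (Z k₀) D hDc
  have hcfg : Cfg p N (fun k => (Z (Equiv.swap 0 k₀ k.succ) - Z k₀) / (D : ℂ))
      (fun j => (w j - Z k₀) / (D : ℂ)) c₁ := by
    refine cfg_of_crit hcr ?_ ?_ hp1 hp2 c₁ hc₁ ?_
    · simp
    · intro j
      rw [norm_div, Complex.norm_real, Real.norm_eq_abs, abs_of_pos hD, le_div_iff₀ hD, one_mul,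
        norm_sub_rev]
      exact hk j
    · refine (hc₁ ((c - Z k₀) / D)).trans ?_
      have e : ∀ k, ‖(Z (Equiv.swap 0 k₀ k) - Z k₀) / (D : ℂ) - (c - Z k₀) / D‖ ^ p
          = ‖Z (Equiv.swap 0 k₀ k) - c‖ ^ p / D ^ p := by
        intro k
        rw [← sub_div, norm_div, Complex.norm_real, Real.norm_eq_abs, abs_of_pos hD,
          Real.div_rpow (norm_nonneg _) hD.le]
        congr 3
        ring
      rw [Finset.sum_congr rfl fun k _ => e k, ← Finset.sum_div]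
      rw [Equiv.sum_comp (Equiv.swap 0 k₀) (fun k => ‖Z k - c‖ ^ p)]
      rw [div_le_iff₀ (Real.rpow_pos_of_pos hD p)]
      exact hs
  have := hN₀ N hN _ _ c₁ hcfg
  refine ⟨D * c₁ + Z k₀, fun j => ?_⟩
  have hj := this j
  rw [div_eq_iff hDc] at hj
  linear_combination hj

end Pool.MP_c113aa_an.BV
end

section

set_option autoImplicit false

namespace Pool.MP_c113aa_an.BV

open Finset Polynomial

theorem le_of_rpow_le' {m : ℕ} {r s p : ℝ} (hs : 0 ≤ s) (hp : 1 < p)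
    (h : ((m : ℝ) + 1) * r ^ p ≤ ((m : ℝ) + 1) * s ^ p) : r ≤ s := by
  have hm : (0 : ℝ) < (m : ℝ) + 1 := by positivity
  have h1 := le_of_mul_le_mul_left h hm
  by_contra hcon
  exact absurd h1 (not_le.2 (Real.rpow_lt_rpow hs (not_le.1 hcon) (by linarith)))

/-- The theorem. -/
theorem main {p₀ : ℝ} (hp₀ : 1 < p₀) :
    ∃ n₀ : ℕ, ∀ p : ℝ, p₀ ≤ p → ∀ n : ℕ, n₀ ≤ n → ∀ F : ℂ[X], F.natDegree = n →
      (sSup {d : ℝ | ∃ z ∈ F.roots,
          d = sInf {r : ℝ | ∃ w ∈ (derivative F).roots, r = ‖z - w‖}} ≤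
        ⨅ c : ℂ, ((1 / (n : ℝ)) * (F.roots.map (fun z => ‖z - c‖ ^ p)).sum) ^ (1 / p)) ∧
      ((sSup {d : ℝ | ∃ z ∈ F.roots,
          d = sInf {r : ℝ | ∃ w ∈ (derivative F).roots, r = ‖z - w‖}} =
        ⨅ c : ℂ, ((1 / (n : ℝ)) * (F.roots.map (fun z => ‖z - c‖ ^ p)).sum) ^ (1 / p)) ↔
      ∃ a b c : ℂ, F = C a * (X - C c) ^ n - C b) := by
  have hp1 : 1 < min p₀ 2 := lt_min hp₀ (by norm_num)
  have hp2 : min p₀ 2 ≤ (2 : ℝ) := min_le_right _ _
  obtain ⟨N₀, hN₀⟩ := crit_main hp1 hp2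
  refine ⟨max 2 (N₀ + 1), fun p hp n hn F hF => ?_⟩
  have hn2 : 2 ≤ n := le_trans (le_max_left _ _) hn
  have hn3 : N₀ + 1 ≤ n := le_trans (le_max_right _ _) hn
  obtain ⟨N, rfl⟩ : ∃ N, n = N + 1 := ⟨n - 1, by omega⟩
  have hN1 : 1 ≤ N := by omega
  have hNN : N₀ ≤ N := by omega
  obtain ⟨a, Z, w, ha, hFZ, hroots, hroots', hcrit⟩ := exists_fin_roots F hF
  have hpp : 1 < p := lt_of_lt_of_le hp₀ hp
  have hσ : (⨅ c : ℂ, ((1 / ((N + 1 : ℕ) : ℝ)) *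
        (F.roots.map (fun z => ‖z - c‖ ^ p)).sum) ^ (1 / p))
      = ⨅ c : ℂ, ((1 / ((N + 1 : ℕ) : ℝ)) * ∑ k, ‖Z k - c‖ ^ p) ^ (1 / p) := by
    refine iInf_congr fun c => ?_
    rw [hroots, Multiset.map_map]
    rfl
  rw [hσ]
  obtain ⟨hs0, ⟨c₁, hc₁⟩, hsle⟩ := sigma_attained Z hpp
  obtain ⟨⟨k₀, hk₀⟩, hk⟩ := hausdorff_eq F hN1 Z w hroots hroots'
  set σ : ℝ := ⨅ c : ℂ, ((1 / ((N + 1 : ℕ) : ℝ)) * ∑ k, ‖Z k - c‖ ^ p) ^ (1 / p) with hσdef
  set H : ℝ := sSup {d : ℝ | ∃ z ∈ F.roots,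
          d = sInf {r : ℝ | ∃ w ∈ (derivative F).roots, r = ‖z - w‖}} with hHdef
  have key : ∀ (k : Fin (N + 1)) (D : ℝ), 0 < D → σ ≤ D → (∀ j, D ≤ ‖Z k - w j‖) →
      ∃ c' b : ℂ, (∀ j, w j = c') ∧
        (∏ k, (X - C (Z k)) : ℂ[X]) = (X - C c') ^ (N + 1) - C b := by
    intro k D hD hσD hj
    have h1 : ∑ k, ‖Z k - c₁‖ ^ p ≤ ((N : ℝ) + 1) * D ^ p := by
      rw [hc₁]
      refine mul_le_mul_of_nonneg_left ?_ (by positivity)
      exact Real.rpow_le_rpow hs0 hσD (by linarith)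
    have h2 : ∑ k, ‖Z k - c₁‖ ^ (min p₀ 2) ≤ ((N : ℝ) + 1) * D ^ (min p₀ 2) :=
      power_mean (fun k => ‖Z k - c₁‖) (fun k => norm_nonneg _) (by linarith)
        ((min_le_left _ _).trans hp) hD.le h1
    obtain ⟨c', hc'⟩ := hN₀ N hNN Z w hcrit k D c₁ hD hj h2
    obtain ⟨b, hb⟩ := hcrit.special c' hc'
    exact ⟨c', b, hc', hb⟩
  have j₀ : Fin N := ⟨0, hN1⟩
  constructor
  · by_contra hcon
    rw [not_le] at hcon
    obtain ⟨c', b, hw, hb⟩ := key k₀ H (lt_of_le_of_lt hs0 hcon) hcon.le hk₀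
    obtain ⟨r, hr0, hr, hrle⟩ := special_eq hN1 hb hpp
    have h1 : H ≤ r := by
      have := hk₀ j₀
      rw [hw j₀, hr k₀] at this
      exact this
    have h2 : r ≤ σ := by
      apply le_of_rpow_le' (m := N) hs0 hpp
      rw [← hc₁]
      exact hrle c₁
    linarith
  · constructor
    · intro hHσ
      rcases hs0.lt_or_eq with hpos | hzero
      · obtain ⟨c', b, hw, hb⟩ := key k₀ H (by rw [hHσ]; exact hpos) hHσ.ge hk₀
        refine ⟨a, a * b, c', ?_⟩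
        rw [hFZ, hb, mul_sub, C_mul]
      · have h1 : ∑ k, ‖Z k - c₁‖ ^ p = 0 := by
          rw [hc₁, ← hzero, Real.zero_rpow (by linarith), mul_zero]
        have h2 : ∀ k, Z k = c₁ := by
          intro k
          have h3 := (Finset.sum_eq_zero_iff_of_nonneg
            (fun k _ => Real.rpow_nonneg (norm_nonneg (Z k - c₁)) p)).1 h1 k (Finset.mem_univ k)
          have h4 := (Real.rpow_eq_zero (norm_nonneg _) (by linarith)).1 h3
          exact sub_eq_zero.1 (norm_eq_zero.1 h4)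
        refine ⟨a, 0, c₁, ?_⟩
        rw [hFZ]
        simp [h2]
    · rintro ⟨a', b', c, hF'⟩
      have hlead : F.leadingCoeff = a := by
        rw [hFZ, leadingCoeff_mul, leadingCoeff_C,
          (monic_prod_of_monic _ _ fun k _ => monic_X_sub_C (Z k)).leadingCoeff, mul_one]
      have hcoef : F.coeff (N + 1) = a' := by
        rw [hF']
        have h1 : ((X - C c) ^ (N + 1) : ℂ[X]).coeff (N + 1) = 1 := by
          have h2 := (monic_X_sub_C c).pow (N + 1)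
          have h3 : ((X - C c) ^ (N + 1) : ℂ[X]).natDegree = N + 1 := by
            rw [natDegree_pow, natDegree_X_sub_C, mul_one]
          rw [Monic, leadingCoeff, h3] at h2
          exact h2
        rw [coeff_sub, coeff_C_mul, h1, coeff_C]
        simp
      have haa : a' = a := by
        rw [← hcoef, ← hlead, leadingCoeff, hF]
      rw [haa] at hF'
      have hb : (∏ k, (X - C (Z k)) : ℂ[X]) = (X - C c) ^ (N + 1) - C (b' / a) := by
        have h1 : C a * (∏ k, (X - C (Z k)) : ℂ[X])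
            = C a * ((X - C c) ^ (N + 1) - C (b' / a)) := by
          rw [← hFZ, hF', mul_sub, ← C_mul, mul_div_cancel₀ _ ha]
        exact mul_left_cancel₀ (C_ne_zero.2 ha) h1
      have hw : ∀ j, w j = c := by
        intro j
        have h1 : w j ∈ (derivative F).roots := by
          rw [hroots']
          exact Multiset.mem_map_of_mem w (Finset.mem_univ_val j)
        have h2 := (mem_roots'.1 h1).2
        rw [hF', IsRoot.def] at h2
        rw [derivative_sub, derivative_C, sub_zero, derivative_C_mul, derivative_X_sub_C_pow,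
          eval_mul, eval_C, eval_mul, eval_pow, eval_sub, eval_X, eval_C, eval_C] at h2
        have h3 := (mul_eq_zero.1 h2).resolve_left ha
        have h4 : (w j - c) ^ (N + 1 - 1) = 0 := by
          refine (mul_eq_zero.1 h3).resolve_left ?_
          simp
          exact_mod_cast Nat.succ_ne_zero N
        exact sub_eq_zero.1 (pow_eq_zero_iff (by omega) |>.1 h4)
      obtain ⟨r, hr0, hr, hrle⟩ := special_eq hN1 hb hpp
      have hHr : H = r := by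
        apply le_antisymm
        · have := hk₀ j₀
          rw [hw j₀, hr k₀] at this
          exact this
        · obtain ⟨j, hj⟩ := hk k₀
          rw [hw j, hr k₀] at hj
          exact hj
      have hσr : σ = r := by
        apply le_antisymm
        · apply le_of_rpow_le' (m := N) hr0 hpp
          refine (hsle c).trans (le_of_eq ?_)
          rw [Finset.sum_congr rfl fun k _ => by rw [hr k]]
          simp
        · apply le_of_rpow_le' (m := N) hs0 hpp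
          rw [← hc₁]
          exact hrle c₁
      rw [hHr, hσr]

end Pool.MP_c113aa_an.BV
end
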