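import Mathlib
import Pool.Agent.Lib.MP_c113aa_an.Crit1

section

section

set_option autoImplicit false

namespace Pool.MP_c113aa_an.BV

open Finset
/-- existence of the minimiser.  Proof: the function c ↦ ∑ ‖Z k - c‖^p is continuous and tends to
infinity along cocompact ℂ (it is >= ‖Z 0 - c‖^p); Continuous.exists_forall_le. -/
theorem exists_minimizer {m : ℕ} (Z : Fin (m + 1) → ℂ) {p : ℝ} (hp : 1 < p) :
    ∃ c : ℂ, ∀ c' : ℂ, ∑ k, ‖Z k - c‖ ^ p ≤ ∑ k, ‖Z k - c'‖ ^ p := by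
  have hp0 : 0 < p := by linarith
  have hcont : Continuous (fun c : ℂ => ∑ k, ‖Z k - c‖ ^ p) := by
    refine continuous_finsetSum _ fun k _ => ?_
    exact (continuous_const.sub continuous_id).norm.rpow_const fun _ => Or.inr hp0.le
  refine hcont.exists_forall_le ?_
  have h1 : Filter.Tendsto (fun c : ℂ => ‖Z 0 - c‖ ^ p) (Filter.cocompact ℂ) Filter.atTop :=
    (tendsto_rpow_atTop hp0).comp
      ((tendsto_norm_cocompact_atTop (E := ℂ)).comp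
        (Homeomorph.subLeft (Z 0)).isClosedEmbedding.tendsto_cocompact)
  refine Filter.tendsto_atTop_mono (fun c => ?_) h1
  exact Finset.single_le_sum (f := fun k => ‖Z k - c‖ ^ p)
    (fun k _ => Real.rpow_nonneg (norm_nonneg _) _) (Finset.mem_univ 0)

/-- the first order condition.  Proof: hasFDerivAt_norm_rpow (Mathlib, Analysis/InnerProductSpace/
NormPow) with E = ℂ over ℝ: the real derivative of c ↦ ∑ ‖Z k - c‖^p in direction e is
-∑ p ‖Z k - c‖^(p-2) <Z k - c, e>; it vanishes at the minimum (IsLocalMin.hasFDerivAt_eq_zero).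
Take e = the sum itself (or e = 1 and e = I). -/
theorem foc_of_min {m : ℕ} (Z : Fin (m + 1) → ℂ) {p : ℝ} (hp : 1 < p) (c : ℂ)
    (hc : ∀ c' : ℂ, ∑ k, ‖Z k - c‖ ^ p ≤ ∑ k, ‖Z k - c'‖ ^ p) :
    ∑ k, ((‖Z k - c‖ ^ (p - 2) : ℝ) : ℂ) * (Z k - c) = 0 := by
  have hp0 : 0 < p := by linarith
  have hd : HasFDerivAt (fun c' : ℂ => ∑ k, ‖Z k - c'‖ ^ p)
      (∑ k, ((p * ‖Z k - c‖ ^ (p - 2)) • innerSL ℝ (Z k - c)).comp
        (-(ContinuousLinearMap.id ℝ ℂ))) c := by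
    refine HasFDerivAt.fun_sum fun k _ => ?_
    exact (hasFDerivAt_norm_rpow (Z k - c) hp).comp c ((hasFDerivAt_id c).const_sub (Z k))
  have hmin : IsLocalMin (fun c' : ℂ => ∑ k, ‖Z k - c'‖ ^ p) c :=
    Filter.Eventually.of_forall hc
  have h0 := hmin.hasFDerivAt_eq_zero hd
  set V : ℂ := ∑ k, ((‖Z k - c‖ ^ (p - 2) : ℝ) : ℂ) * (Z k - c) with hV
  have h2 := congrArg (fun L : ℂ →L[ℝ] ℝ => L V) h0
  simp only [_root_.sum_apply, ContinuousLinearMap.comp_apply,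
    neg_apply, ContinuousLinearMap.id_apply, smul_apply,
    innerSL_apply_apply, inner_neg_right, zero_apply, smul_eq_mul] at h2
  have h3 : inner ℝ V V = 0 := by
    have h4 : inner ℝ V V = ∑ k, ‖Z k - c‖ ^ (p - 2) * inner ℝ (Z k - c) V := by
      conv_lhs => rw [hV]
      rw [sum_inner]
      refine Finset.sum_congr rfl fun k _ => ?_
      rw [← Complex.real_smul, real_inner_smul_left]
    rw [h4]
    have h5 : ∑ k, p * ‖Z k - c‖ ^ (p - 2) * -inner ℝ (Z k - c) V =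
        -p * ∑ k, ‖Z k - c‖ ^ (p - 2) * inner ℝ (Z k - c) V := by
      rw [Finset.mul_sum]
      refine Finset.sum_congr rfl fun k _ => ?_
      ring
    rw [h5] at h2
    rcases mul_eq_zero.1 h2 with h6 | h6
    · linarith
    · exact h6
  exact inner_self_eq_zero.1 h3

/-- the power mean inequality.  Proof: D = 0: all x_k = 0 (q > 0), and 0^p = 0.  D > 0: with
y = x/D, Young / Bernoulli: y^p <= 1 + (p/q)(y^q - 1) for y >= 0 (Real.rpow_le_one_add... or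
Real.inner_le...; concavity of s ↦ s^(p/q)), sum up.  Or Real.inner_le_Lp / the
Mathlib power mean inequality Real.rpow_arith_mean_le_arith_mean_rpow with exponent q/p >= 1. -/
theorem power_mean {m : ℕ} (x : Fin (m + 1) → ℝ) (hx : ∀ k, 0 ≤ x k) {p q D : ℝ}
    (hp : 0 < p) (hpq : p ≤ q) (hD : 0 ≤ D) (h : ∑ k, x k ^ q ≤ ((m : ℝ) + 1) * D ^ q) :
    ∑ k, x k ^ p ≤ ((m : ℝ) + 1) * D ^ p := by
  have hq : 0 < q := lt_of_lt_of_le hp hpq
  have hm : (0 : ℝ) < (m : ℝ) + 1 := by positivity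
  have h1 := Real.rpow_arith_mean_le_arith_mean_rpow (s := Finset.univ)
    (fun _ : Fin (m + 1) => 1 / ((m : ℝ) + 1)) (fun k => x k ^ p)
    (fun _ _ => by positivity)
    (by
      rw [Finset.sum_const, Finset.card_univ, Fintype.card_fin, nsmul_eq_mul]
      push_cast
      field_simp)
    (fun k _ => Real.rpow_nonneg (hx k) _) ((one_le_div hp).2 hpq)
  rw [← Finset.mul_sum, ← Finset.mul_sum] at h1
  have h2 : ∑ k, (x k ^ p) ^ (q / p) = ∑ k, x k ^ q := by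
    refine Finset.sum_congr rfl fun k _ => ?_
    rw [← Real.rpow_mul (hx k), mul_div_cancel₀ _ hp.ne']
  rw [h2] at h1
  have h3 : (1 / ((m : ℝ) + 1) * ∑ k, x k ^ p) ^ (q / p) ≤ D ^ q := by
    refine h1.trans ?_
    rw [one_div, inv_mul_le_iff₀ hm]
    exact h
  have h4 : 0 ≤ 1 / ((m : ℝ) + 1) * ∑ k, x k ^ p :=
    mul_nonneg (by positivity) (Finset.sum_nonneg fun k _ => Real.rpow_nonneg (hx k) _)
  have h5 : 1 / ((m : ℝ) + 1) * ∑ k, x k ^ p ≤ D ^ p := by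
    have h6 : D ^ q = (D ^ p) ^ (q / p) := by
      rw [← Real.rpow_mul hD, mul_div_cancel₀ _ hp.ne']
    rw [h6] at h3
    exact (Real.rpow_le_rpow_iff h4 (Real.rpow_nonneg hD _) (by positivity)).1 h3
  rw [one_div, inv_mul_le_iff₀ hm] at h5
  exact h5

end Pool.MP_c113aa_an.BV
end

section

set_option autoImplicit false

namespace Pool.MP_c113aa_an.BV

open Finset Polynomial
/-- the mean of the critical points is the mean of the zeros.  Proof: compare the coefficient of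
X^(N-1) (N >= 1) in critOf_iff: the coefficient of X^N in ∏(X - Z_k) is -∑ Z_k, so
-N ∑ Z_k = -(N+1) ∑ w_j (Polynomial.coeff_derivative; Multiset.prod_X_sub_C_nextCoeff or
Polynomial.prod_X_sub_C_coeff_card_pred).  N = 0 is trivial. -/
theorem CritOf.mean {N : ℕ} {Z : Fin (N + 1) → ℂ} {w : Fin N → ℂ} (h : CritOf Z w) :
    ((N : ℂ) + 1) * ∑ j, w j = N * ∑ k, Z k := by
  rw [critOf_iff] at h
  rcases Nat.eq_zero_or_pos N with hN | hN
  · subst hN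
    simp
  · obtain ⟨M, rfl⟩ : ∃ M, N = M + 1 := ⟨N - 1, by omega⟩
    have h1 := congrArg (fun p : ℂ[X] => p.coeff M) h
    simp only [coeff_derivative, coeff_C_mul] at h1
    have h2 : (∏ k : Fin (M + 1 + 1), (X - C (Z k)) : ℂ[X]).coeff (M + 1) = -∑ k, Z k := by
      have := Polynomial.prod_X_sub_C_coeff_card_pred (Finset.univ : Finset (Fin (M + 1 + 1))) Z
        (by simp)
      simpa using this
    have h3 : (∏ j : Fin (M + 1), (X - C (w j)) : ℂ[X]).coeff M = -∑ j, w j := by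
      have := Polynomial.prod_X_sub_C_coeff_card_pred (Finset.univ : Finset (Fin (M + 1))) w
        (by simp)
      simpa using this
    rw [h2, h3] at h1
    push_cast at h1 ⊢
    linear_combination h1

/-- if all critical points are equal then the polynomial is (x-c)^n - b.  Proof: the derivative of
the difference with (X-c)^(N+1) vanishes, so the difference is constant (characteristic 0:
Polynomial.natDegree_eq_zero_of_derivative_eq_zero). -/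
theorem CritOf.special {N : ℕ} {Z : Fin (N + 1) → ℂ} {w : Fin N → ℂ} (h : CritOf Z w)
    (c : ℂ) (hw : ∀ j, w j = c) :
    ∃ b : ℂ, (∏ k, (X - C (Z k)) : ℂ[X]) = (X - C c) ^ (N + 1) - C b := by
  rw [critOf_iff] at h
  have h1 : derivative ((∏ k, (X - C (Z k)) : ℂ[X]) - (X - C c) ^ (N + 1)) = 0 := by
    rw [derivative_sub, h, derivative_pow]
    simp only [hw, Finset.prod_const, Finset.card_univ, Fintype.card_fin, Nat.add_sub_cancel,
      derivative_sub, derivative_X, derivative_C]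
    push_cast
    simp
  have h2 := Polynomial.derivative_eq_zero.mp h1
  have h3 := Polynomial.eq_C_of_natDegree_eq_zero h2
  refine ⟨-(((∏ k, (X - C (Z k)) : ℂ[X]) - (X - C c) ^ (N + 1)).coeff 0), ?_⟩
  rw [C_neg, sub_neg_eq_add, ← h3]
  ring

private lemma c2_enum (s : Multiset ℂ) (m : ℕ) (h : Multiset.card s = m) :
    ∃ Z : Fin m → ℂ, s = Multiset.map Z Finset.univ.val := by
  induction s using Quotient.inductionOn with
  | h l =>
    have h' : l.length = m := by simpa using h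
    subst h'
    refine ⟨l.get, ?_⟩
    rw [Fin.univ_val_map, List.ofFn_get]
    rfl

/-- zeros and critical points of a polynomial, as functions on Fin.  Proof: ℂ is algebraically
closed: F = C (leading coefficient) * ∏ over roots; card of the roots = natDegree = N+1; the derivative
has natDegree N and leading coefficient (N+1) * leading coefficient.  Enumerate a multiset of
cardinality m as Multiset.map Z univ.val (e.g. via Multiset.toList / List.get,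
or Quotient.exists_rep, List.ofFn).  CritOf via critOf_iff after cancelling the constant. -/
theorem exists_fin_roots (F : ℂ[X]) {N : ℕ} (hF : F.natDegree = N + 1) :
    ∃ (a : ℂ) (Z : Fin (N + 1) → ℂ) (w : Fin N → ℂ), a ≠ 0 ∧
      F = C a * ∏ k, (X - C (Z k)) ∧
      F.roots = Multiset.map Z Finset.univ.val ∧
      (derivative F).roots = Multiset.map w Finset.univ.val ∧ CritOf Z w := by
  have hF0 : F ≠ 0 := by
    rintro rfl
    simp at hF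
  have hc1 : Multiset.card F.roots = F.natDegree :=
    ((IsAlgClosed.splits F).natDegree_eq_card_roots).symm
  have hdeg : (derivative F).natDegree = N := by
    rw [Polynomial.natDegree_derivative, hF]
    simp
  have hc2 : Multiset.card (derivative F).roots = (derivative F).natDegree :=
    ((IsAlgClosed.splits (derivative F)).natDegree_eq_card_roots).symm
  obtain ⟨Z, hZ⟩ := c2_enum F.roots (N + 1) (hc1.trans hF)
  obtain ⟨w, hw⟩ := c2_enum (derivative F).roots N (hc2.trans hdeg)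
  have hP := Polynomial.C_leadingCoeff_mul_prod_multiset_X_sub_C hc1
  have hQ := Polynomial.C_leadingCoeff_mul_prod_multiset_X_sub_C hc2
  rw [hZ, Multiset.map_map] at hP
  rw [hw, Multiset.map_map] at hQ
  have hP' : F = C F.leadingCoeff * ∏ k, (X - C (Z k)) := hP.symm
  have hQ' : derivative F = C (derivative F).leadingCoeff * ∏ j, (X - C (w j)) := hQ.symm
  have ha : F.leadingCoeff ≠ 0 := leadingCoeff_ne_zero.mpr hF0
  refine ⟨F.leadingCoeff, Z, w, ha, hP', hZ, hw, ?_⟩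
  rw [critOf_iff]
  have hl : (derivative F).leadingCoeff = F.leadingCoeff * ((N : ℂ) + 1) := by
    rw [leadingCoeff, hdeg, coeff_derivative, leadingCoeff, hF]
  have h1 : C F.leadingCoeff * derivative (∏ k, (X - C (Z k)) : ℂ[X])
      = C F.leadingCoeff * (C ((N : ℂ) + 1) * ∏ j, (X - C (w j))) := by
    rw [← derivative_C_mul, ← hP', hQ', hl, C_mul, mul_assoc]
  exact mul_left_cancel₀ (C_ne_zero.mpr ha) h1

end Pool.MP_c113aa_an.BV
end

section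

set_option autoImplicit false

namespace Pool.MP_c113aa_an.BV

open Finset

variable {p : ℝ} {N : ℕ} {z w : Fin N → ℂ} {c : ℂ}

/-- (3c) upper bound for f/y on a disk.  Proof: x = 0 trivial.  x ≠ 0: f(x) = x ∏(1-x/z_k),
mean value inequality on the segment [0,x] with h.der: ‖f(x)‖ <= ‖x‖ sup_{0<=s<=1} ‖∏(1 - s x/w_j)‖ and
(E8) norm_prod_one_sub_le (v_j = 1/w_j; 1 - y/w_j = 1 - y * (w j)⁻¹). -/
theorem Cfg.norm_q_le (h : Cfg p N z w c) (x : ℂ) :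
    ‖∏ k, (1 - x / z k)‖ ≤ Real.exp (‖x‖ * ‖∑ j, (w j)⁻¹‖ + N * ‖x‖ ^ 2 / 2) := by
  by_cases hx : x = 0
  · subst hx
    simp
  have hxn : 0 < ‖x‖ := norm_pos_iff.mpr hx
  set C : ℝ := Real.exp (‖x‖ * ‖∑ j, (w j)⁻¹‖ + N * ‖x‖ ^ 2 / 2) with hC
  have bound : ∀ y ∈ Metric.closedBall (0 : ℂ) ‖x‖, ‖∏ j, (1 - y / w j)‖ ≤ C := by
    intro y hy
    have hy' : ‖y‖ ≤ ‖x‖ := by simpa using hy
    have h1 := norm_prod_one_sub_le (fun j => (w j)⁻¹) h.norm_inv_le y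
    have h2 : ∏ j, (1 - y / w j) = ∏ j, (1 - y * (w j)⁻¹) := by
      refine Finset.prod_congr rfl (fun j _ => ?_)
      rw [div_eq_mul_inv]
    rw [h2]
    refine h1.trans (Real.exp_le_exp.mpr ?_)
    have h3 : ‖y‖ * ‖∑ j, (w j)⁻¹‖ ≤ ‖x‖ * ‖∑ j, (w j)⁻¹‖ :=
      mul_le_mul_of_nonneg_right hy' (norm_nonneg _)
    have h4 : ‖y‖ ^ 2 ≤ ‖x‖ ^ 2 := pow_le_pow_left₀ (norm_nonneg _) hy' 2
    have h5 : (N : ℝ) * ‖y‖ ^ 2 / 2 ≤ N * ‖x‖ ^ 2 / 2 := by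
      have : (0 : ℝ) ≤ N := Nat.cast_nonneg N
      have := mul_le_mul_of_nonneg_left h4 this
      linarith
    linarith
  have hmv := (convex_closedBall (0 : ℂ) ‖x‖).norm_image_sub_le_of_norm_hasDerivWithin_le
    (f := fun y : ℂ => y * ∏ k, (1 - y / z k)) (f' := fun y => ∏ j, (1 - y / w j)) (C := C)
    (x := 0) (y := x) (fun y _ => (h.der y).hasDerivWithinAt) bound
    (by simp) (by simp)
  simp only [zero_mul, sub_zero, norm_mul] at hmv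
  rw [mul_comm C] at hmv
  exact le_of_mul_le_mul_left hmv hxn

/-- (3c') upper bound for the zero free part.  Proof: maximum modulus on the closed ball of radius
2ρ (Complex.norm_le_of_forall_mem_frontier_norm_le).  For ‖x‖ = 2ρ the factors with ‖z_k‖ < ρ have
‖1-x/z_k‖ >= ‖x‖/‖z_k‖ - 1 >= 1, so the filtered product has norm <= the norm of the full product;
then (3c). -/
theorem Cfg.norm_E_le (h : Cfg p N z w c) {ρ : ℝ} (hρ : 0 < ρ) (x : ℂ) (hx : ‖x‖ ≤ 2 * ρ) :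
    ‖∏ k ∈ univ.filter (fun k => ρ ≤ ‖z k‖), (1 - x / z k)‖
      ≤ Real.exp (2 * ρ * ‖∑ j, (w j)⁻¹‖ + 2 * N * ρ ^ 2) := by
  have h2ρ : (0 : ℝ) < 2 * ρ := by positivity
  have hdiff : Differentiable ℂ
      (fun y : ℂ => ∏ k ∈ univ.filter (fun k => ρ ≤ ‖z k‖), (1 - y / z k)) := by
    fun_prop
  refine Complex.norm_le_of_forall_mem_frontier_norm_le (U := Metric.ball (0 : ℂ) (2 * ρ))
    Metric.isBounded_ball (hdiff.diffContOnCl) ?_ ?_
  · intro y hy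
    rw [frontier_ball (0 : ℂ) h2ρ.ne'] at hy
    have hy' : ‖y‖ = 2 * ρ := by simpa using hy
    have hq := h.norm_q_le y
    have hsplit : (∏ k, (1 - y / z k))
        = (∏ k ∈ univ.filter (fun k => ρ ≤ ‖z k‖), (1 - y / z k))
          * ∏ k ∈ univ.filter (fun k => ¬ (ρ ≤ ‖z k‖)), (1 - y / z k) :=
      (Finset.prod_filter_mul_prod_filter_not _ _ _).symm
    have hone : (1 : ℝ) ≤ ‖∏ k ∈ univ.filter (fun k => ¬ (ρ ≤ ‖z k‖)), (1 - y / z k)‖ := by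
      rw [norm_prod]
      have := Finset.prod_le_prod (s := univ.filter (fun k => ¬ (ρ ≤ ‖z k‖)))
        (f := fun _ => (1 : ℝ)) (g := fun k => ‖1 - y / z k‖) (fun _ _ => zero_le_one) ?_
      · simpa using this
      · intro k hk
        have hk' : ‖z k‖ < ρ := by simpa using hk
        have hz : 0 < ‖z k‖ := norm_pos_iff.mpr (h.z_ne k)
        have h1 : ‖y / z k‖ ≤ ‖1 - y / z k‖ + 1 := by
          have := norm_sub_le (1 : ℂ) (1 - y / z k)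
          simp only [sub_sub_cancel, norm_one] at this
          linarith
        have h2 : 2 ≤ ‖y / z k‖ := by
          rw [norm_div, hy', le_div_iff₀ hz]
          linarith
        show (1 : ℝ) ≤ ‖1 - y / z k‖
        linarith
    have h3 : ‖∏ k ∈ univ.filter (fun k => ρ ≤ ‖z k‖), (1 - y / z k)‖ ≤ ‖∏ k, (1 - y / z k)‖ := by
      rw [hsplit, norm_mul]
      exact le_mul_of_one_le_right (norm_nonneg _) hone
    refine h3.trans (hq.trans (Real.exp_le_exp.mpr ?_))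
    rw [hy']
    apply le_of_eq
    ring
  · rw [closure_ball (0 : ℂ) h2ρ.ne']
    simpa using hx

end Pool.MP_c113aa_an.BV
end
end

section

section

set_option autoImplicit false

namespace Pool.MP_c113aa_an.BV

open Finset
/-- The logarithmic derivative of ∏ (1 - x v_j). -/
noncomputable def LL {N : ℕ} (v : Fin N → ℂ) (x : ℂ) : ℂ := -∑ j, v j / (1 - x * v j)

theorem one_sub_norm_ge {x v : ℂ} {r : ℝ} (hv : ‖v‖ ≤ 1) (hx : ‖x‖ ≤ r) :
    1 - r ≤ ‖1 - x * v‖ := by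
  have h1 : ‖x * v‖ ≤ r := by
    rw [norm_mul]
    calc ‖x‖ * ‖v‖ ≤ ‖x‖ * 1 := mul_le_mul_of_nonneg_left hv (norm_nonneg _)
      _ ≤ r := by rw [mul_one]; exact hx
  have h2 : ‖(1 : ℂ)‖ - ‖x * v‖ ≤ ‖1 - x * v‖ := norm_sub_norm_le _ _
  rw [norm_one] at h2
  linarith

/-- (L1) expansion of the logarithmic derivative.  Proof: v/(1-xv) = v + x v^2 + x^2 v^3/(1-xv) and
‖1-xv‖ >= 1/2. -/
theorem norm_LL_add_le {N : ℕ} (v : Fin N → ℂ) (hv : ∀ j, ‖v j‖ ≤ 1) (x : ℂ)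
    (hx : ‖x‖ ≤ 1 / 2) :
    ‖LL v x + ((∑ j, v j) + x * ∑ j, v j ^ 2)‖ ≤ 2 * N * ‖x‖ ^ 2 := by
  have h1 : LL v x + ((∑ j, v j) + x * ∑ j, v j ^ 2)
      = ∑ j, (-(x ^ 2 * v j ^ 3 / (1 - x * v j))) := by
    unfold LL
    rw [mul_sum, ← sum_neg_distrib, ← sum_add_distrib, ← sum_add_distrib]
    apply sum_congr rfl
    intro j _
    have h2 := one_sub_norm_ge (hv j) hx
    have h3 : (1 - x * v j) ≠ 0 := by
      intro h
      rw [h, norm_zero] at h2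
      norm_num at h2
    obtain ⟨d, hd⟩ : ∃ d, d = 1 - x * v j := ⟨_, rfl⟩
    rw [← hd] at h3 ⊢
    have h4 : -(v j / d) + (v j + x * v j ^ 2) + x ^ 2 * v j ^ 3 / d
        = (-v j + (v j + x * v j ^ 2) * d + x ^ 2 * v j ^ 3) / d := by
      field_simp
    rw [eq_neg_iff_add_eq_zero, h4, div_eq_zero_iff]
    left
    rw [hd]
    ring
  rw [h1]
  have h4 : ∀ j ∈ (univ : Finset (Fin N)), ‖-(x ^ 2 * v j ^ 3 / (1 - x * v j))‖ ≤ 2 * ‖x‖ ^ 2 := by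
    intro j _
    have h2 := one_sub_norm_ge (hv j) hx
    have h2' : (1 : ℝ) / 2 ≤ ‖1 - x * v j‖ := by linarith
    rw [norm_neg, norm_div, norm_mul, norm_pow, norm_pow]
    rw [div_le_iff₀ (by linarith)]
    have h5 : ‖v j‖ ^ 3 ≤ 1 := pow_le_one₀ (norm_nonneg _) (hv j)
    have h6 : 0 ≤ ‖x‖ ^ 2 := by positivity
    nlinarith
  calc ‖∑ j, (-(x ^ 2 * v j ^ 3 / (1 - x * v j)))‖
      ≤ ∑ j, ‖-(x ^ 2 * v j ^ 3 / (1 - x * v j))‖ := norm_sum_le _ _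
    _ ≤ ∑ _j : Fin N, 2 * ‖x‖ ^ 2 := sum_le_sum h4
    _ = 2 * N * ‖x‖ ^ 2 := by
        rw [sum_const, card_univ, Fintype.card_fin, nsmul_eq_mul]; ring

/-- (L2) trivial upper bound -/
theorem norm_LL_le {N : ℕ} (v : Fin N → ℂ) (hv : ∀ j, ‖v j‖ ≤ 1) (x : ℂ)
    (hx : ‖x‖ ≤ 1 / 2) : ‖LL v x‖ ≤ 2 * N := by
  unfold LL
  rw [norm_neg]
  have h4 : ∀ j ∈ (univ : Finset (Fin N)), ‖v j / (1 - x * v j)‖ ≤ 2 := by
    intro j _
    have h2 := one_sub_norm_ge (hv j) hx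
    have h2' : (1 : ℝ) / 2 ≤ ‖1 - x * v j‖ := by linarith
    rw [norm_div, div_le_iff₀ (by linarith)]
    have := hv j
    linarith
  calc ‖∑ j, v j / (1 - x * v j)‖ ≤ ∑ j, ‖v j / (1 - x * v j)‖ := norm_sum_le _ _
    _ ≤ ∑ _j : Fin N, (2 : ℝ) := sum_le_sum h4
    _ = 2 * N := by
        rw [sum_const, card_univ, Fintype.card_fin, nsmul_eq_mul]; ring

/-- (L3) derivative of the logarithmic derivative: D = -∑ v_j^2/(1-x v_j)^2, ‖1-x v_j‖ >= 3/4. -/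
theorem hasDerivAt_LL {N : ℕ} (v : Fin N → ℂ) (hv : ∀ j, ‖v j‖ ≤ 1) (x : ℂ)
    (hx : ‖x‖ ≤ 1 / 4) :
    ∃ D : ℂ, HasDerivAt (LL v) D x ∧ ‖D‖ ≤ 2 * N := by
  refine ⟨-∑ j, v j ^ 2 / (1 - x * v j) ^ 2, ?_, ?_⟩
  · have h1 : ∀ j ∈ (univ : Finset (Fin N)),
        HasDerivAt (fun y : ℂ => v j / (1 - y * v j)) (v j ^ 2 / (1 - x * v j) ^ 2) x := by
      intro j _
      have h2 := one_sub_norm_ge (hv j) hx
      have h3 : (1 - x * v j) ≠ 0 := by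
        intro h
        rw [h, norm_zero] at h2
        norm_num at h2
      have h4 : HasDerivAt (fun y : ℂ => 1 - y * v j) (-(v j)) x := by
        simpa using ((hasDerivAt_id x).mul_const (v j)).const_sub 1
      have h5 := (hasDerivAt_const x (v j)).div h4 h3
      refine h5.congr_deriv ?_
      congr 1
      ring
    exact (HasDerivAt.fun_sum h1).neg
  · rw [norm_neg]
    have h4 : ∀ j ∈ (univ : Finset (Fin N)), ‖v j ^ 2 / (1 - x * v j) ^ 2‖ ≤ 2 := by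
      intro j _
      have h2 := one_sub_norm_ge (hv j) hx
      have h2' : (3 : ℝ) / 4 ≤ ‖1 - x * v j‖ := by linarith
      rw [norm_div, norm_pow, norm_pow, div_le_iff₀ (by positivity)]
      have h5 : ‖v j‖ ^ 2 ≤ 1 := pow_le_one₀ (norm_nonneg _) (hv j)
      nlinarith
    calc ‖∑ j, v j ^ 2 / (1 - x * v j) ^ 2‖
        ≤ ∑ j, ‖v j ^ 2 / (1 - x * v j) ^ 2‖ := norm_sum_le _ _
      _ ≤ ∑ _j : Fin N, (2 : ℝ) := sum_le_sum h4
      _ = 2 * N := by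
          rw [sum_const, card_univ, Fintype.card_fin, nsmul_eq_mul]; ring

/-- (L4) logarithmic derivative -/
theorem hasDerivAt_prod {N : ℕ} (v : Fin N → ℂ) (hv : ∀ j, ‖v j‖ ≤ 1) (x : ℂ)
    (hx : ‖x‖ < 1) :
    HasDerivAt (fun y : ℂ => ∏ j, (1 - y * v j)) (LL v x * ∏ j, (1 - x * v j)) x := by
  have h1 : ∀ j ∈ (univ : Finset (Fin N)),
      HasDerivAt (fun y : ℂ => 1 - y * v j) (-(v j)) x := by
    intro j _
    simpa using ((hasDerivAt_id x).mul_const (v j)).const_sub 1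
  have h2 := HasDerivAt.fun_finsetProd h1
  refine h2.congr_deriv ?_
  symm
  unfold LL
  rw [neg_mul, sum_mul, ← sum_neg_distrib]
  apply sum_congr rfl
  intro j _
  have h3 : (1 - x * v j) ≠ 0 := by
    have h2 := one_sub_norm_ge (hv j) (le_refl ‖x‖)
    intro h
    rw [h, norm_zero] at h2
    linarith
  rw [smul_eq_mul, ← mul_prod_erase univ (fun i => 1 - x * v i) (mem_univ j)]
  generalize ∏ i ∈ univ.erase j, (1 - x * v i) = P
  generalize 1 - x * v j = d at h3 ⊢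
  field_simp

end Pool.MP_c113aa_an.BV
end

section

set_option autoImplicit false

namespace Pool.MP_c113aa_an.BV

open Finset
/-- (M2) the p-variance is attained.  Proof: s ↦ ((1/(m+1)) s)^(1/p) is increasing, so the infimum
is attained at the minimiser c of exists_minimizer; ((1/(m+1)) S)^(1/p))^p = S/(m+1) for S >= 0. -/
theorem sigma_attained {m : ℕ} (Z : Fin (m + 1) → ℂ) {p : ℝ} (hp : 1 < p) :
    0 ≤ (⨅ c : ℂ, ((1 / ((m + 1 : ℕ) : ℝ)) * ∑ k, ‖Z k - c‖ ^ p) ^ (1 / p)) ∧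
    (∃ c : ℂ, ∑ k, ‖Z k - c‖ ^ p = ((m : ℝ) + 1) *
      (⨅ c : ℂ, ((1 / ((m + 1 : ℕ) : ℝ)) * ∑ k, ‖Z k - c‖ ^ p) ^ (1 / p)) ^ p) ∧
    (∀ c : ℂ, ((m : ℝ) + 1) *
      (⨅ c : ℂ, ((1 / ((m + 1 : ℕ) : ℝ)) * ∑ k, ‖Z k - c‖ ^ p) ^ (1 / p)) ^ p
        ≤ ∑ k, ‖Z k - c‖ ^ p) := by
  have hm : (0 : ℝ) < ((m + 1 : ℕ) : ℝ) := by positivity
  have hS : ∀ c : ℂ, 0 ≤ ∑ k, ‖Z k - c‖ ^ p := fun c =>
    Finset.sum_nonneg fun k _ => Real.rpow_nonneg (norm_nonneg _) _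
  have hT : ∀ c : ℂ, 0 ≤ (1 / ((m + 1 : ℕ) : ℝ)) * ∑ k, ‖Z k - c‖ ^ p := fun c =>
    mul_nonneg (by positivity) (hS c)
  obtain ⟨c0, hc0⟩ := exists_minimizer Z hp
  have hp0 : 0 < p := by linarith
  have hbdd : BddBelow (Set.range
      (fun c : ℂ => ((1 / ((m + 1 : ℕ) : ℝ)) * ∑ k, ‖Z k - c‖ ^ p) ^ (1 / p))) :=
    ⟨0, by rintro _ ⟨c, rfl⟩; exact Real.rpow_nonneg (hT c) _⟩
  have hinf : (⨅ c : ℂ, ((1 / ((m + 1 : ℕ) : ℝ)) * ∑ k, ‖Z k - c‖ ^ p) ^ (1 / p)) =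
      ((1 / ((m + 1 : ℕ) : ℝ)) * ∑ k, ‖Z k - c0‖ ^ p) ^ (1 / p) := by
    apply le_antisymm
    · exact ciInf_le hbdd c0
    · refine le_ciInf fun c => ?_
      exact Real.rpow_le_rpow (hT c0) (mul_le_mul_of_nonneg_left (hc0 c) (by positivity))
        (by positivity)
  have hval : ((m : ℝ) + 1) *
      (((1 / ((m + 1 : ℕ) : ℝ)) * ∑ k, ‖Z k - c0‖ ^ p) ^ (1 / p)) ^ p = ∑ k, ‖Z k - c0‖ ^ p := by
    rw [← Real.rpow_mul (hT c0), one_div_mul_cancel hp0.ne', Real.rpow_one]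
    push_cast
    have : ((m : ℝ) + 1) ≠ 0 := by positivity
    field_simp
  rw [hinf]
  refine ⟨Real.rpow_nonneg (hT c0) _, ⟨c0, hval.symm⟩, fun c => ?_⟩
  rw [hval]
  exact hc0 c

end Pool.MP_c113aa_an.BV
end

section

set_option autoImplicit false

namespace Pool.MP_c113aa_an.BV

open Finset

lemma bc_slit {r : ℝ} (a x : ℂ) (ha : r * ‖a‖ ≤ 1) (hx : ‖x‖ < r) :
    1 - x * a ∈ Complex.slitPlane := by
  have h : ‖x * a‖ < 1 := by
    rw [norm_mul]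
    rcases eq_or_lt_of_le (norm_nonneg a) with h0 | h0
    · rw [← h0, mul_zero]; exact one_pos
    · calc ‖x‖ * ‖a‖ < r * ‖a‖ := mul_lt_mul_of_pos_right hx h0
        _ ≤ 1 := ha
  left
  have h1 := (Complex.abs_re_le_norm (x * a)).trans_lt h
  rw [Complex.sub_re, Complex.one_re]
  have h2 := (abs_lt.1 h1).2
  linarith

lemma bc_re_sum {ι : Type*} (s : Finset ι) (α : ι → ℂ) (x : ℂ)
    (h : ∀ i ∈ s, 1 - x * α i ≠ 0) :
    Real.exp (∑ i ∈ s, Complex.log (1 - x * α i)).re = ‖∏ i ∈ s, (1 - x * α i)‖ := by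
  rw [← Complex.norm_exp, Complex.exp_sum]
  congr 1
  exact Finset.prod_congr rfl fun i hi => Complex.exp_log (h i hi)

/-- Borel-Caratheodory for a quotient of zero free finite products.  (BC)
Proof: l(x) = ∑_s Complex.log(1 - x α_i) - ∑_t Complex.log(1 - x β_i) is differentiable on ‖x‖ < r
(‖x α_i‖ < 1, so 1 - x α_i is in the slit plane), l(0) = 0, Re l(x) = log of the quotient of norms
<= A by hb.  Complex.borelCaratheodory_zero: ‖l(x)‖ <= 2 A ‖x‖/(r-‖x‖), so Re l(x) >= -that;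
exponentiate (norms of all factors are > 0). -/
theorem norm_log_quot_ge {ι κ : Type*} (s : Finset ι) (t : Finset κ) (α : ι → ℂ) (β : κ → ℂ)
    {r A : ℝ} (hr : 0 < r) (hA : 0 < A)
    (hα : ∀ i ∈ s, r * ‖α i‖ ≤ 1) (hβ : ∀ i ∈ t, r * ‖β i‖ ≤ 1)
    (hb : ∀ x : ℂ, ‖x‖ < r →
      ‖∏ i ∈ s, (1 - x * α i)‖ ≤ Real.exp A * ‖∏ i ∈ t, (1 - x * β i)‖)
    (x : ℂ) (hx : ‖x‖ < r) :
    Real.exp (-(2 * A * ‖x‖ / (r - ‖x‖))) * ‖∏ i ∈ t, (1 - x * β i)‖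
      ≤ ‖∏ i ∈ s, (1 - x * α i)‖ := by
  have hsα : ∀ x : ℂ, ‖x‖ < r → ∀ i ∈ s, 1 - x * α i ∈ Complex.slitPlane :=
    fun x hx i hi => bc_slit (α i) x (hα i hi) hx
  have hsβ : ∀ x : ℂ, ‖x‖ < r → ∀ i ∈ t, 1 - x * β i ∈ Complex.slitPlane :=
    fun x hx i hi => bc_slit (β i) x (hβ i hi) hx
  have eα : ∀ x : ℂ, ‖x‖ < r →
      Real.exp (∑ i ∈ s, Complex.log (1 - x * α i)).re = ‖∏ i ∈ s, (1 - x * α i)‖ :=
    fun x hx => bc_re_sum s α x fun i hi => Complex.slitPlane_ne_zero (hsα x hx i hi)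
  have eβ : ∀ x : ℂ, ‖x‖ < r →
      Real.exp (∑ i ∈ t, Complex.log (1 - x * β i)).re = ‖∏ i ∈ t, (1 - x * β i)‖ :=
    fun x hx => bc_re_sum t β x fun i hi => Complex.slitPlane_ne_zero (hsβ x hx i hi)
  set l : ℂ → ℂ := fun x => (∑ i ∈ s, Complex.log (1 - x * α i)) -
    ∑ i ∈ t, Complex.log (1 - x * β i) with hl
  have hd : DifferentiableOn ℂ l (Metric.ball 0 r) := by
    intro y hy
    rw [mem_ball_zero_iff] at hy
    apply DifferentiableAt.differentiableWithinAt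
    apply DifferentiableAt.sub
    · apply DifferentiableAt.fun_sum
      intro i hi
      have h1 : DifferentiableAt ℂ (fun y => 1 - y * α i) y := by fun_prop
      exact h1.clog (hsα y hy i hi)
    · apply DifferentiableAt.fun_sum
      intro i hi
      have h1 : DifferentiableAt ℂ (fun y => 1 - y * β i) y := by fun_prop
      exact h1.clog (hsβ y hy i hi)
  have hmaps : Set.MapsTo l (Metric.ball 0 r) {z | z.re ≤ A} := by
    intro y hy
    rw [mem_ball_zero_iff] at hy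
    have h1 := hb y hy
    rw [← eα y hy, ← eβ y hy, ← Real.exp_add, Real.exp_le_exp] at h1
    simp only [hl, Set.mem_ofPred_eq, Complex.sub_re]
    linarith
  have h0 : l 0 = 0 := by simp [hl]
  have key := Complex.borelCaratheodory_zero hA hd hmaps hr (mem_ball_zero_iff.2 hx) h0
  have h2 : -(2 * A * ‖x‖ / (r - ‖x‖)) ≤ (l x).re := by
    have h3 := (abs_le.1 (Complex.abs_re_le_norm (l x))).1
    linarith
  rw [← eα x hx, ← eβ x hx, ← Real.exp_add, Real.exp_le_exp]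
  simp only [hl, Complex.sub_re] at h2
  linarith

end Pool.MP_c113aa_an.BV
end

section

set_option autoImplicit false

namespace Pool.MP_c113aa_an.BV

open Finset
/-- (L5), auxiliary: choice of the radius for the linear part. -/
theorem l5_radius {V1 V2 : ℂ} {b μ : ℝ} (hb : 0 < b) (hμ : 0 < μ) (hV : μ ≤ ‖V1‖) :
    ∃ r : ℝ, 0 < r ∧ r ≤ 2 * b ∧ ∀ x : ℂ, ‖x‖ = r →
      μ / 16 ≤ ‖V1 + x * V2‖ ∧ ‖V2‖ * (b / 16) ≤ ‖V1 + x * V2‖ / 8 := by
  by_cases hc : 8 * b * ‖V2‖ ≤ ‖V1‖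
  · refine ⟨b, hb, by linarith, fun x hx => ?_⟩
    have h1 : ‖V1‖ - ‖x * V2‖ ≤ ‖V1 + x * V2‖ := by
      have := norm_sub_norm_le V1 (-(x * V2))
      rwa [norm_neg, sub_neg_eq_add] at this
    rw [norm_mul, hx] at h1
    constructor
    · nlinarith [norm_nonneg V1, norm_nonneg V2]
    · nlinarith [norm_nonneg V1, norm_nonneg V2]
  · push Not at hc
    have hV2 : V2 ≠ 0 := by
      rintro rfl
      rw [norm_zero, mul_zero] at hc
      linarith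
    have hV2n : 0 < ‖V2‖ := norm_pos_iff.mpr hV2
    obtain ⟨r, hr0, hr2, hr⟩ : ∃ r : ℝ, 0 < r ∧ r ≤ 2 * b ∧ b / 2 ≤ |r - ‖V1 / V2‖| := by
      by_cases h : ‖V1 / V2‖ ≤ 3 * b / 2
      · refine ⟨2 * b, by linarith, le_rfl, ?_⟩
        rw [abs_of_nonneg (by linarith)]
        linarith
      · push Not at h
        refine ⟨b, hb, by linarith, ?_⟩
        rw [abs_of_nonpos (by linarith)]
        linarith
    refine ⟨r, hr0, hr2, fun x hx => ?_⟩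
    have h1 : V1 + x * V2 = V2 * (x + V1 / V2) := by
      field_simp
      ring
    have h2 : |‖x‖ - ‖V1 / V2‖| ≤ ‖x + V1 / V2‖ := by
      have := abs_norm_sub_norm_le x (-(V1 / V2))
      rwa [norm_neg, sub_neg_eq_add] at this
    rw [hx] at h2
    have h3 : ‖V2‖ * (b / 2) ≤ ‖V1 + x * V2‖ := by
      rw [h1, norm_mul]
      exact mul_le_mul_of_nonneg_left (hr.trans h2) hV2n.le
    constructor
    · nlinarith
    · nlinarith

/-- (L5) choice of the circle.  Proof: V1 = ∑ v_j, V2 = ∑ v_j^2, Lam(x) = V1 + x V2,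
rem = LL + Lam, ‖rem(x)‖ <= 2N‖x‖^2 (L1).  For ‖x‖ <= 4b (<= 1/4): ‖rem‖ <= 32 N b^2 <= μ/256.
Case 1: 8b‖V2‖ <= ‖V1‖: take r = b (or 2b): for ‖x‖ <= 2b, ‖Lam(x)‖ >= (3/4)‖V1‖ and
‖V2‖ b/16 <= ‖V1‖/128 <= ‖Lam(x)‖/8.
Case 2: 8b‖V2‖ > ‖V1‖ (V2 ≠ 0): x0 = -V1/V2, choose r in {b,2b} with |r - ‖x0‖| >= b/2; for ‖x‖ = r,
‖Lam(x)‖ = ‖V2‖‖x-x0‖ >= ‖V2‖ b/2 > ‖V1‖/16 and ‖V2‖ b/16 <= ‖Lam(x)‖/8.
In both cases ‖Lam(x)‖ >= ‖V1‖/16 >= μ/16, ‖rem‖ <= μ/256 <= ‖Lam(x)‖/16, so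
‖LL v x‖ >= (15/16)‖Lam(x)‖ >= (15/256) μ >= μ/18.  For ‖y-x‖ <= b/16 (then ‖y‖ <= 4b):
‖LL y - LL x‖ <= ‖V2‖‖y-x‖ + ‖rem y‖ + ‖rem x‖ <= ‖Lam(x)‖/4 <= ‖LL v x‖/2. -/
theorem exists_circle {N : ℕ} (v : Fin N → ℂ) (hv : ∀ j, ‖v j‖ ≤ 1) {b μ : ℝ} (hb : 0 < b)
    (hb8 : b ≤ 1 / 16) (hμ : 0 < μ) (hV : μ ≤ ‖∑ j, v j‖) (hsmall : 8192 * N * b ^ 2 ≤ μ) :
    ∃ r : ℝ, 0 < r ∧ r ≤ 2 * b ∧ ∀ x : ℂ, ‖x‖ = r →
      μ / 18 ≤ ‖LL v x‖ ∧ ∀ y : ℂ, ‖y - x‖ ≤ b / 16 → ‖LL v y - LL v x‖ ≤ ‖LL v x‖ / 2 := by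
  obtain ⟨r, hr0, hr2, hr⟩ := l5_radius (V1 := ∑ j, v j) (V2 := ∑ j, v j ^ 2) hb hμ hV
  have hrem : ∀ x : ℂ, ‖x‖ ≤ 4 * b →
      ‖LL v x + ((∑ j, v j) + x * ∑ j, v j ^ 2)‖ ≤ μ / 256 := by
    intro x hx
    refine (norm_LL_add_le v hv x (by linarith)).trans ?_
    have h1 : ‖x‖ ^ 2 ≤ (4 * b) ^ 2 := pow_le_pow_left₀ (norm_nonneg _) hx 2
    have h2 : 2 * (N : ℝ) * ‖x‖ ^ 2 ≤ 2 * N * (4 * b) ^ 2 :=
      mul_le_mul_of_nonneg_left h1 (by positivity)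
    nlinarith
  refine ⟨r, hr0, hr2, fun x hx => ?_⟩
  obtain ⟨h1, h2⟩ := hr x hx
  have h3 := hrem x (by linarith)
  generalize hLam : (∑ j, v j) + x * ∑ j, v j ^ 2 = Lam at h1 h2 h3
  have h4 : ‖Lam‖ - ‖LL v x + Lam‖ ≤ ‖LL v x‖ := by
    have := norm_sub_norm_le Lam (LL v x + Lam)
    rwa [show Lam - (LL v x + Lam) = -LL v x by ring, norm_neg] at this
  refine ⟨by linarith, fun y hy => ?_⟩
  have h5 : ‖y‖ ≤ 4 * b := by
    have : ‖y‖ ≤ ‖y - x‖ + ‖x‖ := by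
      calc ‖y‖ = ‖(y - x) + x‖ := by rw [sub_add_cancel]
        _ ≤ _ := norm_add_le _ _
    linarith
  have h6 := hrem y h5
  have h7 : LL v y - LL v x = (LL v y + ((∑ j, v j) + y * ∑ j, v j ^ 2)) - (LL v x + Lam)
      - (y - x) * ∑ j, v j ^ 2 := by
    rw [← hLam]; ring
  have h8 : ‖(y - x) * ∑ j, v j ^ 2‖ ≤ ‖∑ j, v j ^ 2‖ * (b / 16) := by
    rw [norm_mul, mul_comm]
    exact mul_le_mul_of_nonneg_left hy (norm_nonneg _)
  have h9 : ‖LL v y - LL v x‖ ≤ ‖LL v y + ((∑ j, v j) + y * ∑ j, v j ^ 2)‖ + ‖LL v x + Lam‖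
      + ‖(y - x) * ∑ j, v j ^ 2‖ := by
    rw [h7]
    refine (norm_sub_le _ _).trans ?_
    gcongr
    exact norm_sub_le _ _
  linarith

end Pool.MP_c113aa_an.BV
end

section

set_option autoImplicit false

namespace Pool.MP_c113aa_an.BV

open Finset

theorem path_dir_mul {L : ℂ} (hL : L ≠ 0) : (starRingEnd ℂ L / ‖L‖) * L = (‖L‖ : ℂ) := by
  have hLn : (‖L‖ : ℂ) ≠ 0 := by exact_mod_cast (norm_pos_iff.mpr hL).ne'
  rw [div_mul_eq_mul_div, div_eq_iff hLn, ← Complex.normSq_eq_conj_mul_self,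
    Complex.normSq_eq_norm_sq]
  push_cast; ring

theorem norm_path_dir {L : ℂ} (hL : L ≠ 0) : ‖(starRingEnd ℂ L / ‖L‖ : ℂ)‖ = 1 := by
  rw [norm_div, Complex.norm_real, norm_norm, RCLike.norm_conj,
    div_self (norm_pos_iff.mpr hL).ne']

theorem hasDerivAt_path (x e : ℂ) (s : ℝ) :
    HasDerivAt (fun s : ℝ => x - (s : ℂ) * e) (-e) s := by
  have h1 : HasDerivAt (fun s : ℝ => (s : ℂ)) 1 s := by
    simpa using (hasDerivAt_id s).ofReal_comp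
  simpa using (h1.mul_const e).const_sub x

/-- (O1) decay of P = ∏ (1 - x v_j) along the descending direction.
Proof: e = conj(L)/‖L‖ with L = LL v x, so e L = ‖L‖, ‖e‖ = 1; path y(s) = x - s e.
φ(s) = exp(‖L‖ s/2)... e.g. ψ(s) = log‖P(y(s))‖ = Re ∑ Complex.log(1 - y(s) v_j) has derivative
Re(-e LL(y(s))) = -Re(e L) - Re(e (LL(y(s)) - L)) <= -‖L‖ + ‖L‖/2 = -‖L‖/2 on [0,l] (all points in the
ball of radius 1/4).  So ψ(s) <= ψ(0) - ‖L‖ s/2 (antitone / mean value inequality); exponentiate. -/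
theorem norm_prod_path_le {N : ℕ} (v : Fin N → ℂ) (hv : ∀ j, ‖v j‖ ≤ 1) (x : ℂ) {l : ℝ}
    (hl : 0 ≤ l) (hx : ‖x‖ + l ≤ 1 / 4) (hL : LL v x ≠ 0)
    (hvar : ∀ y : ℂ, ‖y - x‖ ≤ l → ‖LL v y - LL v x‖ ≤ ‖LL v x‖ / 2) (s : ℝ) (hs0 : 0 ≤ s)
    (hsl : s ≤ l) :
    ‖∏ j, (1 - (x - (s : ℂ) * (starRingEnd ℂ (LL v x) / ‖LL v x‖)) * v j)‖
      ≤ Real.exp (-(‖LL v x‖ * s / 2)) * ‖∏ j, (1 - x * v j)‖ := by
  set L : ℂ := LL v x with hLdef
  set e : ℂ := starRingEnd ℂ L / ‖L‖ with he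
  have hLn : 0 < ‖L‖ := norm_pos_iff.mpr hL
  have heL : e * L = (‖L‖ : ℂ) := path_dir_mul hL
  have hen : ‖e‖ = 1 := norm_path_dir hL
  have hyx : ∀ s : ℝ, 0 ≤ s → s ≤ l → ‖(x - (s : ℂ) * e) - x‖ ≤ l := by
    intro s h0 h1
    have : (x - (s : ℂ) * e) - x = -((s : ℂ) * e) := by ring
    rw [this, norm_neg, norm_mul, hen, mul_one, Complex.norm_real, Real.norm_of_nonneg h0]
    exact h1
  have hy4 : ∀ s : ℝ, 0 ≤ s → s ≤ l → ‖x - (s : ℂ) * e‖ ≤ 1 / 4 := by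
    intro s h0 h1
    have h2 := norm_sub_le x ((s : ℂ) * e)
    rw [norm_mul, hen, mul_one, Complex.norm_real, Real.norm_of_nonneg h0] at h2
    linarith
  let h : ℝ → ℂ := fun s => (∏ j, (1 - (x - (s : ℂ) * e) * v j)) * Complex.exp ((‖L‖ * s / 2 : ℝ))
  have hh : ∀ s : ℝ, 0 ≤ s → s ≤ l →
      HasDerivAt h (h s * (-(e * LL v (x - (s : ℂ) * e)) + (‖L‖ : ℂ) / 2)) s := by
    intro s h0 h1
    have d1 : HasDerivAt (fun s : ℝ => ∏ j, (1 - (x - (s : ℂ) * e) * v j))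
        ((LL v (x - (s : ℂ) * e) * ∏ j, (1 - (x - (s : ℂ) * e) * v j)) * (-e)) s :=
      HasDerivAt.comp (h₂ := fun y : ℂ => ∏ j, (1 - y * v j)) s
        (hasDerivAt_prod v hv (x - (s : ℂ) * e) (by have := hy4 s h0 h1; linarith))
        (hasDerivAt_path x e s)
    have d2 : HasDerivAt (fun s : ℝ => ((‖L‖ * s / 2 : ℝ) : ℂ)) ((‖L‖ : ℂ) / 2) s := by
      have := (((hasDerivAt_id s).const_mul ‖L‖).div_const 2).ofReal_comp
      simpa using this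
    have d3 := d1.mul d2.cexp
    refine d3.congr_deriv ?_
    simp only [h]
    ring
  have hanti : AntitoneOn (fun s => ‖h s‖ ^ 2) (Set.Icc 0 l) := by
    have hdiff : ∀ s ∈ Set.Icc (0 : ℝ) l, HasDerivAt (fun s => ‖h s‖ ^ 2)
        (2 * inner ℝ (h s) (h s * (-(e * LL v (x - (s : ℂ) * e)) + (‖L‖ : ℂ) / 2))) s := by
      intro s hs
      exact (hh s hs.1 hs.2).norm_sq
    apply antitoneOn_of_deriv_nonpos (convex_Icc 0 l)
    · intro s hs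
      exact (hdiff s hs).continuousAt.continuousWithinAt
    · intro s hs
      rw [interior_Icc] at hs
      exact (hdiff s ⟨hs.1.le, hs.2.le⟩).differentiableAt.differentiableWithinAt
    · intro s hs
      rw [interior_Icc] at hs
      rw [(hdiff s ⟨hs.1.le, hs.2.le⟩).deriv]
      set q : ℂ := -(e * LL v (x - (s : ℂ) * e)) + (‖L‖ : ℂ) / 2 with hq
      have hinner : inner ℝ (h s) (h s * q) = ‖h s‖ ^ 2 * q.re := by
        rw [Complex.inner]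
        have : (h s * q) * (starRingEnd ℂ) (h s) = ((‖h s‖ ^ 2 : ℝ) : ℂ) * q := by
          rw [mul_right_comm, Complex.mul_conj, Complex.normSq_eq_norm_sq]
        rw [this, Complex.re_ofReal_mul]
      rw [hinner]
      have hqre : q.re ≤ 0 := by
        have e1 : q = -(e * (LL v (x - (s : ℂ) * e) - L)) - (‖L‖ : ℂ) / 2 := by
          have : e * LL v (x - (s : ℂ) * e) = e * (LL v (x - (s : ℂ) * e) - L) + e * L := by ring
          rw [hq, this, heL]; ring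
        have e2 : (-(e * (LL v (x - (s : ℂ) * e) - L))).re ≤ ‖L‖ / 2 := by
          refine (Complex.re_le_norm _).trans ?_
          rw [norm_neg, norm_mul, hen, one_mul]
          exact hvar _ (hyx s hs.1.le hs.2.le)
        have e3 : ((‖L‖ : ℂ) / 2).re = ‖L‖ / 2 := by
          have : ((‖L‖ : ℂ) / 2) = ((‖L‖ / 2 : ℝ) : ℂ) := by push_cast; ring
          rw [this, Complex.ofReal_re]
        rw [e1, Complex.sub_re, e3]
        linarith
      have : 0 ≤ ‖h s‖ ^ 2 := by positivity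
      nlinarith
  have hfin := hanti (Set.left_mem_Icc.2 hl) (Set.mem_Icc.2 ⟨hs0, hsl⟩) hs0
  have h0 : h 0 = ∏ j, (1 - x * v j) := by simp [h]
  have hs : ‖h s‖ = ‖∏ j, (1 - (x - (s : ℂ) * e) * v j)‖ * Real.exp (‖L‖ * s / 2) := by
    simp only [h]
    rw [norm_mul, Complex.norm_exp, Complex.ofReal_re]
  have h1 : ‖h s‖ ≤ ‖h 0‖ :=
    (pow_le_pow_iff_left₀ (norm_nonneg _) (norm_nonneg _) two_ne_zero).1 hfin
  rw [h0, hs] at h1
  rw [Real.exp_neg, inv_mul_eq_div, le_div_iff₀ (Real.exp_pos _)]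
  exact h1

end Pool.MP_c113aa_an.BV
end

section

set_option autoImplicit false

namespace Pool.MP_c113aa_an.BV

open Finset Polynomial
/-- (M1) the Hausdorff distance is attained and the terms are minima.  Proof: for a zero z the inner
set {‖z - w_j‖} is a finite nonempty set (N >= 1), so its sInf is attained: = min_j ‖z-w_j‖; the outer
set is finite and nonempty, so its sSup is attained (Set.Finite.csSup_mem / IsGreatest) and bounds
all elements. -/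
theorem hausdorff_eq (F : ℂ[X]) {N : ℕ} (hN : 1 ≤ N) (Z : Fin (N + 1) → ℂ) (w : Fin N → ℂ)
    (hF : F.roots = Multiset.map Z Finset.univ.val)
    (hF' : (derivative F).roots = Multiset.map w Finset.univ.val) :
    (∃ k, ∀ j, sSup {d : ℝ | ∃ z ∈ F.roots,
          d = sInf {r : ℝ | ∃ w ∈ (derivative F).roots, r = ‖z - w‖}} ≤ ‖Z k - w j‖) ∧
    (∀ k, ∃ j, ‖Z k - w j‖ ≤ sSup {d : ℝ | ∃ z ∈ F.roots,
          d = sInf {r : ℝ | ∃ w ∈ (derivative F).roots, r = ‖z - w‖}}) := by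
  -- inner set
  have hin : ∀ z : ℂ, {r : ℝ | ∃ w ∈ (derivative F).roots, r = ‖z - w‖}
      = Set.range (fun j : Fin N => ‖z - w j‖) := by
    intro z
    ext r
    simp only [Set.mem_setOf_eq, Set.mem_range, hF', Multiset.mem_map, Finset.mem_val,
      Finset.mem_univ, true_and]
    constructor
    · rintro ⟨v, ⟨j, rfl⟩, rfl⟩
      exact ⟨j, rfl⟩
    · rintro ⟨j, rfl⟩
      exact ⟨w j, ⟨j, rfl⟩, rfl⟩
  have hout : {d : ℝ | ∃ z ∈ F.roots,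
          d = sInf {r : ℝ | ∃ w ∈ (derivative F).roots, r = ‖z - w‖}}
      = Set.range (fun k : Fin (N + 1) => sInf (Set.range (fun j : Fin N => ‖Z k - w j‖))) := by
    ext d
    simp only [Set.mem_setOf_eq, hin, Set.mem_range, hF, Multiset.mem_map, Finset.mem_val,
      Finset.mem_univ, true_and]
    constructor
    · rintro ⟨v, ⟨k, rfl⟩, rfl⟩
      exact ⟨k, rfl⟩
    · rintro ⟨k, rfl⟩
      exact ⟨Z k, ⟨k, rfl⟩, rfl⟩
  rw [hout]
  haveI : Nonempty (Fin N) := ⟨⟨0, by omega⟩⟩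
  have hfin : (Set.range (fun k : Fin (N + 1) =>
      sInf (Set.range (fun j : Fin N => ‖Z k - w j‖)))).Finite := Set.finite_range _
  constructor
  · obtain ⟨k, hk⟩ := (Set.range_nonempty (fun k : Fin (N + 1) =>
      sInf (Set.range (fun j : Fin N => ‖Z k - w j‖)))).csSup_mem hfin
    refine ⟨k, fun j => ?_⟩
    rw [← hk]
    exact csInf_le (Set.finite_range _).bddBelow ⟨j, rfl⟩
  · intro k
    obtain ⟨j, hj⟩ := (Set.range_nonempty (fun j : Fin N => ‖Z k - w j‖)).csInf_mem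
      (Set.finite_range _)
    refine ⟨j, ?_⟩
    have : ‖Z k - w j‖ = sInf (Set.range (fun j : Fin N => ‖Z k - w j‖)) := hj
    rw [this]
    exact le_csSup hfin.bddAbove ⟨k, rfl⟩

end Pool.MP_c113aa_an.BV
end

section

set_option autoImplicit false

namespace Pool.MP_c113aa_an.BV

open Finset
/-- (O2) the local estimate: y L is close to 1.
Proof: L = LL v x, P = ∏(1 - · v_j), H = f - P/LL.  On the ball of radius l about x, LL ≠ 0
(‖LL y‖ >= ‖L‖/2) and H' = P - (LL P)/LL + P D/LL^2 = P D/LL^2 (D = derivative of LL, ‖D‖ <= 2N, L3, L4),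
so along the path y(s) = x - s e of (O1): ‖d/ds H(y(s))‖ <= ‖P(x)‖ exp(-‖L‖s/2) 8N/‖L‖^2.
image_norm_le_of_norm_deriv_right_le_deriv_boundary on [0,l] (for s ↦ H(y(s)) - H(y(0))), with
boundary function (16N‖P(x)‖/‖L‖^3)(1 - exp(-‖L‖s/2)): ‖H(x)‖ <= ‖H(y(l))‖ + 16N‖P(x)‖/‖L‖^3, and
‖H(y(l))‖ <= ‖P(y(l))‖ (Y + 2/‖L‖) <= exp(-‖L‖l/2)‖P(x)‖(Y+2/‖L‖).  Finally
1 - L f(x)/P(x) = -L H(x)/P(x). -/
theorem norm_ode_le {N : ℕ} (v : Fin N → ℂ) (hv : ∀ j, ‖v j‖ ≤ 1) (f : ℂ → ℂ)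
    (hf : ∀ x : ℂ, HasDerivAt f (∏ j, (1 - x * v j)) x) (x : ℂ) {l Y : ℝ}
    (hl : 0 ≤ l) (hx : ‖x‖ + l ≤ 1 / 4) (hL : LL v x ≠ 0)
    (hvar : ∀ y : ℂ, ‖y - x‖ ≤ l → ‖LL v y - LL v x‖ ≤ ‖LL v x‖ / 2)
    (hY : ∀ y : ℂ, ‖y - x‖ ≤ l → ‖f y‖ ≤ Y * ‖∏ j, (1 - y * v j)‖) :
    ‖1 - LL v x * f x / ∏ j, (1 - x * v j)‖
      ≤ (‖LL v x‖ * Y + 2) * Real.exp (-(‖LL v x‖ * l / 2)) + 16 * N / ‖LL v x‖ ^ 2 := by
  have hO1 := norm_prod_path_le v hv x hl hx hL hvar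
  set L : ℂ := LL v x with hLdef
  set e : ℂ := starRingEnd ℂ L / ‖L‖ with he
  have hLn : 0 < ‖L‖ := norm_pos_iff.mpr hL
  have hen : ‖e‖ = 1 := norm_path_dir hL
  let P : ℂ → ℂ := fun y => ∏ j, (1 - y * v j)
  have hPdef : ∀ y, P y = ∏ j, (1 - y * v j) := fun y => rfl
  have hyx : ∀ s : ℝ, 0 ≤ s → s ≤ l → ‖(x - (s : ℂ) * e) - x‖ ≤ l := by
    intro s h0 h1
    have : (x - (s : ℂ) * e) - x = -((s : ℂ) * e) := by ring
    rw [this, norm_neg, norm_mul, hen, mul_one, Complex.norm_real, Real.norm_of_nonneg h0]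
    exact h1
  have hy4 : ∀ s : ℝ, 0 ≤ s → s ≤ l → ‖x - (s : ℂ) * e‖ ≤ 1 / 4 := by
    intro s h0 h1
    have h2 := norm_sub_le x ((s : ℂ) * e)
    rw [norm_mul, hen, mul_one, Complex.norm_real, Real.norm_of_nonneg h0] at h2
    linarith
  have hLy : ∀ y : ℂ, ‖y - x‖ ≤ l → ‖L‖ / 2 ≤ ‖LL v y‖ := by
    intro y hy
    have h1 := hvar y hy
    have h2 : ‖L‖ ≤ ‖LL v y‖ + ‖LL v y - L‖ := by
      calc ‖L‖ = ‖LL v y - (LL v y - L)‖ := by congr 1; ring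
        _ ≤ _ := norm_sub_le _ _
    linarith
  have hP0 : P x ≠ 0 := by
    rw [hPdef, Finset.prod_ne_zero_iff]
    intro j _ h0
    have h1 : x * v j = 1 := by linear_combination -h0
    have h2 : ‖x * v j‖ = 1 := by rw [h1, norm_one]
    rw [norm_mul] at h2
    have h3 : ‖x‖ ≤ 1 / 4 := by linarith
    have h4 := hv j
    nlinarith [norm_nonneg x, norm_nonneg (v j)]
  have hPn : 0 < ‖P x‖ := norm_pos_iff.mpr hP0
  have hY0 : 0 ≤ Y := by
    have h1 := hY x (by simpa using hl)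
    have h2 : 0 ≤ Y * ‖P x‖ := (norm_nonneg _).trans h1
    exact nonneg_of_mul_nonneg_left h2 hPn
  let H : ℂ → ℂ := fun y => f y - P y / LL v y
  have hHder : ∀ s : ℝ, 0 ≤ s → s ≤ l → ∃ D : ℂ, ‖D‖ ≤ 2 * N ∧
      HasDerivAt (fun s : ℝ => H (x - (s : ℂ) * e))
        (P (x - (s : ℂ) * e) * D / (LL v (x - (s : ℂ) * e)) ^ 2 * (-e)) s := by
    intro s h0 h1
    obtain ⟨D, hD, hDn⟩ := hasDerivAt_LL v hv (x - (s : ℂ) * e) (hy4 s h0 h1)
    have hLne : LL v (x - (s : ℂ) * e) ≠ 0 := by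
      have h2 := hLy _ (hyx s h0 h1)
      have h3 : 0 < ‖LL v (x - (s : ℂ) * e)‖ := by linarith
      exact norm_pos_iff.mp h3
    have hPd := hasDerivAt_prod v hv (x - (s : ℂ) * e) (by have := hy4 s h0 h1; linarith)
    have hH : HasDerivAt H (P (x - (s : ℂ) * e) * D / (LL v (x - (s : ℂ) * e)) ^ 2)
        (x - (s : ℂ) * e) := by
      have h4 := (hf (x - (s : ℂ) * e)).sub (hPd.div hD hLne)
      refine h4.congr_deriv ?_
      simp only [P]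
      field_simp
      ring
    exact ⟨D, hDn, HasDerivAt.comp (h₂ := H) s hH (hasDerivAt_path x e s)⟩
  choose! D hDn hD using hHder
  have hder : ∀ s : ℝ, 0 ≤ s → s ≤ l →
      ‖P (x - (s : ℂ) * e) * D s / (LL v (x - (s : ℂ) * e)) ^ 2 * (-e)‖ ≤
        8 * N / ‖L‖ ^ 2 * ‖P x‖ * Real.exp (-(‖L‖ * s / 2)) := by
    intro s h0 h1
    rw [norm_mul, norm_neg, hen, mul_one, norm_div, norm_mul, norm_pow]
    have h2 := hLy _ (hyx s h0 h1)
    have h3 := hO1 s h0 h1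
    have h4 := hDn s h0 h1
    have h5 : 0 < ‖LL v (x - (s : ℂ) * e)‖ := by linarith
    rw [div_le_iff₀ (by positivity)]
    calc ‖P (x - (s : ℂ) * e)‖ * ‖D s‖
        ≤ (Real.exp (-(‖L‖ * s / 2)) * ‖P x‖) * (2 * N) := by gcongr
      _ = 8 * N / ‖L‖ ^ 2 * ‖P x‖ * Real.exp (-(‖L‖ * s / 2)) * (‖L‖ / 2) ^ 2 := by
          field_simp; ring
      _ ≤ 8 * N / ‖L‖ ^ 2 * ‖P x‖ * Real.exp (-(‖L‖ * s / 2)) *
            ‖LL v (x - (s : ℂ) * e)‖ ^ 2 := by gcongr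
  have hB : ∀ s : ℝ, HasDerivAt (fun s : ℝ => 16 * N / ‖L‖ ^ 3 * ‖P x‖ *
      (1 - Real.exp (-(‖L‖ * s / 2)))) (8 * N / ‖L‖ ^ 2 * ‖P x‖ * Real.exp (-(‖L‖ * s / 2))) s := by
    intro s
    have h1 : HasDerivAt (fun s : ℝ => -(‖L‖ * s / 2)) (-(‖L‖ / 2)) s := by
      have := (hasDerivAt_id s).const_mul (-(‖L‖ / 2))
      refine (this.congr_deriv (by ring)).congr_of_eventuallyEq ?_
      filter_upwards with t
      simp only [id]
      ring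
    have h2 := ((h1.exp).const_sub 1).const_mul (16 * N / ‖L‖ ^ 3 * ‖P x‖)
    refine h2.congr_deriv ?_
    field_simp
    ring
  have himg := image_norm_le_of_norm_deriv_right_le_deriv_boundary
    (f := fun s : ℝ => H (x - (s : ℂ) * e) - H x)
    (f' := fun s : ℝ => P (x - (s : ℂ) * e) * D s / (LL v (x - (s : ℂ) * e)) ^ 2 * (-e))
    (a := 0) (b := l)
    (B := fun s : ℝ => 16 * N / ‖L‖ ^ 3 * ‖P x‖ * (1 - Real.exp (-(‖L‖ * s / 2))))
    (B' := fun s : ℝ => 8 * N / ‖L‖ ^ 2 * ‖P x‖ * Real.exp (-(‖L‖ * s / 2)))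
    (fun s hs => ((hD s hs.1 hs.2).sub_const _).continuousAt.continuousWithinAt)
    (fun s hs => ((hD s hs.1 hs.2.le).sub_const _).hasDerivWithinAt)
    (by simp) hB (fun s hs => hder s hs.1 hs.2.le) (Set.right_mem_Icc.2 hl)
  have h16 : ‖H (x - (l : ℂ) * e) - H x‖ ≤ 16 * N / ‖L‖ ^ 3 * ‖P x‖ := by
    refine himg.trans ?_
    have h1 : 0 ≤ 16 * N / ‖L‖ ^ 3 * ‖P x‖ := by positivity
    have h2 : 1 - Real.exp (-(‖L‖ * l / 2)) ≤ 1 := by
      have := Real.exp_pos (-(‖L‖ * l / 2)); linarith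
    calc _ ≤ 16 * N / ‖L‖ ^ 3 * ‖P x‖ * 1 := mul_le_mul_of_nonneg_left h2 h1
      _ = _ := mul_one _
  have hHl : ‖H (x - (l : ℂ) * e)‖ ≤
      (Y + 2 / ‖L‖) * (Real.exp (-(‖L‖ * l / 2)) * ‖P x‖) := by
    have h1 := hY _ (hyx l hl le_rfl)
    have h2 := hLy _ (hyx l hl le_rfl)
    have h3 := hO1 l hl le_rfl
    have h5 : 0 < ‖LL v (x - (l : ℂ) * e)‖ := by linarith
    have h6 : ‖P (x - (l : ℂ) * e) / LL v (x - (l : ℂ) * e)‖ ≤
        2 / ‖L‖ * ‖P (x - (l : ℂ) * e)‖ := by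
      rw [norm_div, div_le_iff₀ h5]
      calc ‖P (x - (l : ℂ) * e)‖ = 2 / ‖L‖ * ‖P (x - (l : ℂ) * e)‖ * (‖L‖ / 2) := by field_simp
        _ ≤ _ := by gcongr
    calc ‖H (x - (l : ℂ) * e)‖
        ≤ ‖f (x - (l : ℂ) * e)‖ + ‖P (x - (l : ℂ) * e) / LL v (x - (l : ℂ) * e)‖ := norm_sub_le _ _
      _ ≤ Y * ‖P (x - (l : ℂ) * e)‖ + 2 / ‖L‖ * ‖P (x - (l : ℂ) * e)‖ := add_le_add h1 h6
      _ = (Y + 2 / ‖L‖) * ‖P (x - (l : ℂ) * e)‖ := by ring
      _ ≤ _ := by gcongr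
  have hHx : ‖H x‖ ≤ (Y + 2 / ‖L‖) * (Real.exp (-(‖L‖ * l / 2)) * ‖P x‖) +
      16 * N / ‖L‖ ^ 3 * ‖P x‖ := by
    calc ‖H x‖ = ‖H (x - (l : ℂ) * e) - (H (x - (l : ℂ) * e) - H x)‖ := by congr 1; ring
      _ ≤ _ := norm_sub_le _ _
      _ ≤ _ := add_le_add hHl h16
  have hfin : 1 - L * f x / ∏ j, (1 - x * v j) = -(L * H x / P x) := by
    have : H x = f x - P x / L := rfl
    rw [this, ← hPdef]
    field_simp
    ring
  rw [hfin, norm_neg, norm_div, norm_mul, div_le_iff₀ hPn]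
  calc ‖L‖ * ‖H x‖ ≤ ‖L‖ * ((Y + 2 / ‖L‖) * (Real.exp (-(‖L‖ * l / 2)) * ‖P x‖) +
      16 * N / ‖L‖ ^ 3 * ‖P x‖) := by gcongr
    _ = _ := by field_simp

end Pool.MP_c113aa_an.BV
end

section

set_option autoImplicit false

namespace Pool.MP_c113aa_an.BV

open Finset Polynomial
/-- (M3) the special polynomials: all zeros at distance r from c and sigma_p = r.
Proof: evaluating at Z k: (Z k - c)^(N+1) = b, so ‖Z k - c‖ = r := ‖b‖^(1/(N+1)).  The coefficient of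
X^N gives ∑ Z k = (N+1) c (N >= 1).  For c': power mean (or convexity) with S = ∑ ‖Z k - c'‖:
∑ ‖Z k - c'‖^p >= (N+1) (S/(N+1))^p, and if r > 0:
S >= ∑ Re ((Z k - c') conj(Z k - c))/r = ∑ (r^2 + Re((c-c') conj(Z k - c)))/r = (N+1) r because
∑ (Z k - c) = 0.  If r = 0 trivial (0^p = 0). -/
theorem special_eq {N : ℕ} (hN : 1 ≤ N) {Z : Fin (N + 1) → ℂ} {c b : ℂ}
    (h : (∏ k, (X - C (Z k)) : ℂ[X]) = (X - C c) ^ (N + 1) - C b) {p : ℝ} (hp : 1 < p) :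
    ∃ r : ℝ, 0 ≤ r ∧ (∀ k, ‖Z k - c‖ = r) ∧
      ∀ c' : ℂ, ((N : ℝ) + 1) * r ^ p ≤ ∑ k, ‖Z k - c'‖ ^ p := by
  have h1 : ∀ k, (Z k - c) ^ (N + 1) = b := by
    intro k
    have h2 := congrArg (Polynomial.eval (Z k)) h
    rw [Polynomial.eval_prod, Finset.prod_eq_zero (Finset.mem_univ k) (by simp)] at h2
    simp only [eval_sub, eval_pow, eval_X, eval_C] at h2
    exact (sub_eq_zero.1 h2.symm)
  have hr : ∀ k, ‖Z k - c‖ = ‖Z 0 - c‖ := by
    intro k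
    have h2 : ‖Z k - c‖ ^ (N + 1) = ‖Z 0 - c‖ ^ (N + 1) := by
      rw [← norm_pow, ← norm_pow, h1, h1]
    exact (pow_left_inj₀ (norm_nonneg _) (norm_nonneg _) (Nat.succ_ne_zero N)).1 h2
  have hsum : ∑ k, (Z k - c) = 0 := by
    have h3 := congrArg (fun q : ℂ[X] => q.coeff N) h
    simp only [coeff_sub] at h3
    have h4 := Polynomial.prod_X_sub_C_coeff_card_pred (Finset.univ : Finset (Fin (N + 1))) Z
      (by simp)
    have h5 := Polynomial.prod_X_sub_C_coeff_card_pred (Finset.univ : Finset (Fin (N + 1)))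
      (fun _ => c) (by simp)
    simp only [Finset.card_univ, Fintype.card_fin, Nat.add_sub_cancel, Finset.prod_const,
      Finset.sum_const] at h4 h5
    rw [h4, h5, coeff_C_of_ne_zero (by omega : N ≠ 0), sub_zero] at h3
    rw [Finset.sum_sub_distrib, Finset.sum_const, Finset.card_univ, Fintype.card_fin, sub_eq_zero]
    exact neg_injective h3
  set r := ‖Z 0 - c‖ with hrdef
  refine ⟨r, norm_nonneg _, hr, fun c' => ?_⟩
  have hr0 : 0 ≤ r := norm_nonneg _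
  rcases hr0.eq_or_lt with h0 | hpos
  · rw [← h0, Real.zero_rpow (by linarith), mul_zero]
    exact Finset.sum_nonneg fun k _ => Real.rpow_nonneg (norm_nonneg _) _
  · have h6 : ∀ k, r ^ 2 + ((c - c') * (starRingEnd ℂ) (Z k - c)).re ≤ r * ‖Z k - c'‖ := by
      intro k
      have h7 : ((Z k - c') * (starRingEnd ℂ) (Z k - c)).re ≤ ‖Z k - c'‖ * r := by
        refine (Complex.re_le_norm _).trans ?_
        rw [norm_mul, RCLike.norm_conj, hr k]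
      have h8 : (Z k - c') * (starRingEnd ℂ) (Z k - c) =
          (Z k - c) * (starRingEnd ℂ) (Z k - c) + (c - c') * (starRingEnd ℂ) (Z k - c) := by ring
      rw [h8, Complex.add_re, Complex.mul_conj, Complex.normSq_eq_norm_sq, hr k,
        Complex.ofReal_re] at h7
      linarith
    have h9 : ((N : ℝ) + 1) * r ^ 2 ≤ r * ∑ k, ‖Z k - c'‖ := by
      have h10 := Finset.sum_le_sum (s := Finset.univ) (fun k _ => h6 k)
      rw [Finset.sum_add_distrib, Finset.sum_const, Finset.card_univ, Fintype.card_fin,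
        ← Finset.mul_sum, ← Complex.re_sum, ← Finset.mul_sum, ← map_sum, hsum, map_zero, mul_zero,
        Complex.zero_re, add_zero, nsmul_eq_mul] at h10
      push_cast at h10
      exact h10
    have h11 : ((N : ℝ) + 1) * r ≤ ∑ k, ‖Z k - c'‖ := by
      have h12 : r * (((N : ℝ) + 1) * r) ≤ r * ∑ k, ‖Z k - c'‖ := by
        calc r * (((N : ℝ) + 1) * r) = ((N : ℝ) + 1) * r ^ 2 := by ring
          _ ≤ _ := h9
      exact le_of_mul_le_mul_left h12 hpos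
    have h13 : ∀ k, r ^ p * (1 + p * (‖Z k - c'‖ / r - 1)) ≤ ‖Z k - c'‖ ^ p := by
      intro k
      have h14 := one_add_mul_self_le_rpow_one_add (s := ‖Z k - c'‖ / r - 1)
        (by have : 0 ≤ ‖Z k - c'‖ / r := by positivity
            linarith) hp.le
      have h15 : 1 + (‖Z k - c'‖ / r - 1) = ‖Z k - c'‖ / r := by ring
      rw [h15] at h14
      calc r ^ p * (1 + p * (‖Z k - c'‖ / r - 1)) ≤ r ^ p * (‖Z k - c'‖ / r) ^ p :=
            mul_le_mul_of_nonneg_left h14 (Real.rpow_nonneg hpos.le _)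
        _ = ‖Z k - c'‖ ^ p := by
            rw [← Real.mul_rpow hpos.le (by positivity), mul_div_cancel₀ _ hpos.ne']
    have h16 := Finset.sum_le_sum (s := Finset.univ) (fun k _ => h13 k)
    refine le_trans ?_ h16
    rw [← Finset.mul_sum, Finset.sum_add_distrib, ← Finset.mul_sum, Finset.sum_sub_distrib,
      Finset.sum_const, Finset.card_univ, Fintype.card_fin, ← Finset.sum_div, nsmul_eq_mul,
      mul_comm ((N : ℝ) + 1)]
    apply mul_le_mul_of_nonneg_left _ (Real.rpow_nonneg hpos.le _)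
    push_cast
    have h17 : ((N : ℝ) + 1) ≤ (∑ k, ‖Z k - c'‖) / r := by
      rw [le_div_iff₀ hpos]
      exact h11
    nlinarith

end Pool.MP_c113aa_an.BV
end

section

set_option autoImplicit false

namespace Pool.MP_c113aa_an.BV

open Finset
/-- (B1) concentration.  Proof: by (E1) ∑ (r-1)^2/(1+r) (p-1)^2 <= ∑ (r^p - 1 - p(r-1))
<= p (m - ∑ r) <= p δ m <= 2 δ m; ∑ r <= m (sum_le_of_rpow); Cauchy-Schwarz
(∑|r-1|)^2 <= ∑(1+r) * ∑ (r-1)^2/(1+r) <= 2m * 2δm/(p-1)^2. -/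
theorem sum_abs_sub_one_le {m : ℕ} {p δ : ℝ} (hp1 : 1 < p) (hp2 : p ≤ 2) (hδ0 : 0 ≤ δ)
    (r : Fin m → ℝ) (hr : ∀ j, 0 ≤ r j) (h1 : ∑ j, r j ^ p ≤ m)
    (h2 : (1 - δ) * m ≤ ∑ j, r j) :
    ∑ j, |r j - 1| ≤ 2 * Real.sqrt δ / (p - 1) * m := by
  have hp0 : 0 < p - 1 := by linarith
  have hrs : ∑ j, r j ≤ m := sum_le_of_rpow hp1 hp2 r hr h1
  have hm0 : (0 : ℝ) ≤ m := Nat.cast_nonneg m
  have hA : ∑ j, (p - 1) ^ 2 * (r j - 1) ^ 2 / (1 + r j)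
      ≤ ∑ j, (r j ^ p - 1 - p * (r j - 1)) := by
    refine Finset.sum_le_sum (fun j _ => ?_)
    have := rpow_ge_quad hp1 hp2 (hr j)
    linarith
  have hB : ∑ j, (r j ^ p - 1 - p * (r j - 1)) = ∑ j, r j ^ p - m - p * (∑ j, r j - m) := by
    rw [Finset.sum_sub_distrib, Finset.sum_sub_distrib, ← Finset.mul_sum, Finset.sum_sub_distrib]
    simp
  have hD : ∑ j, (p - 1) ^ 2 * (r j - 1) ^ 2 / (1 + r j)
      = (p - 1) ^ 2 * ∑ j, (r j - 1) ^ 2 / (1 + r j) := by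
    rw [Finset.mul_sum]
    refine Finset.sum_congr rfl (fun j _ => ?_)
    ring
  have hE : (p - 1) ^ 2 * ∑ j, (r j - 1) ^ 2 / (1 + r j) ≤ 2 * δ * m := by
    rw [← hD]
    refine hA.trans ?_
    rw [hB]
    have h3 : (m : ℝ) - ∑ j, r j ≤ δ * m := by linarith
    have h4 : 0 ≤ (m : ℝ) - ∑ j, r j := by linarith
    have h5 : p * ((m : ℝ) - ∑ j, r j) ≤ 2 * (δ * m) := by
      calc p * ((m : ℝ) - ∑ j, r j) ≤ 2 * ((m : ℝ) - ∑ j, r j) :=
            mul_le_mul_of_nonneg_right hp2 h4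
        _ ≤ 2 * (δ * m) := by linarith
    linarith
  have hCS : (∑ j, |r j - 1|) ^ 2 ≤ (∑ j, (1 + r j)) * ∑ j, (r j - 1) ^ 2 / (1 + r j) := by
    refine Finset.sum_sq_le_sum_mul_sum_of_sq_le_mul _ (fun j _ => ?_) (fun j _ => ?_)
      (fun j _ => ?_)
    · have := hr j
      linarith
    · have := hr j
      positivity
    · have h1 : 1 + r j ≠ 0 := by
        have := hr j
        positivity
      rw [sq_abs]
      apply le_of_eq
      field_simp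
  have hF : ∑ j, (1 + r j) ≤ 2 * m := by
    rw [Finset.sum_add_distrib]
    simp
    linarith
  have hG0 : 0 ≤ ∑ j, (r j - 1) ^ 2 / (1 + r j) := by
    refine Finset.sum_nonneg (fun j _ => ?_)
    have := hr j
    positivity
  have hI : ∑ j, (r j - 1) ^ 2 / (1 + r j) ≤ 2 * δ * m / (p - 1) ^ 2 := by
    rw [le_div_iff₀ (by positivity)]
    linarith
  have hJ : (∑ j, |r j - 1|) ^ 2 ≤ (2 * Real.sqrt δ / (p - 1) * m) ^ 2 := by
    calc (∑ j, |r j - 1|) ^ 2 ≤ (∑ j, (1 + r j)) * ∑ j, (r j - 1) ^ 2 / (1 + r j) := hCS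
      _ ≤ (2 * m) * ∑ j, (r j - 1) ^ 2 / (1 + r j) := mul_le_mul_of_nonneg_right hF hG0
      _ ≤ (2 * m) * (2 * δ * m / (p - 1) ^ 2) :=
          mul_le_mul_of_nonneg_left hI (by positivity)
      _ = (2 * Real.sqrt δ / (p - 1) * m) ^ 2 := by
          rw [mul_pow, div_pow, mul_pow, Real.sq_sqrt hδ0]
          field_simp
  have hK : 0 ≤ 2 * Real.sqrt δ / (p - 1) * m := by positivity
  exact (abs_le_of_sq_le_sq' hJ hK).2

/-- (B2) in case B, |c| is small.  Proof: C = ‖c‖, W = ‖w_j‖ >= 1, x = ‖w_j - c‖, |W - x| <= C.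
(i) W - 1 <= (1+2C) x (1-1/W) + 2C|x-1|: if x >= 1/2, W - 1 = W(1-1/W) = x(1-1/W) + (W-x)(1-1/W)
and 1-1/W <= 2x(1-1/W); if x < 1/2, W - 1 <= x + C - 1 <= C <= 2C|x-1|.
(ii) W^2 - x^2 <= |W-x|(W+x) <= |W-x| (2 + (W-1) + |x-1|) <= (2+C)((W-1)+|x-1|) using
|W-x| <= (W-1)+|x-1| for the factor 2 and |W-x| <= C for the rest.  Sum over j:
∑ (W^2-x^2) <= (2+C)((1+2C) ε N + 2 C ε N + ε N) = (2+C)(2+4C) ε N.
(iii) W^2 - x^2 = 2 Re(conj c (w_j - c)) + C^2, and ‖∑ (w_j - c)‖ <= ε N by norm_sum_sub_le and h2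
(divide by N+1).  So N C^2 <= (2+C)(2+4C) ε N + 2 C ε N, i.e. C^2 <= (4 + 12 C + 4 C^2) ε.
(iv) with 0 <= ε <= 1/16 (ε >= 0 follows from h2): 4C^2 ε <= C^2/4, 12 C ε <= C^2/4 + 144 ε^2
<= C^2/4 + 9 ε, so C^2/2 <= 13 ε. -/
theorem norm_c_sq_le {p ε : ℝ} (hp1 : 1 < p) (hp2 : p ≤ 2) {N : ℕ} (hN : 1 ≤ N)
    {z w : Fin N → ℂ} {c : ℂ} (h : Cfg p N z w c) (hε : ε ≤ 1 / 16)
    (h1 : ∑ j, |‖w j - c‖ - 1| ≤ ε * N)
    (h2 : |‖c‖ - 1| + ∑ k, |‖z k - c‖ - 1| ≤ ε * (N + 1))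
    (h3 : ∑ j, ‖w j - c‖ * (1 - ‖(w j)⁻¹‖) ≤ ε * N) : ‖c‖ ^ 2 ≤ 27 * ε := by
  have hN0 : (0 : ℝ) < N := by exact_mod_cast hN
  have hC0 : 0 ≤ ‖c‖ := norm_nonneg c
  have hε0 : 0 ≤ ε := by
    have h4 : 0 ≤ |‖c‖ - 1| + ∑ k, |‖z k - c‖ - 1| :=
      add_nonneg (abs_nonneg _) (Finset.sum_nonneg (fun k _ => abs_nonneg _))
    have h5 : 0 ≤ ε * ((N : ℝ) + 1) := h4.trans h2
    exact nonneg_of_mul_nonneg_left h5 (by positivity)
  -- (i)
  have hi : ∀ j, ‖w j‖ - 1 ≤ (1 + 2 * ‖c‖) * (‖w j - c‖ * (1 - ‖(w j)⁻¹‖))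
      + 2 * ‖c‖ * |‖w j - c‖ - 1| := by
    intro j
    have hW := h.one_le j
    have hW0 : 0 < ‖w j‖ := lt_of_lt_of_le one_pos hW
    have hx0 : 0 ≤ ‖w j - c‖ := norm_nonneg _
    have hd : ‖w j‖ - ‖w j - c‖ ≤ ‖c‖ := by
      have := norm_sub_norm_le (w j) (w j - c)
      simpa using this
    have hu0 : 0 ≤ 1 - ‖(w j)⁻¹‖ := by
      have := h.norm_inv_le j
      linarith
    have hu1 : ‖w j‖ * (1 - ‖(w j)⁻¹‖) = ‖w j‖ - 1 := by
      rw [norm_inv]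
      field_simp
    rcases le_or_gt (1 / 2) ‖w j - c‖ with hx | hx
    · have ha : 0 ≤ 2 * ‖c‖ * |‖w j - c‖ - 1| := by positivity
      have hb : (‖w j‖ - ‖w j - c‖) * (1 - ‖(w j)⁻¹‖) ≤ ‖c‖ * (1 - ‖(w j)⁻¹‖) :=
        mul_le_mul_of_nonneg_right hd hu0
      have hc1 : 1 - ‖(w j)⁻¹‖ ≤ 2 * ‖w j - c‖ * (1 - ‖(w j)⁻¹‖) := by
        have := mul_le_mul_of_nonneg_right (show (1 : ℝ) ≤ 2 * ‖w j - c‖ by linarith) hu0
        linarith
      have hd1 : ‖c‖ * (1 - ‖(w j)⁻¹‖) ≤ ‖c‖ * (2 * ‖w j - c‖ * (1 - ‖(w j)⁻¹‖)) :=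
        mul_le_mul_of_nonneg_left hc1 hC0
      nlinarith [hu1, hb, hd1]
    · have ha : 0 ≤ (1 + 2 * ‖c‖) * (‖w j - c‖ * (1 - ‖(w j)⁻¹‖)) := by positivity
      have hb : 1 / 2 ≤ |‖w j - c‖ - 1| := by
        rw [abs_sub_comm]
        refine le_trans ?_ (le_abs_self _)
        linarith
      have hc1 : ‖c‖ * (1 / 2) ≤ ‖c‖ * |‖w j - c‖ - 1| := mul_le_mul_of_nonneg_left hb hC0
      linarith
  -- (ii)
  have hii : ∀ j, ‖w j‖ ^ 2 - ‖w j - c‖ ^ 2 ≤ (2 + ‖c‖) * ((‖w j‖ - 1) + |‖w j - c‖ - 1|) := by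
    intro j
    have hW := h.one_le j
    have hx0 : 0 ≤ ‖w j - c‖ := norm_nonneg _
    have hd : |‖w j‖ - ‖w j - c‖| ≤ ‖c‖ := by
      have := abs_norm_sub_norm_le (w j) (w j - c)
      simpa using this
    have hx1 : ‖w j - c‖ - 1 ≤ |‖w j - c‖ - 1| := le_abs_self _
    have hx2 : -(‖w j - c‖ - 1) ≤ |‖w j - c‖ - 1| := neg_le_abs _
    have hd2 : |‖w j‖ - ‖w j - c‖| ≤ (‖w j‖ - 1) + |‖w j - c‖ - 1| := by
      rw [abs_le]
      constructor <;> linarith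
    have hA0 : 0 ≤ |‖w j‖ - ‖w j - c‖| := abs_nonneg _
    have hE : 0 ≤ (‖w j‖ - 1) + |‖w j - c‖ - 1| := by positivity
    calc ‖w j‖ ^ 2 - ‖w j - c‖ ^ 2 = (‖w j‖ - ‖w j - c‖) * (‖w j‖ + ‖w j - c‖) := by ring
      _ ≤ |‖w j‖ - ‖w j - c‖| * (‖w j‖ + ‖w j - c‖) :=
          mul_le_mul_of_nonneg_right (le_abs_self _) (by positivity)
      _ ≤ |‖w j‖ - ‖w j - c‖| * (2 + ((‖w j‖ - 1) + |‖w j - c‖ - 1|)) :=
          mul_le_mul_of_nonneg_left (by linarith) hA0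
      _ = 2 * |‖w j‖ - ‖w j - c‖|
          + |‖w j‖ - ‖w j - c‖| * ((‖w j‖ - 1) + |‖w j - c‖ - 1|) := by ring
      _ ≤ 2 * ((‖w j‖ - 1) + |‖w j - c‖ - 1|)
          + ‖c‖ * ((‖w j‖ - 1) + |‖w j - c‖ - 1|) :=
          add_le_add (by linarith) (mul_le_mul_of_nonneg_right hd hE)
      _ = _ := by ring
  have hsum1 : ∑ j, (‖w j‖ - 1) ≤ (1 + 2 * ‖c‖) * (ε * N) + 2 * ‖c‖ * (ε * N) := by
    calc ∑ j, (‖w j‖ - 1) ≤ ∑ j, ((1 + 2 * ‖c‖) * (‖w j - c‖ * (1 - ‖(w j)⁻¹‖))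
          + 2 * ‖c‖ * |‖w j - c‖ - 1|) := Finset.sum_le_sum (fun j _ => hi j)
      _ = (1 + 2 * ‖c‖) * ∑ j, ‖w j - c‖ * (1 - ‖(w j)⁻¹‖)
          + 2 * ‖c‖ * ∑ j, |‖w j - c‖ - 1| := by
          rw [Finset.sum_add_distrib, ← Finset.mul_sum, ← Finset.mul_sum]
      _ ≤ _ := add_le_add (mul_le_mul_of_nonneg_left h3 (by positivity))
          (mul_le_mul_of_nonneg_left h1 (by positivity))
  have hsum2 : ∑ j, (‖w j‖ ^ 2 - ‖w j - c‖ ^ 2)
      ≤ (2 + ‖c‖) * ((1 + 2 * ‖c‖) * (ε * N) + 2 * ‖c‖ * (ε * N) + ε * N) := by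
    calc ∑ j, (‖w j‖ ^ 2 - ‖w j - c‖ ^ 2)
        ≤ ∑ j, (2 + ‖c‖) * ((‖w j‖ - 1) + |‖w j - c‖ - 1|) :=
          Finset.sum_le_sum (fun j _ => hii j)
      _ = (2 + ‖c‖) * (∑ j, (‖w j‖ - 1) + ∑ j, |‖w j - c‖ - 1|) := by
          rw [← Finset.mul_sum, Finset.sum_add_distrib]
      _ ≤ _ := mul_le_mul_of_nonneg_left (add_le_add hsum1 h1) (by positivity)
  -- (iii)
  have hSn : ‖∑ j, (w j - c)‖ ≤ ε * N := by
    have h4 := h.norm_sum_sub_le hp1 hp2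
    have h5 : (N : ℝ) * (|‖c‖ - 1| + ∑ k, |‖z k - c‖ - 1|) ≤ N * (ε * (N + 1)) :=
      mul_le_mul_of_nonneg_left h2 hN0.le
    have h6 : ((N : ℝ) + 1) * ‖∑ j, (w j - c)‖ ≤ ((N : ℝ) + 1) * (ε * N) := by
      calc ((N : ℝ) + 1) * ‖∑ j, (w j - c)‖ ≤ N * (ε * (N + 1)) := h4.trans h5
        _ = _ := by ring
    exact le_of_mul_le_mul_left h6 (by positivity)
  have hiii : ∀ j, ‖w j‖ ^ 2 - ‖w j - c‖ ^ 2
      = ‖c‖ ^ 2 + 2 * ((starRingEnd ℂ) c * (w j - c)).re := by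
    intro j
    simp only [← Complex.normSq_eq_norm_sq, Complex.normSq_apply, Complex.sub_re, Complex.sub_im,
      Complex.mul_re, Complex.conj_re, Complex.conj_im]
    ring
  have hsum3 : ∑ j, (‖w j‖ ^ 2 - ‖w j - c‖ ^ 2)
      = N * ‖c‖ ^ 2 + 2 * ((starRingEnd ℂ) c * ∑ j, (w j - c)).re := by
    rw [Finset.sum_congr rfl (fun j _ => hiii j), Finset.sum_add_distrib, ← Finset.mul_sum,
      ← Complex.re_sum, ← Finset.mul_sum]
    simp
  have hre : -(‖c‖ * (ε * N)) ≤ ((starRingEnd ℂ) c * ∑ j, (w j - c)).re := by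
    have h4 : |((starRingEnd ℂ) c * ∑ j, (w j - c)).re| ≤ ‖c‖ * (ε * N) := by
      refine (Complex.abs_re_le_norm _).trans ?_
      rw [norm_mul, Complex.norm_conj]
      exact mul_le_mul_of_nonneg_left hSn hC0
    exact (abs_le.mp h4).1
  have hmain : (N : ℝ) * ‖c‖ ^ 2 ≤ N * ((4 + 12 * ‖c‖ + 4 * ‖c‖ ^ 2) * ε) := by
    rw [hsum3] at hsum2
    have h5 : (2 + ‖c‖) * ((1 + 2 * ‖c‖) * (ε * N) + 2 * ‖c‖ * (ε * N) + ε * N)
        + 2 * (‖c‖ * (ε * N)) = N * ((4 + 12 * ‖c‖ + 4 * ‖c‖ ^ 2) * ε) := by ring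
    linarith
  have hfin : ‖c‖ ^ 2 ≤ (4 + 12 * ‖c‖ + 4 * ‖c‖ ^ 2) * ε := le_of_mul_le_mul_left hmain hN0
  have h5 : ‖c‖ ^ 2 * ε ≤ ‖c‖ ^ 2 * (1 / 16) := mul_le_mul_of_nonneg_left hε (by positivity)
  have h6 : ε * ε ≤ 1 / 16 * ε := mul_le_mul_of_nonneg_right hε hε0
  have h7 : 0 ≤ (‖c‖ / 2 - 12 * ε) ^ 2 := sq_nonneg _
  nlinarith [h5, h6, h7, hfin]

end Pool.MP_c113aa_an.BV
end

section

set_option autoImplicit false

namespace Pool.MP_c113aa_an.BV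

open Finset

variable {p : ℝ} {N : ℕ} {z w : Fin N → ℂ} {c : ℂ}

/-- The total gain. -/
noncomputable def GG (p : ℝ) {N : ℕ} (z : Fin N → ℂ) (c : ℂ) (ρ : ℝ) : ℝ :=
  gain p ρ ‖c‖ + ∑ k, gain p ρ ‖z k - c‖

/-- (3a) lower bound for V1.  Proof: a_j = c v_j, v_j = 1/w_j, ‖a_j‖ <= ‖c‖ <= 1/4,
‖1-a_j‖ = ‖w_j-c‖ ‖v_j‖ <= ‖w_j-c‖ (one_sub_div), so N >= ∑ ‖1-a_j‖^p (sumw_rpow)
>= N - p Re(c ∑ v_j) + ((p-1)^2/5) ‖c‖^2 ∑ ‖v_j‖^2 (E5, norm_one_sub_rpow_ge).  Hence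
‖c‖‖∑ v_j‖ >= Re(c ∑ v_j) >= ((p-1)^2/(5p)) ‖c‖^2 N/2 >= ((p-1)^2/20) N ‖c‖^2. -/
theorem Cfg.V1_lower (h : Cfg p N z w c) (hp1 : 1 < p) (hp2 : p ≤ 2) (hc : ‖c‖ ≤ 1 / 4)
    (hv : (N : ℝ) / 2 ≤ ∑ j, ‖(w j)⁻¹‖ ^ 2) :
    (p - 1) ^ 2 / 20 * N * ‖c‖ ^ 2 ≤ ‖c‖ * ‖∑ j, (w j)⁻¹‖ := by
  have hcn : 0 ≤ ‖c‖ := norm_nonneg c
  have hterm : ∀ j, 1 - p * (c * (w j)⁻¹).re + (p - 1) ^ 2 / 5 * (‖c‖ ^ 2 * ‖(w j)⁻¹‖ ^ 2)
      ≤ ‖w j - c‖ ^ p := by
    intro j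
    have hvn : ‖(w j)⁻¹‖ ≤ 1 := h.norm_inv_le j
    have ha : ‖c * (w j)⁻¹‖ ≤ 1 / 4 := by
      rw [norm_mul]
      calc ‖c‖ * ‖(w j)⁻¹‖ ≤ ‖c‖ * 1 := mul_le_mul_of_nonneg_left hvn hcn
        _ = ‖c‖ := mul_one _
        _ ≤ 1 / 4 := hc
    have h1 := norm_one_sub_rpow_ge hp1 hp2 (c * (w j)⁻¹) ha
    have h2 : ‖1 - c * (w j)⁻¹‖ ≤ ‖w j - c‖ := by
      rw [h.one_sub_div j]
      exact mul_le_of_le_one_right (norm_nonneg _) hvn
    have h3 : ‖1 - c * (w j)⁻¹‖ ^ p ≤ ‖w j - c‖ ^ p :=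
      Real.rpow_le_rpow (norm_nonneg _) h2 (by linarith)
    rw [norm_mul, mul_pow] at h1
    linarith
  have hsum := Finset.sum_le_sum (s := (Finset.univ : Finset (Fin N))) (fun j _ => hterm j)
  rw [Finset.sum_add_distrib, Finset.sum_sub_distrib, ← Finset.mul_sum, ← Finset.mul_sum,
    ← Finset.mul_sum] at hsum
  have hre : ∑ j, (c * (w j)⁻¹).re = (c * ∑ j, (w j)⁻¹).re := by
    rw [Finset.mul_sum, Complex.re_sum]
  have hcard : ∑ _j : Fin N, (1 : ℝ) = N := by simp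
  rw [hre, hcard] at hsum
  have hre2 : (c * ∑ j, (w j)⁻¹).re ≤ ‖c‖ * ‖∑ j, (w j)⁻¹‖ := by
    rw [← norm_mul]
    exact Complex.re_le_norm _
  have hre0 : 0 ≤ ‖c‖ * ‖∑ j, (w j)⁻¹‖ := mul_nonneg hcn (norm_nonneg _)
  have hN := h.sumw_rpow
  have hA : (p - 1) ^ 2 / 5 * (‖c‖ ^ 2 * ((N : ℝ) / 2))
      ≤ (p - 1) ^ 2 / 5 * (‖c‖ ^ 2 * ∑ j, ‖(w j)⁻¹‖ ^ 2) :=
    mul_le_mul_of_nonneg_left (mul_le_mul_of_nonneg_left hv (by positivity)) (by positivity)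
  have hB : p * (c * ∑ j, (w j)⁻¹).re ≤ 2 * (‖c‖ * ‖∑ j, (w j)⁻¹‖) := by
    calc p * (c * ∑ j, (w j)⁻¹).re ≤ p * (‖c‖ * ‖∑ j, (w j)⁻¹‖) :=
          mul_le_mul_of_nonneg_left hre2 (by linarith)
      _ ≤ 2 * (‖c‖ * ‖∑ j, (w j)⁻¹‖) := mul_le_mul_of_nonneg_right hp2 hre0
  have hC : (p - 1) ^ 2 / 5 * (‖c‖ ^ 2 * ((N : ℝ) / 2)) ≤ 2 * (‖c‖ * ‖∑ j, (w j)⁻¹‖) := by
    linarith
  have hD : (p - 1) ^ 2 / 20 * N * ‖c‖ ^ 2
      = ((p - 1) ^ 2 / 5 * (‖c‖ ^ 2 * ((N : ℝ) / 2))) / 2 := by ring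
  rw [hD]
  linarith

/-- (3b) the truncated logarithmic sum.  Proof: for every t >= 0, t^p = 1 + p log(max t ρ) + gain.
Sum over the N+1 distances and use sum_le:
p (log max(‖c‖,ρ) + ∑ log max(‖z_k-c‖,ρ)) + GG <= 0.  Now log max(‖c‖,ρ) >= log ρ; if ρ <= ‖z_k‖:
log max(‖z_k-c‖,ρ) >= log ‖z_k - c‖ = log ‖z_k‖ + log ‖1-c/z_k‖ (‖c‖ < ‖z_k‖, so z_k - c ≠ 0); if
‖z_k‖ < ρ: log max(..,ρ) >= log ρ >= log ‖z_k‖.  So the sum of logs is
>= log ρ + ∑ log ‖z_k‖ + log ‖∏_{ρ <= ‖z_k‖} (1-c/z_k)‖ and ∑ log‖z_k‖ = log (N+1) + ∑ log ‖w_j‖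
>= log (N+1) by h.prod. -/
theorem Cfg.log_ineq (h : Cfg p N z w c) (hp1 : 1 < p) {ρ : ℝ} (hρ : 0 < ρ)
    (hρ8 : ρ ≤ 1 / 8) (hc : 2 * ‖c‖ ≤ ρ) :
    p * (Real.log (((N : ℝ) + 1) * ρ)
      + Real.log ‖∏ k ∈ univ.filter (fun k => ρ ≤ ‖z k‖), (1 - c / z k)‖) + GG p z c ρ ≤ 0 := by
  have hρc : ‖c‖ ≤ ρ := by
    have := norm_nonneg c
    linarith
  -- the identity for the sums
  have hid : ∀ t : ℝ, t ^ p = 1 + p * Real.log (max t ρ) + gain p ρ t := by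
    intro t
    unfold gain
    ring
  have hsum : ‖c‖ ^ p + ∑ k, ‖z k - c‖ ^ p
      = ((N : ℝ) + 1) + p * (Real.log (max ‖c‖ ρ) + ∑ k, Real.log (max ‖z k - c‖ ρ))
        + GG p z c ρ := by
    have h1 : ∑ k, ‖z k - c‖ ^ p
        = (N : ℝ) + p * ∑ k, Real.log (max ‖z k - c‖ ρ) + ∑ k, gain p ρ ‖z k - c‖ := by
      rw [Finset.sum_congr rfl (fun k _ => hid ‖z k - c‖), Finset.sum_add_distrib,
        Finset.sum_add_distrib, Finset.mul_sum]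
      simp
    rw [h1, hid ‖c‖]
    unfold GG
    ring
  have hle := h.sum_le
  rw [hsum] at hle
  -- lower bound for the sum of logarithms
  have hlog0 : Real.log ρ ≤ Real.log (max ‖c‖ ρ) :=
    Real.log_le_log hρ (le_max_right _ _)
  have hterm : ∀ k, Real.log ‖z k‖ + (if ρ ≤ ‖z k‖ then Real.log ‖1 - c / z k‖ else 0)
      ≤ Real.log (max ‖z k - c‖ ρ) := by
    intro k
    have hzpos : 0 < ‖z k‖ := norm_pos_iff.mpr (h.z_ne k)
    split_ifs with hk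
    · have hne : z k - c ≠ 0 := by
        intro h0
        have h1 : z k = c := sub_eq_zero.mp h0
        rw [h1] at hk hzpos
        linarith
      have hpos : 0 < ‖z k - c‖ := norm_pos_iff.mpr hne
      have h2 : z k - c = z k * (1 - c / z k) := by
        have := h.z_ne k
        field_simp
      have h3 : 1 - c / z k ≠ 0 := by
        intro h0
        rw [h0, mul_zero] at h2
        exact hne h2
      have h4 : Real.log ‖z k‖ + Real.log ‖1 - c / z k‖ = Real.log ‖z k - c‖ := by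
        rw [h2, norm_mul, Real.log_mul hzpos.ne' (norm_ne_zero_iff.mpr h3)]
      rw [h4]
      exact Real.log_le_log hpos (le_max_left _ _)
    · rw [add_zero]
      exact Real.log_le_log hzpos ((not_le.mp hk).le.trans (le_max_right _ _))
  have hsum2 := Finset.sum_le_sum (s := (Finset.univ : Finset (Fin N))) (fun k _ => hterm k)
  rw [Finset.sum_add_distrib] at hsum2
  have hprodne : ∀ k ∈ univ.filter (fun k => ρ ≤ ‖z k‖), ‖1 - c / z k‖ ≠ 0 := by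
    intro k hk
    have hk' : ρ ≤ ‖z k‖ := by simpa using hk
    rw [norm_ne_zero_iff]
    intro h0
    have hz := h.z_ne k
    have h1 : z k = c := by
      have h2 : c / z k = 1 := (sub_eq_zero.mp h0).symm
      rw [div_eq_one_iff_eq hz] at h2
      exact h2.symm
    have hzpos : 0 < ‖z k‖ := norm_pos_iff.mpr hz
    rw [h1] at hk' hzpos
    linarith
  have hlog1 : ∑ k, (if ρ ≤ ‖z k‖ then Real.log ‖1 - c / z k‖ else 0)
      = Real.log ‖∏ k ∈ univ.filter (fun k => ρ ≤ ‖z k‖), (1 - c / z k)‖ := by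
    rw [norm_prod, Real.log_prod hprodne, Finset.sum_filter]
  have hlog2 : Real.log ((N : ℝ) + 1) ≤ ∑ k, Real.log ‖z k‖ := by
    rw [← Real.log_prod (fun k _ => norm_ne_zero_iff.mpr (h.z_ne k)), h.prod]
    have hN : (0 : ℝ) < (N : ℝ) + 1 := by positivity
    exact Real.log_le_log hN (le_mul_of_one_le_right hN.le h.one_le_prod)
  have hlog3 : Real.log (((N : ℝ) + 1) * ρ) = Real.log ((N : ℝ) + 1) + Real.log ρ := by
    rw [Real.log_mul (by positivity) hρ.ne']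
  rw [hlog1] at hsum2
  have hfin : Real.log (((N : ℝ) + 1) * ρ)
      + Real.log ‖∏ k ∈ univ.filter (fun k => ρ ≤ ‖z k‖), (1 - c / z k)‖
      ≤ Real.log (max ‖c‖ ρ) + ∑ k, Real.log (max ‖z k - c‖ ρ) := by
    rw [hlog3]
    linarith
  have hp0 : 0 ≤ p := by linarith
  have hmul := mul_le_mul_of_nonneg_left hfin hp0
  linarith

end Pool.MP_c113aa_an.BV
end

section

set_option autoImplicit false

namespace Pool.MP_c113aa_an.BV

open Finset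
/-- Case B.  Proof: ε := min (1/16) (κ^2/27), δ := min ((ε (p-1)/2)^2) ε (so δ <= 1/16 and
2 sqrt δ/(p-1) <= ε).  a_j = c/w_j, ‖1-a_j‖ = x_j ‖v_j‖ <= x_j (one_sub_div), so
∑ x_j >= (1-δ) N, and by sumw_le the sum of all N+1 t is >= (N+1)/N ∑ x_j >= (1-δ)(N+1).
sum_abs_sub_one_le for x_j (sumw_rpow) and for the family Fin.cons ‖c‖ (‖z_k - c‖) on Fin (N+1)
(sum_le) gives h1, h2 of norm_c_sq_le; h3: ∑ x_j (1-‖v_j‖) = ∑ x_j - ∑ ‖1-a_j‖ <= N - (1-δ)N = δ N.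
So ‖c‖^2 <= 27 ε <= κ^2.  Second claim: x_j ‖v_j‖ <= ‖v_j‖ + |x_j - 1| (‖v_j‖ <= 1), so
∑ ‖v_j‖ >= (1-δ-ε) N >= (7/8) N and by Cauchy-Schwarz ∑ ‖v_j‖^2 >= (49/64) N >= N/2. -/
theorem caseB {p κ : ℝ} (hp1 : 1 < p) (hp2 : p ≤ 2) (hκ : 0 < κ) :
    ∃ δ : ℝ, 0 < δ ∧ δ < 1 ∧ ∀ N : ℕ, 1 ≤ N → ∀ (z w : Fin N → ℂ) (c : ℂ), Cfg p N z w c →
      (1 - δ) * N < ∑ j, ‖1 - c * (w j)⁻¹‖ →
      ‖c‖ ≤ κ ∧ (N : ℝ) / 2 ≤ ∑ j, ‖(w j)⁻¹‖ ^ 2 := by
  have hp0 : 0 < p - 1 := by linarith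
  set ε : ℝ := min (1 / 16) (κ ^ 2 / 27) with hεdef
  have hε0 : 0 < ε := lt_min (by norm_num) (by positivity)
  have hε1 : ε ≤ 1 / 16 := min_le_left _ _
  have hε2 : ε ≤ κ ^ 2 / 27 := min_le_right _ _
  set δ : ℝ := min ((ε * (p - 1) / 2) ^ 2) ε with hδdef
  have hδ0 : 0 < δ := lt_min (by positivity) hε0
  have hδ1 : δ ≤ (ε * (p - 1) / 2) ^ 2 := min_le_left _ _
  have hδ2 : δ ≤ ε := min_le_right _ _
  have hδs : 2 * Real.sqrt δ / (p - 1) ≤ ε := by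
    have h1 : Real.sqrt δ ≤ ε * (p - 1) / 2 := by
      rw [← Real.sqrt_sq (show 0 ≤ ε * (p - 1) / 2 by positivity)]
      exact Real.sqrt_le_sqrt hδ1
    rw [div_le_iff₀ hp0]
    linarith
  refine ⟨δ, hδ0, by linarith, ?_⟩
  intro N hN z w c h hs
  have hN0 : (0 : ℝ) < N := by exact_mod_cast hN
  have hterm : ∀ j, ‖1 - c * (w j)⁻¹‖ = ‖w j - c‖ * ‖(w j)⁻¹‖ := h.one_sub_div
  have hsx : ∑ j, ‖1 - c * (w j)⁻¹‖ ≤ ∑ j, ‖w j - c‖ := by
    refine Finset.sum_le_sum (fun j _ => ?_)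
    rw [hterm j]
    exact mul_le_of_le_one_right (norm_nonneg _) (h.norm_inv_le j)
  have hx1 : (1 - δ) * N ≤ ∑ j, ‖w j - c‖ := hs.le.trans hsx
  have hx2 := h.sum_x_le hp1 hp2
  have h1 : ∑ j, |‖w j - c‖ - 1| ≤ ε * N :=
    (sum_abs_sub_one_le hp1 hp2 hδ0.le (fun j => ‖w j - c‖) (fun j => norm_nonneg _)
      h.sumw_rpow hx1).trans (mul_le_mul_of_nonneg_right hδs hN0.le)
  have hT : (1 - δ) * ((N : ℝ) + 1) ≤ ‖c‖ + ∑ k, ‖z k - c‖ := by
    have h4 := h.sumw_le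
    have h5 : ((N : ℝ) + 1) * ((1 - δ) * N) ≤ ((N : ℝ) + 1) * ∑ j, ‖w j - c‖ :=
      mul_le_mul_of_nonneg_left hx1 (by positivity)
    have h6 : (N : ℝ) * ((1 - δ) * ((N : ℝ) + 1)) ≤ N * (‖c‖ + ∑ k, ‖z k - c‖) := by
      calc (N : ℝ) * ((1 - δ) * ((N : ℝ) + 1)) = ((N : ℝ) + 1) * ((1 - δ) * N) := by ring
        _ ≤ _ := h5.trans h4
    exact le_of_mul_le_mul_left h6 hN0
  have h2 : |‖c‖ - 1| + ∑ k, |‖z k - c‖ - 1| ≤ ε * (N + 1) := by
    have h4 := sum_abs_sub_one_le (m := N + 1) hp1 hp2 hδ0.le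
      (Fin.cons ‖c‖ (fun k => ‖z k - c‖) : Fin (N + 1) → ℝ) ?_ ?_ ?_
    · rw [Fin.sum_univ_succ] at h4
      simp only [Fin.cons_zero, Fin.cons_succ] at h4
      push_cast at h4
      exact h4.trans (mul_le_mul_of_nonneg_right hδs (by positivity))
    · intro j
      refine Fin.cases ?_ (fun k => ?_) j
      · simp
      · simp
    · rw [Fin.sum_univ_succ]
      simp only [Fin.cons_zero, Fin.cons_succ]
      push_cast
      exact h.sum_le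
    · rw [Fin.sum_univ_succ]
      simp only [Fin.cons_zero, Fin.cons_succ]
      push_cast
      exact hT
  have h3 : ∑ j, ‖w j - c‖ * (1 - ‖(w j)⁻¹‖) ≤ ε * N := by
    have h4 : ∑ j, ‖w j - c‖ * (1 - ‖(w j)⁻¹‖)
        = ∑ j, ‖w j - c‖ - ∑ j, ‖1 - c * (w j)⁻¹‖ := by
      rw [← Finset.sum_sub_distrib]
      refine Finset.sum_congr rfl (fun j _ => ?_)
      rw [hterm j]
      ring
    rw [h4]
    have h5 : δ * N ≤ ε * N := mul_le_mul_of_nonneg_right hδ2 hN0.le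
    linarith
  have hc2 := norm_c_sq_le hp1 hp2 hN h hε1 h1 h2 h3
  constructor
  · have h4 : ‖c‖ ^ 2 ≤ κ ^ 2 := by linarith
    exact (abs_le_of_sq_le_sq' h4 hκ.le).2
  · have h4 : ∑ j, ‖1 - c * (w j)⁻¹‖ ≤ ∑ j, (‖(w j)⁻¹‖ + |‖w j - c‖ - 1|) := by
      refine Finset.sum_le_sum (fun j _ => ?_)
      rw [hterm j]
      have h5 : (‖w j - c‖ - 1) * ‖(w j)⁻¹‖ ≤ |‖w j - c‖ - 1| * 1 :=
        mul_le_mul (le_abs_self _) (h.norm_inv_le j) (norm_nonneg _) (abs_nonneg _)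
      linarith
    rw [Finset.sum_add_distrib] at h4
    have h6 : 7 / 8 * (N : ℝ) ≤ ∑ j, ‖(w j)⁻¹‖ := by
      have h7 : δ * N ≤ 1 / 16 * N := mul_le_mul_of_nonneg_right (hδ2.trans hε1) hN0.le
      have h8 : ε * N ≤ 1 / 16 * N := mul_le_mul_of_nonneg_right hε1 hN0.le
      linarith
    have h7 : (∑ j, ‖(w j)⁻¹‖) ^ 2 ≤ N * ∑ j, ‖(w j)⁻¹‖ ^ 2 := by
      have := sq_sum_le_card_mul_sum_sq (s := (Finset.univ : Finset (Fin N)))
        (f := fun j => ‖(w j)⁻¹‖)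
      simpa using this
    have h8 : (7 / 8 * (N : ℝ)) ^ 2 ≤ (∑ j, ‖(w j)⁻¹‖) ^ 2 :=
      pow_le_pow_left₀ (by positivity) h6 2
    have h9 : (N : ℝ) * (49 / 64 * N) ≤ N * ∑ j, ‖(w j)⁻¹‖ ^ 2 := by
      calc (N : ℝ) * (49 / 64 * N) = (7 / 8 * (N : ℝ)) ^ 2 := by ring
        _ ≤ _ := h8.trans h7
    have h10 := le_of_mul_le_mul_left h9 hN0
    linarith

end Pool.MP_c113aa_an.BV
end

section

set_option autoImplicit false

namespace Pool.MP_c113aa_an.BV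

open Finset

variable {p : ℝ} {N : ℕ} {z w : Fin N → ℂ} {c : ℂ}

/-- derivative of a product of linear factors -/
theorem Y2_hasDerivAt_prod (s : Finset (Fin N)) (z : Fin N → ℂ) (x : ℂ) :
    HasDerivAt (fun y : ℂ => ∏ k ∈ s, (1 - y / z k))
      (∑ k ∈ s, (∏ l ∈ s.erase k, (1 - x / z l)) * (-(1 / z k))) x := by
  have h1 : ∀ k ∈ s, HasDerivAt (fun y : ℂ => 1 - y / z k) (-(1 / z k)) x := by
    intro k _
    have := ((hasDerivAt_id x).div_const (z k)).const_sub 1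
    simpa using this
  have := HasDerivAt.fun_finsetProd (u := s) (f := fun k (y : ℂ) => 1 - y / z k)
    (f' := fun k => -(1 / z k)) h1
  simpa [smul_eq_mul] using this

/-- (Y2) bound for f'/E on the disk of radius R/2.  Proof: s = {k : ‖z_k‖ < R}, ν = card s,
B(x) = ∏_s (1-x/z_k), E(x) = ∏_{R <= ‖z_k‖} (1-x/z_k), f = x B E.  By uniqueness of the derivative
(h.der x): f'(x) = E(x) * [ B(x) + x B'(x) + x B(x) ∑_{R<=‖z_k‖} 1/(x - z_k) ], where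
B'(x) = ∑_{k∈s} (-1/z_k) ∏_{l∈s, l≠k} (1-x/z_l).  For ‖x‖ <= R/2 and k in s: ‖1-x/z_k‖ <= 1+R/(2‖z_k‖)
<= (3/2) R/‖z_k‖ and ‖x/z_k‖ <= (3/2) R/‖z_k‖; put Π = ∏_s (3/2)(R/‖z_k‖) (= exp(ν log(3/2) + S)).
So ‖B‖ <= Π, ‖x B'‖ <= ν Π, and ‖x B ∑ 1/(x-z_k)‖ <= (R/2) Π N (2/R) = N Π (‖x - z_k‖ >= R/2).
Total <= (1 + ν + N) Π ‖E‖ <= 2(N+1) Π ‖E‖. -/
theorem Cfg.norm_Q_le (h : Cfg p N z w c) {R : ℝ} (hR : 0 < R) (hR1 : R ≤ 1) (x : ℂ)
    (hx : ‖x‖ ≤ R / 2) :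
    ‖∏ j, (1 - x * (w j)⁻¹)‖
      ≤ Real.exp (Real.log (2 * ((N : ℝ) + 1))
          + (univ.filter (fun k => ‖z k‖ < R)).card * Real.log (3 / 2)
          + ∑ k ∈ univ.filter (fun k => ‖z k‖ < R), Real.log (R / ‖z k‖))
        * ‖∏ k ∈ univ.filter (fun k => R ≤ ‖z k‖), (1 - x / z k)‖ := by
  set s := univ.filter (fun k => ‖z k‖ < R) with hs
  set t := univ.filter (fun k => R ≤ ‖z k‖) with ht
  have hzpos : ∀ k, 0 < ‖z k‖ := fun k => norm_pos_iff.mpr (h.z_ne k)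
  have hsplit : ∀ y : ℂ, ∏ k, (1 - y / z k) = (∏ k ∈ s, (1 - y / z k)) * ∏ k ∈ t, (1 - y / z k) := by
    intro y
    have := Finset.prod_filter_mul_prod_filter_not (univ : Finset (Fin N)) (fun k => ‖z k‖ < R)
      (fun k => 1 - y / z k)
    rw [← this]
    congr 1
    simp only [ht, not_lt]
  set B := ∏ k ∈ s, (1 - x / z k) with hB
  set E := ∏ k ∈ t, (1 - x / z k) with hE
  set B' := ∑ k ∈ s, (∏ l ∈ s.erase k, (1 - x / z l)) * (-(1 / z k)) with hB'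
  set E' := ∑ k ∈ t, (∏ l ∈ t.erase k, (1 - x / z l)) * (-(1 / z k)) with hE'
  have hd1 := Y2_hasDerivAt_prod s z x
  have hd2 := Y2_hasDerivAt_prod t z x
  have hd : HasDerivAt (fun y : ℂ => y * ∏ k, (1 - y / z k))
      (1 * (B * E) + x * (B' * E + B * E')) x := by
    have h3 := (hasDerivAt_id x).mul (hd1.mul hd2)
    refine h3.congr_of_eventuallyEq ?_
    filter_upwards with y
    simp [hsplit y]
  have hval : ∏ j, (1 - x * (w j)⁻¹) = B * E + x * B' * E + x * B * E' := by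
    have h4 := (h.der x).unique hd
    simp only [← div_eq_mul_inv]
    rw [h4]; ring
  -- bounds
  set P := ∏ k ∈ s, (3 / 2 * (R / ‖z k‖)) with hP
  have hPnn : 0 ≤ P := Finset.prod_nonneg fun k _ => by positivity
  have hRz : ∀ k ∈ s, 1 ≤ R / ‖z k‖ := by
    intro k hk
    rw [one_le_div (hzpos k)]
    exact (Finset.mem_filter.mp hk).2.le
  have hfac : ∀ k ∈ s, ‖1 - x / z k‖ ≤ 3 / 2 * (R / ‖z k‖) := by
    intro k hk
    have h1 := hRz k hk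
    have h2 : ‖x / z k‖ ≤ 1 / 2 * (R / ‖z k‖) := by
      rw [norm_div]
      calc ‖x‖ / ‖z k‖ ≤ (R / 2) / ‖z k‖ := div_le_div_of_nonneg_right hx (hzpos k).le
        _ = 1 / 2 * (R / ‖z k‖) := by ring
    have h3 : ‖1 - x / z k‖ ≤ 1 + ‖x / z k‖ := by
      have := norm_sub_le (1 : ℂ) (x / z k)
      simpa using this
    linarith
  have hfac2 : ∀ k ∈ s, ‖x * (-(1 / z k))‖ ≤ 3 / 2 * (R / ‖z k‖) := by
    intro k hk
    have h1 := hRz k hk
    have h2 : ‖x * (-(1 / z k))‖ = ‖x‖ / ‖z k‖ := by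
      rw [norm_mul, norm_neg, norm_div, norm_one]; ring
    rw [h2]
    have h3 : ‖x‖ / ‖z k‖ ≤ (R / 2) / ‖z k‖ := div_le_div_of_nonneg_right hx (hzpos k).le
    have h4 : (R / 2) / ‖z k‖ = 1 / 2 * (R / ‖z k‖) := by ring
    linarith
  have hBle : ‖B‖ ≤ P := by
    rw [hB, norm_prod]
    exact Finset.prod_le_prod (fun k _ => norm_nonneg _) hfac
  have hxB' : ‖x * B'‖ ≤ s.card * P := by
    rw [hB', Finset.mul_sum]
    refine (norm_sum_le _ _).trans ?_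
    have : ∀ k ∈ s, ‖x * ((∏ l ∈ s.erase k, (1 - x / z l)) * (-(1 / z k)))‖ ≤ P := by
      intro k hk
      have e : x * ((∏ l ∈ s.erase k, (1 - x / z l)) * (-(1 / z k)))
          = (x * (-(1 / z k))) * ∏ l ∈ s.erase k, (1 - x / z l) := by ring
      rw [e, norm_mul, norm_prod, hP, ← Finset.mul_prod_erase s _ hk]
      refine mul_le_mul (hfac2 k hk) ?_ (Finset.prod_nonneg fun _ _ => norm_nonneg _) (by positivity)
      exact Finset.prod_le_prod (fun l _ => norm_nonneg _)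
        (fun l hl => hfac l (Finset.mem_of_mem_erase hl))
    calc ∑ k ∈ s, ‖x * ((∏ l ∈ s.erase k, (1 - x / z l)) * (-(1 / z k)))‖ ≤ ∑ _k ∈ s, P :=
          Finset.sum_le_sum this
      _ = s.card * P := by simp
  have hxR : ∀ k ∈ t, R / 2 ≤ ‖z k - x‖ := by
    intro k hk
    have h1 : R ≤ ‖z k‖ := (Finset.mem_filter.mp hk).2
    have h2 := norm_sub_norm_le (z k) x
    linarith
  have hE'le : ‖E'‖ ≤ N * (2 / R) * ‖E‖ := by
    have e1 : ∀ k ∈ t, (∏ l ∈ t.erase k, (1 - x / z l)) * (-(1 / z k)) = -(E / (z k - x)) := by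
      intro k hk
      have hne : z k - x ≠ 0 := by
        intro h0
        have := hxR k hk
        rw [h0, norm_zero] at this
        linarith
      have hz := h.z_ne k
      rw [hE, ← Finset.mul_prod_erase t _ hk]
      have e2 : 1 - x / z k = (z k - x) / z k := by field_simp
      rw [e2]
      field_simp
    rw [hE', Finset.sum_congr rfl e1]
    refine (norm_sum_le _ _).trans ?_
    have : ∀ k ∈ t, ‖-(E / (z k - x))‖ ≤ (2 / R) * ‖E‖ := by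
      intro k hk
      rw [norm_neg, norm_div]
      have h1 := hxR k hk
      calc ‖E‖ / ‖z k - x‖ ≤ ‖E‖ / (R / 2) :=
            div_le_div_of_nonneg_left (norm_nonneg _) (by linarith) h1
        _ = (2 / R) * ‖E‖ := by field_simp
    calc ∑ k ∈ t, ‖-(E / (z k - x))‖ ≤ ∑ _k ∈ t, (2 / R) * ‖E‖ := Finset.sum_le_sum this
      _ = t.card * ((2 / R) * ‖E‖) := by simp
      _ ≤ N * ((2 / R) * ‖E‖) := by
          refine mul_le_mul_of_nonneg_right ?_ (by positivity)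
          have := Finset.card_filter_le (univ : Finset (Fin N)) (fun k => R ≤ ‖z k‖)
          rw [Finset.card_univ, Fintype.card_fin] at this
          exact_mod_cast this
      _ = N * (2 / R) * ‖E‖ := by ring
  have hscard : (s.card : ℝ) ≤ N := by
    have := Finset.card_filter_le (univ : Finset (Fin N)) (fun k => ‖z k‖ < R)
    rw [Finset.card_univ, Fintype.card_fin] at this
    exact_mod_cast this
  have htot : ‖B * E + x * B' * E + x * B * E'‖ ≤ 2 * ((N : ℝ) + 1) * P * ‖E‖ := by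
    have a1 : ‖B * E‖ ≤ P * ‖E‖ := by
      rw [norm_mul]; exact mul_le_mul_of_nonneg_right hBle (norm_nonneg _)
    have a2 : ‖x * B' * E‖ ≤ N * P * ‖E‖ := by
      rw [norm_mul]
      refine mul_le_mul_of_nonneg_right (hxB'.trans ?_) (norm_nonneg _)
      exact mul_le_mul_of_nonneg_right hscard hPnn
    have a3 : ‖x * B * E'‖ ≤ N * P * ‖E‖ := by
      rw [norm_mul, norm_mul]
      calc ‖x‖ * ‖B‖ * ‖E'‖ ≤ (R / 2 * P) * (N * (2 / R) * ‖E‖) :=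
            mul_le_mul (mul_le_mul hx hBle (norm_nonneg _) (by positivity)) hE'le
              (norm_nonneg _) (by positivity)
        _ = N * P * ‖E‖ := by field_simp
    have a4 := norm_add₃_le (a := B * E) (b := x * B' * E) (c := x * B * E')
    have a5 : 0 ≤ P * ‖E‖ := by positivity
    nlinarith
  have hexp : Real.exp (Real.log (2 * ((N : ℝ) + 1)) + (s.card : ℝ) * Real.log (3 / 2)
      + ∑ k ∈ s, Real.log (R / ‖z k‖)) = 2 * ((N : ℝ) + 1) * P := by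
    rw [Real.exp_add, Real.exp_add, Real.exp_log (by positivity), Real.exp_sum, hP,
      Finset.prod_mul_distrib, Finset.prod_const, mul_assoc]
    congr 2
    · rw [mul_comm, Real.exp_mul, Real.exp_log (by norm_num), Real.rpow_natCast]
    · refine Finset.prod_congr rfl fun k _ => ?_
      rw [Real.exp_log (div_pos hR (hzpos k))]
  rw [hval, hexp]
  exact htot

end Pool.MP_c113aa_an.BV
end

section

set_option autoImplicit false

namespace Pool.MP_c113aa_an.BV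

open Finset
/-- (O3) the maximum principle: the function 1 - L f/P is analytic on ‖x‖ < 1 (P ≠ 0 there) and
equals 1 at the origin (f 0 = 0); apply Complex.norm_le_of_forall_mem_frontier_norm_le on the ball
of radius r. -/
theorem not_small_on_circle {N : ℕ} (v : Fin N → ℂ) (hv : ∀ j, ‖v j‖ ≤ 1) (f : ℂ → ℂ)
    (hf : ∀ x : ℂ, HasDerivAt f (∏ j, (1 - x * v j)) x) (hf0 : f 0 = 0) {r : ℝ} (hr : 0 < r)
    (hr1 : r ≤ 1 / 4)
    (h : ∀ x : ℂ, ‖x‖ = r → ‖1 - LL v x * f x / ∏ j, (1 - x * v j)‖ ≤ 1 / 2) : False := by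
  have hd : DiffContOnCl ℂ (fun x : ℂ => 1 - LL v x * f x / ∏ j, (1 - x * v j))
      (Metric.ball (0 : ℂ) r) := by
    apply DifferentiableOn.diffContOnCl
    rw [closure_ball (0 : ℂ) hr.ne']
    intro x hx
    rw [Metric.mem_closedBall, dist_zero_right] at hx
    have hx4 : ‖x‖ ≤ 1 / 4 := hx.trans hr1
    obtain ⟨D, hD, -⟩ := hasDerivAt_LL v hv x hx4
    have hP := hasDerivAt_prod v hv x (by linarith)
    have hP0 : ∏ j, (1 - x * v j) ≠ 0 := by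
      refine Finset.prod_ne_zero_iff.2 fun j _ h0 => ?_
      have h2 := one_sub_norm_ge (hv j) hx4
      rw [h0, norm_zero] at h2
      norm_num at h2
    exact (((hD.differentiableAt.mul (hf x).differentiableAt).div hP.differentiableAt
      hP0).const_sub 1).differentiableWithinAt
  have h1 := Complex.norm_le_of_forall_mem_frontier_norm_le Metric.isBounded_ball hd
    (C := 1 / 2) (fun z hz => by
      rw [frontier_ball (0 : ℂ) hr.ne', mem_sphere_zero_iff_norm] at hz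
      exact h z hz) (z := 0) (subset_closure (Metric.mem_ball_self hr))
  simp only [hf0, mul_zero, zero_div, sub_zero, norm_one] at h1
  norm_num at h1

end Pool.MP_c113aa_an.BV
end
end
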